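import Mathlib
import Pool.Agent.Lib.MP_90b327_co.Interface

/-!
Definitions for Theorem R (rectangular boxes), MP_90b327_co. Text: /team-store/PHJ_R.md
-/

set_option autoImplicit false

namespace Pool.Agent.Lib.MP_90b327_co.RB

open Finset MeasureTheory

/-! ### finite families and the limit functional -/

/-- the box of two sets of vertices, as a set of cells of `[N]^2` -/
def bx {N : ℕ} (γ₁ γ₂ : Finset (Fin N)) : Finset (Fin 2 → Fin N) :=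
  Finset.univ.filter (fun c => c 0 ∈ γ₁ ∧ c 1 ∈ γ₂)

/-- `S` contains `A` and `A ∪ γ₁ × γ₂` (box disjoint from `A`) with allowed sizes -/
def GoodR (Sg : ℕ → ℕ → Prop) (N : ℕ) (S : Finset (Finset (Fin 2 → Fin N))) : Prop :=
  ∃ A ∈ S, ∃ γ₁ γ₂ : Finset (Fin N), Sg γ₁.card γ₂.card ∧ Disjoint A (bx γ₁ γ₂) ∧ A ∪ bx γ₁ γ₂ ∈ S

/-- limiting pair correlations; same fields as `LimFun 2 δ` except the last one -/
structure RLim (Sg : ℕ → ℕ → Prop) (δ : ℝ) where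
  G : (K : ℕ) → Pat 2 K → Pat 2 K → ℝ
  symm : ∀ K X Y, G K X Y = G K Y X
  nonneg : ∀ K X Y, 0 ≤ G K X Y
  diag : ∀ K X, G K X X = δ
  ext : ∀ (K K' : ℕ) (ι : Fin K → Fin K'), Function.Injective ι → ∀ X Y : Pat 2 K',
    (∀ c : Fin 2 → Fin K', (¬ ∃ c' : Fin 2 → Fin K, c = ι ∘ c') → X c = Y c) →
      G K' X Y = G K (fun c => X (ι ∘ c)) (fun c => Y (ι ∘ c))
  psd : ∀ (K n : ℕ) (X : Fin n → Pat 2 K) (a : Fin n → ℝ) (a₀ : ℝ),
    0 ≤ a₀ ^ 2 + 2 * a₀ * (∑ i, a i) * δ + ∑ i, ∑ j, a i * a j * G K (X i) (X j)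
  bad : ∀ (K : ℕ) (X Y : Pat 2 K) (γ₁ γ₂ : Finset (Fin K)), Sg γ₁.card γ₂.card →
    (∀ c : Fin 2 → Fin K, c 0 ∈ γ₁ → c 1 ∈ γ₂ → X c = false) →
    (∀ c : Fin 2 → Fin K, c 0 ∈ γ₁ → c 1 ∈ γ₂ → Y c = true) →
    (∀ c : Fin 2 → Fin K, ¬ (c 0 ∈ γ₁ ∧ c 1 ∈ γ₂) → Y c = X c) → G K X Y = 0

/-! ### kernels on finite patterns -/

/-- finite patterns on rows × columns -/
abbrev Pt : Type := Finset (ℕ × ℕ)

/-- relabelling of rows and columns -/
def rl (σ τ : ℕ → ℕ) (X : Pt) : Pt := X.image (fun c => (σ c.1, τ c.2))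

/-- the limit kernel on finite patterns -/
structure PKer (Sg : ℕ → ℕ → Prop) (D : ℝ) (g : Pt → Pt → ℝ) : Prop where
  symm : ∀ X Y, g X Y = g Y X
  diag : ∀ X, g X X = D
  psd : ∀ (ι : Type) [Fintype ι] (X : ι → Pt) (a : ι → ℝ),
    D ^ 2 * (∑ i, a i) ^ 2 ≤ ∑ i, ∑ j, a i * a j * g (X i) (X j)
  inv : ∀ σ τ : ℕ → ℕ, Function.Injective σ → Function.Injective τ → ∀ X Y,
    g (rl σ τ X) (rl σ τ Y) = g X Y
  row : ∀ (X Y : Pt) (i : ℕ), (∀ j, (i, j) ∈ X ↔ (i, j) ∈ Y) →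
    g X Y = g (X.filter (fun c => c.1 ≠ i)) (Y.filter (fun c => c.1 ≠ i))
  col : ∀ (X Y : Pt) (j : ℕ), (∀ i, (i, j) ∈ X ↔ (i, j) ∈ Y) →
    g X Y = g (X.filter (fun c => c.2 ≠ j)) (Y.filter (fun c => c.2 ≠ j))
  bad : ∀ (X : Pt) (I J : Finset ℕ), Sg I.card J.card → Disjoint X (I ×ˢ J) →
    g X (X ∪ I ×ˢ J) = 0

/-- positive definite kernels -/
def PosK {𝒳 : Type} (k : 𝒳 → 𝒳 → ℂ) : Prop :=
  ∀ (ι : Type) [Fintype ι] (X : ι → 𝒳) (c : ι → ℂ),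
    0 ≤ (∑ i, ∑ j, (starRingEnd ℂ) (c i) * c j * k (X i) (X j)).re

/-- normalised positive definite kernels which are constant on related pairs -/
structure Ker {𝒳 : Type} (R : 𝒳 → 𝒳 → 𝒳 → 𝒳 → Prop) (k : 𝒳 → 𝒳 → ℂ) : Prop where
  one : ∀ X, k X X = 1
  herm : ∀ X Y, k Y X = (starRingEnd ℂ) (k X Y)
  psd : PosK k
  rel : ∀ X Y X' Y', R X Y X' Y' → k X Y = k X' Y'

/-- merging data: a merging operation compatible with the relation -/
structure Mrg {𝒳 : Type} (m : 𝒳 → 𝒳 → 𝒳) (R : 𝒳 → 𝒳 → 𝒳 → 𝒳 → Prop) : Prop where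
  rel : ∀ X Y X' Y' A B, R X Y X' Y' → R (m X A) (m Y B) (m X' A) (m Y' B)
  left : ∀ k : 𝒳 → 𝒳 → ℂ, (∀ X Y X' Y', R X Y X' Y' → k X Y = k X' Y') →
    ∀ X Y A, k (m X A) (m Y A) = k X Y
  right : ∀ k : 𝒳 → 𝒳 → ℂ, (∀ X Y X' Y', R X Y X' Y' → k X Y = k X' Y') →
    ∀ X A B, k (m X A) (m X B) = k A B

/-- representation of `k` as the mean of random multiplicative kernels -/
structure Repr {𝒳 : Type} (m : 𝒳 → 𝒳 → 𝒳) (R : 𝒳 → 𝒳 → 𝒳 → 𝒳 → Prop)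
    (k : 𝒳 → 𝒳 → ℂ) where
  Ω : Type
  [mΩ : MeasurableSpace Ω]
  P : Measure Ω
  [prob : IsProbabilityMeasure P]
  th : Ω → 𝒳 → 𝒳 → ℂ
  ker : ∀ ω, Ker R (th ω)
  mul : ∀ ω X Y A B, th ω (m X A) (m Y B) = th ω X Y * th ω A B
  meas : ∀ X Y, Measurable (fun ω => th ω X Y)
  mean : ∀ X Y, k X Y = ∫ ω, th ω X Y ∂P

attribute [instance] Repr.mΩ Repr.prob

/-- relation of level one: a common cell may be inserted, rows and columns may be relabelled -/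
def R1 (X Y X' Y' : Pt) : Prop :=
  (∃ c, c ∉ X ∧ c ∉ Y ∧ X' = insert c X ∧ Y' = insert c Y) ∨
  (∃ σ τ : ℕ → ℕ, Function.Injective σ ∧ Function.Injective τ ∧ X' = rl σ τ X ∧ Y' = rl σ τ Y)

/-- relation of level two: a common cell may be inserted, rows may be relabelled -/
def R2 (X Y X' Y' : Pt) : Prop :=
  (∃ c, c ∉ X ∧ c ∉ Y ∧ X' = insert c X ∧ Y' = insert c Y) ∨
  (∃ σ : ℕ → ℕ, Function.Injective σ ∧ X' = rl σ id X ∧ Y' = rl σ id Y)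

/-- merging of level one: even rows and columns, odd rows and columns -/
def m1 (X A : Pt) : Pt :=
  rl (fun i => 2 * i) (fun j => 2 * j) X ∪ rl (fun i => 2 * i + 1) (fun j => 2 * j + 1) A

/-- merging of level two: even rows, odd rows -/
def m2 (X A : Pt) : Pt :=
  rl (fun i => 2 * i) id X ∪ rl (fun i => 2 * i + 1) id A

/-- characters: multiplicative kernels of level one -/
structure Chr (θ : Pt → Pt → ℂ) : Prop where
  ker : Ker R1 θ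
  mul : ∀ X Y A B, θ (m1 X A) (m1 Y B) = θ X Y * θ A B

/-- exchange of rows and columns -/
def tr (X : Pt) : Pt := X.image Prod.swap

/-- stacking: the rows in `I k` have the content `x k` -/
def stk {n : ℕ} (I x : Fin n → Finset ℕ) : Pt := Finset.univ.biUnion (fun k => I k ×ˢ x k)

/-! ### level two: row space and column space -/

/-- one-sided space: `z x y` belongs to the signed vector `y - x` -/
structure Sp where
  Ω : Type
  [mΩ : MeasurableSpace Ω]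
  P : Measure Ω
  [prob : IsProbabilityMeasure P]
  z : Finset ℕ → Finset ℕ → Ω → ℂ
  meas : ∀ x y, Measurable (z x y)
  herm : ∀ x y ω, z y x ω = (starRingEnd ℂ) (z x y ω)
  norm_le : ∀ x y ω, ‖z x y ω‖ ≤ 1
  gram : ∀ x y u v ω, Disjoint (x ∪ y) (u ∪ v) →
    ‖z (x ∪ u) (y ∪ v) ω - z x y ω * z u v ω‖ ≤
      Real.sqrt (1 - ‖z x y ω‖ ^ 2) * Real.sqrt (1 - ‖z u v ω‖ ^ 2)

attribute [instance] Sp.mΩ Sp.prob

/-- `s` is a row space of `θ` -/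
def IsRow (θ : Pt → Pt → ℂ) (s : Sp) : Prop :=
  ∀ (n : ℕ) (I x y : Fin n → Finset ℕ), (∀ k l, k ≠ l → Disjoint (I k) (I l)) →
    θ (stk I x) (stk I y) = ∫ ω, ∏ k, s.z (x k) (y k) ω ^ (I k).card ∂s.P

/-- two-sided data: `W p q a b` is the value at the product of a row vector with `p` pluses, `q`
minuses and a column vector with `a` pluses, `b` minuses. `r.z x y`: `x`, `y` sets of columns,
`c.z x y`: `x`, `y` sets of rows. -/
structure Two where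
  W : ℕ → ℕ → ℕ → ℕ → ℂ
  r : Sp
  c : Sp
  mom : ∀ x y : Finset ℕ, Disjoint x y → ∀ p q : ℕ,
    ∫ ω, r.z x y ω ^ p * r.z y x ω ^ q ∂r.P = W p q y.card x.card
  mom' : ∀ x y : Finset ℕ, Disjoint x y → ∀ a b : ℕ,
    ∫ ω, c.z x y ω ^ a * c.z y x ω ^ b ∂c.P = W y.card x.card a b
  ind : ∀ x y u v : Finset ℕ, Disjoint x y → Disjoint u v → Disjoint (x ∪ y) (u ∪ v) →
    ∀ p q p' q' : ℕ,
    ∫ ω, (r.z x y ω ^ p * r.z y x ω ^ q) * (r.z u v ω ^ p' * r.z v u ω ^ q') ∂r.P =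
      W p q y.card x.card * W p' q' v.card u.card
  ind' : ∀ x y u v : Finset ℕ, Disjoint x y → Disjoint u v → Disjoint (x ∪ y) (u ∪ v) →
    ∀ a b a' b' : ℕ,
    ∫ ω, (c.z x y ω ^ a * c.z y x ω ^ b) * (c.z u v ω ^ a' * c.z v u ω ^ b') ∂c.P =
      W y.card x.card a b * W v.card u.card a' b'
  /-- columns: `y - x`, `v - u`; rows: `f - e`, `h - g` -/
  tor : ∀ x y u v e f g h : Finset ℕ, Disjoint x y → Disjoint u v → Disjoint (x ∪ y) (u ∪ v) →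
    Disjoint e f → Disjoint g h → Disjoint (e ∪ f) (g ∪ h) →
    ∫ ω, (r.z (x ∪ u) (y ∪ v) ω ^ f.card * r.z (y ∪ v) (x ∪ u) ω ^ e.card) *
        (r.z u v ω ^ h.card * r.z v u ω ^ g.card) ∂r.P =
      ∫ ω, (c.z e f ω ^ y.card * c.z f e ω ^ x.card) *
        (c.z (e ∪ g) (f ∪ h) ω ^ v.card * c.z (f ∪ h) (e ∪ g) ω ^ u.card) ∂c.P

namespace Two

/-- exchange of rows and columns -/
def swap (T : Two) : Two where
  W p q a b := T.W a b p q
  r := T.c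
  c := T.r
  mom := T.mom'
  mom' := T.mom
  ind := T.ind'
  ind' := T.ind
  tor := by
    intro x y u v e f g h hxy huv hd hef hgh hd'
    have := T.tor g h e f u v x y hgh hef hd'.symm huv hxy hd.symm
    rw [Finset.union_comm x u, Finset.union_comm y v, Finset.union_comm e g,
      Finset.union_comm f h]
    rw [show (fun ω => T.c.z (u ∪ x) (v ∪ y) ω ^ f.card * T.c.z (v ∪ y) (u ∪ x) ω ^ e.card *
        (T.c.z u v ω ^ h.card * T.c.z v u ω ^ g.card)) = (fun ω =>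
        (T.c.z u v ω ^ h.card * T.c.z v u ω ^ g.card) *
        (T.c.z (u ∪ x) (v ∪ y) ω ^ f.card * T.c.z (v ∪ y) (u ∪ x) ω ^ e.card)) from by
      funext ω; ring]
    rw [← this]
    apply integral_congr_ae
    filter_upwards with ω
    ring

end Two

/-- `z ^ j` on the event `‖z‖ = 1`, zero elsewhere -/
noncomputable def Sp.e (s : Sp) (x y : Finset ℕ) (j : ℕ) (ω : s.Ω) : ℂ :=
  if ‖s.z x y ω‖ = 1 then s.z x y ω ^ j else 0

/-- `a` pluses, `b` minuses: `lim W (n+j) n a b` -/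
noncomputable def Two.U (T : Two) (a b j : ℕ) : ℂ :=
  ∫ ω, T.r.e (Finset.Ico a (a + b)) (Finset.range a) j ω ∂T.r.P

/-- `t_j` -/
noncomputable def Two.t (T : Two) (j : ℕ) : ℝ := ⨅ m : ℕ, (T.U m m j).re

/-- value of an integer polynomial, as a natural number -/
def pv (P : Polynomial ℤ) (n : ℕ) : ℕ := (P.eval (n : ℤ)).toNat

/-- allowed sizes -/
def SgP (P Q : Polynomial ℤ) (a b : ℕ) : Prop :=
  ∃ n : ℕ, 1 ≤ n ∧ (a : ℤ) = P.eval (n : ℤ) ∧ (b : ℤ) = Q.eval (n : ℤ) ∧ 1 ≤ a ∧ 1 ≤ b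

end Pool.Agent.Lib.MP_90b327_co.RB
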