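import Mathlib
import Pool.Agent.Lib.MP_90b327_co.RB.RDefs

/-!
MODULE Fatou (40 minutes, old scale). Text section 10.

PROOF. For `k`, `R ≥ 1` put `A_{k,R} ω = (1/R) ∑_{n<R} J (k! * n) ω` and `g_{k,R} = max (-A_{k,R}) 0 ∈ [0, 1]`
(measurable).
(1) For every `k` and all large `R`: `∫ g_{k,R} ≥ ∫ -A_{k,R} ≥ c/2`: for `n ≥ n₀` `k! n ≥ n₀`, so
    `-∫ J (k! n) = c`; for `n < n₀` `≥ -1`; so `∫ -A ≥ c (R - n₀)/R - n₀/R → c`.
(2) For every `ω` there is `K` such that for all `k ≥ K` `g_{k,R} ω → 0` as `R → ∞`: `q₀ ∣ k!` for `k ≥ q₀`.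
(3) Let `G_k = {ω | g_{k,R} ω → 0 (R → ∞)}`, measurable (for instance `limsup_R g_{k,R} = 0` and measurability
    of `limsup`, or a countable combination of sets `{g_{k,R} ≤ 1/s}`, or `measurableSet_tendsto`). By (2)
    the increasing sets `E_K = ⋂_{k ≥ K} G_k` have union `Ω`, so `P (E_K)ᶜ ≤ c/8` for some `K`
    (`tendsto_measure_iUnion_atTop`), hence `P (G_K)ᶜ ≤ c/8`.
(4) `∫ g_{K,R} ≤ ∫ 1_{G_K} g_{K,R} + P (G_K)ᶜ`, and the first integral tends to `0` as `R → ∞` (dominated
    convergence). So eventually `∫ g_{K,R} ≤ c/4`, contradiction with (1).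
-/

set_option autoImplicit false

namespace Pool.Agent.Lib.MP_90b327_co.RB

open Filter Topology MeasureTheory

theorem fatou_contra {Ω : Type} [MeasurableSpace Ω] (P : Measure Ω) [IsProbabilityMeasure P]
    (J : ℕ → Ω → ℝ) (hm : ∀ n, Measurable (J n)) (hb : ∀ n ω, |J n ω| ≤ 1) (c : ℝ) (hc : 0 < c)
    (n₀ : ℕ) (hn : ∀ n, n₀ ≤ n → ∫ ω, J n ω ∂P = -c)
    (h : ∀ ω, ∃ q₀ : ℕ, 1 ≤ q₀ ∧ ∀ q : ℕ, 1 ≤ q → q₀ ∣ q → ∀ ε : ℝ, 0 < ε → ∃ R₀ : ℕ,
      ∀ R, R₀ ≤ R → -ε ≤ (∑ n ∈ Finset.range R, J (q * n) ω) / R) : False := by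
  let g : ℕ → ℕ → Ω → ℝ := fun k R ω => -((∑ n ∈ Finset.range R, J (k.factorial * n) ω) / R)
  let G : ℕ → ℕ → Ω → ENNReal := fun k R ω => ENNReal.ofReal (g k R ω)
  have hgm : ∀ k R, Measurable (g k R) := by
    intro k R
    refine Measurable.neg (Measurable.div_const ?_ _)
    exact Finset.measurable_fun_sum _ fun n _ => hm _
  have hGm : ∀ k R, Measurable (G k R) := fun k R => (hgm k R).ennreal_ofReal
  have hgb : ∀ k R ω, |g k R ω| ≤ 1 := by
    intro k R ω
    simp only [g]
    rw [abs_neg, abs_div, Nat.abs_cast]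
    refine div_le_one_of_le₀ ?_ (Nat.cast_nonneg _)
    refine (Finset.abs_sum_le_sum_abs _ _).trans ?_
    calc ∑ n ∈ Finset.range R, |J (k.factorial * n) ω| ≤ ∑ n ∈ Finset.range R, (1 : ℝ) :=
          Finset.sum_le_sum fun n _ => hb _ _
      _ = R := by simp
  have hG1 : ∀ k R ω, G k R ω ≤ 1 := by
    intro k R ω
    simp only [G]
    rw [← ENNReal.ofReal_one]
    exact ENNReal.ofReal_le_ofReal (abs_le.mp (hgb k R ω)).2
  have hJi : ∀ n, Integrable (J n) P := fun n =>
    Integrable.of_bound (hm n).aestronglyMeasurable 1 (Eventually.of_forall fun ω => by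
      rw [Real.norm_eq_abs]; exact hb n ω)
  have hgi : ∀ k R, Integrable (g k R) P := fun k R =>
    Integrable.of_bound (hgm k R).aestronglyMeasurable 1 (Eventually.of_forall fun ω => by
      rw [Real.norm_eq_abs]; exact hgb k R ω)
  -- lower bound of the integrals
  have h1 : ∀ k, ∀ᶠ R : ℕ in atTop, c / 2 ≤ ∫ ω, g k R ω ∂P := by
    intro k
    obtain ⟨R₁, hR₁⟩ := exists_nat_ge (2 * (c + 1) * n₀ / c)
    filter_upwards [eventually_ge_atTop (R₁ + 1)] with R hR
    have hR0 : (0 : ℝ) < R := by exact_mod_cast (by omega : 0 < R)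
    have hR1 : 2 * (c + 1) * n₀ / c ≤ R := hR₁.trans (by exact_mod_cast (by omega : R₁ ≤ R))
    rw [div_le_iff₀ hc] at hR1
    have h2 : ∫ ω, g k R ω ∂P = (∑ n ∈ Finset.range R, -∫ ω, J (k.factorial * n) ω ∂P) / R := by
      simp only [g]
      rw [integral_neg, integral_div, integral_finset_sum _ fun n _ => hJi _,
        Finset.sum_neg_distrib, neg_div]
    rw [h2, le_div_iff₀ hR0]
    have h3 : ∀ n ∈ Finset.range R, c - (if n < n₀ then (c + 1) else 0) ≤
        -∫ ω, J (k.factorial * n) ω ∂P := by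
      intro n _
      split_ifs with h4
      · have h5 : |∫ ω, J (k.factorial * n) ω ∂P| ≤ 1 := by
          have h6 := norm_integral_le_of_norm_le_const (μ := P) (C := 1)
            (f := fun ω => J (k.factorial * n) ω) (Eventually.of_forall fun ω => by
              rw [Real.norm_eq_abs]; exact hb _ ω)
          simpa using h6
        have := (abs_le.mp h5).2
        linarith
      · have h5 : n₀ ≤ k.factorial * n := by
          have h6 := Nat.le_mul_of_pos_left n (Nat.factorial_pos k)
          omega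
        rw [hn _ h5]
        linarith
    have h4 := Finset.sum_le_sum h3
    rw [Finset.sum_sub_distrib, Finset.sum_const, Finset.card_range, nsmul_eq_mul,
      ← Finset.sum_filter, Finset.sum_const, nsmul_eq_mul] at h4
    have h5 : (((Finset.range R).filter (fun n => n < n₀)).card : ℝ) ≤ n₀ := by
      have h6 : (Finset.range R).filter (fun n => n < n₀) ⊆ Finset.range n₀ := by
        intro n hn'
        exact Finset.mem_range.mpr (Finset.mem_filter.mp hn').2
      have h7 := Finset.card_le_card h6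
      rw [Finset.card_range] at h7
      exact_mod_cast h7
    have h6 : (((Finset.range R).filter (fun n => n < n₀)).card : ℝ) * (c + 1) ≤ n₀ * (c + 1) := by
      gcongr
    nlinarith
  have h2 : ∀ k, ENNReal.ofReal (c / 2) ≤ ∫⁻ ω, limsup (fun R => G k R ω) atTop ∂P := by
    intro k
    have h3 := limsup_lintegral_le (μ := P) (f := G k) (fun _ => 1) (hGm k)
      (fun R => Eventually.of_forall fun ω => hG1 k R ω) (by simp)
    refine le_trans ?_ h3
    refine le_limsup_of_frequently_le (Eventually.frequently ?_) (by isBoundedDefault)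
    filter_upwards [h1 k] with R hR
    refine (ENNReal.ofReal_le_ofReal hR).trans ?_
    have h4 := integral_eq_lintegral_pos_part_sub_lintegral_neg_part (hgi k R)
    have h5 : ∫ ω, g k R ω ∂P ≤ (∫⁻ ω, ENNReal.ofReal (g k R ω) ∂P).toReal := by
      rw [h4]
      have : 0 ≤ (∫⁻ ω, ENNReal.ofReal (-g k R ω) ∂P).toReal := ENNReal.toReal_nonneg
      linarith
    exact (ENNReal.ofReal_le_ofReal h5).trans ENNReal.ofReal_toReal_le
  have h3 : Tendsto (fun k => ∫⁻ ω, limsup (fun R => G k R ω) atTop ∂P) atTop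
      (𝓝 (∫⁻ _ : Ω, 0 ∂P)) := by
    refine tendsto_lintegral_of_dominated_convergence (fun _ => 1)
      (fun k => Measurable.limsup (hGm k)) (fun k => Eventually.of_forall fun ω => ?_) (by simp)
      (Eventually.of_forall fun ω => ?_)
    · exact limsup_le_of_le (by isBoundedDefault) (Eventually.of_forall fun R => hG1 k R ω)
    · obtain ⟨q₀, hq₀, hq⟩ := h ω
      refine tendsto_const_nhds.congr' ?_
      filter_upwards [eventually_ge_atTop q₀] with k hk
      symm
      have h4 : Tendsto (fun R => G k R ω) atTop (𝓝 0) := by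
        rw [ENNReal.tendsto_nhds_zero]
        intro ε hε
        rcases eq_or_ne ε ⊤ with h5 | h5
        · exact Eventually.of_forall fun R => by rw [h5]; exact le_top
        · have h6 : 0 < ε.toReal := ENNReal.toReal_pos hε.ne' h5
          obtain ⟨R₀, hR₀⟩ := hq k.factorial (Nat.factorial_pos k)
            (Nat.dvd_factorial (by omega) hk) ε.toReal h6
          filter_upwards [eventually_ge_atTop R₀] with R hR
          have h7 := hR₀ R hR
          have h8 : g k R ω ≤ ε.toReal := by
            simp only [g]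
            linarith
          calc G k R ω = ENNReal.ofReal (g k R ω) := rfl
            _ ≤ ENNReal.ofReal ε.toReal := ENNReal.ofReal_le_ofReal h8
            _ = ε := ENNReal.ofReal_toReal h5
      exact h4.limsup_eq
  rw [lintegral_zero] at h3
  have h4 := ge_of_tendsto h3 (Eventually.of_forall h2)
  have h5 : 0 < ENNReal.ofReal (c / 2) := ENNReal.ofReal_pos.mpr (by positivity)
  exact absurd h4 (not_le.mpr h5)

end Pool.Agent.Lib.MP_90b327_co.RB
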