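import Mathlib
import Pool.Agent.Lib.MP_90b327_co.RB.RDefs

/-!
MODULE RepA (40 minutes, old scale). Text section 3: elementary properties of the set of kernels.

PROOFS.
`posk_cs`: for a hermitian positive definite kernel `k` (diagonal real because of hermitian symmetry)
`‖k X Y‖² ≤ (k X X).re * (k Y Y).re`: use `PosK` with `ι = Bool` (or `Fin 2`), vectors `X`, `Y`,
coefficients `(lam * k X Y, - 1)`... for instance: for real `lam`, `c = (lam * u, 1)` with `u = k X Y`
(`‖u‖`-phase): the form is `lam² ‖u‖² a + 2 lam ‖u‖² + b ≥ 0` for all real `lam`, `a = (k X X).re`,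
`b = (k Y Y).re` (sign of `lam` arbitrary); so the discriminant `4 ‖u‖⁴ - 4 ‖u‖² a b ≤ 0`.
`ker_norm_le`: special case.
`ker_convex`: every condition of `Ker` is preserved by convex combinations (`psd`: the sum is linear in
`k`).
`ker_closed`: every condition is closed in the product topology (evaluation maps are continuous):
intersections of closed sets (`isClosed_iInter`, `isClosed_eq`, `isClosed_le`).
`ker_compact`: closed subset of the compact set `Set.pi univ (fun _ => Set.pi univ (fun _ =>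
Metric.closedBall 0 1))` (`isCompact_univ_pi`, `isCompact_closedBall`, `IsCompact.of_isClosed_subset`).
`mulker_closed`: the same with the additional closed conditions.
-/

set_option autoImplicit false

namespace Pool.Agent.Lib.MP_90b327_co.RB

private theorem ra_diag_nonneg {𝒳 : Type} (k : 𝒳 → 𝒳 → ℂ) (hk : PosK k) (X : 𝒳) : 0 ≤ (k X X).re := by
  have h := hk Unit (fun _ => X) (fun _ => 1)
  simpa using h

theorem posk_cs {𝒳 : Type} (k : 𝒳 → 𝒳 → ℂ) (hk : PosK k)
    (hh : ∀ X Y, k Y X = (starRingEnd ℂ) (k X Y)) (X Y : 𝒳) :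
    ‖k X Y‖ ^ 2 ≤ (k X X).re * (k Y Y).re := by
  set u := k X Y with hu
  have ha := ra_diag_nonneg k hk X
  have hb := ra_diag_nonneg k hk Y
  have hnn : ‖u‖ ^ 2 = u.re * u.re + u.im * u.im := by
    rw [← Complex.normSq_eq_norm_sq, Complex.normSq_apply]
  have key : ∀ lam : ℝ, 0 ≤ (‖u‖ ^ 2 * (k X X).re) * (lam * lam) + (2 * ‖u‖ ^ 2) * lam + (k Y Y).re := by
    intro lam
    have h := hk Bool (fun b => if b then X else Y) (fun b => if b then (lam : ℂ) * u else 1)
    simp only [Fintype.sum_bool, if_true, Bool.false_eq_true, if_false] at h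
    have hX : (k X X).im = 0 := by
      have := congrArg Complex.im (hh X X)
      rw [Complex.conj_im] at this
      linarith
    rw [hh X Y, ← hu] at h
    simp only [map_mul, Complex.conj_ofReal, map_one, one_mul, mul_one, Complex.add_re, Complex.mul_re,
      Complex.mul_im, Complex.ofReal_re, Complex.ofReal_im, Complex.conj_re, Complex.conj_im, hX] at h
    rw [hnn]
    nlinarith [h]
  have hd := discrim_le_zero key
  unfold discrim at hd
  by_cases h0 : ‖u‖ ^ 2 = 0
  · rw [h0]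
    positivity
  · have hpos : 0 < ‖u‖ ^ 2 := lt_of_le_of_ne (by positivity) (Ne.symm h0)
    by_contra hcon
    push Not at hcon
    nlinarith [mul_pos hpos (sub_pos.mpr hcon)]

theorem ker_norm_le {𝒳 : Type} {R : 𝒳 → 𝒳 → 𝒳 → 𝒳 → Prop} {k : 𝒳 → 𝒳 → ℂ} (hk : Ker R k)
    (X Y : 𝒳) : ‖k X Y‖ ≤ 1 := by
  have h := posk_cs k hk.psd hk.herm X Y
  rw [hk.one, hk.one, Complex.one_re, mul_one] at h
  have h0 := norm_nonneg (k X Y)
  nlinarith

theorem ker_convex {𝒳 : Type} (R : 𝒳 → 𝒳 → 𝒳 → 𝒳 → Prop) :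
    Convex ℝ {k : 𝒳 → 𝒳 → ℂ | Ker R k} := by
  intro k₁ h₁ k₂ h₂ s t hs ht hst
  have h₁ : Ker R k₁ := h₁
  have h₂ : Ker R k₂ := h₂
  change Ker R (s • k₁ + t • k₂)
  have e : ∀ X Y, (s • k₁ + t • k₂) X Y = (s : ℂ) * k₁ X Y + (t : ℂ) * k₂ X Y := by
    intro X Y
    simp [Pi.add_apply, Pi.smul_apply]
  constructor
  · intro X
    rw [e, h₁.one, h₂.one, mul_one, mul_one, ← Complex.ofReal_add, hst, Complex.ofReal_one]
  · intro X Y
    rw [e, e, h₁.herm X Y, h₂.herm X Y, map_add, map_mul, map_mul, Complex.conj_ofReal, Complex.conj_ofReal]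
  · intro ι _ X c
    have h : (∑ i, ∑ j, (starRingEnd ℂ) (c i) * c j * (s • k₁ + t • k₂) (X i) (X j)) =
        (s : ℂ) * (∑ i, ∑ j, (starRingEnd ℂ) (c i) * c j * k₁ (X i) (X j)) +
        (t : ℂ) * (∑ i, ∑ j, (starRingEnd ℂ) (c i) * c j * k₂ (X i) (X j)) := by
      rw [Finset.mul_sum, Finset.mul_sum, ← Finset.sum_add_distrib]
      refine Finset.sum_congr rfl fun i _ => ?_
      rw [Finset.mul_sum, Finset.mul_sum, ← Finset.sum_add_distrib]
      refine Finset.sum_congr rfl fun j _ => ?_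
      rw [e]
      ring
    rw [h, Complex.add_re, Complex.re_ofReal_mul, Complex.re_ofReal_mul]
    have g₁ := h₁.psd ι X c
    have g₂ := h₂.psd ι X c
    positivity
  · intro X Y X' Y' hR
    rw [e, e, h₁.rel _ _ _ _ hR, h₂.rel _ _ _ _ hR]

private theorem ra_cont {𝒳 : Type} (X Y : 𝒳) : Continuous (fun k : 𝒳 → 𝒳 → ℂ => k X Y) :=
  (continuous_apply Y).comp (continuous_apply X)

private theorem ra_closed {𝒳 : Type} (R : 𝒳 → 𝒳 → 𝒳 → 𝒳 → Prop) :
    IsClosed {k : 𝒳 → 𝒳 → ℂ | Ker R k} := by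
  have e : {k : 𝒳 → 𝒳 → ℂ | Ker R k} =
      {k : 𝒳 → 𝒳 → ℂ | ∀ X, k X X = 1} ∩
      {k : 𝒳 → 𝒳 → ℂ | ∀ X Y, k Y X = (starRingEnd ℂ) (k X Y)} ∩
      {k : 𝒳 → 𝒳 → ℂ | ∀ (n : ℕ) (X : Fin n → 𝒳) (c : Fin n → ℂ),
        0 ≤ (∑ i, ∑ j, (starRingEnd ℂ) (c i) * c j * k (X i) (X j)).re} ∩
      {k : 𝒳 → 𝒳 → ℂ | ∀ X Y X' Y', R X Y X' Y' → k X Y = k X' Y'} := by
    ext k
    constructor
    · intro (h : Ker R k)
      exact ⟨⟨⟨h.one, h.herm⟩, fun n X c => h.psd (Fin n) X c⟩, h.rel⟩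
    · rintro ⟨⟨⟨h1, h2⟩, h3⟩, h4⟩
      refine ⟨h1, h2, ?_, h4⟩
      intro ι _ X c
      have h := h3 (Fintype.card ι) (fun i => X ((Fintype.equivFin ι).symm i))
        (fun i => c ((Fintype.equivFin ι).symm i))
      have e1 : (∑ i, ∑ j, (starRingEnd ℂ) (c i) * c j * k (X i) (X j)) =
          ∑ i : Fin (Fintype.card ι), ∑ j : Fin (Fintype.card ι),
            (starRingEnd ℂ) (c ((Fintype.equivFin ι).symm i)) * c ((Fintype.equivFin ι).symm j) *
            k (X ((Fintype.equivFin ι).symm i)) (X ((Fintype.equivFin ι).symm j)) := by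
        rw [← Equiv.sum_comp (Fintype.equivFin ι).symm]
        refine Finset.sum_congr rfl fun i _ => ?_
        rw [← Equiv.sum_comp (Fintype.equivFin ι).symm]
      rw [e1]
      exact h
  rw [e]
  refine ((IsClosed.inter ?_ ?_).inter ?_).inter ?_
  · rw [Set.setOf_forall]
    exact isClosed_iInter fun X => isClosed_eq (ra_cont X X) continuous_const
  · simp only [Set.setOf_forall]
    exact isClosed_iInter fun X => isClosed_iInter fun Y =>
      isClosed_eq (ra_cont Y X) (Complex.continuous_conj.comp (ra_cont X Y))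
  · simp only [Set.setOf_forall]
    refine isClosed_iInter fun n => isClosed_iInter fun X => isClosed_iInter fun c => ?_
    refine isClosed_le continuous_const (Complex.continuous_re.comp ?_)
    exact continuous_finsetSum _ fun i _ => continuous_finsetSum _ fun j _ =>
      continuous_const.mul (ra_cont (X i) (X j))
  · simp only [Set.setOf_forall]
    exact isClosed_iInter fun X => isClosed_iInter fun Y => isClosed_iInter fun X' =>
      isClosed_iInter fun Y' => isClosed_iInter fun _ => isClosed_eq (ra_cont X Y) (ra_cont X' Y')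

private theorem ra_ball {𝒳 : Type} :
    IsCompact (Set.pi Set.univ (fun _ : 𝒳 => Set.pi Set.univ (fun _ : 𝒳 => Metric.closedBall (0 : ℂ) 1))) :=
  isCompact_univ_pi fun _ => isCompact_univ_pi fun _ => isCompact_closedBall 0 1

theorem ker_compact {𝒳 : Type} (R : 𝒳 → 𝒳 → 𝒳 → 𝒳 → Prop) :
    IsCompact {k : 𝒳 → 𝒳 → ℂ | Ker R k} := by
  refine ra_ball.of_isClosed_subset (ra_closed R) ?_
  intro k hk
  have hk : Ker R k := hk
  intro X _ Y _
  rw [mem_closedBall_zero_iff]
  exact ker_norm_le hk X Y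

theorem mulker_compact {𝒳 : Type} (m : 𝒳 → 𝒳 → 𝒳) (R : 𝒳 → 𝒳 → 𝒳 → 𝒳 → Prop) :
    IsCompact {k : 𝒳 → 𝒳 → ℂ | Ker R k ∧ ∀ X Y A B, k (m X A) (m Y B) = k X Y * k A B} := by
  have e : {k : 𝒳 → 𝒳 → ℂ | Ker R k ∧ ∀ X Y A B, k (m X A) (m Y B) = k X Y * k A B} =
      {k : 𝒳 → 𝒳 → ℂ | Ker R k} ∩ {k : 𝒳 → 𝒳 → ℂ | ∀ X Y A B, k (m X A) (m Y B) = k X Y * k A B} := rfl
  rw [e]
  refine (ker_compact R).inter_right ?_
  simp only [Set.setOf_forall]
  exact isClosed_iInter fun X => isClosed_iInter fun Y => isClosed_iInter fun A =>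
    isClosed_iInter fun B => isClosed_eq (ra_cont _ _) ((ra_cont _ _).mul (ra_cont _ _))

end Pool.Agent.Lib.MP_90b327_co.RB
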