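import Mathlib
import Pool.Agent.Lib.MP_90b327_co.RB.RDefs
import Pool.Agent.Lib.MP_90b327_co.RB.RepA

/-!
MODULE RepB (50 minutes, old scale). Text section 3: extreme points are multiplicative.

PROOF. Fix `A B` and `e : ℂ` with `‖e‖ = 1`; put
`k_e X Y = (2 * k X Y + e * k (m X A) (m Y B) + conj e * k (m X B) (m Y A)) / 4`.
(1) `k_e` is hermitian, constant on related pairs (`hm.rel`).
(2) `PosK k_e`: given `ι, X, c`, apply `PosK k` to the index type `ι × Bool`, the vectors `m (X i) A`,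
    `m (X i) B` and the coefficients `c i`, `c i * e`: the sum is `∑ conj (c i) c j (k (m (X i) A) (m (X j) A)
    + k (m (X i) B) (m (X j) B) + e k (m (X i) A) (m (X j) B) + conj e k (m (X i) B) (m (X j) A))` and
    the first two terms are `k (X i) (X j)` by `hm.left`; so it is `4 ∑ conj (c i) c j k_e (X i) (X j)`.
(3) `k_e X X = lam_e := (2 + e * k A B + conj e * k B A) / 4 = (1 + Re (e * k A B)) / 2`, real, `≥ 0`
    (`hm.right`, `k X X = 1`, `PosK k_e` with one vector), the same for all `X`.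
(4) `k = k_e + k_(-e)`, `lam_e + lam_(-e) = 1`.
(5) CLAIM `k_e = lam_e • k`. If `lam_e = 0`: `k_e = 0` by `posk_cs`. If `lam_(-e) = 0`: `k_(-e) = 0`,
    `lam_e = 1`, `k_e = k`. Otherwise `k_e / lam_e` and `k_(-e) / lam_(-e)` satisfy `Ker R`, `k` is in
    their open segment (weights `lam_e`, `lam_(-e)`), so `k_e / lam_e = k` (`mem_extremePoints`).
(6) `e = 1`: `k (m X A) (m Y B) + k (m X B) (m Y A) = (k A B + k B A) * k X Y`;
    `e = Complex.I`: `k (m X A) (m Y B) - k (m X B) (m Y A) = (k A B - k B A) * k X Y` (cancel `I`).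
    Add and divide by `2`.
-/

set_option autoImplicit false

namespace Pool.Agent.Lib.MP_90b327_co.RB

/-- the modified kernel -/
private noncomputable def RepBk {𝒳 : Type} (m : 𝒳 → 𝒳 → 𝒳) (k : 𝒳 → 𝒳 → ℂ) (A B : 𝒳) (e : ℂ)
    (X Y : 𝒳) : ℂ :=
  (2 * k X Y + e * k (m X A) (m Y B) + (starRingEnd ℂ) e * k (m X B) (m Y A)) / 4

private theorem RepB_herm {𝒳 : Type} (m : 𝒳 → 𝒳 → 𝒳) (k : 𝒳 → 𝒳 → ℂ)
    (hh : ∀ X Y, k Y X = (starRingEnd ℂ) (k X Y)) (A B : 𝒳) (e : ℂ) (X Y : 𝒳) :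
    RepBk m k A B e Y X = (starRingEnd ℂ) (RepBk m k A B e X Y) := by
  unfold RepBk
  rw [map_div₀, map_add, map_add, map_mul, map_mul, map_mul, Complex.conj_conj,
    ← hh X Y, ← hh (m X A) (m Y B), ← hh (m X B) (m Y A)]
  rw [map_ofNat, map_ofNat]
  ring

private theorem RepB_pos {𝒳 : Type} {m : 𝒳 → 𝒳 → 𝒳} {R : 𝒳 → 𝒳 → 𝒳 → 𝒳 → Prop} (hm : Mrg m R)
    (k : 𝒳 → 𝒳 → ℂ) (hk : Ker R k) (A B : 𝒳) (e : ℂ) (he : (starRingEnd ℂ) e * e = 1) :
    PosK (RepBk m k A B e) := by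
  intro ι _ X c
  have h := hk.psd (ι × Bool) (fun p => if p.2 then m (X p.1) B else m (X p.1) A)
    (fun p => if p.2 then c p.1 * e else c p.1)
  have h1 : ∑ i : ι × Bool, ∑ j : ι × Bool,
      (starRingEnd ℂ) ((fun p : ι × Bool => if p.2 then c p.1 * e else c p.1) i) *
        (fun p : ι × Bool => if p.2 then c p.1 * e else c p.1) j *
        k ((fun p : ι × Bool => if p.2 then m (X p.1) B else m (X p.1) A) i)
          ((fun p : ι × Bool => if p.2 then m (X p.1) B else m (X p.1) A) j) =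
      ((4 : ℝ) : ℂ) * ∑ i, ∑ j, (starRingEnd ℂ) (c i) * c j * RepBk m k A B e (X i) (X j) := by
    rw [Fintype.sum_prod_type, Finset.mul_sum]
    refine Finset.sum_congr rfl fun i _ => ?_
    rw [Fintype.sum_bool, Fintype.sum_prod_type, Fintype.sum_prod_type, Finset.mul_sum,
      ← Finset.sum_add_distrib]
    refine Finset.sum_congr rfl fun j _ => ?_
    rw [Fintype.sum_bool, Fintype.sum_bool]
    simp only [if_true, Bool.false_eq_true, if_false]
    rw [hm.left k hk.rel (X i) (X j) B, hm.left k hk.rel (X i) (X j) A, map_mul]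
    unfold RepBk
    push_cast
    linear_combination ((starRingEnd ℂ) (c i) * c j * k (X i) (X j)) * he
  rw [h1, Complex.re_ofReal_mul] at h
  linarith

private theorem RepB_norm {𝒳 : Type} {R : 𝒳 → 𝒳 → 𝒳 → 𝒳 → Prop} (k' : 𝒳 → 𝒳 → ℂ)
    (hp : PosK k') (hh : ∀ X Y, k' Y X = (starRingEnd ℂ) (k' X Y))
    (hr : ∀ X Y X' Y', R X Y X' Y' → k' X Y = k' X' Y') (lam : ℝ) (hl : 0 < lam)
    (hd : ∀ X, k' X X = (lam : ℂ)) : Ker R (fun X Y => ((lam⁻¹ : ℝ) : ℂ) * k' X Y) where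
  one X := by
    rw [hd, ← Complex.ofReal_mul, inv_mul_cancel₀ hl.ne', Complex.ofReal_one]
  herm X Y := by
    rw [hh X Y, map_mul, Complex.conj_ofReal]
  psd := by
    intro ι _ X c
    have h := hp ι X c
    have h1 : ∑ i, ∑ j, (starRingEnd ℂ) (c i) * c j * (((lam⁻¹ : ℝ) : ℂ) * k' (X i) (X j)) =
        ((lam⁻¹ : ℝ) : ℂ) * ∑ i, ∑ j, (starRingEnd ℂ) (c i) * c j * k' (X i) (X j) := by
      rw [Finset.mul_sum]
      refine Finset.sum_congr rfl fun i _ => ?_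
      rw [Finset.mul_sum]
      refine Finset.sum_congr rfl fun j _ => ?_
      ring
    rw [h1, Complex.re_ofReal_mul]
    exact mul_nonneg (inv_nonneg.mpr hl.le) h
  rel X Y X' Y' h := by
    rw [hr X Y X' Y' h]

private theorem RepB_zero {𝒳 : Type} (k' : 𝒳 → 𝒳 → ℂ)
    (hp : PosK k') (hh : ∀ X Y, k' Y X = (starRingEnd ℂ) (k' X Y))
    (hd : ∀ X, k' X X = 0) (X Y : 𝒳) : k' X Y = 0 := by
  have h := posk_cs k' hp hh X Y
  rw [hd, hd] at h
  norm_num at h
  exact h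

/-- the modified kernel is a multiple of `k` -/
private theorem RepB_claim {𝒳 : Type} {m : 𝒳 → 𝒳 → 𝒳} {R : 𝒳 → 𝒳 → 𝒳 → 𝒳 → Prop} (hm : Mrg m R)
    (k : 𝒳 → 𝒳 → ℂ) (hk : k ∈ Set.extremePoints ℝ {k : 𝒳 → 𝒳 → ℂ | Ker R k})
    (A B : 𝒳) (e : ℂ) (he : (starRingEnd ℂ) e * e = 1) (X Y : 𝒳) :
    RepBk m k A B e X Y = (2 + e * k A B + (starRingEnd ℂ) e * k B A) / 4 * k X Y := by
  obtain ⟨hK, hext⟩ := mem_extremePoints.mp hk
  have hK : Ker R k := hK
  -- general facts for a sign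
  have hd : ∀ e : ℂ, ∀ X, RepBk m k A B e X X =
      (2 + e * k A B + (starRingEnd ℂ) e * k B A) / 4 := by
    intro e X
    unfold RepBk
    rw [hK.one, hm.right k hK.rel X A B, hm.right k hK.rel X B A, mul_one]
  have hreal : ∀ e : ℂ, ∃ lam : ℝ, (2 + e * k A B + (starRingEnd ℂ) e * k B A) / 4 = (lam : ℂ) := by
    intro e
    have h1 := RepB_herm m k hK.herm A B e A A
    rw [hd] at h1
    refine ⟨_, (Complex.conj_eq_iff_re.mp h1.symm).symm⟩
  have hrel : ∀ e : ℂ, ∀ X Y X' Y', R X Y X' Y' →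
      RepBk m k A B e X Y = RepBk m k A B e X' Y' := by
    intro e X Y X' Y' h
    unfold RepBk
    rw [hK.rel _ _ _ _ h, hK.rel _ _ _ _ (hm.rel _ _ _ _ A B h),
      hK.rel _ _ _ _ (hm.rel _ _ _ _ B A h)]
  have hne : (starRingEnd ℂ) (-e) * (-e) = 1 := by
    rw [map_neg]
    linear_combination he
  have hsum : ∀ X Y, RepBk m k A B e X Y + RepBk m k A B (-e) X Y = k X Y := by
    intro X Y
    unfold RepBk
    rw [map_neg]
    ring
  obtain ⟨lam, hlam⟩ := hreal e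
  obtain ⟨mu, hmu⟩ := hreal (-e)
  have hp := RepB_pos hm k hK A B e he
  have hp' := RepB_pos hm k hK A B (-e) hne
  have hnonneg : ∀ (k' : 𝒳 → 𝒳 → ℂ) (t : ℝ), PosK k' → k' A A = (t : ℂ) → 0 ≤ t := by
    intro k' t hk' ht
    have h := hk' Unit (fun _ => A) (fun _ => 1)
    simp only [Finset.univ_unique, Finset.sum_singleton, map_one, one_mul, ht,
      Complex.ofReal_re] at h
    exact h
  have hl0 : 0 ≤ lam := hnonneg _ lam hp (by rw [hd, hlam])
  have hm0 : 0 ≤ mu := hnonneg _ mu hp' (by rw [hd, hmu])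
  have hone : lam + mu = 1 := by
    have h1 := hsum A A
    rw [hd, hd, hlam, hmu, hK.one] at h1
    exact_mod_cast h1
  rw [hlam]
  rcases hl0.eq_or_lt with h0 | h0
  · -- `lam = 0`
    rw [← h0, Complex.ofReal_zero, zero_mul]
    refine RepB_zero _ hp (RepB_herm m k hK.herm A B e) (fun Z => ?_) X Y
    rw [hd, hlam, ← h0, Complex.ofReal_zero]
  rcases hm0.eq_or_lt with h1 | h1
  · have h2 : RepBk m k A B (-e) X Y = 0 := by
      refine RepB_zero _ hp' (RepB_herm m k hK.herm A B (-e)) (fun Z => ?_) X Y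
      rw [hd, hmu, ← h1, Complex.ofReal_zero]
    have h3 := hsum X Y
    rw [h2, add_zero] at h3
    have h4 : lam = 1 := by linarith
    rw [h3, h4, Complex.ofReal_one, one_mul]
  · have hk1 := RepB_norm (R := R) _ hp (RepB_herm m k hK.herm A B e) (hrel e) lam h0
      (fun Z => by rw [hd, hlam])
    have hk2 := RepB_norm (R := R) _ hp' (RepB_herm m k hK.herm A B (-e)) (hrel (-e)) mu h1
      (fun Z => by rw [hd, hmu])
    have h2 := (hext _ hk1 _ hk2 ⟨lam, mu, h0, h1, hone, by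
      funext Z W
      have h3 := hsum Z W
      simp only [Pi.add_apply, Pi.smul_apply, Complex.real_smul]
      rw [← mul_assoc, ← mul_assoc, ← Complex.ofReal_mul, ← Complex.ofReal_mul,
        mul_inv_cancel₀ h0.ne', mul_inv_cancel₀ h1.ne', Complex.ofReal_one, one_mul, one_mul]
      exact h3⟩).1
    have h3 : ((lam⁻¹ : ℝ) : ℂ) * RepBk m k A B e X Y = k X Y := congrFun (congrFun h2 X) Y
    rw [← h3, ← mul_assoc, ← Complex.ofReal_mul, mul_inv_cancel₀ h0.ne', Complex.ofReal_one,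
      one_mul]

theorem ext_mul {𝒳 : Type} {m : 𝒳 → 𝒳 → 𝒳} {R : 𝒳 → 𝒳 → 𝒳 → 𝒳 → Prop} (hm : Mrg m R)
    (k : 𝒳 → 𝒳 → ℂ) (hk : k ∈ Set.extremePoints ℝ {k : 𝒳 → 𝒳 → ℂ | Ker R k}) :
    ∀ X Y A B, k (m X A) (m Y B) = k X Y * k A B := by
  intro X Y A B
  have h1 := RepB_claim hm k hk A B 1 (by simp) X Y
  have h2 := RepB_claim hm k hk A B Complex.I (by rw [Complex.conj_I, neg_mul, Complex.I_mul_I, neg_neg]) X Y
  unfold RepBk at h1 h2
  rw [map_one, one_mul, one_mul, one_mul, one_mul] at h1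
  rw [Complex.conj_I] at h2
  have h3 : Complex.I * Complex.I = -1 := Complex.I_mul_I
  linear_combination 2 * h1 - 2 * Complex.I * h2 +
    (k (m X A) (m Y B) / 2 - k (m X B) (m Y A) / 2 - k A B * k X Y / 2 + k B A * k X Y / 2) * h3

end Pool.Agent.Lib.MP_90b327_co.RB
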