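import Mathlib
import Pool.Agent.Lib.MP_90b327_co.RB.RDefs
import Pool.Agent.Lib.MP_90b327_co.RB.RepA
import Pool.Agent.Lib.MP_90b327_co.RB.RepB

/-!
MODULE RepC (60 minutes, old scale). Text section 3: the representing measure.

PROOF. `KK = {k | Ker R k}`, `Th = {k | Ker R k ∧ multiplicative}` (compact, `mulker_compact`),
`E = ↥Th` with `borel`; `E` is a compact Hausdorff space, so `CompactSpace (ProbabilityMeasure E)`
(instance in Mathlib.MeasureTheory.Measure.Prokhorov). Let `F μ = fun X Y => ∫ θ, (θ : 𝒳 → 𝒳 → ℂ) X Y ∂μ`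
for `μ : ProbabilityMeasure E`.
(1) `F` is continuous: coordinatewise; real and imaginary parts of `θ ↦ θ X Y` are bounded continuous
    functions on the compact space `E`, use `ProbabilityMeasure.tendsto_iff_forall_integral_tendsto`
    or the continuity of integrals of bounded continuous functions.
(2) So `Set.range F` is compact, hence closed (`𝒳 → 𝒳 → ℂ` is Hausdorff).
(3) `Set.range F` is convex: for `a + b = 1` take the measure `a • μ + b • ν` (ENNReal.ofReal or NNReal
    coefficients), `integral_add_measure`, `integral_smul_measure`.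
(4) `Set.range F` contains `Th` (Dirac measures), so by `ext_mul` all extreme points of `KK`; so it
    contains `closure (convexHull ℝ (extremePoints KK)) = KK` (`closure_convexHull_extremePoints`,
    `ker_compact`, `ker_convex`, the topological vector space instances of the product are found by
    `inferInstance`).
(5) For `k ∈ KK` take `μ` with `F μ = k`; `Ω = E`, `th = Subtype.val`, measurability: `θ ↦ θ X Y` is
    continuous on `E`, hence Borel measurable.
-/

set_option autoImplicit false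

namespace Pool.Agent.Lib.MP_90b327_co.RB

open MeasureTheory

private theorem rep_core {𝒳 : Type} (KK Th : Set (𝒳 → 𝒳 → ℂ)) (hK : IsCompact KK)
    (hc : Convex ℝ KK) (hT : IsCompact Th) (hsub : Set.extremePoints ℝ KK ⊆ Th)
    (k : 𝒳 → 𝒳 → ℂ) (hk : k ∈ KK) :
    ∃ (mE : MeasurableSpace Th) (P : Measure Th), IsProbabilityMeasure P ∧
      (∀ X Y, Measurable fun θ : Th => (θ : 𝒳 → 𝒳 → ℂ) X Y) ∧
      ∀ X Y, k X Y = ∫ θ : Th, (θ : 𝒳 → 𝒳 → ℂ) X Y ∂P := by
  letI mE : MeasurableSpace Th := borel Th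
  haveI : BorelSpace Th := ⟨rfl⟩
  haveI : CompactSpace Th := isCompact_iff_compactSpace.1 hT
  have cont : ∀ X Y, Continuous fun θ : Th => (θ : 𝒳 → 𝒳 → ℂ) X Y := fun X Y =>
    (continuous_apply Y).comp ((continuous_apply X).comp continuous_subtype_val)
  let f : 𝒳 → 𝒳 → BoundedContinuousFunction Th ℂ := fun X Y =>
    BoundedContinuousFunction.mkOfCompact ⟨fun θ : Th => (θ : 𝒳 → 𝒳 → ℂ) X Y, cont X Y⟩
  have hint : ∀ (μ : Measure Th) [IsFiniteMeasure μ] (X Y : 𝒳),
      Integrable (fun θ : Th => (θ : 𝒳 → 𝒳 → ℂ) X Y) μ := fun μ _ X Y =>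
    BoundedContinuousFunction.integrable μ (f X Y)
  let F : ProbabilityMeasure Th → 𝒳 → 𝒳 → ℂ := fun μ X Y =>
    ∫ θ : Th, (θ : 𝒳 → 𝒳 → ℂ) X Y ∂(μ : Measure Th)
  have hF : Continuous F := by
    refine continuous_pi fun X => continuous_pi fun Y => continuous_iff_continuousAt.2 fun μ => ?_
    exact (ProbabilityMeasure.tendsto_iff_forall_integral_rclike_tendsto ℂ).1
      (Filter.tendsto_id (α := ProbabilityMeasure Th)) (f X Y)
  have hclosed : IsClosed (Set.range F) := (isCompact_range hF).isClosed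
  have hconv : Convex ℝ (Set.range F) := by
    rintro _ ⟨μ, rfl⟩ _ ⟨ν, rfl⟩ a b ha hb hab
    have hP : IsProbabilityMeasure (ENNReal.ofReal a • (μ : Measure Th) +
        ENNReal.ofReal b • (ν : Measure Th)) := by
      constructor
      rw [Measure.add_apply, Measure.smul_apply, Measure.smul_apply, measure_univ, measure_univ,
        smul_eq_mul, smul_eq_mul, mul_one, mul_one, ← ENNReal.ofReal_add ha hb, hab,
        ENNReal.ofReal_one]
    refine ⟨⟨_, hP⟩, ?_⟩
    funext X Y
    change ∫ θ : Th, (θ : 𝒳 → 𝒳 → ℂ) X Y ∂(ENNReal.ofReal a • (μ : Measure Th) +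
        ENNReal.ofReal b • (ν : Measure Th)) = a • F μ X Y + b • F ν X Y
    rw [integral_add_measure ((hint _ X Y).smul_measure ENNReal.ofReal_ne_top)
      ((hint _ X Y).smul_measure ENNReal.ofReal_ne_top), integral_smul_measure,
      integral_smul_measure, ENNReal.toReal_ofReal ha, ENNReal.toReal_ofReal hb]
  have hTh : Th ⊆ Set.range F := by
    intro θ hθ
    refine ⟨⟨Measure.dirac ⟨θ, hθ⟩, inferInstance⟩, ?_⟩
    funext X Y
    change ∫ θ' : Th, (θ' : 𝒳 → 𝒳 → ℂ) X Y ∂(Measure.dirac ⟨θ, hθ⟩) = θ X Y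
    rw [integral_dirac]
  have hkF : k ∈ Set.range F := by
    have h1 : k ∈ closure (convexHull ℝ (Set.extremePoints ℝ KK)) := by
      rw [closure_convexHull_extremePoints hK hc]
      exact hk
    exact closure_minimal (convexHull_min (hsub.trans hTh) hconv) hclosed h1
  obtain ⟨μ, hμ⟩ := hkF
  refine ⟨mE, (μ : Measure Th), inferInstance, fun X Y => (cont X Y).measurable, fun X Y => ?_⟩
  rw [← hμ]

theorem rep {𝒳 : Type} {m : 𝒳 → 𝒳 → 𝒳} {R : 𝒳 → 𝒳 → 𝒳 → 𝒳 → Prop} (hm : Mrg m R)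
    (k : 𝒳 → 𝒳 → ℂ) (hk : Ker R k) : Nonempty (Repr m R k) := by
  obtain ⟨mE, P, hP, hmeas, hmean⟩ := rep_core {k : 𝒳 → 𝒳 → ℂ | Ker R k}
    {k : 𝒳 → 𝒳 → ℂ | Ker R k ∧ ∀ X Y A B, k (m X A) (m Y B) = k X Y * k A B}
    (ker_compact R) (ker_convex R) (mulker_compact m R)
    (fun k hk => ⟨hk.1, ext_mul hm k hk⟩) k hk
  exact ⟨{
    Ω := {k : 𝒳 → 𝒳 → ℂ | Ker R k ∧ ∀ X Y A B, k (m X A) (m Y B) = k X Y * k A B}
    mΩ := mE
    P := P
    prob := hP
    th := fun ω => ω.1
    ker := fun ω => ω.2.1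
    mul := fun ω => ω.2.2
    meas := hmeas
    mean := hmean }⟩

end Pool.Agent.Lib.MP_90b327_co.RB
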