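import Mathlib
import Pool.Agent.Lib.MP_90b327_co.RB.RDefs

/-!
MODULE DOa (45 minutes, old scale). Text section 2 (difference-only lemma, combinatorial part).

PROOF. `c = (i₀, j₀)`. `s` = the column `j₀` of `X` (the `i` with `(i, j₀) ∈ X`), `u` = the column `j₀` of
`Y`; `i₀ ∉ s`, `i₀ ∉ u`. For a Boolean `b` let `s b = if b then insert i₀ s else s`, `u b` likewise. Let
`n` be larger than `j₀` and all column indices of `X`, `Y`. Fresh columns: an injection
`f : Fin T × Bool → ℕ` with values `≥ n`, for instance `f (t, b) = n + 2 * t + (if b then 1 else 0)`.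
  `x = X.filter (·.2 ≠ j₀) ∪ ⋃_{p} (s p.2) ×ˢ {f p}`;
  `y p = Y.filter (·.2 ≠ j₀) ∪ ⋃_{p' ≠ p} (s p'.2) ×ˢ {f p'} ∪ (u p.2) ×ˢ {f p}`.
(a) if `X`, `Y` agree on all columns in a finite set `C` then `g X Y = g (X.filter (·.2 ∉ C))
    (Y.filter (·.2 ∉ C))`: induction on `C` with `h.col`.
(b) `g x (y p) = g X Y` if `p.2 = false`, `= g (insert c X) (insert c Y)` if `p.2 = true`: by (a) remove
    the columns `f p'`, `p' ≠ p`; what is left is `rl id τ` of (`X`, `Y`) (of (`insert c X`, `insert c Y`))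
    with `τ` = the transposition of `j₀` and `f p` (`Equiv.swap`); use `h.inv`.
(c) for `p ≠ p'`: `g (y p) (y p') = q := g (u ×ˢ {0} ∪ s ×ˢ {1}) (s ×ˢ {0} ∪ u ×ˢ {1})`: by (a) remove all
    columns except `f p`, `f p'` (on the others both patterns are equal; take `C` = all columns smaller
    than `n` and the other `f p''`), then by `h.row` the row `i₀`, on which the two patterns agree (in the
    column `f p` the contents are `u p.2` and `s p.2`, both contain `i₀` iff `p.2 = true`; same for
    `f p'`); what is left is `u ×ˢ {f p} ∪ s ×ˢ {f p'}` against `s ×ˢ {f p} ∪ u ×ˢ {f p'}`; this is the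
    image of the pair in the definition of `q` under `rl id τ` with an injective `τ`, `τ 0 = f p`,
    `τ 1 = f p'` (for instance `τ k = if k = 0 then f p else if k = 1 then f p' else f p + f p' + k`).
-/

set_option autoImplicit false

namespace Pool.Agent.Lib.MP_90b327_co.RB

open Finset

private theorem DOa_cols {Sg : ℕ → ℕ → Prop} {D : ℝ} {g : Pt → Pt → ℝ} (h : PKer Sg D g)
    (C : Finset ℕ) : ∀ X Y : Pt, (∀ j ∈ C, ∀ i, (i, j) ∈ X ↔ (i, j) ∈ Y) →
      g X Y = g (X.filter (fun c => c.2 ∉ C)) (Y.filter (fun c => c.2 ∉ C)) := by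
  induction C using Finset.induction_on with
  | empty =>
    intro X Y _
    simp
  | insert j C hj ih =>
    intro X Y hXY
    have h1 : ∀ Z : Pt, (Z.filter (fun c => c.2 ≠ j)).filter (fun c => c.2 ∉ C) =
        Z.filter (fun c => c.2 ∉ insert j C) := by
      intro Z
      ext d
      simp only [mem_filter, mem_insert, not_or]
      tauto
    rw [h.col X Y j (hXY j (mem_insert_self _ _)),
      ih (X.filter (fun c => c.2 ≠ j)) (Y.filter (fun c => c.2 ≠ j)) ?_, h1, h1]
    intro j' hj' i
    simp only [mem_filter]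
    have := hXY j' (mem_insert_of_mem hj') i
    tauto

/-- moving the column `j₀` to the empty column `m` -/
private theorem DOa_swap (Z W : Pt) (j₀ m : ℕ) (hm : m ≠ j₀) (hZ : ∀ i, (i, m) ∉ Z)
    (hW : ∀ i j, (i, j) ∈ W ↔ ((i, j) ∈ Z ∧ j ≠ j₀) ∨ ((i, j₀) ∈ Z ∧ j = m)) :
    W = rl id (Equiv.swap j₀ m) Z := by
  ext ⟨i, j⟩
  rw [hW]
  unfold rl
  rw [mem_image]
  constructor
  · rintro (⟨h1, h2⟩ | ⟨h1, h2⟩)
    · refine ⟨(i, j), h1, ?_⟩
      have h3 : j ≠ m := by
        rintro rfl
        exact hZ i h1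
      show (i, Equiv.swap j₀ m j) = (i, j)
      rw [Equiv.swap_apply_of_ne_of_ne h2 h3]
    · refine ⟨(i, j₀), h1, ?_⟩
      show (i, Equiv.swap j₀ m j₀) = (i, j)
      rw [Equiv.swap_apply_left, h2]
  · rintro ⟨⟨i', j'⟩, h1, h2⟩
    have h3 : (i', Equiv.swap j₀ m j') = (i, j) := h2
    rw [Prod.mk.injEq] at h3
    obtain ⟨rfl, h4⟩ := h3
    by_cases h5 : j' = j₀
    · right
      rw [h5] at h1 h4
      rw [Equiv.swap_apply_left] at h4
      exact ⟨h1, h4.symm⟩
    · left
      have h6 : j' ≠ m := by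
        rintro rfl
        exact hZ _ h1
      rw [Equiv.swap_apply_of_ne_of_ne h5 h6] at h4
      rw [← h4]
      exact ⟨h1, h5⟩

theorem do_family {Sg : ℕ → ℕ → Prop} {D : ℝ} {g : Pt → Pt → ℝ} (h : PKer Sg D g) (X Y : Pt)
    (c : ℕ × ℕ) (hX : c ∉ X) (hY : c ∉ Y) : ∃ q : ℝ, ∀ T : ℕ, 1 ≤ T →
      ∃ (x : Pt) (y : Fin T × Bool → Pt), (∀ t, g x (y (t, false)) = g X Y) ∧
        (∀ t, g x (y (t, true)) = g (insert c X) (insert c Y)) ∧
        ∀ p p', p ≠ p' → g (y p) (y p') = q := by
  obtain ⟨i₀, j₀⟩ := c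
  obtain ⟨s, hs⟩ : ∃ s : Finset ℕ, ∀ i, i ∈ s ↔ (i, j₀) ∈ X :=
    ⟨(X.filter (fun d => d.2 = j₀)).image Prod.fst, by intro i; simp⟩
  obtain ⟨u, hu⟩ : ∃ u : Finset ℕ, ∀ i, i ∈ u ↔ (i, j₀) ∈ Y :=
    ⟨(Y.filter (fun d => d.2 = j₀)).image Prod.fst, by intro i; simp⟩
  have his : i₀ ∉ s := fun hi => hX ((hs i₀).1 hi)
  have hiu : i₀ ∉ u := fun hi => hY ((hu i₀).1 hi)
  obtain ⟨n, hn, hnX, hnY⟩ : ∃ n, j₀ < n ∧ (∀ i j, (i, j) ∈ X → j < n) ∧
      (∀ i j, (i, j) ∈ Y → j < n) := by
    refine ⟨j₀ + X.sup Prod.snd + Y.sup Prod.snd + 1, by omega, fun i j hij => ?_,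
      fun i j hij => ?_⟩
    · have h1 : j ≤ X.sup Prod.snd := Finset.le_sup (f := Prod.snd) hij
      omega
    · have h1 : j ≤ Y.sup Prod.snd := Finset.le_sup (f := Prod.snd) hij
      omega
  obtain ⟨sb, hsb⟩ : ∃ sb : Bool → Finset ℕ, ∀ b i, i ∈ sb b ↔ i ∈ s ∨ (b = true ∧ i = i₀) :=
    ⟨fun b => if b then insert i₀ s else s, by
      intro b i
      cases b
      · simp
      · simp [or_comm]⟩
  obtain ⟨ub, hub⟩ : ∃ ub : Bool → Finset ℕ, ∀ b i, i ∈ ub b ↔ i ∈ u ∨ (b = true ∧ i = i₀) :=
    ⟨fun b => if b then insert i₀ u else u, by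
      intro b i
      cases b
      · simp
      · simp [or_comm]⟩
  refine ⟨g (u ×ˢ {0} ∪ s ×ˢ {1}) (s ×ˢ {0} ∪ u ×ˢ {1}), fun T hT => ?_⟩
  obtain ⟨f, hf⟩ : ∃ f : Fin T × Bool → ℕ, f = fun p => n + 2 * p.1.1 + (if p.2 then 1 else 0) :=
    ⟨_, rfl⟩
  have hfn : ∀ p, n ≤ f p := by
    intro p
    rw [hf]
    dsimp only
    omega
  have hfi : ∀ p p', f p = f p' → p = p' := by
    rintro ⟨⟨t, ht⟩, b⟩ ⟨⟨t', ht'⟩, b'⟩ hpp
    rw [hf] at hpp
    dsimp only at hpp
    have h1 : t = t' ∧ b = b' := by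
      cases b <;> cases b' <;> simp at hpp ⊢ <;> omega
    obtain ⟨rfl, rfl⟩ := h1
    rfl
  obtain ⟨x, hx⟩ : ∃ x : Pt, ∀ i j, (i, j) ∈ x ↔ ((i, j) ∈ X ∧ j ≠ j₀) ∨
      ∃ p, i ∈ sb p.2 ∧ j = f p :=
    ⟨X.filter (fun d => d.2 ≠ j₀) ∪ univ.biUnion (fun p => sb p.2 ×ˢ {f p}), by
      intro i j
      simp only [mem_union, mem_filter, mem_biUnion, mem_univ, true_and, mem_product,
        mem_singleton]⟩
  obtain ⟨y, hy⟩ : ∃ y : Fin T × Bool → Pt, ∀ p i j, (i, j) ∈ y p ↔ ((i, j) ∈ Y ∧ j ≠ j₀) ∨
      (∃ p', p' ≠ p ∧ i ∈ sb p'.2 ∧ j = f p') ∨ (i ∈ ub p.2 ∧ j = f p) :=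
    ⟨fun p => Y.filter (fun d => d.2 ≠ j₀) ∪ ((univ.erase p).biUnion (fun p => sb p.2 ×ˢ {f p}) ∪
      ub p.2 ×ˢ {f p}), by
      intro p i j
      simp only [mem_union, mem_filter, mem_biUnion, mem_erase, mem_univ, and_true, mem_product,
        mem_singleton]⟩
  -- part (b)
  have hb : ∀ p : Fin T × Bool, g x (y p) =
      g (if p.2 then insert (i₀, j₀) X else X) (if p.2 then insert (i₀, j₀) Y else Y) := by
    intro p
    have hXm : ∀ i, (i, f p) ∉ X := fun i hi => by
      have h1 := hnX i _ hi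
      have h2 := hfn p
      omega
    have hYm : ∀ i, (i, f p) ∉ Y := fun i hi => by
      have h1 := hnY i _ hi
      have h2 := hfn p
      omega
    have hpj : f p ≠ j₀ := by
      have h2 := hfn p
      omega
    rw [DOa_cols h ((univ.erase p).image f) x (y p) ?_]
    · have e1 : x.filter (fun c => c.2 ∉ (univ.erase p).image f) =
          rl id (Equiv.swap j₀ (f p)) (if p.2 then insert (i₀, j₀) X else X) := by
        refine DOa_swap _ _ j₀ (f p) hpj ?_ ?_
        · intro i hi
          cases hb : p.2 <;> rw [hb] at hi <;> simp at hi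
          · exact hXm i hi
          · rcases hi with hi | hi
            · exact hpj hi.2
            · exact hXm i hi
        · intro i j
          rw [mem_filter, hx, mem_image]
          have e2 : ∀ i j, (i, j) ∈ (if p.2 then insert (i₀, j₀) X else X) ↔
              (i, j) ∈ X ∨ (p.2 = true ∧ i = i₀ ∧ j = j₀) := by
            intro i j
            cases p.2
            · simp
            · simp [or_comm]
          rw [e2, e2]
          constructor
          · rintro ⟨⟨h1, h2⟩ | ⟨p', h1, h2⟩, h3⟩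
            · exact Or.inl ⟨Or.inl h1, h2⟩
            · have h4 : p' = p := by
                by_contra h4
                exact h3 ⟨p', mem_erase.2 ⟨h4, mem_univ _⟩, h2.symm⟩
              rw [h4] at h1 h2
              rw [hsb, hs] at h1
              right
              refine ⟨?_, h2⟩
              rcases h1 with h1 | h1
              · exact Or.inl h1
              · exact Or.inr ⟨h1.1, h1.2, rfl⟩
          · rintro (⟨h1, h2⟩ | ⟨h1, h2⟩)
            · rcases h1 with h1 | h1
              · refine ⟨Or.inl ⟨h1, h2⟩, ?_⟩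
                rintro ⟨p', -, h3⟩
                have h4 := hnX i j h1
                have h5 := hfn p'
                have h6 : f p' = j := h3
                omega
              · exact absurd h1.2.2 h2
            · refine ⟨Or.inr ⟨p, ?_, h2⟩, ?_⟩
              · rw [hsb, hs]
                rcases h1 with h1 | h1
                · exact Or.inl h1
                · exact Or.inr ⟨h1.1, h1.2.1⟩
              · rintro ⟨p', h3, h4⟩
                have h5 : f p' = f p := by
                  rw [← h2]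
                  exact h4
                exact (mem_erase.1 h3).1 (hfi _ _ h5)
      have e2 : (y p).filter (fun c => c.2 ∉ (univ.erase p).image f) =
          rl id (Equiv.swap j₀ (f p)) (if p.2 then insert (i₀, j₀) Y else Y) := by
        refine DOa_swap _ _ j₀ (f p) hpj ?_ ?_
        · intro i hi
          cases hb : p.2 <;> rw [hb] at hi <;> simp at hi
          · exact hYm i hi
          · rcases hi with hi | hi
            · exact hpj hi.2
            · exact hYm i hi
        · intro i j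
          rw [mem_filter, hy, mem_image]
          have e2 : ∀ i j, (i, j) ∈ (if p.2 then insert (i₀, j₀) Y else Y) ↔
              (i, j) ∈ Y ∨ (p.2 = true ∧ i = i₀ ∧ j = j₀) := by
            intro i j
            cases p.2
            · simp
            · simp [or_comm]
          rw [e2, e2]
          constructor
          · rintro ⟨⟨h1, h2⟩ | ⟨p', h1, -, h2⟩ | ⟨h1, h2⟩, h3⟩
            · exact Or.inl ⟨Or.inl h1, h2⟩
            · exact absurd ⟨p', mem_erase.2 ⟨h1, mem_univ _⟩, h2.symm⟩ h3
            · rw [hub, hu] at h1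
              right
              refine ⟨?_, h2⟩
              rcases h1 with h1 | h1
              · exact Or.inl h1
              · exact Or.inr ⟨h1.1, h1.2, rfl⟩
          · rintro (⟨h1, h2⟩ | ⟨h1, h2⟩)
            · rcases h1 with h1 | h1
              · refine ⟨Or.inl ⟨h1, h2⟩, ?_⟩
                rintro ⟨p', -, h3⟩
                have h4 := hnY i j h1
                have h5 := hfn p'
                have h6 : f p' = j := h3
                omega
              · exact absurd h1.2.2 h2
            · refine ⟨Or.inr (Or.inr ⟨?_, h2⟩), ?_⟩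
              · rw [hub, hu]
                rcases h1 with h1 | h1
                · exact Or.inl h1
                · exact Or.inr ⟨h1.1, h1.2.1⟩
              · rintro ⟨p', h3, h4⟩
                have h5 : f p' = f p := by
                  rw [← h2]
                  exact h4
                exact (mem_erase.1 h3).1 (hfi _ _ h5)
      rw [e1, e2]
      exact h.inv id _ Function.injective_id (Equiv.swap j₀ (f p)).injective _ _
    · intro j hj i
      rw [mem_image] at hj
      obtain ⟨p', hp', rfl⟩ := hj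
      have hpp : p' ≠ p := (mem_erase.1 hp').1
      rw [hx, hy]
      have h1 : (i, f p') ∉ X := fun hi => by
        have h1 := hnX i _ hi
        have h2 := hfn p'
        omega
      have h2 : (i, f p') ∉ Y := fun hi => by
        have h1 := hnY i _ hi
        have h2 := hfn p'
        omega
      constructor
      · rintro (h3 | ⟨p'', h3, h4⟩)
        · exact absurd h3.1 h1
        · rw [← hfi _ _ h4] at h3
          exact Or.inr (Or.inl ⟨p', hpp, h3, rfl⟩)
      · rintro (h3 | ⟨p'', -, h3, h4⟩ | ⟨-, h4⟩)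
        · exact absurd h3.1 h2
        · exact Or.inr ⟨p'', h3, h4⟩
        · exact absurd (hfi _ _ h4) hpp
  refine ⟨x, y, fun t => ?_, fun t => ?_, ?_⟩
  · have h1 := hb (t, false)
    simpa using h1
  · have h1 := hb (t, true)
    simpa using h1
  -- part (c)
  intro p p' hpp
  have hne : f p ≠ f p' := fun h1 => hpp (hfi _ _ h1)
  rw [DOa_cols h (range n ∪ ((univ.erase p).erase p').image f) (y p) (y p') ?_]
  · obtain ⟨A, hA⟩ : ∃ A, A = (y p).filter
        (fun c => c.2 ∉ range n ∪ ((univ.erase p).erase p').image f) := ⟨_, rfl⟩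
    obtain ⟨B, hB⟩ : ∃ B, B = (y p').filter
        (fun c => c.2 ∉ range n ∪ ((univ.erase p).erase p').image f) := ⟨_, rfl⟩
    rw [← hA, ← hB]
    have hnot : ∀ p₁, (p₁ = p ∨ p₁ = p') →
        f p₁ ∉ range n ∪ ((univ.erase p).erase p').image f := by
      intro p₁ hp₁ hmem
      rw [mem_union, mem_range, mem_image] at hmem
      rcases hmem with h1 | ⟨p₂, h1, h2⟩
      · have := hfn p₁
        omega
      · rw [mem_erase, mem_erase] at h1
        have h3 := hfi _ _ h2
        rw [h3] at h1
        rcases hp₁ with h4 | h4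
        · exact h1.2.1 h4
        · exact h1.1 h4
    have hin : ∀ p₁, p₁ ≠ p → p₁ ≠ p' → f p₁ ∈ range n ∪ ((univ.erase p).erase p').image f :=
      fun p₁ h1 h2 => mem_union_right _ (mem_image_of_mem f
        (mem_erase.2 ⟨h2, mem_erase.2 ⟨h1, mem_univ _⟩⟩))
    have hAm : ∀ i j, (i, j) ∈ A ↔ (i ∈ ub p.2 ∧ j = f p) ∨ (i ∈ sb p'.2 ∧ j = f p') := by
      intro i j
      rw [hA, mem_filter, hy]
      constructor
      · rintro ⟨⟨h1, -⟩ | ⟨p₁, h1, h2, h3⟩ | h1, h4⟩
        · exact absurd (mem_union_left _ (mem_range.2 (hnY i j h1))) h4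
        · by_cases h5 : p₁ = p'
          · rw [h5] at h2 h3
            exact Or.inr ⟨h2, h3⟩
          · have h6 : j ∈ range n ∪ ((univ.erase p).erase p').image f := by
              rw [h3]
              exact hin p₁ h1 h5
            exact absurd h6 h4
        · exact Or.inl h1
      · rintro (⟨h1, h2⟩ | ⟨h1, h2⟩)
        · refine ⟨Or.inr (Or.inr ⟨h1, h2⟩), ?_⟩
          rw [h2]
          exact hnot p (Or.inl rfl)
        · refine ⟨Or.inr (Or.inl ⟨p', hpp.symm, h1, h2⟩), ?_⟩
          rw [h2]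
          exact hnot p' (Or.inr rfl)
    have hBm : ∀ i j, (i, j) ∈ B ↔ (i ∈ sb p.2 ∧ j = f p) ∨ (i ∈ ub p'.2 ∧ j = f p') := by
      intro i j
      rw [hB, mem_filter, hy]
      constructor
      · rintro ⟨⟨h1, -⟩ | ⟨p₁, h1, h2, h3⟩ | h1, h4⟩
        · exact absurd (mem_union_left _ (mem_range.2 (hnY i j h1))) h4
        · by_cases h5 : p₁ = p
          · rw [h5] at h2 h3
            exact Or.inl ⟨h2, h3⟩
          · have h6 : j ∈ range n ∪ ((univ.erase p).erase p').image f := by
              rw [h3]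
              exact hin p₁ h5 h1
            exact absurd h6 h4
        · exact Or.inr h1
      · rintro (⟨h1, h2⟩ | ⟨h1, h2⟩)
        · refine ⟨Or.inr (Or.inl ⟨p, hpp, h1, h2⟩), ?_⟩
          rw [h2]
          exact hnot p (Or.inl rfl)
        · refine ⟨Or.inr (Or.inr ⟨h1, h2⟩), ?_⟩
          rw [h2]
          exact hnot p' (Or.inr rfl)
    rw [h.row A B i₀ (fun j => by
      rw [hAm, hBm, hub, hub, hsb, hsb]
      tauto)]
    obtain ⟨τ, hτ⟩ : ∃ τ : ℕ → ℕ, τ = fun k => if k = 0 then f p else if k = 1 then f p' else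
      f p + f p' + k := ⟨_, rfl⟩
    have hτ0 : τ 0 = f p := by rw [hτ]; simp
    have hτ1 : τ 1 = f p' := by rw [hτ]; simp
    have hτi : Function.Injective τ := by
      intro a b hab
      rw [hτ] at hab
      dsimp only at hab
      split_ifs at hab <;> omega
    have e1 : ∀ (v w : Finset ℕ) (Z : Pt), (∀ i j, (i, j) ∈ Z ↔ (i ∈ v ∧ j = f p) ∨
        (i ∈ w ∧ j = f p')) → Z = rl id τ (v ×ˢ {0} ∪ w ×ˢ {1}) := by
      intro v w Z hZ
      ext ⟨i, j⟩
      rw [hZ]
      unfold rl
      rw [mem_image]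
      constructor
      · rintro (⟨h1, h2⟩ | ⟨h1, h2⟩)
        · refine ⟨(i, 0), by simp [h1], ?_⟩
          show (i, τ 0) = (i, j)
          rw [hτ0, h2]
        · refine ⟨(i, 1), by simp [h1], ?_⟩
          show (i, τ 1) = (i, j)
          rw [hτ1, h2]
      · rintro ⟨⟨i', j'⟩, h1, h2⟩
        have h3 : (i', τ j') = (i, j) := h2
        rw [Prod.mk.injEq] at h3
        obtain ⟨rfl, rfl⟩ := h3
        simp only [mem_union, mem_product, mem_singleton] at h1
        rcases h1 with ⟨h1, h4⟩ | ⟨h1, h4⟩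
        · left
          rw [h4]
          exact ⟨h1, hτ0⟩
        · right
          rw [h4]
          exact ⟨h1, hτ1⟩
    rw [e1 u s (A.filter (fun c => c.1 ≠ i₀)) (fun i j => by
        rw [mem_filter, hAm, hub, hsb]
        constructor
        · rintro ⟨h1, h2⟩
          have h3 : i ≠ i₀ := h2
          tauto
        · intro h1
          have h3 : i ≠ i₀ := by
            rintro rfl
            tauto
          exact ⟨by tauto, h3⟩),
      e1 s u (B.filter (fun c => c.1 ≠ i₀)) (fun i j => by
        rw [mem_filter, hBm, hub, hsb]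
        constructor
        · rintro ⟨h1, h2⟩
          have h3 : i ≠ i₀ := h2
          tauto
        · intro h1
          have h3 : i ≠ i₀ := by
            rintro rfl
            tauto
          exact ⟨by tauto, h3⟩)]
    exact h.inv id τ Function.injective_id hτi _ _
  · intro j hj i
    rw [mem_union, mem_range, mem_image] at hj
    rw [hy, hy]
    rcases hj with hj | ⟨p₁, h1, rfl⟩
    · have h1 : ∀ p₂, j ≠ f p₂ := fun p₂ h1 => by
        have := hfn p₂
        omega
      constructor
      · rintro (h2 | ⟨p₂, -, -, h2⟩ | ⟨-, h2⟩)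
        · exact Or.inl h2
        · exact absurd h2 (h1 _)
        · exact absurd h2 (h1 _)
      · rintro (h2 | ⟨p₂, -, -, h2⟩ | ⟨-, h2⟩)
        · exact Or.inl h2
        · exact absurd h2 (h1 _)
        · exact absurd h2 (h1 _)
    · rw [mem_erase, mem_erase] at h1
      have h2 : (i, f p₁) ∉ Y := fun hi => by
        have h1 := hnY i _ hi
        have h2 := hfn p₁
        omega
      constructor
      · rintro (h3 | ⟨p₂, -, h3, h4⟩ | ⟨-, h4⟩)
        · exact absurd h3.1 h2
        · rw [← hfi _ _ h4] at h3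
          exact Or.inr (Or.inl ⟨p₁, h1.1, h3, rfl⟩)
        · exact absurd (hfi _ _ h4) h1.2.1
      · rintro (h3 | ⟨p₂, -, h3, h4⟩ | ⟨-, h4⟩)
        · exact absurd h3.1 h2
        · rw [← hfi _ _ h4] at h3
          exact Or.inr (Or.inl ⟨p₁, h1.2.1, h3, rfl⟩)
        · exact absurd (hfi _ _ h4) h1.1

end Pool.Agent.Lib.MP_90b327_co.RB
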