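import Mathlib
import Pool.Agent.Lib.MP_90b327_co.RB.RDefs
import Pool.Agent.Lib.MP_90b327_co.RB.DOa

/-!
MODULE DiffOnly (25 minutes, old scale). Text section 2 (difference-only lemma, inequality).

PROOF. Take `q` and, for `T ≥ 1`, `x`, `y` from `do_family`. `h.psd` with index type
`Option (Fin T × Bool)`, vectors `x` (coefficient `lam`), `y p` (coefficient `1/T` if `p.2 = false`,
`-1/T` if `p.2 = true`); with `a = g X Y`, `b = g (insert c X) (insert c Y)` and `h.diag`, `h.symm`:
`0 ≤ D² lam² ≤ lam² D + 2 lam (a - b) + (2/T) (D - q)` for all real `lam` (the sum of the coefficients of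
the `y p` is `0`, so the off-diagonal part is `q (0 - 2 T / T²) = - 2 q / T`, the diagonal part
`D * 2 T / T²`). Hence `(a - b)² ≤ D * (2/T) * (D - q)` (`discrim_le_zero`) for every `T ≥ 1`; let
`T → ∞`.
-/

set_option autoImplicit false

namespace Pool.Agent.Lib.MP_90b327_co.RB

private noncomputable def do_w (T : ℕ) (p : Fin T × Bool) : ℝ := if p.2 = true then -(1 / (T : ℝ)) else 1 / T

private theorem do_w_sum (T : ℕ) : ∑ p : Fin T × Bool, do_w T p = 0 := by
  rw [Fintype.sum_prod_type]
  refine Finset.sum_eq_zero fun t _ => ?_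
  rw [Fintype.sum_bool]
  simp [do_w]

private theorem do_w_sq (T : ℕ) (hT : 1 ≤ T) : ∑ p : Fin T × Bool, do_w T p * do_w T p = 2 / T := by
  have hT0 : (T : ℝ) ≠ 0 := by
    have : (1 : ℝ) ≤ T := by exact_mod_cast hT
    linarith
  rw [Fintype.sum_prod_type]
  have h1 : ∀ t : Fin T, ∑ b : Bool, do_w T (t, b) * do_w T (t, b) = 2 / (T : ℝ) ^ 2 := by
    intro t
    rw [Fintype.sum_bool]
    simp only [do_w, if_true, Bool.false_eq_true, if_false]
    field_simp
    norm_num
  rw [Finset.sum_congr rfl fun t _ => h1 t, Finset.sum_const, Finset.card_univ, Fintype.card_fin,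
    nsmul_eq_mul]
  field_simp

private theorem do_double (T : ℕ) (hT : 1 ≤ T) (D q : ℝ) (G : Fin T × Bool → Fin T × Bool → ℝ)
    (hd : ∀ p, G p p = D) (ho : ∀ p p', p ≠ p' → G p p' = q) :
    ∑ p, ∑ p', do_w T p * do_w T p' * G p p' = 2 / T * (D - q) := by
  classical
  have h1 : ∀ p, ∑ p', do_w T p * do_w T p' * G p p' =
      do_w T p * (∑ p', do_w T p') * q + (D - q) * (do_w T p * do_w T p) := by
    intro p
    have h2 : ∀ p', do_w T p * do_w T p' * G p p' = do_w T p * do_w T p' * q +
        (if p = p' then (D - q) * (do_w T p * do_w T p') else 0) := by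
      intro p'
      by_cases h : p = p'
      · subst h
        rw [if_pos rfl, hd]
        ring
      · rw [if_neg h, ho p p' h, add_zero]
    rw [Finset.sum_congr rfl fun p' _ => h2 p', Finset.sum_add_distrib, Finset.sum_ite_eq,
      if_pos (Finset.mem_univ p), ← Finset.sum_mul, ← Finset.mul_sum]
  rw [Finset.sum_congr rfl fun p _ => h1 p, Finset.sum_add_distrib, do_w_sum, ← Finset.mul_sum,
    do_w_sq T hT]
  simp only [mul_zero, zero_mul, Finset.sum_const_zero, zero_add]
  ring

theorem pker_diff {Sg : ℕ → ℕ → Prop} {D : ℝ} {g : Pt → Pt → ℝ} (h : PKer Sg D g) (X Y : Pt)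
    (c : ℕ × ℕ) (hX : c ∉ X) (hY : c ∉ Y) : g (insert c X) (insert c Y) = g X Y := by
  obtain ⟨q, hq⟩ := do_family h X Y c hX hY
  obtain ⟨e, he⟩ : ∃ e, e = g X Y - g (insert c X) (insert c Y) := ⟨_, rfl⟩
  have key : ∀ T : ℕ, 1 ≤ T → e ^ 2 ≤ (D - D ^ 2) * (2 * (D - q)) / T := by
    intro T hT
    obtain ⟨x, y, h1, h2, h3⟩ := hq T hT
    have hT0 : (0 : ℝ) < T := by exact_mod_cast hT
    have hlam : ∀ lam : ℝ, 0 ≤ (D - D ^ 2) * (lam * lam) + (2 * e) * lam + 2 / T * (D - q) := by
      intro lam
      have hp := h.psd (Option (Fin T × Bool)) (fun o => o.elim x y) (fun o => o.elim lam (do_w T))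
      have h4 : ∑ p, do_w T p * g x (y p) = e := by
        rw [Fintype.sum_prod_type]
        have h5 : ∀ t : Fin T, ∑ b : Bool, do_w T (t, b) * g x (y (t, b)) = e / T := by
          intro t
          rw [Fintype.sum_bool, h1, h2, he]
          simp only [do_w, if_true, Bool.false_eq_true, if_false]
          ring
        rw [Finset.sum_congr rfl fun t _ => h5 t, Finset.sum_const, Finset.card_univ,
          Fintype.card_fin, nsmul_eq_mul]
        field_simp
      have h5 : ∑ p, ∑ p', do_w T p * do_w T p' * g (y p) (y p') = 2 / T * (D - q) :=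
        do_double T hT D q (fun p p' => g (y p) (y p')) (fun p => h.diag _) h3
      simp only [Fintype.sum_option, Option.elim_none, Option.elim_some] at hp
      rw [do_w_sum, add_zero, Finset.sum_add_distrib, h5, h.diag] at hp
      have h6 : ∑ p, lam * do_w T p * g x (y p) = lam * e := by
        rw [← h4, Finset.mul_sum]
        exact Finset.sum_congr rfl fun p _ => by ring
      have h7 : ∑ p, do_w T p * lam * g (y p) x = lam * e := by
        rw [← h4, Finset.mul_sum]
        refine Finset.sum_congr rfl fun p _ => ?_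
        rw [h.symm (y p) x]
        ring
      rw [h6, h7] at hp
      linarith
    have hd := discrim_le_zero hlam
    unfold discrim at hd
    have h8 : (D - D ^ 2) * (2 * (D - q)) / T = (D - D ^ 2) * (2 / T * (D - q)) := by ring
    rw [h8]
    linarith
  have he0 : e = 0 := by
    by_contra hne
    have hpos : 0 < e ^ 2 := by positivity
    obtain ⟨n, hn⟩ := exists_nat_gt ((D - D ^ 2) * (2 * (D - q)) / e ^ 2)
    have h1 := key (n + 1) (by omega)
    have hn1 : (0 : ℝ) < ((n + 1 : ℕ) : ℝ) := by positivity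
    rw [le_div_iff₀ hn1] at h1
    rw [div_lt_iff₀ hpos] at hn
    push_cast at h1
    nlinarith
  rw [he] at he0
  linarith

end Pool.Agent.Lib.MP_90b327_co.RB
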