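import Mathlib
import Pool.Agent.Lib.MP_90b327_co.RB.RDefs

/-!
MODULE Mg (40 minutes, old scale). Text sections 3, 4, 5: merging operations.

PROOFS. `rl σ τ` is injective on cells when `σ`, `τ` are, `rl σ τ (X ∪ Y) = rl σ τ X ∪ rl σ τ Y`,
`rl σ τ (insert c X) = insert (σ c.1, τ c.2) (rl σ τ X)`, `rl σ' τ' (rl σ τ X) = rl (σ' ∘ σ) (τ' ∘ τ) X`.
`mrg1.rel`: case 1 (`X' = insert c X`, `Y' = insert c Y`): `m1 (insert c X) A = insert (2 c.1, 2 c.2)
(m1 X A)`, and this cell is not in `m1 X A`, `m1 Y B` (even, and `c ∉ X`, `c ∉ Y`). Case 2 (`X' = rl σ τ X`):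
`m1 (rl σ τ X) A = rl σ' τ' (m1 X A)` with `σ' n = if n % 2 = 0 then 2 * σ (n / 2) else n` (injective),
`τ'` likewise.
`mrg1.left`: let `k` be constant on related pairs. Claim: `k (U ∪ C) (V ∪ C) = k U V` if `C` is disjoint
from `U`, `V` (induction on `C`, `Finset.induction_on`, case 1 of `R1`). With `C` = the odd part,
`k (m1 X A) (m1 Y A) = k (rl (2·) (2·) X) (rl (2·) (2·) Y) = k X Y` (case 2). `mrg1.right`: the same with the
even part removed.
`mrg2`: the same with `rl · id` (disjointness of even and odd ROWS).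
`diff_union`: the claim, also needed by other modules.
-/

set_option autoImplicit false

namespace Pool.Agent.Lib.MP_90b327_co.RB

private theorem mg_diff {k : Pt → Pt → ℂ}
    (h : ∀ (c : ℕ × ℕ) (X Y : Pt), c ∉ X → c ∉ Y → k (insert c X) (insert c Y) = k X Y)
    (U V C : Pt) (hU : Disjoint C U) (hV : Disjoint C V) : k (U ∪ C) (V ∪ C) = k U V := by
  induction C using Finset.induction_on with
  | empty => rw [Finset.union_empty, Finset.union_empty]
  | insert c C hc ih =>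
    rw [Finset.disjoint_insert_left] at hU hV
    rw [Finset.union_insert, Finset.union_insert, h c (U ∪ C) (V ∪ C), ih hU.2 hV.2]
    · rw [Finset.mem_union]
      rintro (h1 | h1)
      · exact hU.1 h1
      · exact hc h1
    · rw [Finset.mem_union]
      rintro (h1 | h1)
      · exact hV.1 h1
      · exact hc h1

theorem diff_union1 {k : Pt → Pt → ℂ} (hk : ∀ X Y X' Y', R1 X Y X' Y' → k X Y = k X' Y')
    (U V C : Pt) (hU : Disjoint C U) (hV : Disjoint C V) : k (U ∪ C) (V ∪ C) = k U V :=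
  mg_diff (fun c X Y hX hY => (hk X Y _ _ (Or.inl ⟨c, hX, hY, rfl, rfl⟩)).symm) U V C hU hV

theorem diff_union2 {k : Pt → Pt → ℂ} (hk : ∀ X Y X' Y', R2 X Y X' Y' → k X Y = k X' Y')
    (U V C : Pt) (hU : Disjoint C U) (hV : Disjoint C V) : k (U ∪ C) (V ∪ C) = k U V :=
  mg_diff (fun c X Y hX hY => (hk X Y _ _ (Or.inl ⟨c, hX, hY, rfl, rfl⟩)).symm) U V C hU hV

private theorem mg_rl_rl (σ τ σ' τ' : ℕ → ℕ) (X : Pt) :
    rl σ' τ' (rl σ τ X) = rl (fun i => σ' (σ i)) (fun j => τ' (τ j)) X := by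
  unfold rl
  rw [Finset.image_image]
  rfl

private theorem mg_rl_union (σ τ : ℕ → ℕ) (X Y : Pt) : rl σ τ (X ∪ Y) = rl σ τ X ∪ rl σ τ Y :=
  Finset.image_union _ _

private theorem mg_rl_insert (σ τ : ℕ → ℕ) (c : ℕ × ℕ) (X : Pt) :
    rl σ τ (insert c X) = insert (σ c.1, τ c.2) (rl σ τ X) :=
  Finset.image_insert _ _ _

private theorem mg_mem (σ τ : ℕ → ℕ) (c : ℕ × ℕ) (X : Pt) :
    c ∈ rl σ τ X ↔ ∃ d ∈ X, (σ d.1, τ d.2) = c := Finset.mem_image

/-- extension of a relabelling of the even numbers -/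
private def mgE (σ : ℕ → ℕ) (n : ℕ) : ℕ := if n % 2 = 0 then 2 * σ (n / 2) else n

private theorem mgE_even (σ : ℕ → ℕ) (i : ℕ) : mgE σ (2 * i) = 2 * σ i := by
  unfold mgE
  rw [if_pos (by omega), Nat.mul_div_cancel_left i (by omega)]

private theorem mgE_odd (σ : ℕ → ℕ) (i : ℕ) : mgE σ (2 * i + 1) = 2 * i + 1 := by
  unfold mgE
  rw [if_neg (by omega)]

private theorem mgE_inj {σ : ℕ → ℕ} (h : Function.Injective σ) : Function.Injective (mgE σ) := by
  intro a b hab
  rcases Nat.even_or_odd' a with ⟨i, rfl | rfl⟩ <;> rcases Nat.even_or_odd' b with ⟨j, rfl | rfl⟩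
  · rw [mgE_even, mgE_even] at hab
    rw [h (by omega : σ i = σ j)]
  · rw [mgE_even, mgE_odd] at hab
    omega
  · rw [mgE_even, mgE_odd] at hab
    omega
  · rw [mgE_odd, mgE_odd] at hab
    exact hab

private theorem mg_disj {σ τ τ' : ℕ → ℕ} {σ' : ℕ → ℕ} (h : ∀ i j, σ i ≠ σ' j) (X A : Pt) :
    Disjoint (rl σ τ X) (rl σ' τ' A) := by
  rw [Finset.disjoint_left]
  intro c h1 h2
  obtain ⟨d, -, hd⟩ := (mg_mem _ _ _ _).1 h1
  obtain ⟨e, -, he⟩ := (mg_mem _ _ _ _).1 h2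
  rw [← he] at hd
  exact h _ _ (Prod.mk.inj hd).1

theorem mrg1 : Mrg m1 R1 := by
  have hd : ∀ X A : Pt, Disjoint (rl (fun i => 2 * i) (fun j => 2 * j) X)
      (rl (fun i => 2 * i + 1) (fun j => 2 * j + 1) A) := fun X A =>
    mg_disj (fun i j => by omega) X A
  have i2 : Function.Injective (fun i : ℕ => 2 * i) := fun a b h => by
    have : 2 * a = 2 * b := h
    omega
  have i3 : Function.Injective (fun i : ℕ => 2 * i + 1) := fun a b h => by
    have : 2 * a + 1 = 2 * b + 1 := h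
    omega
  have hin : ∀ (c : ℕ × ℕ) (X A : Pt), c ∉ X → (2 * c.1, 2 * c.2) ∉ m1 X A := by
    intro c X A hc h
    unfold m1 at h
    rw [Finset.mem_union, mg_mem, mg_mem] at h
    rcases h with ⟨d, hd, he⟩ | ⟨d, hd, he⟩
    · have h1 := (Prod.mk.inj he).1
      have h2 := (Prod.mk.inj he).2
      have h3 : d = c := Prod.ext (by omega) (by omega)
      exact hc (h3 ▸ hd)
    · have h1 := (Prod.mk.inj he).1
      omega
  refine ⟨?_, ?_, ?_⟩
  · rintro X Y X' Y' A B (⟨c, h1, h2, rfl, rfl⟩ | ⟨σ, τ, hσ, hτ, rfl, rfl⟩)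
    · refine Or.inl ⟨(2 * c.1, 2 * c.2), hin c X A h1, hin c Y B h2, ?_, ?_⟩
      · unfold m1
        rw [mg_rl_insert, Finset.insert_union]
      · unfold m1
        rw [mg_rl_insert, Finset.insert_union]
    · have key : ∀ X A : Pt, m1 (rl σ τ X) A = rl (mgE σ) (mgE τ) (m1 X A) := by
        intro X A
        unfold m1
        rw [mg_rl_union, mg_rl_rl, mg_rl_rl, mg_rl_rl]
        simp only [mgE_even, mgE_odd]
      exact Or.inr ⟨mgE σ, mgE τ, mgE_inj hσ, mgE_inj hτ, key X A, key Y B⟩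
  · intro k hk X Y A
    unfold m1
    rw [diff_union1 hk _ _ _ (hd X A).symm (hd Y A).symm]
    exact (hk X Y _ _ (Or.inr ⟨_, _, i2, i2, rfl, rfl⟩)).symm
  · intro k hk X A B
    unfold m1
    rw [Finset.union_comm, Finset.union_comm (rl _ _ X) (rl _ _ B),
      diff_union1 hk _ _ _ (hd X A) (hd X B)]
    exact (hk A B _ _ (Or.inr ⟨_, _, i3, i3, rfl, rfl⟩)).symm

theorem mrg2 : Mrg m2 R2 := by
  have hd : ∀ X A : Pt, Disjoint (rl (fun i => 2 * i) id X)
      (rl (fun i => 2 * i + 1) id A) := fun X A =>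
    mg_disj (fun i j => by omega) X A
  have i2 : Function.Injective (fun i : ℕ => 2 * i) := fun a b h => by
    have : 2 * a = 2 * b := h
    omega
  have i3 : Function.Injective (fun i : ℕ => 2 * i + 1) := fun a b h => by
    have : 2 * a + 1 = 2 * b + 1 := h
    omega
  have hin : ∀ (c : ℕ × ℕ) (X A : Pt), c ∉ X → (2 * c.1, c.2) ∉ m2 X A := by
    intro c X A hc h
    unfold m2 at h
    rw [Finset.mem_union, mg_mem, mg_mem] at h
    rcases h with ⟨d, hd, he⟩ | ⟨d, hd, he⟩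
    · have h1 := (Prod.mk.inj he).1
      have h2 := (Prod.mk.inj he).2
      have h3 : d = c := Prod.ext (by omega) h2
      exact hc (h3 ▸ hd)
    · have h1 := (Prod.mk.inj he).1
      omega
  refine ⟨?_, ?_, ?_⟩
  · rintro X Y X' Y' A B (⟨c, h1, h2, rfl, rfl⟩ | ⟨σ, hσ, rfl, rfl⟩)
    · refine Or.inl ⟨(2 * c.1, c.2), hin c X A h1, hin c Y B h2, ?_, ?_⟩
      · unfold m2
        rw [mg_rl_insert, Finset.insert_union]
        rfl
      · unfold m2
        rw [mg_rl_insert, Finset.insert_union]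
        rfl
    · have key : ∀ X A : Pt, m2 (rl σ id X) A = rl (mgE σ) id (m2 X A) := by
        intro X A
        unfold m2
        rw [mg_rl_union, mg_rl_rl, mg_rl_rl, mg_rl_rl]
        simp only [mgE_even, mgE_odd]
        rfl
      exact Or.inr ⟨mgE σ, mgE_inj hσ, key X A, key Y B⟩
  · intro k hk X Y A
    unfold m2
    rw [diff_union2 hk _ _ _ (hd X A).symm (hd Y A).symm]
    exact (hk X Y _ _ (Or.inr ⟨_, i2, rfl, rfl⟩)).symm
  · intro k hk X A B
    unfold m2
    rw [Finset.union_comm, Finset.union_comm (rl _ _ X) (rl _ _ B),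
      diff_union2 hk _ _ _ (hd X A) (hd X B)]
    exact (hk A B _ _ (Or.inr ⟨_, i3, rfl, rfl⟩)).symm

end Pool.Agent.Lib.MP_90b327_co.RB
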