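import Mathlib
import Pool.Agent.Lib.MP_90b327_co.RB.RDefs
import Pool.Agent.Lib.MP_90b327_co.RB.DiffOnly
import Pool.Agent.Lib.MP_90b327_co.RB.Mg
import Pool.Agent.Lib.MP_90b327_co.RB.RepC

/-!
MODULE LevelOne (25 minutes, old scale). Text section 4.

PROOF. `D ≤ 1/2`: choose `I = range a`, `J = range b` (`Sg a b`), `X = ∅`: `g ∅ (I ×ˢ J) = 0` by `h.bad`;
`h.psd` with the two vectors `∅`, `I ×ˢ J` and coefficients `1, 1`: `4 D² ≤ 2 D`, so `D ≤ 1/2` as `D > 0`.
`Ker R1 k` for `k X Y = (((g X Y - D ^ 2) / (D - D ^ 2) : ℝ) : ℂ)`: `one` from `h.diag`; `herm` from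
`h.symm`; `psd`: for `ι, X, c` with `c i = p i + q i I` the real part of the sum is
`(∑∑ p i p j (g - D²) + ∑∑ q i q j (g - D²)) / (D - D²) ≥ 0` by `h.psd` (`∑∑ p i p j D² = D² (∑ p i)²`);
`rel`: `pker_diff` and `h.inv`. Then apply `rep mrg1`.
-/

set_option autoImplicit false

namespace Pool.Agent.Lib.MP_90b327_co.RB

private theorem lo_half {Sg : ℕ → ℕ → Prop} {D : ℝ} {g : Pt → Pt → ℝ} (h : PKer Sg D g) (hD : 0 < D)
    (a b : ℕ) (hab : Sg a b) : D ≤ 1 / 2 := by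
  have h1 := h.bad ∅ (Finset.range a) (Finset.range b) (by
    rw [Finset.card_range, Finset.card_range]
    exact hab) (Finset.disjoint_empty_left _)
  have h2 := h.psd Bool (fun o => if o = true then ∅ else ∅ ∪ Finset.range a ×ˢ Finset.range b) (fun _ => 1)
  simp only [Fintype.sum_bool, if_true, Bool.false_eq_true, if_false, mul_one, one_mul] at h2
  rw [h.symm (∅ ∪ Finset.range a ×ˢ Finset.range b) ∅, h1, h.diag, h.diag] at h2
  nlinarith

private theorem lo_re (p q p' q' r : ℝ) :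
    ((starRingEnd ℂ) (⟨p, q⟩ : ℂ) * (⟨p', q'⟩ : ℂ) * ((r : ℝ) : ℂ)).re = (p * p' + q * q') * r := by
  simp only [Complex.mul_re, Complex.mul_im, Complex.conj_re, Complex.conj_im, Complex.ofReal_re,
    Complex.ofReal_im]
  ring

private theorem lo_ker {Sg : ℕ → ℕ → Prop} {D : ℝ} {g : Pt → Pt → ℝ} (h : PKer Sg D g) (hD : 0 < D)
    (hD1 : D < 1) : Ker R1 (fun X Y => (((g X Y - D ^ 2) / (D - D ^ 2) : ℝ) : ℂ)) := by
  have hpos : 0 < D - D ^ 2 := by nlinarith
  refine ⟨fun X => ?_, fun X Y => ?_, fun ι _ X c => ?_, fun X Y X' Y' hR => ?_⟩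
  · rw [h.diag, div_self hpos.ne', Complex.ofReal_one]
  · rw [Complex.conj_ofReal, h.symm]
  · rw [Complex.re_sum]
    have h1 : ∀ i, (∑ j, (starRingEnd ℂ) (c i) * c j * (((g (X i) (X j) - D ^ 2) / (D - D ^ 2) : ℝ) : ℂ)).re =
        ∑ j, ((c i).re * (c j).re + (c i).im * (c j).im) * ((g (X i) (X j) - D ^ 2) / (D - D ^ 2)) := by
      intro i
      rw [Complex.re_sum]
      refine Finset.sum_congr rfl fun j _ => ?_
      exact lo_re _ _ _ _ _
    rw [Finset.sum_congr rfl fun i _ => h1 i]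
    have h2 : ∑ i, ∑ j, ((c i).re * (c j).re + (c i).im * (c j).im) *
        ((g (X i) (X j) - D ^ 2) / (D - D ^ 2)) =
        ((∑ i, ∑ j, (c i).re * (c j).re * g (X i) (X j) - D ^ 2 * (∑ i, (c i).re) ^ 2) +
          (∑ i, ∑ j, (c i).im * (c j).im * g (X i) (X j) - D ^ 2 * (∑ i, (c i).im) ^ 2)) /
            (D - D ^ 2) := by
      rw [sq (∑ i, (c i).re), sq (∑ i, (c i).im), Finset.sum_mul_sum, Finset.sum_mul_sum,
        Finset.mul_sum, Finset.mul_sum, ← Finset.sum_sub_distrib, ← Finset.sum_sub_distrib,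
        ← Finset.sum_add_distrib, Finset.sum_div]
      refine Finset.sum_congr rfl fun i _ => ?_
      rw [Finset.mul_sum, Finset.mul_sum, ← Finset.sum_sub_distrib, ← Finset.sum_sub_distrib,
        ← Finset.sum_add_distrib, Finset.sum_div]
      refine Finset.sum_congr rfl fun j _ => ?_
      ring
    rw [h2]
    have h3 := h.psd ι X (fun i => (c i).re)
    have h4 := h.psd ι X (fun i => (c i).im)
    exact div_nonneg (by linarith) hpos.le
  · have h1 : g X' Y' = g X Y := by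
      rcases hR with ⟨c, h1, h2, h3, h4⟩ | ⟨σ, τ, h1, h2, h3, h4⟩
      · rw [h3, h4]
        exact pker_diff h X Y c h1 h2
      · rw [h3, h4]
        exact h.inv σ τ h1 h2 X Y
    rw [h1]

theorem level_one {Sg : ℕ → ℕ → Prop} {D : ℝ} {g : Pt → Pt → ℝ} (h : PKer Sg D g) (hD : 0 < D)
    (a b : ℕ) (hab : Sg a b) : D < 1 ∧
      Nonempty (Repr m1 R1 (fun X Y => (((g X Y - D ^ 2) / (D - D ^ 2) : ℝ) : ℂ))) := by
  have h1 := lo_half h hD a b hab
  have hD1 : D < 1 := by linarith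
  exact ⟨hD1, rep mrg1 _ (lo_ker h hD hD1)⟩

end Pool.Agent.Lib.MP_90b327_co.RB
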