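import Mathlib
import Pool.Agent.Lib.MP_90b327_co.RB.RDefs
import Pool.Agent.Lib.MP_90b327_co.RB.Mg

/-!
MODULE ToTwoA (45 minutes, old scale). Text section 5: product arrays.

The product of the signed row vector `f - e` (sets of rows) and of the signed column vector `y - x` (sets of
columns) is `1` on `pos e f x y` and `-1` on `neg e f x y`.

PROOFS.
`w_inv`: for disjoint finite sets `e`, `f` there is an injective `σ : ℕ → ℕ` which maps `range f.card` onto
`f` and `Ico f.card (f.card + e.card)` onto `e` (enumerate `f`, `e` on these intervals, for instance with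
`Finset.orderEmbOfFin` or `Finset.equivFin`; for `n ≥ f.card + e.card` put `σ n = n + M`, `M` larger than
all elements of `e`, `f`); likewise `τ` for `y`, `x`. The pair on the right is mapped to the pair on the
left by `rl σ τ` (`rl σ τ (A ×ˢ B) = A.image σ ×ˢ B.image τ`), use `h.ker.rel`.
`tr_neg`, `tr_pos`: extensionality.
`chr_tr`: `tr` is an involution, injective, `tr (rl σ τ X) = rl τ σ (tr X)`, `tr (insert c X) =
insert c.swap (tr X)`, `tr (m1 X A) = m1 (tr X) (tr A)`. `psd`: the same coefficients with the patterns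
`tr (X i)`.
-/

set_option autoImplicit false

namespace Pool.Agent.Lib.MP_90b327_co.RB

/-- cells with the value `-1` -/
def neg (e f x y : Finset ℕ) : Pt := f ×ˢ x ∪ e ×ˢ y

/-- cells with the value `1` -/
def pos (e f x y : Finset ℕ) : Pt := f ×ˢ y ∪ e ×ˢ x

/-- the numbers `W` -/
def wv (θ : Pt → Pt → ℂ) (p q a b : ℕ) : ℂ :=
  θ (neg (Finset.Ico p (p + q)) (Finset.range p) (Finset.Ico a (a + b)) (Finset.range a))
    (pos (Finset.Ico p (p + q)) (Finset.range p) (Finset.Ico a (a + b)) (Finset.range a))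

private theorem ToTwoA_inj (e f : Finset ℕ) (hef : Disjoint e f) :
    ∃ σ : ℕ → ℕ, Function.Injective σ ∧ (Finset.range f.card).image σ = f ∧
      (Finset.Ico f.card (f.card + e.card)).image σ = e := by
  classical
  let M : ℕ := (e ∪ f).sup id + 1
  have hM : ∀ a ∈ e ∪ f, a < M := fun a ha => Nat.lt_succ_of_le (Finset.le_sup (f := id) ha)
  let σ : ℕ → ℕ := fun n =>
    if h : n < f.card then ((f.equivFin.symm ⟨n, h⟩ : f) : ℕ)
    else if h' : n - f.card < e.card then ((e.equivFin.symm ⟨n - f.card, h'⟩ : e) : ℕ)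
    else n + M
  have h1 : ∀ n (h : n < f.card), σ n = ((f.equivFin.symm ⟨n, h⟩ : f) : ℕ) := by
    intro n h
    simp only [σ]
    rw [dif_pos h]
  have h2 : ∀ n, f.card ≤ n → ∀ h : n - f.card < e.card,
      σ n = ((e.equivFin.symm ⟨n - f.card, h⟩ : e) : ℕ) := by
    intro n hn h
    simp only [σ]
    rw [dif_neg (not_lt.mpr hn), dif_pos h]
  have h3 : ∀ n, f.card + e.card ≤ n → σ n = n + M := by
    intro n hn
    simp only [σ]
    rw [dif_neg (by omega), dif_neg (by omega)]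
  have m1 : ∀ n, n < f.card → σ n ∈ f := by
    intro n h
    rw [h1 n h]
    exact Finset.coe_mem _
  have m2 : ∀ n, f.card ≤ n → n < f.card + e.card → σ n ∈ e := by
    intro n hn h
    rw [h2 n hn (by omega)]
    exact Finset.coe_mem _
  have m3 : ∀ n, f.card + e.card ≤ n → σ n ∉ e ∪ f := by
    intro n hn h
    have := hM _ h
    rw [h3 n hn] at this
    omega
  have hne : ∀ a, a ∈ e → a ∈ f → False := fun a ha hb => Finset.disjoint_left.mp hef ha hb
  refine ⟨σ, ?_, ?_, ?_⟩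
  · intro m n hmn
    rcases lt_or_ge m f.card with hm | hm
    · rcases lt_or_ge n f.card with hn | hn
      · rw [h1 m hm, h1 n hn] at hmn
        have h5 := f.equivFin.symm.injective (Subtype.ext hmn)
        exact Fin.mk.inj h5
      · rcases lt_or_ge n (f.card + e.card) with hn' | hn'
        · exact (hne _ (m2 n hn hn') (hmn ▸ m1 m hm)).elim
        · exact (m3 n hn' (Finset.mem_union_right _ (hmn ▸ m1 m hm))).elim
    · rcases lt_or_ge m (f.card + e.card) with hm' | hm'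
      · rcases lt_or_ge n f.card with hn | hn
        · exact (hne _ (m2 m hm hm') (hmn.symm ▸ m1 n hn)).elim
        · rcases lt_or_ge n (f.card + e.card) with hn' | hn'
          · rw [h2 m hm (by omega), h2 n hn (by omega)] at hmn
            have h5 := e.equivFin.symm.injective (Subtype.ext hmn)
            have h6 := Fin.mk.inj h5
            omega
          · exact (m3 n hn' (Finset.mem_union_left _ (hmn ▸ m2 m hm hm'))).elim
      · rcases lt_or_ge n f.card with hn | hn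
        · exact (m3 m hm' (Finset.mem_union_right _ (hmn.symm ▸ m1 n hn))).elim
        · rcases lt_or_ge n (f.card + e.card) with hn' | hn'
          · exact (m3 m hm' (Finset.mem_union_left _ (hmn.symm ▸ m2 n hn hn'))).elim
          · rw [h3 m hm', h3 n hn'] at hmn
            omega
  · ext a
    rw [Finset.mem_image]
    constructor
    · rintro ⟨n, hn, rfl⟩
      exact m1 n (Finset.mem_range.mp hn)
    · intro ha
      refine ⟨f.equivFin ⟨a, ha⟩, Finset.mem_range.mpr (f.equivFin ⟨a, ha⟩).2, ?_⟩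
      rw [h1 _ (f.equivFin ⟨a, ha⟩).2, Fin.eta, Equiv.symm_apply_apply]
  · ext a
    rw [Finset.mem_image]
    constructor
    · rintro ⟨n, hn, rfl⟩
      rw [Finset.mem_Ico] at hn
      exact m2 n hn.1 hn.2
    · intro ha
      refine ⟨f.card + e.equivFin ⟨a, ha⟩, Finset.mem_Ico.mpr ⟨Nat.le_add_right _ _,
        Nat.add_lt_add_left (e.equivFin ⟨a, ha⟩).2 _⟩, ?_⟩
      have h4 : f.card + (e.equivFin ⟨a, ha⟩ : ℕ) - f.card < e.card := by
        rw [Nat.add_sub_cancel_left]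
        exact (e.equivFin ⟨a, ha⟩).2
      rw [h2 _ (Nat.le_add_right _ _) h4]
      have h5 : (⟨f.card + (e.equivFin ⟨a, ha⟩ : ℕ) - f.card, h4⟩ : Fin e.card) =
          e.equivFin ⟨a, ha⟩ := Fin.ext (Nat.add_sub_cancel_left _ _)
      rw [h5, Equiv.symm_apply_apply]

private theorem ToTwoA_prod (σ τ : ℕ → ℕ) (A B : Finset ℕ) :
    rl σ τ (A ×ˢ B) = A.image σ ×ˢ B.image τ := by
  ext ⟨a, b⟩
  simp only [rl, Finset.mem_image, Finset.mem_product, Prod.mk.injEq, Prod.exists]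
  constructor
  · rintro ⟨i, j, ⟨hi, hj⟩, rfl, rfl⟩
    exact ⟨⟨i, hi, rfl⟩, ⟨j, hj, rfl⟩⟩
  · rintro ⟨⟨i, hi, rfl⟩, ⟨j, hj, rfl⟩⟩
    exact ⟨i, j, ⟨hi, hj⟩, rfl, rfl⟩

private theorem ToTwoA_un (σ τ : ℕ → ℕ) (X Y : Pt) :
    rl σ τ (X ∪ Y) = rl σ τ X ∪ rl σ τ Y := Finset.image_union _ _

theorem w_inv {θ : Pt → Pt → ℂ} (h : Chr θ) (e f x y : Finset ℕ) (hef : Disjoint e f)
    (hxy : Disjoint x y) : θ (neg e f x y) (pos e f x y) = wv θ f.card e.card y.card x.card := by
  obtain ⟨σ, hσ, hf, he⟩ := ToTwoA_inj e f hef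
  obtain ⟨τ, hτ, hy, hx⟩ := ToTwoA_inj x y hxy
  unfold wv
  refine (h.ker.rel _ _ _ _ (Or.inr ⟨σ, τ, hσ, hτ, ?_, ?_⟩)).symm
  · unfold neg
    rw [ToTwoA_un, ToTwoA_prod, ToTwoA_prod, hf, hx, he, hy]
  · unfold pos
    rw [ToTwoA_un, ToTwoA_prod, ToTwoA_prod, hf, hx, he, hy]

private theorem ToTwoA_mem (X : Pt) (a b : ℕ) : (a, b) ∈ tr X ↔ (b, a) ∈ X := by
  unfold tr
  rw [Finset.mem_image]
  constructor
  · rintro ⟨⟨c, d⟩, h, h'⟩
    obtain ⟨rfl, rfl⟩ := Prod.mk.inj h'
    exact h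
  · intro h
    exact ⟨(b, a), h, rfl⟩

theorem tr_neg (e f x y : Finset ℕ) : tr (neg e f x y) = neg x y e f := by
  ext ⟨a, b⟩
  rw [ToTwoA_mem]
  unfold neg
  simp only [Finset.mem_union, Finset.mem_product]
  tauto

theorem tr_pos (e f x y : Finset ℕ) : tr (pos e f x y) = pos x y e f := by
  ext ⟨a, b⟩
  rw [ToTwoA_mem]
  unfold pos
  simp only [Finset.mem_union, Finset.mem_product]
  tauto

theorem tr_union (X Y : Pt) : tr (X ∪ Y) = tr X ∪ tr Y := Finset.image_union _ _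

theorem tr_tr (X : Pt) : tr (tr X) = X := by
  ext ⟨a, b⟩
  rw [ToTwoA_mem, ToTwoA_mem]

private theorem ToTwoA_rl (σ τ : ℕ → ℕ) (X : Pt) : tr (rl σ τ X) = rl τ σ (tr X) := by
  unfold tr rl
  rw [Finset.image_image, Finset.image_image]
  rfl

private theorem ToTwoA_ins (c : ℕ × ℕ) (X : Pt) : tr (insert c X) = insert c.swap (tr X) :=
  Finset.image_insert _ _ _

theorem chr_tr {θ : Pt → Pt → ℂ} (h : Chr θ) : Chr (fun X Y => θ (tr X) (tr Y)) := by
  refine ⟨⟨fun X => h.ker.one _, fun X Y => h.ker.herm _ _, ?_, ?_⟩, ?_⟩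
  · intro ι _ X c
    exact h.ker.psd ι (fun i => tr (X i)) c
  · intro X Y X' Y' hR
    refine h.ker.rel _ _ _ _ ?_
    rcases hR with ⟨c, hX, hY, rfl, rfl⟩ | ⟨σ, τ, hσ, hτ, rfl, rfl⟩
    · refine Or.inl ⟨c.swap, ?_, ?_, ToTwoA_ins c X, ToTwoA_ins c Y⟩
      · obtain ⟨a, b⟩ := c
        exact fun h => hX ((ToTwoA_mem X b a).mp h)
      · obtain ⟨a, b⟩ := c
        exact fun h => hY ((ToTwoA_mem Y b a).mp h)
    · exact Or.inr ⟨τ, σ, hτ, hσ, ToTwoA_rl σ τ X, ToTwoA_rl σ τ Y⟩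
  · intro X Y A B
    have hm : ∀ X A : Pt, tr (m1 X A) = m1 (tr X) (tr A) := by
      intro X A
      unfold m1
      rw [tr_union, ToTwoA_rl, ToTwoA_rl]
    show θ (tr (m1 X A)) (tr (m1 Y B)) = θ (tr X) (tr Y) * θ (tr A) (tr B)
    rw [hm, hm, h.mul]

end Pool.Agent.Lib.MP_90b327_co.RB
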