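import Mathlib
import Pool.Agent.Lib.MP_90b327_co.RB.RDefs
import Pool.Agent.Lib.MP_90b327_co.RB.Mg

/-!
MODULE RowMul (40 minutes, old scale). Text sections 4, 5.

PROOFS.
`row_mul`: `S` = the finite set of rows of `X ∪ Y`, `σ r = if r ∈ S then 2 * r else 2 * r + 1` (injective).
`rl σ id (X ∪ A) = m2 X A` and `rl σ id (Y ∪ B) = m2 Y B`, so `κ (X ∪ A) (Y ∪ B) = κ (m2 X A) (m2 Y B)`
(`hκ.rel`, second case of `R2`) `= κ X Y * κ A B`.
`chr_mul`: the same with rows and columns (`σ`, `τ`, `m1`, `R1`).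
`row_prod`: (1) `κ ({i} ×ˢ x) ({i} ×ˢ y) = κ ({0} ×ˢ x) ({0} ×ˢ y)` (relabelling by the transposition of
`0` and `i`); (2) `κ (I ×ˢ x) (I ×ˢ y) = κ ({0} ×ˢ x) ({0} ×ˢ y) ^ I.card`: induction on `I` with `row_mul`
(`I = ∅`: `κ ∅ ∅ = 1`); (3) for a finite set `s` of indices `κ (⋃_{k ∈ s} I k ×ˢ x k)
(⋃_{k ∈ s} I k ×ˢ y k) = ∏_{k ∈ s} ...`: induction on `s` with `row_mul` (the `I k` are pairwise
disjoint).
-/

set_option autoImplicit false

namespace Pool.Agent.Lib.MP_90b327_co.RB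

private theorem rowmul_union (σ τ : ℕ → ℕ) (X Y : Pt) :
    rl σ τ (X ∪ Y) = rl σ τ X ∪ rl σ τ Y := by
  unfold rl
  exact Finset.image_union _ _

private theorem rowmul_congr {σ τ σ' τ' : ℕ → ℕ} (X : Pt)
    (h : ∀ c ∈ X, σ c.1 = σ' c.1 ∧ τ c.2 = τ' c.2) : rl σ τ X = rl σ' τ' X := by
  unfold rl
  refine Finset.image_congr fun c hc => ?_
  show (σ c.1, τ c.2) = (σ' c.1, τ' c.2)
  rw [(h c hc).1, (h c hc).2]

private theorem rowmul_split (S : Finset ℕ) :
    Function.Injective (fun r : ℕ => if r ∈ S then 2 * r else 2 * r + 1) := by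
  intro a b h
  simp only at h
  split_ifs at h <;> omega

private theorem rowmul_single (i : ℕ) (u : Finset ℕ) :
    rl (Equiv.swap 0 i) id (({i} : Finset ℕ) ×ˢ u) = ({0} : Finset ℕ) ×ˢ u := by
  ext c
  unfold rl
  rw [Finset.mem_image, Finset.mem_product, Finset.mem_singleton]
  constructor
  · rintro ⟨c', hc', rfl⟩
    rw [Finset.mem_product, Finset.mem_singleton] at hc'
    refine ⟨?_, hc'.2⟩
    show Equiv.swap 0 i c'.1 = 0
    rw [hc'.1, Equiv.swap_apply_right]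
  · rintro ⟨h1, h2⟩
    refine ⟨(i, c.2), ?_, ?_⟩
    · rw [Finset.mem_product, Finset.mem_singleton]
      exact ⟨rfl, h2⟩
    · show (Equiv.swap 0 i i, c.2) = c
      rw [Equiv.swap_apply_right, ← h1]

theorem row_mul {κ : Pt → Pt → ℂ} (hκ : Ker R2 κ)
    (hm : ∀ X Y A B, κ (m2 X A) (m2 Y B) = κ X Y * κ A B) (X Y A B : Pt)
    (hd : ∀ c ∈ X ∪ Y, ∀ c' ∈ A ∪ B, c.1 ≠ c'.1) : κ (X ∪ A) (Y ∪ B) = κ X Y * κ A B := by
  classical
  obtain ⟨S, hS⟩ : ∃ S : Finset ℕ, S = (X ∪ Y).image Prod.fst := ⟨_, rfl⟩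
  obtain ⟨σ, hσ⟩ : ∃ σ : ℕ → ℕ, σ = fun r => if r ∈ S then 2 * r else 2 * r + 1 := ⟨_, rfl⟩
  have hinj : Function.Injective σ := by rw [hσ]; exact rowmul_split S
  have hin : ∀ c ∈ X ∪ Y, σ c.1 = 2 * c.1 := by
    intro c hc
    have h1 : c.1 ∈ S := by rw [hS]; exact Finset.mem_image_of_mem _ hc
    rw [hσ]
    exact if_pos h1
  have hout : ∀ c ∈ A ∪ B, σ c.1 = 2 * c.1 + 1 := by
    intro c hc
    have h1 : c.1 ∉ S := by
      rw [hS, Finset.mem_image]
      rintro ⟨c', hc', he⟩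
      exact hd c' hc' c hc he
    rw [hσ]
    exact if_neg h1
  have key : ∀ U V : Pt, (∀ c ∈ U, c ∈ X ∪ Y) → (∀ c ∈ V, c ∈ A ∪ B) →
      rl σ id (U ∪ V) = m2 U V := by
    intro U V hU hV
    rw [rowmul_union]
    unfold m2
    rw [rowmul_congr (σ' := fun i => 2 * i) (τ' := id) U fun c hc => ⟨hin c (hU c hc), rfl⟩,
      rowmul_congr (σ' := fun i => 2 * i + 1) (τ' := id) V fun c hc => ⟨hout c (hV c hc), rfl⟩]
  rw [hκ.rel (X ∪ A) (Y ∪ B) (rl σ id (X ∪ A)) (rl σ id (Y ∪ B)) (Or.inr ⟨σ, hinj, rfl, rfl⟩),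
    key X A (fun c hc => Finset.mem_union_left _ hc) (fun c hc => Finset.mem_union_left _ hc),
    key Y B (fun c hc => Finset.mem_union_right _ hc) (fun c hc => Finset.mem_union_right _ hc),
    hm]

theorem chr_mul {θ : Pt → Pt → ℂ} (h : Chr θ) (X Y A B : Pt)
    (hd : ∀ c ∈ X ∪ Y, ∀ c' ∈ A ∪ B, c.1 ≠ c'.1 ∧ c.2 ≠ c'.2) :
    θ (X ∪ A) (Y ∪ B) = θ X Y * θ A B := by
  classical
  obtain ⟨S, hS⟩ : ∃ S : Finset ℕ, S = (X ∪ Y).image Prod.fst := ⟨_, rfl⟩
  obtain ⟨S', hS'⟩ : ∃ S' : Finset ℕ, S' = (X ∪ Y).image Prod.snd := ⟨_, rfl⟩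
  obtain ⟨σ, hσ⟩ : ∃ σ : ℕ → ℕ, σ = fun r => if r ∈ S then 2 * r else 2 * r + 1 := ⟨_, rfl⟩
  obtain ⟨τ, hτ⟩ : ∃ τ : ℕ → ℕ, τ = fun r => if r ∈ S' then 2 * r else 2 * r + 1 := ⟨_, rfl⟩
  have hinj : Function.Injective σ := by rw [hσ]; exact rowmul_split S
  have hinj' : Function.Injective τ := by rw [hτ]; exact rowmul_split S'
  have hin : ∀ c ∈ X ∪ Y, σ c.1 = 2 * c.1 ∧ τ c.2 = 2 * c.2 := by
    intro c hc
    have h1 : c.1 ∈ S := by rw [hS]; exact Finset.mem_image_of_mem _ hc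
    have h2 : c.2 ∈ S' := by rw [hS']; exact Finset.mem_image_of_mem _ hc
    rw [hσ, hτ]
    exact ⟨if_pos h1, if_pos h2⟩
  have hout : ∀ c ∈ A ∪ B, σ c.1 = 2 * c.1 + 1 ∧ τ c.2 = 2 * c.2 + 1 := by
    intro c hc
    have h1 : c.1 ∉ S := by
      rw [hS, Finset.mem_image]
      rintro ⟨c', hc', he⟩
      exact (hd c' hc' c hc).1 he
    have h2 : c.2 ∉ S' := by
      rw [hS', Finset.mem_image]
      rintro ⟨c', hc', he⟩
      exact (hd c' hc' c hc).2 he
    rw [hσ, hτ]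
    exact ⟨if_neg h1, if_neg h2⟩
  have key : ∀ U V : Pt, (∀ c ∈ U, c ∈ X ∪ Y) → (∀ c ∈ V, c ∈ A ∪ B) →
      rl σ τ (U ∪ V) = m1 U V := by
    intro U V hU hV
    rw [rowmul_union]
    unfold m1
    rw [rowmul_congr (σ' := fun i => 2 * i) (τ' := fun j => 2 * j) U fun c hc => hin c (hU c hc),
      rowmul_congr (σ' := fun i => 2 * i + 1) (τ' := fun j => 2 * j + 1) V
        fun c hc => hout c (hV c hc)]
  rw [h.ker.rel (X ∪ A) (Y ∪ B) (rl σ τ (X ∪ A)) (rl σ τ (Y ∪ B))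
      (Or.inr ⟨σ, τ, hinj, hinj', rfl, rfl⟩),
    key X A (fun c hc => Finset.mem_union_left _ hc) (fun c hc => Finset.mem_union_left _ hc),
    key Y B (fun c hc => Finset.mem_union_right _ hc) (fun c hc => Finset.mem_union_right _ hc),
    h.mul]

theorem row_prod {κ : Pt → Pt → ℂ} (hκ : Ker R2 κ)
    (hm : ∀ X Y A B, κ (m2 X A) (m2 Y B) = κ X Y * κ A B) (n : ℕ) (I x y : Fin n → Finset ℕ)
    (hI : ∀ k l, k ≠ l → Disjoint (I k) (I l)) :
    κ (stk I x) (stk I y) =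
      ∏ k, κ (({0} : Finset ℕ) ×ˢ x k) (({0} : Finset ℕ) ×ˢ y k) ^ (I k).card := by
  classical
  have hone : ∀ (i : ℕ) (u v : Finset ℕ), κ (({i} : Finset ℕ) ×ˢ u) (({i} : Finset ℕ) ×ˢ v) =
      κ (({0} : Finset ℕ) ×ˢ u) (({0} : Finset ℕ) ×ˢ v) := by
    intro i u v
    refine hκ.rel _ _ _ _ (Or.inr ⟨Equiv.swap 0 i, (Equiv.swap 0 i).injective, ?_, ?_⟩)
    · exact (rowmul_single i u).symm
    · exact (rowmul_single i v).symm
  have hmany : ∀ (J u v : Finset ℕ), κ (J ×ˢ u) (J ×ˢ v) =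
      κ (({0} : Finset ℕ) ×ˢ u) (({0} : Finset ℕ) ×ˢ v) ^ J.card := by
    intro J u v
    induction J using Finset.induction_on with
    | empty =>
      rw [Finset.empty_product, Finset.empty_product, hκ.one, Finset.card_empty, pow_zero]
    | insert i J hi ih =>
      have e : ∀ w : Finset ℕ, (insert i J) ×ˢ w = (({i} : Finset ℕ) ×ˢ w) ∪ (J ×ˢ w) := by
        intro w
        rw [← Finset.union_product, Finset.insert_eq]
      rw [e u, e v, row_mul hκ hm, hone, ih, Finset.card_insert_of_notMem hi, pow_succ']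
      intro c hc c' hc' he
      have h1 : c.1 = i := by
        rcases Finset.mem_union.mp hc with h | h
        · exact Finset.mem_singleton.mp (Finset.mem_product.mp h).1
        · exact Finset.mem_singleton.mp (Finset.mem_product.mp h).1
      have h2 : c'.1 ∈ J := by
        rcases Finset.mem_union.mp hc' with h | h
        · exact (Finset.mem_product.mp h).1
        · exact (Finset.mem_product.mp h).1
      rw [← he, h1] at h2
      exact hi h2
  have hall : ∀ s : Finset (Fin n), κ (s.biUnion (fun k => I k ×ˢ x k))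
      (s.biUnion (fun k => I k ×ˢ y k)) =
      ∏ k ∈ s, κ (({0} : Finset ℕ) ×ˢ x k) (({0} : Finset ℕ) ×ˢ y k) ^ (I k).card := by
    intro s
    induction s using Finset.induction_on with
    | empty =>
      rw [Finset.biUnion_empty, Finset.biUnion_empty, hκ.one, Finset.prod_empty]
    | insert k s hk ih =>
      rw [Finset.biUnion_insert, Finset.biUnion_insert, row_mul hκ hm, hmany, ih,
        Finset.prod_insert hk]
      intro c hc c' hc' he
      have h1 : c.1 ∈ I k := by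
        rcases Finset.mem_union.mp hc with h | h
        · exact (Finset.mem_product.mp h).1
        · exact (Finset.mem_product.mp h).1
      have h2 : ∃ l ∈ s, c'.1 ∈ I l := by
        rcases Finset.mem_union.mp hc' with h | h
        · obtain ⟨l, hl, h3⟩ := Finset.mem_biUnion.mp h
          exact ⟨l, hl, (Finset.mem_product.mp h3).1⟩
        · obtain ⟨l, hl, h3⟩ := Finset.mem_biUnion.mp h
          exact ⟨l, hl, (Finset.mem_product.mp h3).1⟩
      obtain ⟨l, hl, h3⟩ := h2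
      have hkl : k ≠ l := by
        rintro rfl
        exact hk hl
      rw [he] at h1
      exact Finset.disjoint_left.mp (hI k l hkl) h1 h3
  exact hall Finset.univ

end Pool.Agent.Lib.MP_90b327_co.RB
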