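import Mathlib
import Pool.Agent.Lib.MP_90b327_co.RB.RDefs
import Pool.Agent.Lib.MP_90b327_co.RB.RepA

/-!
MODULE Gram (25 minutes, old scale). Text (5.1): Gram determinant of three unit vectors.

PROOF. `k' A B := k A B - k A Y * k Y B` is hermitian and positive definite: given `ι, X, c` put
`w = ∑ j, c j * k Y (X j)` and apply `PosK k` to the index type `Option ι` with the additional vector `Y`,
coefficient `-w`: the form is `S - ‖w‖² - ‖w‖² + ‖w‖² = S - ‖w‖²`, which is the form of `k'`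
(`k (X i) Y = conj (k Y (X i))`, `k Y Y = 1`). `posk_cs` for `k'`:
`‖k' X Z‖² ≤ (k' X X).re * (k' Z Z).re = (1 - ‖k X Y‖²) (1 - ‖k Y Z‖²)`; take square roots
(`Real.sqrt_mul`, `Real.le_sqrt`).
-/

set_option autoImplicit false

namespace Pool.Agent.Lib.MP_90b327_co.RB

private theorem gr_sq (u : ℂ) : u * (starRingEnd ℂ) u = ((‖u‖ ^ 2 : ℝ) : ℂ) := by
  rw [Complex.mul_conj, Complex.normSq_eq_norm_sq]

private theorem gr_posk {𝒳 : Type} (k : 𝒳 → 𝒳 → ℂ) (hk : PosK k)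
    (hh : ∀ X Y, k Y X = (starRingEnd ℂ) (k X Y)) (h1 : ∀ X, k X X = 1) (Y : 𝒳) :
    PosK (fun A B => k A B - k A Y * k Y B) := by
  intro ι _ X c
  obtain ⟨w, hw⟩ : ∃ w : ℂ, w = ∑ j, c j * k Y (X j) := ⟨_, rfl⟩
  have h2 := hk (Option ι) (fun o => o.elim Y X) (fun o => o.elim (-w) c)
  simp only [Fintype.sum_option, Option.elim_none, Option.elim_some] at h2
  rw [Finset.sum_add_distrib, h1] at h2
  have h3 : ∑ i, (starRingEnd ℂ) (-w) * c i * k Y (X i) = -((starRingEnd ℂ) w * w) := by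
    have h4 : ∀ i, (starRingEnd ℂ) (-w) * c i * k Y (X i) = (-(starRingEnd ℂ) w) * (c i * k Y (X i)) := by
      intro i
      rw [map_neg]
      ring
    rw [Finset.sum_congr rfl fun i _ => h4 i, ← Finset.mul_sum, ← hw]
    ring
  have h4 : ∑ i, (starRingEnd ℂ) (c i) * (-w) * k (X i) Y = -((starRingEnd ℂ) w * w) := by
    have h5 : ∀ i, (starRingEnd ℂ) (c i) * (-w) * k (X i) Y = (-w) * (starRingEnd ℂ) (c i * k Y (X i)) := by
      intro i
      rw [map_mul, ← hh Y (X i)]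
      ring
    rw [Finset.sum_congr rfl fun i _ => h5 i, ← Finset.mul_sum, ← map_sum, ← hw]
    ring
  have h5 : ∑ i, ∑ j, (starRingEnd ℂ) (c i) * c j * (k (X i) (X j) - k (X i) Y * k Y (X j)) =
      ∑ i, ∑ j, (starRingEnd ℂ) (c i) * c j * k (X i) (X j) - (starRingEnd ℂ) w * w := by
    have h6 : (starRingEnd ℂ) w * w = ∑ i, ∑ j, (starRingEnd ℂ) (c i) * c j * (k (X i) Y * k Y (X j)) := by
      rw [hw, map_sum, Finset.sum_mul_sum]
      refine Finset.sum_congr rfl fun i _ => Finset.sum_congr rfl fun j _ => ?_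
      rw [map_mul, ← hh Y (X i)]
      ring
    rw [h6, ← Finset.sum_sub_distrib]
    refine Finset.sum_congr rfl fun i _ => ?_
    rw [← Finset.sum_sub_distrib]
    refine Finset.sum_congr rfl fun j _ => ?_
    ring
  rw [h5]
  rw [h3, h4] at h2
  have h7 : (starRingEnd ℂ) (-w) * -w * 1 + -((starRingEnd ℂ) w * w) + (-((starRingEnd ℂ) w * w) +
      ∑ i, ∑ j, (starRingEnd ℂ) (c i) * c j * k (X i) (X j)) =
      ∑ i, ∑ j, (starRingEnd ℂ) (c i) * c j * k (X i) (X j) - (starRingEnd ℂ) w * w := by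
    rw [map_neg]
    ring
  rw [← h7]
  exact h2

theorem gram3 {𝒳 : Type} (k : 𝒳 → 𝒳 → ℂ) (hk : PosK k)
    (hh : ∀ X Y, k Y X = (starRingEnd ℂ) (k X Y)) (h1 : ∀ X, k X X = 1) (X Y Z : 𝒳) :
    ‖k X Z - k X Y * k Y Z‖ ≤ Real.sqrt (1 - ‖k X Y‖ ^ 2) * Real.sqrt (1 - ‖k Y Z‖ ^ 2) := by
  have h2 := posk_cs (fun A B => k A B - k A Y * k Y B) (gr_posk k hk hh h1 Y) (fun A B => by
    rw [map_sub, map_mul, ← hh A B, ← hh A Y, ← hh Y B]
    ring) X Z
  have h3 : (k X X - k X Y * k Y X).re = 1 - ‖k X Y‖ ^ 2 := by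
    rw [h1, hh X Y, gr_sq, Complex.sub_re, Complex.one_re, Complex.ofReal_re]
  have h4 : (k Z Z - k Z Y * k Y Z).re = 1 - ‖k Y Z‖ ^ 2 := by
    rw [h1, hh Y Z, mul_comm, gr_sq, Complex.sub_re, Complex.one_re, Complex.ofReal_re]
  rw [h3, h4] at h2
  have h5 : 0 ≤ 1 - ‖k X Y‖ ^ 2 := by
    have h6 := posk_cs k hk hh X Y
    rw [h1, h1, Complex.one_re, mul_one] at h6
    linarith
  rw [← Real.sqrt_mul h5]
  exact Real.le_sqrt_of_sq_le h2

end Pool.Agent.Lib.MP_90b327_co.RB
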