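import Mathlib
import Pool.Agent.Lib.MP_90b327_co.RB.RDefs
import Pool.Agent.Lib.MP_90b327_co.RB.Gram
import Pool.Agent.Lib.MP_90b327_co.RB.RowMul
import Pool.Agent.Lib.MP_90b327_co.RB.RepC

/-!
MODULE RowSpace (30 minutes, old scale). Text section 5: the row space of a character.

PROOF. `Ker R2 θ` (from `h.ker`: `R2` related pairs are `R1` related, `τ = id`). `rep mrg2 θ` gives
`ρ : Repr m2 R2 θ`. Put `Ω = ρ.Ω`, `P = ρ.P`, `z x y ω = ρ.th ω ({0} ×ˢ x) ({0} ×ˢ y)`.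
`meas`: `ρ.meas`. `herm`: `(ρ.ker ω).herm`. `norm_le`: `ker_norm_le`. `gram`: `gram3` for `ρ.th ω` with
`X = {0} ×ˢ (x ∪ u)`, `Y = {0} ×ˢ (y ∪ u)`, `Z = {0} ×ˢ (y ∪ v)`; `diff_union2` with `C = {0} ×ˢ u` gives
`th X Y = z x y ω` (`u` is disjoint from `x`, `y`), with `C = {0} ×ˢ y` it gives `th Y Z = z u v ω`.
`IsRow`: `ρ.mean` and `row_prod (ρ.ker ω) (ρ.mul ω)`.
-/

set_option autoImplicit false

namespace Pool.Agent.Lib.MP_90b327_co.RB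

private theorem rs_ker {θ : Pt → Pt → ℂ} (h : Chr θ) : Ker R2 θ := by
  refine ⟨h.ker.one, h.ker.herm, h.ker.psd, fun X Y X' Y' hR => h.ker.rel X Y X' Y' ?_⟩
  rcases hR with h1 | ⟨σ, h1, h2, h3⟩
  · exact Or.inl h1
  · exact Or.inr ⟨σ, id, h1, Function.injective_id, h2, h3⟩

private theorem rs_shift {κ : Pt → Pt → ℂ} (hκ : Ker R2 κ) (x y u : Finset ℕ) (hx : Disjoint u x)
    (hy : Disjoint u y) : κ (({0} : Finset ℕ) ×ˢ (x ∪ u)) (({0} : Finset ℕ) ×ˢ (y ∪ u)) =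
      κ (({0} : Finset ℕ) ×ˢ x) (({0} : Finset ℕ) ×ˢ y) := by
  rw [Finset.product_union, Finset.product_union]
  exact diff_union2 hκ.rel _ _ _ (Finset.disjoint_product.2 (Or.inr hx))
    (Finset.disjoint_product.2 (Or.inr hy))

private theorem rs_gram {κ : Pt → Pt → ℂ} (hκ : Ker R2 κ) (x y u v : Finset ℕ)
    (hd : Disjoint (x ∪ y) (u ∪ v)) :
    ‖κ (({0} : Finset ℕ) ×ˢ (x ∪ u)) (({0} : Finset ℕ) ×ˢ (y ∪ v)) -
      κ (({0} : Finset ℕ) ×ˢ x) (({0} : Finset ℕ) ×ˢ y) *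
        κ (({0} : Finset ℕ) ×ˢ u) (({0} : Finset ℕ) ×ˢ v)‖ ≤
      Real.sqrt (1 - ‖κ (({0} : Finset ℕ) ×ˢ x) (({0} : Finset ℕ) ×ˢ y)‖ ^ 2) *
        Real.sqrt (1 - ‖κ (({0} : Finset ℕ) ×ˢ u) (({0} : Finset ℕ) ×ˢ v)‖ ^ 2) := by
  have h1 := gram3 κ hκ.psd hκ.herm hκ.one (({0} : Finset ℕ) ×ˢ (x ∪ u))
    (({0} : Finset ℕ) ×ˢ (y ∪ u)) (({0} : Finset ℕ) ×ˢ (y ∪ v))
  rw [Finset.disjoint_union_left, Finset.disjoint_union_right, Finset.disjoint_union_right] at hd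
  obtain ⟨⟨hxu, hxv⟩, hyu, hyv⟩ := hd
  have h2 := rs_shift hκ x y u hxu.symm hyu.symm
  have h3 := rs_shift hκ u v y hyu hyv
  rw [Finset.union_comm u y, Finset.union_comm v y] at h3
  rw [h2, h3] at h1
  exact h1

theorem exists_row2 {κ : Pt → Pt → ℂ} (h : Ker R2 κ) : ∃ s : Sp, IsRow κ s := by
  obtain ⟨ρ⟩ := rep mrg2 κ h
  refine ⟨{
    Ω := ρ.Ω
    P := ρ.P
    z := fun x y ω => ρ.th ω (({0} : Finset ℕ) ×ˢ x) (({0} : Finset ℕ) ×ˢ y)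
    meas := fun x y => ρ.meas _ _
    herm := fun x y ω => (ρ.ker ω).herm _ _
    norm_le := fun x y ω => ker_norm_le (ρ.ker ω) _ _
    gram := fun x y u v ω hd => rs_gram (ρ.ker ω) x y u v hd }, ?_⟩
  intro n I x y hI
  rw [ρ.mean]
  refine MeasureTheory.integral_congr_ae (Filter.Eventually.of_forall fun ω => ?_)
  exact row_prod (ρ.ker ω) (ρ.mul ω) n I x y hI

theorem exists_row {θ : Pt → Pt → ℂ} (h : Chr θ) : ∃ s : Sp, IsRow θ s := exists_row2 (rs_ker h)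

end Pool.Agent.Lib.MP_90b327_co.RB
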