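import Mathlib
import Pool.Agent.Lib.MP_90b327_co.RB.RDefs
import Pool.Agent.Lib.MP_90b327_co.RB.ToTwoA

/-!
MODULE ToTwoB (20 minutes, old scale). Text section 5: formula (5.2) for four classes of rows.

PROOF. `hs` with `n = 4`, `I = ![f, e, h, g]`, `x = ![x, y, u, v]`, `y = ![y, x, v, u]`: `stk I x =
f ×ˢ x ∪ e ×ˢ y ∪ h ×ˢ u ∪ g ×ˢ v = neg e f x y ∪ neg g h u v`, `stk I y = pos e f x y ∪ pos g h u v`
(extensionality, `Fin` sums), and the product over `Fin 4` (`Fin.prod_univ_four`). Pairwise disjointness of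
`I` from the hypotheses.
-/

set_option autoImplicit false

namespace Pool.Agent.Lib.MP_90b327_co.RB

private theorem ToTwoB_stk (f e h g x y u v : Finset ℕ) :
    stk ![f, e, h, g] ![x, y, u, v] = neg e f x y ∪ neg g h u v := by
  ext c
  unfold stk neg
  rw [Finset.mem_biUnion]
  constructor
  · rintro ⟨k, -, hk⟩
    fin_cases k
    · exact Finset.mem_union_left _ (Finset.mem_union_left _ hk)
    · exact Finset.mem_union_left _ (Finset.mem_union_right _ hk)
    · exact Finset.mem_union_right _ (Finset.mem_union_left _ hk)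
    · exact Finset.mem_union_right _ (Finset.mem_union_right _ hk)
  · intro hc
    rw [Finset.mem_union, Finset.mem_union, Finset.mem_union] at hc
    rcases hc with (hc | hc) | (hc | hc)
    · exact ⟨0, Finset.mem_univ _, hc⟩
    · exact ⟨1, Finset.mem_univ _, hc⟩
    · exact ⟨2, Finset.mem_univ _, hc⟩
    · exact ⟨3, Finset.mem_univ _, hc⟩

theorem row_four {θ : Pt → Pt → ℂ} {s : Sp} (hs : IsRow θ s) (e f g h x y u v : Finset ℕ)
    (hef : Disjoint e f) (hgh : Disjoint g h) (hd : Disjoint (e ∪ f) (g ∪ h)) :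
    ∫ ω, (s.z x y ω ^ f.card * s.z y x ω ^ e.card) * (s.z u v ω ^ h.card * s.z v u ω ^ g.card) ∂s.P =
      θ (neg e f x y ∪ neg g h u v) (pos e f x y ∪ pos g h u v) := by
  have hI : ∀ k l : Fin 4, k ≠ l → Disjoint ((![f, e, h, g] : Fin 4 → Finset ℕ) k)
      ((![f, e, h, g] : Fin 4 → Finset ℕ) l) := by
    rw [Finset.disjoint_union_left, Finset.disjoint_union_right, Finset.disjoint_union_right] at hd
    obtain ⟨⟨h1, h2⟩, h3, h4⟩ := hd
    intro k l hkl
    fin_cases k <;> fin_cases l
    · exact absurd rfl hkl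
    · exact hef.symm
    · exact h4
    · exact h3
    · exact hef
    · exact absurd rfl hkl
    · exact h2
    · exact h1
    · exact h4.symm
    · exact h2.symm
    · exact absurd rfl hkl
    · exact hgh.symm
    · exact h3.symm
    · exact h1.symm
    · exact hgh
    · exact absurd rfl hkl
  have key := hs 4 ![f, e, h, g] ![x, y, u, v] ![y, x, v, u] hI
  rw [ToTwoB_stk f e h g x y u v, ToTwoB_stk f e h g y x v u] at key
  have h1 : pos e f x y ∪ pos g h u v = neg e f y x ∪ neg g h v u := rfl
  rw [h1, key]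
  refine MeasureTheory.integral_congr_ae (Filter.Eventually.of_forall fun ω => ?_)
  simp only [Fin.prod_univ_four]
  exact (mul_assoc _ _ _).symm

end Pool.Agent.Lib.MP_90b327_co.RB
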