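import Mathlib
import Pool.Agent.Lib.MP_90b327_co.RB.RDefs

/-!
MODULE Lim (40 minutes, old scale). Text section 6.

PROOFS. `zz`: `s.z x y ω ^ (n + j) * s.z y x ω ^ n = (‖s.z x y ω‖ ^ 2) ^ n * s.z x y ω ^ j` (`s.herm`,
`z * conj z = ‖z‖²`).
Pointwise `(‖z‖²)^n z^j → e x y j ω` (`‖z‖ ≤ 1`: if `‖z‖ = 1` the value is constant, if `‖z‖ < 1` it tends
to `0`), bounded by `1`, so `tendsto_integral_of_dominated_convergence` with bound `1`.
`lim_one`: `mom` gives `W (n+j) n y.card x.card = ∫ ...`. `U_eq`: uniqueness of limits, applied to `x, y`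
and to the canonical sets `Ico a (a+b)`, `range a` of the same cardinalities. `U_lim` : `lim_one` for the
canonical sets. `U_two`: `ind` with `p = n + j`, `q = n`, `p' = n + i`, `q' = n`, both sides converge.
`e_swap`: `e y x j = conj (e x y j)`; `U_swap` by `integral_conj` and `U_eq`.
`e_meas`, `e_norm`: measurable (`Measurable.ite`, `measurableSet_eq_fun`), norm `≤ 1`.
-/

set_option autoImplicit false

namespace Pool.Agent.Lib.MP_90b327_co.RB

open Filter Topology MeasureTheory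

theorem zz (s : Sp) (x y : Finset ℕ) (n j : ℕ) (ω : s.Ω) :
    s.z x y ω ^ (n + j) * s.z y x ω ^ n =
      ((‖s.z x y ω‖ ^ 2) ^ n : ℝ) * s.z x y ω ^ j := by
  rw [s.herm x y ω]
  push_cast
  rw [← Complex.mul_conj', mul_pow, pow_add]
  ring

theorem e_meas (s : Sp) (x y : Finset ℕ) (j : ℕ) : Measurable (s.e x y j) := by
  unfold Sp.e
  exact Measurable.ite (measurableSet_eq_fun (s.meas x y).norm measurable_const)
    ((s.meas x y).pow_const j) measurable_const

theorem e_norm (s : Sp) (x y : Finset ℕ) (j : ℕ) (ω : s.Ω) : ‖s.e x y j ω‖ ≤ 1 := by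
  unfold Sp.e
  split_ifs with h
  · rw [norm_pow, h, one_pow]
  · rw [norm_zero]
    exact zero_le_one

theorem e_swap (s : Sp) (x y : Finset ℕ) (j : ℕ) (ω : s.Ω) :
    s.e y x j ω = (starRingEnd ℂ) (s.e x y j ω) := by
  unfold Sp.e
  rw [s.herm x y ω, Complex.norm_conj]
  split_ifs with h
  · rw [map_pow]
  · rw [map_zero]

theorem e_lim (s : Sp) (x y : Finset ℕ) (j : ℕ) (ω : s.Ω) :
    Tendsto (fun n : ℕ => (((‖s.z x y ω‖ ^ 2) ^ n : ℝ) : ℂ) * s.z x y ω ^ j) atTop
      (𝓝 (s.e x y j ω)) := by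
  unfold Sp.e
  split_ifs with h
  · simp only [h, one_pow, Complex.ofReal_one, one_mul]
    exact tendsto_const_nhds
  · have h1 : ‖s.z x y ω‖ < 1 := lt_of_le_of_ne (s.norm_le x y ω) h
    have h2 : ‖s.z x y ω‖ ^ 2 < 1 := by
      have := norm_nonneg (s.z x y ω)
      nlinarith
    have h3 := tendsto_pow_atTop_nhds_zero_of_lt_one (sq_nonneg ‖s.z x y ω‖) h2
    have h4 : Tendsto (fun n : ℕ => (((‖s.z x y ω‖ ^ 2) ^ n : ℝ) : ℂ)) atTop (𝓝 ((0 : ℝ) : ℂ)) :=
      (Complex.continuous_ofReal.tendsto 0).comp h3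
    have h5 := h4.mul_const (s.z x y ω ^ j)
    rw [Complex.ofReal_zero, zero_mul] at h5
    exact h5

private theorem Lim_norm (s : Sp) (x y : Finset ℕ) (n j : ℕ) (ω : s.Ω) :
    ‖s.z x y ω ^ (n + j) * s.z y x ω ^ n‖ ≤ 1 := by
  rw [norm_mul, norm_pow, norm_pow]
  exact mul_le_one₀ (pow_le_one₀ (norm_nonneg _) (s.norm_le x y ω))
    (pow_nonneg (norm_nonneg _) _) (pow_le_one₀ (norm_nonneg _) (s.norm_le y x ω))

private theorem Lim_meas (s : Sp) (x y : Finset ℕ) (n j : ℕ) :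
    Measurable (fun ω => s.z x y ω ^ (n + j) * s.z y x ω ^ n) :=
  ((s.meas x y).pow_const _).mul ((s.meas y x).pow_const _)

private theorem Lim_pt (s : Sp) (x y : Finset ℕ) (j : ℕ) (ω : s.Ω) :
    Tendsto (fun n : ℕ => s.z x y ω ^ (n + j) * s.z y x ω ^ n) atTop (𝓝 (s.e x y j ω)) := by
  have h := e_lim s x y j ω
  have h1 : (fun n : ℕ => s.z x y ω ^ (n + j) * s.z y x ω ^ n) =
      fun n : ℕ => (((‖s.z x y ω‖ ^ 2) ^ n : ℝ) : ℂ) * s.z x y ω ^ j := by
    funext n
    exact zz s x y n j ω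
  rw [h1]
  exact h

theorem lim_one (T : Two) (x y : Finset ℕ) (hxy : Disjoint x y) (j : ℕ) :
    Tendsto (fun n => T.W (n + j) n y.card x.card) atTop (𝓝 (∫ ω, T.r.e x y j ω ∂T.r.P)) := by
  have h1 : (fun n => T.W (n + j) n y.card x.card) =
      fun n => ∫ ω, T.r.z x y ω ^ (n + j) * T.r.z y x ω ^ n ∂T.r.P := by
    funext n
    exact (T.mom x y hxy (n + j) n).symm
  rw [h1]
  refine tendsto_integral_of_dominated_convergence (fun _ => (1 : ℝ)) (fun n => ?_)
    (integrable_const _) (fun n => ?_) ?_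
  · exact (Lim_meas T.r x y n j).aestronglyMeasurable
  · exact Eventually.of_forall fun ω => Lim_norm T.r x y n j ω
  · exact Eventually.of_forall fun ω => Lim_pt T.r x y j ω

private theorem Lim_disj (a b : ℕ) : Disjoint (Finset.Ico a (a + b)) (Finset.range a) := by
  rw [Finset.disjoint_left]
  intro k hk hk'
  rw [Finset.mem_Ico] at hk
  rw [Finset.mem_range] at hk'
  omega

theorem U_lim (T : Two) (a b j : ℕ) :
    Tendsto (fun n => T.W (n + j) n a b) atTop (𝓝 (T.U a b j)) := by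
  have h := lim_one T _ _ (Lim_disj a b) j
  rw [Finset.card_range, Nat.card_Ico, Nat.add_sub_cancel_left] at h
  exact h

theorem U_eq (T : Two) (x y : Finset ℕ) (hxy : Disjoint x y) (j : ℕ) :
    ∫ ω, T.r.e x y j ω ∂T.r.P = T.U y.card x.card j :=
  tendsto_nhds_unique (lim_one T x y hxy j) (U_lim T y.card x.card j)

theorem U_two (T : Two) (x y u v : Finset ℕ) (hxy : Disjoint x y) (huv : Disjoint u v)
    (hd : Disjoint (x ∪ y) (u ∪ v)) (j i : ℕ) :
    ∫ ω, T.r.e x y j ω * T.r.e u v i ω ∂T.r.P = T.U y.card x.card j * T.U v.card u.card i := by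
  have h1 : Tendsto (fun n => ∫ ω, (T.r.z x y ω ^ (n + j) * T.r.z y x ω ^ n) *
      (T.r.z u v ω ^ (n + i) * T.r.z v u ω ^ n) ∂T.r.P) atTop
      (𝓝 (∫ ω, T.r.e x y j ω * T.r.e u v i ω ∂T.r.P)) := by
    refine tendsto_integral_of_dominated_convergence (fun _ => (1 : ℝ)) (fun n => ?_)
      (integrable_const _) (fun n => ?_) ?_
    · exact ((Lim_meas T.r x y n j).mul (Lim_meas T.r u v n i)).aestronglyMeasurable
    · refine Eventually.of_forall fun ω => ?_
      rw [norm_mul]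
      exact mul_le_one₀ (Lim_norm T.r x y n j ω) (norm_nonneg _) (Lim_norm T.r u v n i ω)
    · exact Eventually.of_forall fun ω => (Lim_pt T.r x y j ω).mul (Lim_pt T.r u v i ω)
  have h2 : (fun n => ∫ ω, (T.r.z x y ω ^ (n + j) * T.r.z y x ω ^ n) *
      (T.r.z u v ω ^ (n + i) * T.r.z v u ω ^ n) ∂T.r.P) =
      fun n => T.W (n + j) n y.card x.card * T.W (n + i) n v.card u.card := by
    funext n
    exact T.ind x y u v hxy huv hd (n + j) n (n + i) n
  rw [h2] at h1
  exact tendsto_nhds_unique h1 ((U_lim T y.card x.card j).mul (U_lim T v.card u.card i))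

theorem U_swap (T : Two) (a b j : ℕ) : T.U b a j = (starRingEnd ℂ) (T.U a b j) := by
  have h := U_eq T (Finset.range a) (Finset.Ico a (a + b)) (Lim_disj a b).symm j
  rw [Finset.card_range, Nat.card_Ico, Nat.add_sub_cancel_left] at h
  rw [← h]
  unfold Two.U
  rw [← integral_conj]
  refine integral_congr_ae (Eventually.of_forall fun ω => ?_)
  exact e_swap T.r (Finset.Ico a (a + b)) (Finset.range a) j ω

end Pool.Agent.Lib.MP_90b327_co.RB
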