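import Mathlib
import Pool.Agent.Lib.MP_90b327_co.RB.RDefs
import Pool.Agent.Lib.MP_90b327_co.RB.Lim

/-!
MODULE Mono (45 minutes, old scale). Text section 6.

`bR T m n j` is the number `B(m; n, j) = E' |z'_c|^(2m)`, `c` = `n + j` pluses and `n` minuses.

PROOFS. `W_eq_bR`: `T.mom'` with `x = Ico (n+j) (n+j+n)`, `y = range (n+j)`, `a = b = m`:
`z^m * (conj z)^m = ‖z‖^(2m)`, and the integral of a real function (`integral_ofReal`).
`bR_anti`, `bR_nonneg`, `bR_le_one`: `0 ≤ ‖z'‖ ≤ 1`, `integral_mono`.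
`U m m j` is the limit of `W (n+j) n m m = bR T m n j` (`U_lim`): so it is real (`U_im`), in `[0, 1]`, and
decreasing in `m`. `t_lim`: a bounded antitone sequence tends to its infimum (`tendsto_atTop_ciInf`).
`t_le_zero`: `(T.U m m j).re ≤ (T.U m m 0).re` since `‖e j‖ = e 0` pointwise; take limits.
`bet_symm`: `bR T m n 0 = W n n m m = ∫ ‖r.z ..‖^(2n)` (`T.mom`), hence `bR T.swap n m 0 = bR T m n 0` and
antitone in `n`.
`t_le_bR`: `T.t 0 ≤ (T.U m m 0).re ≤ bR T m n 0` (the limit in `n` of an antitone sequence is `≤` each term).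
`bR_lim`: given `ε`, choose `m₀` with `(U m₀ m₀ 0).re < t 0 + ε/2`, then `n₀` with `bR T m₀ n₀ 0 < ... + ε/2`
(`U_lim`); monotonicity in both variables.
`t_swap`: both are the infimum over all `(m, n)` of `bR T m n 0`: `T.swap.t 0 ≤ bR T.swap n m 0 = bR T m n 0`,
let `n → ∞`, then `m → ∞`; and symmetric.
-/

set_option autoImplicit false

namespace Pool.Agent.Lib.MP_90b327_co.RB

open Filter Topology MeasureTheory

/-- `B(m; n, j)` -/
noncomputable def bR (T : Two) (m n j : ℕ) : ℝ :=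
  ∫ ω, ‖T.c.z (Finset.Ico (n + j) (n + j + n)) (Finset.range (n + j)) ω‖ ^ (2 * m) ∂T.c.P

private theorem mono_int (s : Sp) (x y : Finset ℕ) (n : ℕ) :
    Integrable (fun ω => ‖s.z x y ω‖ ^ n) s.P :=
  Integrable.of_bound ((s.meas x y).norm.pow_const n).aestronglyMeasurable 1
    (Filter.Eventually.of_forall fun ω => by
      rw [norm_pow, norm_norm]
      exact pow_le_one₀ (norm_nonneg _) (s.norm_le x y ω))

theorem W_eq_bR (T : Two) (m n j : ℕ) : T.W (n + j) n m m = ((bR T m n j : ℝ) : ℂ) := by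
  have hd : Disjoint (Finset.Ico (n + j) (n + j + n)) (Finset.range (n + j)) := by
    rw [Finset.disjoint_left]
    intro i hi hi'
    rw [Finset.mem_Ico] at hi
    rw [Finset.mem_range] at hi'
    omega
  have h := T.mom' _ _ hd m m
  have e : n + j + n - (n + j) = n := by omega
  rw [Finset.card_range, Nat.card_Ico, e] at h
  rw [← h]
  unfold bR
  rw [← integral_complex_ofReal]
  refine integral_congr_ae (Filter.Eventually.of_forall fun ω => ?_)
  have h1 := zz T.c (Finset.Ico (n + j) (n + j + n)) (Finset.range (n + j)) m 0 ω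
  rw [add_zero, pow_zero, mul_one] at h1
  show T.c.z _ _ ω ^ m * T.c.z _ _ ω ^ m = ((‖T.c.z _ _ ω‖ ^ (2 * m) : ℝ) : ℂ)
  rw [h1, pow_mul]

theorem bR_nonneg (T : Two) (m n j : ℕ) : 0 ≤ bR T m n j := by
  exact integral_nonneg fun ω => pow_nonneg (norm_nonneg _) _

theorem bR_le_one (T : Two) (m n j : ℕ) : bR T m n j ≤ 1 := by
  have h : ∫ ω, ‖T.c.z (Finset.Ico (n + j) (n + j + n)) (Finset.range (n + j)) ω‖ ^ (2 * m)
      ∂T.c.P ≤ ∫ _, (1 : ℝ) ∂T.c.P :=
    integral_mono (mono_int _ _ _ _) (integrable_const _)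
      fun ω => pow_le_one₀ (norm_nonneg _) (T.c.norm_le _ _ ω)
  rw [integral_const, probReal_univ, one_smul] at h
  exact h

theorem bR_anti (T : Two) {m m' : ℕ} (h : m ≤ m') (n j : ℕ) : bR T m' n j ≤ bR T m n j := by
  exact integral_mono (mono_int _ _ _ _) (mono_int _ _ _ _)
    fun ω => pow_le_pow_of_le_one (norm_nonneg _) (T.c.norm_le _ _ ω) (by omega)

private theorem mono_re_lim (T : Two) (m j : ℕ) :
    Tendsto (fun n => bR T m n j) atTop (𝓝 (T.U m m j).re) := by
  have h := (Complex.continuous_re.tendsto _).comp (U_lim T m m j)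
  refine h.congr fun n => ?_
  show (T.W (n + j) n m m).re = _
  rw [W_eq_bR]
  exact Complex.ofReal_re _

theorem U_im (T : Two) (m j : ℕ) : (T.U m m j).im = 0 := by
  have h := (Complex.continuous_im.tendsto _).comp (U_lim T m m j)
  have h2 : Tendsto (fun _ : ℕ => (0 : ℝ)) atTop (𝓝 (T.U m m j).im) := by
    refine h.congr fun n => ?_
    show (T.W (n + j) n m m).im = 0
    rw [W_eq_bR]
    exact Complex.ofReal_im _
  exact tendsto_nhds_unique h2 tendsto_const_nhds

theorem U_nonneg (T : Two) (m j : ℕ) : 0 ≤ (T.U m m j).re := by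
  exact ge_of_tendsto' (mono_re_lim T m j) fun n => bR_nonneg T m n j

theorem U_le_one (T : Two) (m j : ℕ) : (T.U m m j).re ≤ 1 := by
  exact le_of_tendsto' (mono_re_lim T m j) fun n => bR_le_one T m n j

theorem U_anti (T : Two) {m m' : ℕ} (h : m ≤ m') (j : ℕ) :
    (T.U m' m' j).re ≤ (T.U m m j).re := by
  exact le_of_tendsto_of_tendsto' (mono_re_lim T m' j) (mono_re_lim T m j)
    fun n => bR_anti T h n j

theorem t_lim (T : Two) (j : ℕ) : Tendsto (fun m => (T.U m m j).re) atTop (𝓝 (T.t j)) := by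
  exact tendsto_atTop_ciInf (fun m m' h => U_anti T h j)
    ⟨0, by rintro _ ⟨m, rfl⟩; exact U_nonneg T m j⟩

theorem t_nonneg (T : Two) (j : ℕ) : 0 ≤ T.t j := by
  exact le_ciInf fun m => U_nonneg T m j

theorem t_le (T : Two) (m j : ℕ) : T.t j ≤ (T.U m m j).re := by
  exact ciInf_le ⟨0, by rintro _ ⟨m, rfl⟩; exact U_nonneg T m j⟩ m

theorem t_le_zero (T : Two) (j : ℕ) : T.t j ≤ T.t 0 := by
  refine le_ciInf fun m => (t_le T m j).trans ?_
  unfold Two.U
  refine (Complex.re_le_norm _).trans ((norm_integral_le_integral_norm _).trans ?_)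
  have e : ∀ ω, ‖T.r.e (Finset.Ico m (m + m)) (Finset.range m) j ω‖ =
      (T.r.e (Finset.Ico m (m + m)) (Finset.range m) 0 ω).re := by
    intro ω
    unfold Sp.e
    by_cases h : ‖T.r.z (Finset.Ico m (m + m)) (Finset.range m) ω‖ = 1
    · rw [if_pos h, if_pos h, norm_pow, h, one_pow, pow_zero, Complex.one_re]
    · rw [if_neg h, if_neg h, norm_zero, Complex.zero_re]
  simp only [e]
  have hint : Integrable (T.r.e (Finset.Ico m (m + m)) (Finset.range m) 0) T.r.P :=
    Integrable.of_bound (e_meas _ _ _ _).aestronglyMeasurable 1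
      (Filter.Eventually.of_forall fun ω => e_norm _ _ _ _ ω)
  exact le_of_eq (integral_re hint)

theorem bet_symm (T : Two) (m n : ℕ) : bR T.swap n m 0 = bR T m n 0 := by
  have h1 := W_eq_bR T m n 0
  have h2 := W_eq_bR T.swap n m 0
  have h3 : T.swap.W (m + 0) m n n = T.W (n + 0) n m m := rfl
  rw [h3, h1] at h2
  exact_mod_cast h2.symm

theorem bR_anti2 (T : Two) {n n' : ℕ} (h : n ≤ n') (m : ℕ) : bR T m n' 0 ≤ bR T m n 0 := by
  rw [← bet_symm T m n', ← bet_symm T m n]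
  exact bR_anti T.swap h m 0

theorem U_le_bR (T : Two) (m n : ℕ) : (T.U m m 0).re ≤ bR T m n 0 := by
  exact Antitone.le_of_tendsto (f := fun n => bR T m n 0) (fun n n' h => bR_anti2 T h m)
    (mono_re_lim T m 0) n

theorem t_le_bR (T : Two) (m n : ℕ) : T.t 0 ≤ bR T m n 0 := by
  exact (t_le T m 0).trans (U_le_bR T m n)

theorem bR_lim (T : Two) (ε : ℝ) (hε : 0 < ε) :
    ∃ M : ℕ, ∀ m n, M ≤ m → M ≤ n → bR T m n 0 ≤ T.t 0 + ε := by
  have h1 := (t_lim T 0).eventually (gt_mem_nhds (show T.t 0 < T.t 0 + ε / 2 by linarith))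
  obtain ⟨m₀, hm₀⟩ := h1.exists
  have h2 := (mono_re_lim T m₀ 0).eventually (gt_mem_nhds
    (show (T.U m₀ m₀ 0).re < (T.U m₀ m₀ 0).re + ε / 2 by linarith))
  obtain ⟨n₀, hn₀⟩ := h2.exists
  refine ⟨max m₀ n₀, fun m n hm hn => ?_⟩
  have h3 := bR_anti T ((le_max_left m₀ n₀).trans hm) n 0
  have h4 := bR_anti2 T ((le_max_right m₀ n₀).trans hn) m₀
  linarith

theorem t_swap (T : Two) : T.swap.t 0 = T.t 0 := by
  refine le_antisymm ?_ ?_
  · refine le_of_forall_pos_le_add fun ε hε => ?_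
    obtain ⟨M, hM⟩ := bR_lim T ε hε
    have h1 := t_le_bR T.swap M M
    rw [bet_symm] at h1
    exact h1.trans (hM M M le_rfl le_rfl)
  · refine le_of_forall_pos_le_add fun ε hε => ?_
    obtain ⟨M, hM⟩ := bR_lim T.swap ε hε
    have h1 := t_le_bR T M M
    rw [← bet_symm] at h1
    exact h1.trans (hM M M le_rfl le_rfl)

end Pool.Agent.Lib.MP_90b327_co.RB
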