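import Mathlib
import Pool.Agent.Lib.MP_90b327_co.RB.RDefs
import Pool.Agent.Lib.MP_90b327_co.RB.Lim
import Pool.Agent.Lib.MP_90b327_co.RB.Mono

/-!
MODULE CaseOne (45 minutes, old scale). Text section 8.

PROOFS. Write `z = T.r.z (Ico m (m+m)) (range m)`.
`case_one_bd`: for `C ≥ 1`: on `‖z‖ = 1`, `z^j = 1` the number `|(1/C) ∑_{i<C} z^(j i)|²` is `1`, so
`P(‖z‖ = 1, z^j = 1) ≤ E 1(‖z‖=1) |(1/C) ∑_{i<C} z^(j i)|² = C⁻² ∑_{i,i'<C} E 1(‖z‖=1) z^(j i) conj z^(j i')`,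
and for `i ≥ i'` the last expectation is `U m m (j (i - i'))` (on `‖z‖ = 1`: `z conj z = 1`), for `i < i'` its
conjugate; all are real `≥ 0` (`U_im`, `U_nonneg`), and `≤ 1` for `i = i'`. So it is
`≤ 1/C + ∑_{1 ≤ i < C} (U m m (j i)).re` (crude: `C⁻² * 2 * ∑_{i' < i} ≤ (2/C) ∑_{1≤i<C}`, use factor `2`).
`case_one`: given `ε` choose `C` with `1/C < ε/2`, then `m` large (`t_lim`, all `t_(j i) = 0`).
`J_bound`: `W b 0 l 0 = ∫ c.z ∅ (range b) ^ l` (`mom'` with `x = ∅`), so by Cauchy-Schwarz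
`‖W b 0 l 0‖² ≤ ∫ ‖c.z ∅ (range b)‖^(2l) ≤ ∫ ‖c.z ∅ (range b)‖^(2m) = W b 0 m m` (`mom'`; `l ≥ m`)
`= ∫ z ^ b` (`mom` with `x = Ico m (m+m)`, `y = range m`, `q = 0`).
-/

set_option autoImplicit false

namespace Pool.Agent.Lib.MP_90b327_co.RB

open Filter Topology MeasureTheory

private theorem e_int (s : Sp) (x y : Finset ℕ) (j : ℕ) : Integrable (s.e x y j) s.P := by
  refine Integrable.of_bound (e_meas s x y j).aestronglyMeasurable 1 ?_
  filter_upwards with ω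
  exact e_norm s x y j ω

private theorem ere_int (s : Sp) (x y : Finset ℕ) (j : ℕ) :
    Integrable (fun ω => (s.e x y j ω).re) s.P :=
  Complex.reCLM.integrable_comp (e_int s x y j)

private theorem re_int {Ω : Type} [MeasurableSpace Ω] {P : Measure Ω} {f : Ω → ℂ}
    (hf : Integrable f P) : ∫ ω, (f ω).re ∂P = (∫ ω, f ω ∂P).re := by
  have := Complex.reCLM.integral_comp_comm hf
  simpa using this

private theorem e_mul (s : Sp) (x y : Finset ℕ) (j k i : ℕ) (ω : s.Ω) :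
    s.e x y (j * (k + i)) ω * (starRingEnd ℂ) (s.e x y (j * i) ω) = s.e x y (j * k) ω := by
  unfold Sp.e
  by_cases hz : ‖s.z x y ω‖ = 1
  · rw [if_pos hz, if_pos hz, if_pos hz, map_pow]
    have h1 : s.z x y ω * (starRingEnd ℂ) (s.z x y ω) = 1 := by
      rw [Complex.mul_conj, Complex.normSq_eq_norm_sq, hz]
      norm_num
    rw [mul_add, pow_add, mul_assoc, ← mul_pow, h1, one_pow, mul_one]
  · rw [if_neg hz, if_neg hz, if_neg hz, zero_mul]

private theorem e_re (s : Sp) (x y : Finset ℕ) (j i i' : ℕ) (ω : s.Ω) :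
    (s.e x y (j * i) ω * (starRingEnd ℂ) (s.e x y (j * i') ω)).re =
      (s.e x y (j * Nat.dist i i') ω).re := by
  rcases le_total i' i with h | h
  · rw [Nat.dist_comm, Nat.dist_eq_sub_of_le h]
    obtain ⟨k, rfl⟩ := Nat.exists_eq_add_of_le h
    rw [Nat.add_sub_cancel_left, Nat.add_comm i' k, e_mul]
  · rw [Nat.dist_eq_sub_of_le h]
    obtain ⟨k, rfl⟩ := Nat.exists_eq_add_of_le h
    rw [Nat.add_sub_cancel_left, Nat.add_comm i k, ← e_mul s x y j k i ω]
    rw [← Complex.conj_re (s.e x y (j * i) ω * _), map_mul, Complex.conj_conj, mul_comm]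

private theorem dist_sum (u : ℕ → ℝ) (hu : ∀ k, 0 ≤ u k) (C i : ℕ) (hi : i < C) :
    ∑ i' ∈ Finset.range C, u (Nat.dist i i') ≤ u 0 + 2 * ∑ k ∈ Finset.Ico 1 C, u k := by
  have h1 : ∑ i' ∈ Finset.range C, u (Nat.dist i i') =
      ∑ i' ∈ Finset.range (i + 1), u (Nat.dist i i') +
        ∑ i' ∈ Finset.Ico (i + 1) C, u (Nat.dist i i') := by
    rw [Finset.range_eq_Ico, Finset.range_eq_Ico]
    exact (Finset.sum_Ico_consecutive _ (Nat.zero_le _) hi).symm
  have h2 : ∑ i' ∈ Finset.range (i + 1), u (Nat.dist i i') = ∑ k ∈ Finset.range (i + 1), u k := by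
    rw [← Finset.sum_range_reflect (fun k => u k) (i + 1)]
    refine Finset.sum_congr rfl fun k hk => ?_
    rw [Finset.mem_range] at hk
    rw [Nat.dist_comm, Nat.dist_eq_sub_of_le (by omega)]
    congr 1
  have h3 : ∑ i' ∈ Finset.Ico (i + 1) C, u (Nat.dist i i') = ∑ k ∈ Finset.Ico 1 (C - i), u k := by
    have h4 : ∑ k ∈ Finset.Ico 1 (C - i), u k = ∑ i' ∈ Finset.Ico (1 + i) (C - i + i), u (i' - i) := by
      rw [← Finset.sum_Ico_add' (fun i' => u (i' - i)) 1 (C - i) i]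
      refine Finset.sum_congr rfl fun k _ => ?_
      rw [Nat.add_sub_cancel]
    rw [h4, Nat.sub_add_cancel hi.le, Nat.add_comm 1 i]
    refine Finset.sum_congr rfl fun k hk => ?_
    rw [Finset.mem_Ico] at hk
    rw [Nat.dist_eq_sub_of_le (by omega)]
  have h5 : ∑ k ∈ Finset.range (i + 1), u k ≤ u 0 + ∑ k ∈ Finset.Ico 1 C, u k := by
    have h6 : ∑ k ∈ Finset.range (i + 1), u k ≤ ∑ k ∈ Finset.range C, u k :=
      Finset.sum_le_sum_of_subset_of_nonneg (Finset.range_subset_range.mpr hi) (fun k _ _ => hu k)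
    have h7 : ∑ k ∈ Finset.range C, u k = u 0 + ∑ k ∈ Finset.Ico 1 C, u k := by
      rw [Finset.range_eq_Ico, ← Finset.sum_Ico_consecutive u (Nat.zero_le 1) (by omega : 1 ≤ C)]
      simp
    linarith
  have h8 : ∑ k ∈ Finset.Ico 1 (C - i), u k ≤ ∑ k ∈ Finset.Ico 1 C, u k :=
    Finset.sum_le_sum_of_subset_of_nonneg
      (Finset.Ico_subset_Ico_right (Nat.sub_le _ _)) (fun k _ _ => hu k)
  rw [h1, h2, h3]
  linarith

theorem case_one_bd (T : Two) (j : ℕ) (hj : 1 ≤ j) (C m : ℕ) (hC : 1 ≤ C) :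
    T.r.P.real {ω | ‖T.r.z (Finset.Ico m (m + m)) (Finset.range m) ω‖ = 1 ∧
      T.r.z (Finset.Ico m (m + m)) (Finset.range m) ω ^ j = 1} ≤
      1 / C + 2 * ∑ i ∈ Finset.Ico 1 C, (T.U m m (j * i)).re := by
  set x := Finset.Ico m (m + m) with hx
  set y := Finset.range m with hy
  set S : Set T.r.Ω := {ω | ‖T.r.z x y ω‖ = 1 ∧ T.r.z x y ω ^ j = 1} with hS
  have hCr : (1 : ℝ) ≤ C := by exact_mod_cast hC
  have hC0 : (0 : ℝ) < C := by linarith
  have hSm : MeasurableSet S := by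
    apply MeasurableSet.inter
    · exact measurableSet_eq_fun (T.r.meas x y).norm measurable_const
    · exact measurableSet_eq_fun ((T.r.meas x y).pow_const j) measurable_const
  -- the square of the mean
  have hsq : ∀ ω, ‖∑ i ∈ Finset.range C, T.r.e x y (j * i) ω‖ ^ 2 =
      ∑ i ∈ Finset.range C, ∑ i' ∈ Finset.range C, (T.r.e x y (j * Nat.dist i i') ω).re := by
    intro ω
    have h1 : ((‖∑ i ∈ Finset.range C, T.r.e x y (j * i) ω‖ ^ 2 : ℝ) : ℂ) =
        ∑ i ∈ Finset.range C, ∑ i' ∈ Finset.range C,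
          T.r.e x y (j * i) ω * (starRingEnd ℂ) (T.r.e x y (j * i') ω) := by
      rw [← Complex.normSq_eq_norm_sq, ← Complex.mul_conj, map_sum, Finset.sum_mul_sum]
    have h2 := congrArg Complex.re h1
    rw [Complex.ofReal_re, Complex.re_sum] at h2
    rw [h2]
    refine Finset.sum_congr rfl fun i _ => ?_
    rw [Complex.re_sum]
    exact Finset.sum_congr rfl fun i' _ => e_re T.r x y j i i' ω
  have hind : ∀ ω, S.indicator (fun _ => (1 : ℝ)) ω ≤
      ((C : ℝ) ^ 2)⁻¹ * ‖∑ i ∈ Finset.range C, T.r.e x y (j * i) ω‖ ^ 2 := by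
    intro ω
    by_cases hω : ω ∈ S
    · rw [Set.indicator_of_mem hω]
      have h1 : ∀ i, T.r.e x y (j * i) ω = 1 := by
        intro i
        unfold Sp.e
        rw [if_pos hω.1, pow_mul, hω.2, one_pow]
      simp only [h1, Finset.sum_const, Finset.card_range, nsmul_eq_mul, mul_one, Complex.norm_natCast]
      rw [inv_mul_cancel₀ (by positivity)]
    · rw [Set.indicator_of_notMem hω]
      positivity
  have hP : T.r.P.real S = ∫ ω, S.indicator (fun _ => (1 : ℝ)) ω ∂T.r.P := by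
    rw [integral_indicator hSm, setIntegral_const, smul_eq_mul, mul_one]
  have hintsq : Integrable (fun ω => ((C : ℝ) ^ 2)⁻¹ *
      ‖∑ i ∈ Finset.range C, T.r.e x y (j * i) ω‖ ^ 2) T.r.P := by
    simp_rw [hsq]
    refine Integrable.const_mul ?_ _
    exact integrable_finset_sum _ fun i _ => integrable_finset_sum _ fun i' _ => ere_int T.r x y _
  have hint : ∫ ω, ‖∑ i ∈ Finset.range C, T.r.e x y (j * i) ω‖ ^ 2 ∂T.r.P =
      ∑ i ∈ Finset.range C, ∑ i' ∈ Finset.range C, (T.U m m (j * Nat.dist i i')).re := by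
    simp_rw [hsq]
    rw [integral_finset_sum _ fun i _ => integrable_finset_sum _ fun i' _ => ere_int T.r x y _]
    refine Finset.sum_congr rfl fun i _ => ?_
    rw [integral_finset_sum _ fun i' _ => ere_int T.r x y _]
    refine Finset.sum_congr rfl fun i' _ => ?_
    rw [re_int (e_int T.r x y _)]
    rfl
  have hbd : ∑ i ∈ Finset.range C, ∑ i' ∈ Finset.range C, (T.U m m (j * Nat.dist i i')).re ≤
      C * (1 + 2 * ∑ i ∈ Finset.Ico 1 C, (T.U m m (j * i)).re) := by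
    have h1 : ∀ i ∈ Finset.range C, ∑ i' ∈ Finset.range C, (T.U m m (j * Nat.dist i i')).re ≤
        1 + 2 * ∑ i ∈ Finset.Ico 1 C, (T.U m m (j * i)).re := by
      intro i hi
      rw [Finset.mem_range] at hi
      have h2 := dist_sum (fun k => (T.U m m (j * k)).re) (fun k => U_nonneg T m _) C i hi
      have h3 := U_le_one T m (j * 0)
      linarith
    refine (Finset.sum_le_sum h1).trans ?_
    rw [Finset.sum_const, Finset.card_range, nsmul_eq_mul]
  have hS0 : 0 ≤ ∑ i ∈ Finset.Ico 1 C, (T.U m m (j * i)).re :=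
    Finset.sum_nonneg fun i _ => U_nonneg T m _
  calc T.r.P.real S ≤ ∫ ω, ((C : ℝ) ^ 2)⁻¹ *
        ‖∑ i ∈ Finset.range C, T.r.e x y (j * i) ω‖ ^ 2 ∂T.r.P := by
        rw [hP]
        refine integral_mono ?_ hintsq hind
        exact (integrable_const (1 : ℝ)).indicator hSm
    _ = ((C : ℝ) ^ 2)⁻¹ * ∑ i ∈ Finset.range C, ∑ i' ∈ Finset.range C,
          (T.U m m (j * Nat.dist i i')).re := by
        rw [integral_const_mul, hint]
    _ ≤ ((C : ℝ) ^ 2)⁻¹ * (C * (1 + 2 * ∑ i ∈ Finset.Ico 1 C, (T.U m m (j * i)).re)) :=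
        mul_le_mul_of_nonneg_left hbd (by positivity)
    _ = 1 / C + 2 * (∑ i ∈ Finset.Ico 1 C, (T.U m m (j * i)).re) / C := by
        field_simp
    _ ≤ 1 / C + 2 * ∑ i ∈ Finset.Ico 1 C, (T.U m m (j * i)).re := by
        have h1 : 2 * (∑ i ∈ Finset.Ico 1 C, (T.U m m (j * i)).re) / C ≤
            2 * (∑ i ∈ Finset.Ico 1 C, (T.U m m (j * i)).re) :=
          div_le_self (by positivity) hCr
        linarith

theorem case_one (T : Two) (h : ∀ j, 1 ≤ j → T.t j = 0) (j : ℕ) (hj : 1 ≤ j) :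
    Tendsto (fun m : ℕ => T.r.P.real
      {ω | ‖T.r.z (Finset.Ico m (m + m)) (Finset.range m) ω‖ = 1 ∧
        T.r.z (Finset.Ico m (m + m)) (Finset.range m) ω ^ j = 1}) atTop (𝓝 0) := by
  rw [Metric.tendsto_atTop]
  intro ε hε
  obtain ⟨C0, hC0⟩ := exists_nat_gt (2 / ε)
  set C := C0 + 1 with hC
  have hCr : 2 / ε < (C : ℝ) := by
    rw [hC]
    push_cast
    linarith
  have hCpos : (0 : ℝ) < C := lt_trans (by positivity) hCr
  have h1 : (1 : ℝ) / C < ε / 2 := by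
    rw [div_lt_iff₀ hε] at hCr
    rw [div_lt_div_iff₀ hCpos (by norm_num)]
    linarith
  have h2 : Tendsto (fun m : ℕ => ∑ i ∈ Finset.Ico 1 C, (T.U m m (j * i)).re) atTop (𝓝 0) := by
    have h3 : Tendsto (fun m : ℕ => ∑ i ∈ Finset.Ico 1 C, (T.U m m (j * i)).re) atTop
        (𝓝 (∑ i ∈ Finset.Ico 1 C, T.t (j * i))) := tendsto_finset_sum _ fun i _ => t_lim T (j * i)
    have h4 : ∑ i ∈ Finset.Ico 1 C, T.t (j * i) = 0 := by
      refine Finset.sum_eq_zero fun i hi => ?_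
      rw [Finset.mem_Ico] at hi
      exact h _ (Nat.mul_pos hj hi.1)
    rwa [h4] at h3
  obtain ⟨N, hN⟩ := (Metric.tendsto_atTop.mp h2) (ε / 4) (by linarith)
  refine ⟨N, fun m hm => ?_⟩
  have h5 := hN m hm
  rw [Real.dist_eq, sub_zero] at h5
  have h6 := (abs_lt.mp h5).2
  have h7 := case_one_bd T j hj C m (by omega)
  rw [Real.dist_eq, sub_zero, abs_of_nonneg measureReal_nonneg]
  linarith

theorem J_bound (T : Two) (b l m : ℕ) (hml : m ≤ l) :
    ‖T.W b 0 l 0‖ ^ 2 ≤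
      (∫ ω, T.r.z (Finset.Ico m (m + m)) (Finset.range m) ω ^ b ∂T.r.P).re := by
  have hdis : Disjoint (Finset.Ico m (m + m)) (Finset.range m) := by
    rw [Finset.disjoint_left]
    intro t ht ht'
    rw [Finset.mem_Ico] at ht
    rw [Finset.mem_range] at ht'
    omega
  have zn : ∀ n : ℕ, Integrable (fun ω => ‖T.c.z ∅ (Finset.range b) ω‖ ^ n) T.c.P := by
    intro n
    refine Integrable.of_bound ((T.c.meas _ _).norm.pow_const n).aestronglyMeasurable 1 ?_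
    filter_upwards with ω
    rw [Real.norm_eq_abs, abs_of_nonneg (by positivity)]
    exact pow_le_one₀ (norm_nonneg _) (T.c.norm_le _ _ ω)
  have hW : T.W b 0 l 0 = ∫ ω, T.c.z ∅ (Finset.range b) ω ^ l ∂T.c.P := by
    have h := T.mom' ∅ (Finset.range b) (Finset.disjoint_empty_left _) l 0
    rw [Finset.card_range, Finset.card_empty] at h
    rw [← h]
    simp only [pow_zero, mul_one]
  have hW2 : T.W b 0 m m = ((∫ ω, ‖T.c.z ∅ (Finset.range b) ω‖ ^ (2 * m) ∂T.c.P : ℝ) : ℂ) := by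
    have h := T.mom' ∅ (Finset.range b) (Finset.disjoint_empty_left _) m m
    rw [Finset.card_range, Finset.card_empty] at h
    rw [← h]
    have h2 : ∀ ω, T.c.z ∅ (Finset.range b) ω ^ m * T.c.z (Finset.range b) ∅ ω ^ m =
        ((‖T.c.z ∅ (Finset.range b) ω‖ ^ (2 * m) : ℝ) : ℂ) := by
      intro ω
      rw [T.c.herm ∅ (Finset.range b) ω, ← mul_pow, Complex.mul_conj, Complex.normSq_eq_norm_sq]
      rw [← Complex.ofReal_pow, ← pow_mul]
    simp_rw [h2]
    rw [integral_complex_ofReal]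
  have hW3 : T.W b 0 m m =
      ∫ ω, T.r.z (Finset.Ico m (m + m)) (Finset.range m) ω ^ b ∂T.r.P := by
    have h := T.mom (Finset.Ico m (m + m)) (Finset.range m) hdis b 0
    rw [Finset.card_range, Nat.card_Ico, Nat.add_sub_cancel_left] at h
    rw [← h]
    simp only [pow_zero, mul_one]
  rw [← hW3, hW2, Complex.ofReal_re]
  have h1 : ‖T.W b 0 l 0‖ ≤ ∫ ω, ‖T.c.z ∅ (Finset.range b) ω‖ ^ l ∂T.c.P := by
    rw [hW]
    refine norm_integral_le_of_norm_le (zn l) ?_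
    filter_upwards with ω
    rw [norm_pow]
  set c : ℝ := ∫ ω, ‖T.c.z ∅ (Finset.range b) ω‖ ^ l ∂T.c.P with hc
  have h2 : c ^ 2 ≤ ∫ ω, ‖T.c.z ∅ (Finset.range b) ω‖ ^ (2 * l) ∂T.c.P := by
    have h3 : 0 ≤ ∫ ω, (‖T.c.z ∅ (Finset.range b) ω‖ ^ l - c) ^ 2 ∂T.c.P :=
      integral_nonneg fun ω => sq_nonneg _
    have h4 : ∀ ω, (‖T.c.z ∅ (Finset.range b) ω‖ ^ l - c) ^ 2 =
        ‖T.c.z ∅ (Finset.range b) ω‖ ^ (2 * l) - 2 * c * ‖T.c.z ∅ (Finset.range b) ω‖ ^ l + c ^ 2 := by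
      intro ω
      rw [mul_comm 2 l, pow_mul]
      ring
    have h6 : ∫ ω, (‖T.c.z ∅ (Finset.range b) ω‖ ^ l - c) ^ 2 ∂T.c.P =
        ∫ ω, (‖T.c.z ∅ (Finset.range b) ω‖ ^ (2 * l) -
          2 * c * ‖T.c.z ∅ (Finset.range b) ω‖ ^ l) + c ^ 2 ∂T.c.P :=
      integral_congr_ae (Eventually.of_forall h4)
    have h7 : Integrable (fun ω => ‖T.c.z ∅ (Finset.range b) ω‖ ^ (2 * l) -
          2 * c * ‖T.c.z ∅ (Finset.range b) ω‖ ^ l) T.c.P := (zn (2 * l)).sub ((zn l).const_mul (2 * c))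
    rw [h6, integral_add h7 (integrable_const _),
      integral_sub (zn (2 * l)) ((zn l).const_mul (2 * c)), integral_const_mul, ← hc,
      integral_const] at h3
    simp only [probReal_univ, smul_eq_mul, one_mul] at h3
    nlinarith
  have h5 : ∫ ω, ‖T.c.z ∅ (Finset.range b) ω‖ ^ (2 * l) ∂T.c.P ≤
      ∫ ω, ‖T.c.z ∅ (Finset.range b) ω‖ ^ (2 * m) ∂T.c.P := by
    refine integral_mono (zn _) (zn _) fun ω => ?_
    exact pow_le_pow_of_le_one (norm_nonneg _) (T.c.norm_le _ _ ω) (by omega)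
  calc ‖T.W b 0 l 0‖ ^ 2 ≤ c ^ 2 := pow_le_pow_left₀ (norm_nonneg _) h1 2
    _ ≤ _ := h2.trans h5

end Pool.Agent.Lib.MP_90b327_co.RB
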