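import Mathlib
import Pool.Agent.Lib.MP_90b327_co.RB.RDefs

/-!
MODULE TorA (25 minutes, old scale). Text section 7: the inequality of the torsion lemma.

PROOFS.
`pow_ineq`: for complex `u v w` in the unit disc with `‖w - u * v‖ ≤ √(1 - ‖u‖²) * √(1 - ‖v‖²)`:
`|‖w‖^(2k) - ‖v‖^(2k)| ≤ 2k |‖w‖ - ‖v‖|` (`a^n - b^n`, `0 ≤ a, b ≤ 1`), `|‖w‖ - ‖v‖| ≤ ‖w - u v‖ +
‖v‖ (1 - ‖u‖) ≤ √(1-‖u‖²) + (1 - ‖u‖) ≤ 2 √(1 - ‖u‖²)` (`1 - r ≤ 1 - r² ≤ √(1 - r²)` for `r ∈ [0,1]`).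
`(2m+1) r^(4m) (1 - r²) ≤ 1` for `r ∈ [0,1]` (with `x = r²`: `x^(2m) (2m+1) ≤ ∑_{i ≤ 2m} x^i` and
`(1 - x) ∑_{i ≤ 2m} x^i = 1 - x^(2m+1) ≤ 1`), so `r^(2m) √(1-r²) ≤ 1/√(2m+1)`. Multiply.
`tor_int`: integrate over a probability space (all functions are measurable and bounded by `1`).
-/

set_option autoImplicit false

namespace Pool.Agent.Lib.MP_90b327_co.RB

open MeasureTheory

private theorem TorA_pow (a b : ℝ) (ha : 0 ≤ a) (ha1 : a ≤ 1) (hb : 0 ≤ b) (hb1 : b ≤ 1) (n : ℕ) :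
    |a ^ n - b ^ n| ≤ n * |a - b| := by
  induction n with
  | zero => simp
  | succ n ih =>
    have h1 : a ^ (n + 1) - b ^ (n + 1) = a * (a ^ n - b ^ n) + b ^ n * (a - b) := by ring
    rw [h1]
    refine (abs_add_le _ _).trans ?_
    rw [abs_mul, abs_mul, abs_of_nonneg ha, abs_of_nonneg (pow_nonneg hb n)]
    have h2 : a * |a ^ n - b ^ n| ≤ 1 * |a ^ n - b ^ n| :=
      mul_le_mul_of_nonneg_right ha1 (abs_nonneg _)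
    have h3 : b ^ n * |a - b| ≤ 1 * |a - b| :=
      mul_le_mul_of_nonneg_right (pow_le_one₀ hb hb1) (abs_nonneg _)
    push_cast
    linarith

private theorem TorA_geo (r : ℝ) (hr : 0 ≤ r) (hr1 : r ≤ 1) (m : ℕ) :
    r ^ (2 * m) * Real.sqrt (1 - r ^ 2) ≤ 1 / Real.sqrt (2 * m + 1) := by
  have hm : (0 : ℝ) < 2 * m + 1 := by positivity
  have hx0 : 0 ≤ r ^ 2 := sq_nonneg r
  have hx1 : r ^ 2 ≤ 1 := pow_le_one₀ hr hr1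
  have h1 : (2 * (m : ℝ) + 1) * (r ^ 2) ^ (2 * m) ≤ ∑ i ∈ Finset.range (2 * m + 1), (r ^ 2) ^ i := by
    have h2 : ∑ i ∈ Finset.range (2 * m + 1), (r ^ 2) ^ (2 * m) ≤
        ∑ i ∈ Finset.range (2 * m + 1), (r ^ 2) ^ i := by
      refine Finset.sum_le_sum fun i hi => ?_
      rw [Finset.mem_range] at hi
      exact pow_le_pow_of_le_one hx0 hx1 (by omega)
    rw [Finset.sum_const, Finset.card_range, nsmul_eq_mul] at h2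
    push_cast at h2
    exact h2
  have h2 : (∑ i ∈ Finset.range (2 * m + 1), (r ^ 2) ^ i) * (1 - r ^ 2) = 1 - (r ^ 2) ^ (2 * m + 1) :=
    geom_sum_mul_neg _ _
  have h3 : (r ^ (2 * m)) ^ 2 * (1 - r ^ 2) * (2 * m + 1) ≤ 1 := by
    have h4 : (2 * (m : ℝ) + 1) * (r ^ 2) ^ (2 * m) * (1 - r ^ 2) ≤
        (∑ i ∈ Finset.range (2 * m + 1), (r ^ 2) ^ i) * (1 - r ^ 2) :=
      mul_le_mul_of_nonneg_right h1 (by linarith)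
    have h5 : (0 : ℝ) ≤ (r ^ 2) ^ (2 * m + 1) := by positivity
    have h6 : (r ^ (2 * m)) ^ 2 * (1 - r ^ 2) * (2 * m + 1) =
        (2 * (m : ℝ) + 1) * (r ^ 2) ^ (2 * m) * (1 - r ^ 2) := by
      rw [← pow_mul, ← pow_mul]
      ring
    rw [h6]
    linarith
  have hs : 0 < Real.sqrt (2 * m + 1) := Real.sqrt_pos.2 hm
  rw [le_div_iff₀ hs]
  refine le_of_sq_le_sq ?_ one_pos.le
  rw [mul_pow, mul_pow, Real.sq_sqrt (by linarith), Real.sq_sqrt hm.le, one_pow]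
  exact h3

theorem pow_ineq (u v w : ℂ) (hu : ‖u‖ ≤ 1) (hv : ‖v‖ ≤ 1) (hw : ‖w‖ ≤ 1)
    (h : ‖w - u * v‖ ≤ Real.sqrt (1 - ‖u‖ ^ 2) * Real.sqrt (1 - ‖v‖ ^ 2)) (m k : ℕ) :
    |‖u‖ ^ (2 * m) * ‖w‖ ^ (2 * k) - ‖u‖ ^ (2 * m) * ‖v‖ ^ (2 * k)| ≤
      4 * k / Real.sqrt (2 * m + 1) := by
  have hu0 := norm_nonneg u
  have hv0 := norm_nonneg v
  have hw0 := norm_nonneg w
  have hsq : ‖u‖ ^ 2 ≤ 1 := pow_le_one₀ hu0 hu
  have h1 : |‖w‖ - ‖v‖| ≤ 2 * Real.sqrt (1 - ‖u‖ ^ 2) := by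
    have h2 : |‖w‖ - ‖u * v‖| ≤ ‖w - u * v‖ := abs_norm_sub_norm_le _ _
    have h3 : |‖u * v‖ - ‖v‖| ≤ Real.sqrt (1 - ‖u‖ ^ 2) := by
      rw [norm_mul]
      have h4 : ‖u‖ * ‖v‖ - ‖v‖ = - ((1 - ‖u‖) * ‖v‖) := by ring
      rw [h4, abs_neg, abs_of_nonneg (mul_nonneg (by linarith) hv0)]
      have h5 : (1 - ‖u‖) * ‖v‖ ≤ 1 - ‖u‖ := mul_le_of_le_one_right (by linarith) hv
      refine h5.trans (Real.le_sqrt_of_sq_le ?_)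
      nlinarith
    have h4 : Real.sqrt (1 - ‖v‖ ^ 2) ≤ 1 := by
      rw [Real.sqrt_le_left one_pos.le]
      nlinarith [sq_nonneg ‖v‖]
    have h5 : Real.sqrt (1 - ‖u‖ ^ 2) * Real.sqrt (1 - ‖v‖ ^ 2) ≤ Real.sqrt (1 - ‖u‖ ^ 2) :=
      mul_le_of_le_one_right (Real.sqrt_nonneg _) h4
    have h6 : |‖w‖ - ‖v‖| ≤ |‖w‖ - ‖u * v‖| + |‖u * v‖ - ‖v‖| := abs_sub_le _ _ _
    linarith
  have h2 := TorA_pow ‖w‖ ‖v‖ hw0 hw hv0 hv (2 * k)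
  have h3 := TorA_geo ‖u‖ hu0 hu m
  rw [← mul_sub, abs_mul, abs_of_nonneg (pow_nonneg hu0 _)]
  calc ‖u‖ ^ (2 * m) * |‖w‖ ^ (2 * k) - ‖v‖ ^ (2 * k)| ≤
        ‖u‖ ^ (2 * m) * (((2 * k : ℕ) : ℝ) * (2 * Real.sqrt (1 - ‖u‖ ^ 2))) := by
        refine mul_le_mul_of_nonneg_left (h2.trans ?_) (pow_nonneg hu0 _)
        exact mul_le_mul_of_nonneg_left h1 (Nat.cast_nonneg _)
    _ = 4 * k * (‖u‖ ^ (2 * m) * Real.sqrt (1 - ‖u‖ ^ 2)) := by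
        push_cast
        ring
    _ ≤ 4 * k * (1 / Real.sqrt (2 * m + 1)) := mul_le_mul_of_nonneg_left h3 (by positivity)
    _ = 4 * k / Real.sqrt (2 * m + 1) := by ring

private theorem TorA_int (s : Sp) (e f g h : Finset ℕ) (m k : ℕ) :
    Integrable (fun ω => ‖s.z e f ω‖ ^ (2 * m) * ‖s.z g h ω‖ ^ (2 * k)) s.P := by
  refine Integrable.of_bound (C := 1) ?_ ?_
  · exact (((s.meas e f).norm.pow_const _).mul ((s.meas g h).norm.pow_const _)).aestronglyMeasurable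
  · refine Filter.Eventually.of_forall fun ω => ?_
    rw [Real.norm_eq_abs, abs_of_nonneg (by positivity)]
    exact mul_le_one₀ (pow_le_one₀ (norm_nonneg _) (s.norm_le e f ω)) (by positivity)
      (pow_le_one₀ (norm_nonneg _) (s.norm_le g h ω))

theorem tor_int (s : Sp) (e f g h : Finset ℕ) (hd : Disjoint (e ∪ f) (g ∪ h)) (m k : ℕ) :
    |∫ ω, ‖s.z e f ω‖ ^ (2 * m) * ‖s.z (e ∪ g) (f ∪ h) ω‖ ^ (2 * k) ∂s.P -
      ∫ ω, ‖s.z e f ω‖ ^ (2 * m) * ‖s.z g h ω‖ ^ (2 * k) ∂s.P| ≤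
      4 * k / Real.sqrt (2 * m + 1) := by
  rw [← integral_sub (TorA_int s e f (e ∪ g) (f ∪ h) m k) (TorA_int s e f g h m k)]
  have h1 := norm_integral_le_of_norm_le_const (μ := s.P) (C := 4 * (k : ℝ) / Real.sqrt (2 * m + 1))
    (f := fun ω => ‖s.z e f ω‖ ^ (2 * m) * ‖s.z (e ∪ g) (f ∪ h) ω‖ ^ (2 * k) -
      ‖s.z e f ω‖ ^ (2 * m) * ‖s.z g h ω‖ ^ (2 * k)) (Filter.Eventually.of_forall fun ω => by
      rw [Real.norm_eq_abs]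
      exact pow_ineq _ _ _ (s.norm_le _ _ _) (s.norm_le _ _ _) (s.norm_le _ _ _)
        (s.gram e f g h ω hd) m k)
  rw [probReal_univ, mul_one, Real.norm_eq_abs] at h1
  exact h1

end Pool.Agent.Lib.MP_90b327_co.RB
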