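import Mathlib
import Pool.Agent.Lib.MP_90b327_co.RB.RDefs
import Pool.Agent.Lib.MP_90b327_co.RB.Lim
import Pool.Agent.Lib.MP_90b327_co.RB.Mono
import Pool.Agent.Lib.MP_90b327_co.RB.TorA

/-!
# Module TorB: the torsion lemma
-/

set_option autoImplicit false

namespace Pool.Agent.Lib.MP_90b327_co.RB

open Filter Topology MeasureTheory

private theorem torB_herm (s : Sp) (x y : Finset ℕ) (m : ℕ) (ω : s.Ω) :
    s.z x y ω ^ m * s.z y x ω ^ m = ((‖s.z x y ω‖ ^ (2 * m) : ℝ) : ℂ) := by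
  have h := zz s x y m 0 ω
  rw [add_zero, pow_zero, mul_one] at h
  rw [h, ← pow_mul]

/-- the pointwise identity -/
private theorem torB_point (s : Sp) (x y u v : Finset ℕ) (hd : Disjoint (x ∪ y) (u ∪ v)) (j : ℕ)
    (ω : s.Ω) : s.e (x ∪ u) (y ∪ v) j ω * s.e u v 0 ω = s.e x y j ω * s.e u v j ω := by
  unfold Sp.e
  by_cases h : ‖s.z u v ω‖ = 1
  · have h1 := s.gram x y u v ω hd
    rw [h] at h1
    have h2 : ‖s.z (x ∪ u) (y ∪ v) ω - s.z x y ω * s.z u v ω‖ ≤ 0 := by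
      refine h1.trans (le_of_eq ?_)
      norm_num
    have h3 : s.z (x ∪ u) (y ∪ v) ω = s.z x y ω * s.z u v ω :=
      sub_eq_zero.mp (norm_le_zero_iff.mp h2)
    rw [h3, norm_mul, h, mul_one, if_pos rfl, if_pos rfl, pow_zero, mul_one]
    split_ifs
    · rw [mul_pow]
    · rw [zero_mul]
  · rw [if_neg h, if_neg h, mul_zero, mul_zero]

private theorem torB_lim (s : Sp) (x y u v : Finset ℕ) (hd : Disjoint (x ∪ y) (u ∪ v)) (j : ℕ) :
    Tendsto (fun n : ℕ => ∫ ω, (s.z (x ∪ u) (y ∪ v) ω ^ (n + j) * s.z (y ∪ v) (x ∪ u) ω ^ n) *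
      (s.z u v ω ^ n * s.z v u ω ^ n) ∂s.P) atTop
      (𝓝 (∫ ω, s.e x y j ω * s.e u v j ω ∂s.P)) := by
  refine tendsto_integral_of_dominated_convergence (fun _ => (1 : ℝ)) ?_ (integrable_const _) ?_ ?_
  · intro n
    exact (((((s.meas _ _).pow_const _).mul ((s.meas _ _).pow_const _)).mul
      (((s.meas _ _).pow_const _).mul ((s.meas _ _).pow_const _)))).aestronglyMeasurable
  · intro n
    refine Eventually.of_forall fun ω => ?_
    rw [norm_mul, norm_mul, norm_mul, norm_pow, norm_pow, norm_pow, norm_pow]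
    have h1 := pow_le_one₀ (n := n + j) (norm_nonneg _) (s.norm_le (x ∪ u) (y ∪ v) ω)
    have h2 := pow_le_one₀ (n := n) (norm_nonneg _) (s.norm_le (y ∪ v) (x ∪ u) ω)
    have h3 := pow_le_one₀ (n := n) (norm_nonneg _) (s.norm_le u v ω)
    have h4 := pow_le_one₀ (n := n) (norm_nonneg _) (s.norm_le v u ω)
    exact mul_le_one₀ (mul_le_one₀ h1 (by positivity) h2) (by positivity)
      (mul_le_one₀ h3 (by positivity) h4)
  · refine Eventually.of_forall fun ω => ?_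
    rw [← torB_point s x y u v hd j ω]
    refine (Tendsto.mul (e_lim s (x ∪ u) (y ∪ v) j ω) (e_lim s u v 0 ω)).congr fun n => ?_
    rw [← zz, ← zz, add_zero]

private theorem torB_disj (a b c d : ℕ) (h : b ≤ c) : Disjoint (Finset.Ico a b) (Finset.Ico c d) := by
  rw [Finset.disjoint_left]
  intro i hi hi'
  rw [Finset.mem_Ico] at hi hi'
  omega

theorem tor_ineq (T : Two) (j m k : ℕ) :
    ‖T.U m m j * (T.U k k j - T.U k k 0)‖ ≤ 4 * k / Real.sqrt (2 * m + 1) := by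
  -- the columns
  obtain ⟨x, y, u, v, hx, hy, hu, hv, hxy, huv, hd⟩ : ∃ x y u v : Finset ℕ, x.card = m ∧
      y.card = m ∧ u.card = k ∧ v.card = k ∧ Disjoint x y ∧ Disjoint u v ∧
      Disjoint (x ∪ y) (u ∪ v) := by
    refine ⟨Finset.Ico 0 m, Finset.Ico m (m + m), Finset.Ico (m + m) (m + m + k),
      Finset.Ico (m + m + k) (m + m + k + k), by simp, by simp, by simp, by simp,
      torB_disj _ _ _ _ le_rfl, torB_disj _ _ _ _ le_rfl, ?_⟩
    rw [Finset.disjoint_union_left, Finset.disjoint_union_right, Finset.disjoint_union_right]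
    exact ⟨⟨torB_disj _ _ _ _ (by omega), torB_disj _ _ _ _ (by omega)⟩,
      torB_disj _ _ _ _ (by omega), torB_disj _ _ _ _ (by omega)⟩
  -- the two sequences
  have hA : Tendsto (fun n : ℕ => ∫ ω, (T.r.z (x ∪ u) (y ∪ v) ω ^ (n + j) *
      T.r.z (y ∪ v) (x ∪ u) ω ^ n) * (T.r.z u v ω ^ n * T.r.z v u ω ^ n) ∂T.r.P) atTop
      (𝓝 (T.U m m j * T.U k k j)) := by
    have h := torB_lim T.r x y u v hd j
    rwa [U_two T x y u v hxy huv hd j j, hx, hy, hu, hv] at h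
  have hB : Tendsto (fun n : ℕ => T.W (n + j) n m m * T.W (n + 0) n k k) atTop
      (𝓝 (T.U m m j * T.U k k 0)) := (U_lim T m m j).mul (U_lim T k k 0)
  have hlim := (hA.sub hB).norm
  rw [mul_sub]
  refine le_of_tendsto hlim (Eventually.of_forall fun n => ?_)
  -- the rows
  obtain ⟨e, f, g, h, he, hf, hg, hh, hef, hgh, hd'⟩ : ∃ e f g h : Finset ℕ, e.card = n ∧
      f.card = n + j ∧ g.card = n ∧ h.card = n ∧ Disjoint e f ∧ Disjoint g h ∧
      Disjoint (e ∪ f) (g ∪ h) := by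
    refine ⟨Finset.Ico 0 n, Finset.Ico n (n + (n + j)),
      Finset.Ico (n + (n + j)) (n + (n + j) + n),
      Finset.Ico (n + (n + j) + n) (n + (n + j) + n + n), by simp, by simp, by simp, by simp,
      torB_disj _ _ _ _ le_rfl, torB_disj _ _ _ _ le_rfl, ?_⟩
    rw [Finset.disjoint_union_left, Finset.disjoint_union_right, Finset.disjoint_union_right]
    exact ⟨⟨torB_disj _ _ _ _ (by omega), torB_disj _ _ _ _ (by omega)⟩,
      torB_disj _ _ _ _ (by omega), torB_disj _ _ _ _ (by omega)⟩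
  have h1 := T.tor x y u v e f g h hxy huv hd hef hgh hd'
  rw [he, hf, hg, hh, hx, hy, hu, hv] at h1
  have h2 := T.ind' e f g h hef hgh hd' m m k k
  rw [he, hf, hg, hh] at h2
  have h3 : (∫ ω, (T.c.z e f ω ^ m * T.c.z f e ω ^ m) *
      (T.c.z (e ∪ g) (f ∪ h) ω ^ k * T.c.z (f ∪ h) (e ∪ g) ω ^ k) ∂T.c.P) =
      ((∫ ω, ‖T.c.z e f ω‖ ^ (2 * m) * ‖T.c.z (e ∪ g) (f ∪ h) ω‖ ^ (2 * k) ∂T.c.P : ℝ) : ℂ) := by
    rw [← integral_complex_ofReal]
    refine integral_congr_ae (Eventually.of_forall fun ω => ?_)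
    beta_reduce
    rw [torB_herm, torB_herm]
    push_cast
    rfl
  have h4 : (∫ ω, (T.c.z e f ω ^ m * T.c.z f e ω ^ m) *
      (T.c.z g h ω ^ k * T.c.z h g ω ^ k) ∂T.c.P) =
      ((∫ ω, ‖T.c.z e f ω‖ ^ (2 * m) * ‖T.c.z g h ω‖ ^ (2 * k) ∂T.c.P : ℝ) : ℂ) := by
    rw [← integral_complex_ofReal]
    refine integral_congr_ae (Eventually.of_forall fun ω => ?_)
    beta_reduce
    rw [torB_herm, torB_herm]
    push_cast
    rfl
  rw [h1, h3, add_zero, ← h2, h4, ← Complex.ofReal_sub, Complex.norm_real, Real.norm_eq_abs]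
  exact tor_int T.c e f g h hd' m k

theorem torsion (T : Two) (j : ℕ) (hj : 0 < T.t j) (k : ℕ) : T.U k k j = T.U k k 0 := by
  have h1 : ∀ m : ℕ, T.t j * ‖T.U k k j - T.U k k 0‖ ≤ 4 * k / Real.sqrt (2 * m + 1) := by
    intro m
    have h2 := tor_ineq T j m k
    rw [norm_mul] at h2
    refine (mul_le_mul_of_nonneg_right ?_ (norm_nonneg _)).trans h2
    exact (t_le T m j).trans (Complex.re_le_norm _)
  have h2 : Tendsto (fun m : ℕ => 4 * (k : ℝ) / Real.sqrt (2 * m + 1)) atTop (𝓝 0) := by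
    refine Tendsto.div_atTop tendsto_const_nhds ?_
    refine Real.tendsto_sqrt_atTop.comp ?_
    exact tendsto_atTop_add_const_right _ _
      (tendsto_natCast_atTop_atTop.const_mul_atTop (by norm_num))
  have h3 : T.t j * ‖T.U k k j - T.U k k 0‖ ≤ 0 :=
    ge_of_tendsto' h2 h1
  have h4 : ‖T.U k k j - T.U k k 0‖ ≤ 0 := by
    by_contra h5
    push Not at h5
    nlinarith [mul_pos hj h5]
  exact sub_eq_zero.mp (norm_le_zero_iff.mp h4)

theorem torsion_ae (T : Two) (j : ℕ) (hj : 0 < T.t j) (x y : Finset ℕ) (hxy : Disjoint x y)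
    (hc : x.card = y.card) : ∀ᵐ ω ∂T.r.P, ‖T.r.z x y ω‖ = 1 → T.r.z x y ω ^ j = 1 := by
  have hint : ∀ i, Integrable (T.r.e x y i) T.r.P := fun i =>
    (integrable_const (1 : ℝ)).mono' (e_meas T.r x y i).aestronglyMeasurable
      (Eventually.of_forall fun ω => e_norm T.r x y i ω)
  have h1 : ∫ ω, (T.r.e x y 0 ω - T.r.e x y j ω) ∂T.r.P = 0 := by
    rw [integral_sub (hint 0) (hint j), U_eq T x y hxy 0, U_eq T x y hxy j, hc,
      torsion T j hj, sub_self]
  have h2 : ∫ ω, (T.r.e x y 0 ω - T.r.e x y j ω).re ∂T.r.P = 0 := by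
    have h3 := integral_re ((hint 0).sub (hint j))
    have h4 : (∫ ω, (T.r.e x y 0 ω - T.r.e x y j ω).re ∂T.r.P) =
        (∫ ω, (T.r.e x y 0 ω - T.r.e x y j ω) ∂T.r.P).re := h3
    rw [h4, h1, Complex.zero_re]
  have h5 : ∀ ω, 0 ≤ (T.r.e x y 0 ω - T.r.e x y j ω).re := by
    intro ω
    unfold Sp.e
    by_cases h : ‖T.r.z x y ω‖ = 1
    · rw [if_pos h, if_pos h, pow_zero, Complex.sub_re, Complex.one_re, sub_nonneg]
      refine (Complex.re_le_norm _).trans ?_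
      rw [norm_pow, h, one_pow]
    · rw [if_neg h, if_neg h, sub_zero, Complex.zero_re]
  have h6 := (integral_eq_zero_iff_of_nonneg h5 (((hint 0).sub (hint j)).re)).mp h2
  filter_upwards [h6] with ω hω h
  have h7 : (T.r.e x y 0 ω - T.r.e x y j ω).re = 0 := hω
  unfold Sp.e at h7
  rw [if_pos h, if_pos h, pow_zero, Complex.sub_re, Complex.one_re, sub_eq_zero] at h7
  have h8 : ‖T.r.z x y ω ^ j‖ = 1 := by rw [norm_pow, h, one_pow]
  have h9 := Complex.sq_norm_sub_sq_re (T.r.z x y ω ^ j)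
  rw [h8, ← h7] at h9
  refine Complex.ext h7.symm ?_
  have h10 : (T.r.z x y ω ^ j).im ^ 2 = 0 := by linarith
  rw [Complex.one_im]
  exact pow_eq_zero_iff (by norm_num) |>.mp h10

end Pool.Agent.Lib.MP_90b327_co.RB
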