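import Mathlib
import Pool.Agent.Lib.MP_90b327_co.RB.RDefs
import Pool.Agent.Lib.MP_90b327_co.RB.Lim
import Pool.Agent.Lib.MP_90b327_co.RB.Mono
import Pool.Agent.Lib.MP_90b327_co.RB.TorB

/-!
MODULE Near (50 minutes, old scale). Text (9.1), (9.2). Assumption: torsion for columns,
`0 < T.swap.t j'` (the row space of `T.swap` is `T.c`).

PROOFS.
`near1`: `W b b l 0 = ∫ z'^l` with `z' = T.c.z (Ico b (b+b)) (range b)` (`T.mom'`, `a = l`, second exponent `0`).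
`torsion_ae T.swap j'` : `z'^j' = 1` a.e. on `‖z'‖ = 1`, so `z'^l = 1` there. `T.swap.U b b 0` = the measure of
`‖z'‖ = 1`. So `‖W b b l 0 - T.swap.U b b 0‖ = ‖∫ 1(‖z'‖<1) z'^l‖ ≤ ∫ 1(‖z'‖<1) ‖z'‖^l = ∫ ‖z'‖^l -
P'(‖z'‖ = 1) = bR T (l/2) b 0 - (T.swap.U b b 0).re` (`l = 2 (l/2)`, as `2 ∣ l`).
`near2`: `T.t 0 = T.swap.t 0 ≤ (T.swap.U b b 0).re ≤ bR T (l/2) b 0 ≤ T.t 0 + ε/2` for `b`, `l/2` large
(`t_swap`, `t_le`, `bR_lim`; `(T.swap.U b b 0).re ≤ bR T (l/2) b 0`: `U_le_bR T.swap b (l/2)` and `bet_symm`),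
and `T.swap.U b b 0` is real (`U_im`).
`near3`: let `b → ∞` in `near2` (`U_lim T l 0 0`).
`near4`: `W b 0 l 0 = ∫ z^b`, `z = T.r.z ∅ (range l)` (`T.mom` with `x = ∅`), `T.U l 0 b = ∫ T.r.e (Ico l (l+0))
(range l) b`, `Ico l (l+0) = ∅`. The difference is `∫ 1(‖z‖<1) z^b`, of norm `≤ ∫ 1(‖z‖<1) ‖z‖^b =
∫ ‖z‖^b - P(‖z‖=1) = (W (b/2) (b/2) l 0).re - (T.U l 0 0).re` (`2 ∣ b`); use `near2`, `near3` with `ε/2`.
-/

set_option autoImplicit false

namespace Pool.Agent.Lib.MP_90b327_co.RB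

open Filter Topology MeasureTheory

private theorem z_int (s : Sp) (x y : Finset ℕ) (n : ℕ) :
    Integrable (fun ω => s.z x y ω ^ n) s.P := by
  refine Integrable.of_bound ((s.meas x y).pow_const n).aestronglyMeasurable 1 ?_
  filter_upwards with ω
  rw [norm_pow]
  exact pow_le_one₀ (norm_nonneg _) (s.norm_le x y ω)

private theorem zn_int (s : Sp) (x y : Finset ℕ) (n : ℕ) :
    Integrable (fun ω => ‖s.z x y ω‖ ^ n) s.P := by
  refine Integrable.of_bound ((s.meas x y).norm.pow_const n).aestronglyMeasurable 1 ?_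
  filter_upwards with ω
  rw [Real.norm_eq_abs, abs_of_nonneg (by positivity)]
  exact pow_le_one₀ (norm_nonneg _) (s.norm_le x y ω)

private theorem e_int (s : Sp) (x y : Finset ℕ) (j : ℕ) : Integrable (s.e x y j) s.P := by
  refine Integrable.of_bound (e_meas s x y j).aestronglyMeasurable 1 ?_
  filter_upwards with ω
  exact e_norm s x y j ω

private theorem ere_int (s : Sp) (x y : Finset ℕ) (j : ℕ) :
    Integrable (fun ω => (s.e x y j ω).re) s.P :=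
  Complex.reCLM.integrable_comp (e_int s x y j)

private theorem re_int {Ω : Type} [MeasurableSpace Ω] {P : Measure Ω} {f : Ω → ℂ}
    (hf : Integrable f P) : ∫ ω, (f ω).re ∂P = (∫ ω, f ω ∂P).re := by
  have := Complex.reCLM.integral_comp_comm hf
  simpa using this

/-- comparison of the integral of a power with the integral on the event `‖z‖ = 1` -/
private theorem cmp (s : Sp) (x y : Finset ℕ) (n : ℕ) (g : s.Ω → ℂ) (hg : Integrable g s.P)
    (h : ∀ᵐ ω ∂s.P, g ω = s.e x y n ω) :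
    ‖(∫ ω, s.z x y ω ^ n ∂s.P) - ∫ ω, g ω ∂s.P‖ ≤
      (∫ ω, ‖s.z x y ω‖ ^ n ∂s.P) - (∫ ω, s.e x y 0 ω ∂s.P).re := by
  rw [← integral_sub (z_int s x y n) hg]
  have h1 : (∫ ω, ‖s.z x y ω‖ ^ n ∂s.P) - (∫ ω, s.e x y 0 ω ∂s.P).re =
      ∫ ω, (‖s.z x y ω‖ ^ n - (s.e x y 0 ω).re) ∂s.P := by
    rw [integral_sub (zn_int s x y n) (ere_int s x y 0), re_int (e_int s x y 0)]
  rw [h1]
  refine norm_integral_le_of_norm_le ((zn_int s x y n).sub (ere_int s x y 0)) ?_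
  filter_upwards [h] with ω hω
  rw [hω]
  unfold Sp.e
  by_cases hz : ‖s.z x y ω‖ = 1
  · rw [if_pos hz, if_pos hz]
    simp [hz]
  · rw [if_neg hz, if_neg hz]
    simp

private theorem swapU (T : Two) (b j : ℕ) :
    T.swap.U b b j = ∫ ω, T.c.e (Finset.Ico b (b + b)) (Finset.range b) j ω ∂T.c.P := rfl

theorem near1 (T : Two) (j' : ℕ) (hj' : 0 < T.swap.t j') (b l : ℕ) (hl : 2 * j' ∣ l) :
    ‖T.W b b l 0 - T.swap.U b b 0‖ ≤ bR T (l / 2) b 0 - (T.swap.U b b 0).re := by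
  have hdis : Disjoint (Finset.Ico b (b + b)) (Finset.range b) := by
    rw [Finset.disjoint_left]
    intro t ht ht'
    rw [Finset.mem_Ico] at ht
    rw [Finset.mem_range] at ht'
    omega
  have hW : T.W b b l 0 = ∫ ω, T.c.z (Finset.Ico b (b + b)) (Finset.range b) ω ^ l ∂T.c.P := by
    have h := T.mom' (Finset.Ico b (b + b)) (Finset.range b) hdis l 0
    rw [Finset.card_range, Nat.card_Ico, Nat.add_sub_cancel_left] at h
    rw [← h]
    simp only [pow_zero, mul_one]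
  have hae : ∀ᵐ ω ∂T.c.P, T.c.e (Finset.Ico b (b + b)) (Finset.range b) 0 ω =
      T.c.e (Finset.Ico b (b + b)) (Finset.range b) l ω := by
    have h := torsion_ae T.swap j' hj' (Finset.Ico b (b + b)) (Finset.range b) hdis (by simp)
    change ∀ᵐ ω ∂T.c.P, ‖T.c.z (Finset.Ico b (b + b)) (Finset.range b) ω‖ = 1 →
      T.c.z (Finset.Ico b (b + b)) (Finset.range b) ω ^ j' = 1 at h
    filter_upwards [h] with ω hω
    unfold Sp.e
    by_cases hz : ‖T.c.z (Finset.Ico b (b + b)) (Finset.range b) ω‖ = 1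
    · rw [if_pos hz, if_pos hz, pow_zero]
      obtain ⟨k, hk⟩ := hl
      rw [hk, mul_comm 2 j', mul_assoc, pow_mul, hω hz, one_pow]
    · rw [if_neg hz, if_neg hz]
  have h := cmp T.c (Finset.Ico b (b + b)) (Finset.range b) l
    (T.c.e (Finset.Ico b (b + b)) (Finset.range b) 0) (e_int _ _ _ _) hae
  have hbR : bR T (l / 2) b 0 =
      ∫ ω, ‖T.c.z (Finset.Ico b (b + b)) (Finset.range b) ω‖ ^ l ∂T.c.P := by
    have h2 : 2 * (l / 2) = l := by
      obtain ⟨k, hk⟩ := hl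
      rw [hk, mul_assoc, Nat.mul_div_cancel_left _ (by norm_num)]
    unfold bR
    rw [h2]
    rfl
  rw [hW, hbR, swapU]
  exact h

theorem near2 (T : Two) (j' : ℕ) (hj' : 0 < T.swap.t j') (ε : ℝ) (hε : 0 < ε) :
    ∃ M : ℕ, ∀ b l : ℕ, M ≤ b → M ≤ l → 2 * j' ∣ l → ‖T.W b b l 0 - (T.t 0 : ℂ)‖ ≤ ε := by
  obtain ⟨M, hM⟩ := bR_lim T ε hε
  refine ⟨2 * M, ?_⟩
  intro b l hb hl hd
  have h1 := near1 T j' hj' b l hd
  have h2 := hM (l / 2) b (by omega) (by omega)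
  have h3 : T.t 0 ≤ (T.swap.U b b 0).re := by
    rw [← t_swap T]
    exact t_le T.swap b 0
  have h4 : T.swap.U b b 0 = (((T.swap.U b b 0).re : ℝ) : ℂ) := by
    apply Complex.ext
    · simp
    · simp [U_im]
  have h5 : ‖T.swap.U b b 0 - (T.t 0 : ℂ)‖ = (T.swap.U b b 0).re - T.t 0 := by
    rw [h4, ← Complex.ofReal_sub, Complex.norm_real, Complex.ofReal_re, Real.norm_eq_abs,
      abs_of_nonneg (by linarith)]
  calc ‖T.W b b l 0 - (T.t 0 : ℂ)‖ = ‖(T.W b b l 0 - T.swap.U b b 0) + (T.swap.U b b 0 - (T.t 0 : ℂ))‖ := by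
        congr 1; ring
    _ ≤ ‖T.W b b l 0 - T.swap.U b b 0‖ + ‖T.swap.U b b 0 - (T.t 0 : ℂ)‖ := norm_add_le _ _
    _ ≤ (bR T (l / 2) b 0 - (T.swap.U b b 0).re) + ((T.swap.U b b 0).re - T.t 0) := by
        rw [h5]
        linarith
    _ ≤ ε := by linarith

theorem near3 (T : Two) (j' : ℕ) (hj' : 0 < T.swap.t j') (ε : ℝ) (hε : 0 < ε) :
    ∃ M : ℕ, ∀ l : ℕ, M ≤ l → 2 * j' ∣ l → ‖T.U l 0 0 - (T.t 0 : ℂ)‖ ≤ ε := by
  obtain ⟨M, hM⟩ := near2 T j' hj' ε hε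
  refine ⟨M, ?_⟩
  intro l hl hd
  have h1 := ((U_lim T l 0 0).sub_const (T.t 0 : ℂ)).norm
  refine le_of_tendsto h1 ?_
  filter_upwards [eventually_ge_atTop M] with n hn
  exact hM n l hn hl hd

theorem near4 (T : Two) (j' : ℕ) (hj' : 0 < T.swap.t j') (ε : ℝ) (hε : 0 < ε) :
    ∃ M : ℕ, ∀ b l : ℕ, M ≤ b → M ≤ l → 2 ∣ b → 2 * j' ∣ l → ‖T.W b 0 l 0 - T.U l 0 b‖ ≤ ε := by
  obtain ⟨M₁, hM₁⟩ := near2 T j' hj' (ε / 2) (by linarith)
  obtain ⟨M₂, hM₂⟩ := near3 T j' hj' (ε / 2) (by linarith)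
  refine ⟨2 * (M₁ + M₂), ?_⟩
  intro b l hb hl h2b hd
  have hW : T.W b 0 l 0 = ∫ ω, T.r.z ∅ (Finset.range l) ω ^ b ∂T.r.P := by
    have h := T.mom ∅ (Finset.range l) (Finset.disjoint_empty_left _) b 0
    rw [Finset.card_range, Finset.card_empty] at h
    rw [← h]
    simp only [pow_zero, mul_one]
  have hU : ∀ i, T.U l 0 i = ∫ ω, T.r.e ∅ (Finset.range l) i ω ∂T.r.P := by
    intro i
    unfold Two.U
    rw [Nat.add_zero, Finset.Ico_self]
  have hW2 : (T.W (b / 2) (b / 2) l 0).re = ∫ ω, ‖T.r.z ∅ (Finset.range l) ω‖ ^ b ∂T.r.P := by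
    have h := T.mom ∅ (Finset.range l) (Finset.disjoint_empty_left _) (b / 2) (b / 2)
    rw [Finset.card_range, Finset.card_empty] at h
    rw [← h]
    have h2 : ∀ ω, T.r.z ∅ (Finset.range l) ω ^ (b / 2) * T.r.z (Finset.range l) ∅ ω ^ (b / 2) =
        ((‖T.r.z ∅ (Finset.range l) ω‖ ^ b : ℝ) : ℂ) := by
      intro ω
      rw [T.r.herm ∅ (Finset.range l) ω, ← mul_pow, Complex.mul_conj, Complex.normSq_eq_norm_sq]
      rw [← Complex.ofReal_pow, ← pow_mul]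
      congr 2
      omega
    simp_rw [h2]
    rw [integral_complex_ofReal, Complex.ofReal_re]
  have h := cmp T.r ∅ (Finset.range l) b (T.r.e ∅ (Finset.range l) b) (e_int _ _ _ _)
    (by filter_upwards with ω; rfl)
  rw [← hW, ← hU, ← hU, ← hW2] at h
  have h1 := hM₁ (b / 2) l (by omega) (by omega) hd
  have h2 := hM₂ l (by omega) hd
  have h3 := Complex.abs_re_le_norm (T.W (b / 2) (b / 2) l 0 - (T.t 0 : ℂ))
  have h4 := Complex.abs_re_le_norm (T.U l 0 0 - (T.t 0 : ℂ))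
  rw [Complex.sub_re, Complex.ofReal_re] at h3 h4
  have h5 := (abs_le.mp (h3.trans h1)).2
  have h6 := (abs_le.mp (h4.trans h2)).1
  linarith

end Pool.Agent.Lib.MP_90b327_co.RB
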