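import Mathlib
import Pool.Agent.Lib.MP_90b327_co.RB.RDefs
import Pool.Agent.Lib.MP_90b327_co.RB.Lim
import Pool.Agent.Lib.MP_90b327_co.RB.Mono
import Pool.Agent.Lib.MP_90b327_co.RB.TorB

/-!
MODULE Phase (60 minutes, old scale). Text (9.3), (9.4). Assumption: torsion for rows, `0 < T.t j`.

PROOFS.
`phase_const`: `K = range l`, `K' = Ico l (l + l)`. `U_two` with `(x, y) = (∅, K)`, `(u, v) = (K', ∅)`:
`∫ e ∅ K a * e K' ∅ a = U l 0 a * U 0 l a = ‖U l 0 a‖²` (`U_swap`); with exponent `0`: `∫ e ∅ K 0 * e K' ∅ 0 =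
‖U l 0 0‖²`. The two integrands agree a.e.: where both norms are `1`, `gram ∅ K K' ∅` gives
`z K' K = z ∅ K * z K' ∅` (norm `1`), and `torsion_ae` (sets `K'`, `K` of the same size) gives
`(z K' K)^j = 1`, so `(z ∅ K)^a (z K' ∅)^a = 1` (`j ∣ a`). So `‖U l 0 a‖ = ‖U l 0 0‖ = N := (U l 0 0).re`
(`U l 0 0` is the integral of an indicator). Put `κ = U l 0 a / N`. For `y.card = l`: `∫ e ∅ y a = U l 0 a = κ N`,
`∫ e ∅ y 0 = N` (`U_eq`, `x = ∅`), so `∫ Re (e ∅ y 0 - conj κ * e ∅ y a) = 0` with a nonnegative integrand; so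
a.e. on `‖z‖ = 1`: `Re (conj κ * z^a) = 1`, i.e. `z^a = κ`.
`phase_mul`: `κ_q` from `phase_const` for `l = a q`. For `q ≥ 1`: `K = range (a q)`, `L = Ico (a q) (a q + a)`:
by `U_two` with exponents `0`, `0` the event `‖z ∅ K‖ = 1 = ‖z ∅ L‖` has probability `(U (a q) 0 0).re *
(U a 0 0).re > 0`; on it `gram ∅ K ∅ L` gives `z ∅ (K ∪ L) = z ∅ K * z ∅ L`, of norm `1`, so a.e. there
`κ_(q+1) = κ_q κ_1`. So `κ_q = ζ^q`, `ζ = κ_1` (induction). Finally `U (a q) 0 (a p) = ∫ e ∅ K (a p)`, and a.e.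
`e ∅ K (a p) = e ∅ K 0 * κ_q^p`.
-/

set_option autoImplicit false

namespace Pool.Agent.Lib.MP_90b327_co.RB

open Filter Topology MeasureTheory

private theorem Phase_int (s : Sp) (x y : Finset ℕ) (j : ℕ) : Integrable (s.e x y j) s.P :=
  Integrable.of_bound (e_meas s x y j).aestronglyMeasurable 1
    (Filter.Eventually.of_forall fun ω => e_norm s x y j ω)

private theorem Phase_one (s : Sp) {x y : Finset ℕ} {ω : s.Ω} (h : ‖s.z x y ω‖ = 1) (j : ℕ) :
    s.e x y j ω = s.z x y ω ^ j := by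
  unfold Sp.e
  rw [if_pos h]

private theorem Phase_no (s : Sp) {x y : Finset ℕ} {ω : s.Ω} (h : ‖s.z x y ω‖ ≠ 1) (j : ℕ) :
    s.e x y j ω = 0 := by
  unfold Sp.e
  rw [if_neg h]

private theorem Phase_gram (s : Sp) {x y u v : Finset ℕ} {ω : s.Ω} (hd : Disjoint (x ∪ y) (u ∪ v))
    (h : ‖s.z x y ω‖ = 1) : s.z (x ∪ u) (y ∪ v) ω = s.z x y ω * s.z u v ω := by
  have h1 := s.gram x y u v ω hd
  rw [h] at h1
  norm_num at h1
  exact sub_eq_zero.mp h1

private theorem Phase_real (T : Two) (l : ℕ) : T.U l 0 0 = ((T.U l 0 0).re : ℂ) := by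
  have h1 : (starRingEnd ℂ) (T.U l 0 0) = T.U l 0 0 := by
    rw [← U_swap T l 0 0]
    unfold Two.U
    have h2 := U_eq T (Finset.range l) ∅ (Finset.disjoint_empty_right _) 0
    have h3 := U_eq T ∅ (Finset.range l) (Finset.disjoint_empty_left _) 0
    unfold Two.U at h2 h3
    rw [Finset.card_empty, Finset.card_range] at h2 h3
    rw [← h2, ← h3]
    congr 1
    funext ω
    by_cases h4 : ‖T.r.z ∅ (Finset.range l) ω‖ = 1
    · have h5 : ‖T.r.z (Finset.range l) ∅ ω‖ = 1 := by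
        rw [T.r.herm ∅ (Finset.range l) ω, Complex.norm_conj]
        exact h4
      rw [Phase_one T.r h4, Phase_one T.r h5, pow_zero, pow_zero]
    · have h5 : ‖T.r.z (Finset.range l) ∅ ω‖ ≠ 1 := by
        rw [T.r.herm ∅ (Finset.range l) ω, Complex.norm_conj]
        exact h4
      rw [Phase_no T.r h4, Phase_no T.r h5]
  exact (Complex.conj_eq_iff_re.mp h1).symm

theorem phase_const (T : Two) (j : ℕ) (hj : 0 < T.t j) (a : ℕ) (ha : j ∣ a) (l : ℕ)
    (hl : 0 < (T.U l 0 0).re) : ∃ κ : ℂ, ‖κ‖ = 1 ∧ ∀ y : Finset ℕ, y.card = l →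
      ∀ᵐ ω ∂T.r.P, ‖T.r.z ∅ y ω‖ = 1 → T.r.z ∅ y ω ^ a = κ := by
  obtain ⟨K, hK⟩ : ∃ K : Finset ℕ, K = Finset.range l := ⟨_, rfl⟩
  obtain ⟨K', hK'⟩ : ∃ K' : Finset ℕ, K' = Finset.Ico l (l + l) := ⟨_, rfl⟩
  have hKc : K.card = l := by rw [hK, Finset.card_range]
  have hKc' : K'.card = l := by rw [hK', Nat.card_Ico]; omega
  have hdis : Disjoint K K' := by
    rw [Finset.disjoint_left, hK, hK']
    intro i hi hi'
    rw [Finset.mem_range] at hi
    rw [Finset.mem_Ico] at hi'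
    omega
  have hd : Disjoint (∅ ∪ K) (K' ∪ ∅) := by
    rw [Finset.empty_union, Finset.union_empty]
    exact hdis
  -- the two integrals
  have h1 := U_two T ∅ K K' ∅ (Finset.disjoint_empty_left _) (Finset.disjoint_empty_right _) hd a a
  have h2 := U_two T ∅ K K' ∅ (Finset.disjoint_empty_left _) (Finset.disjoint_empty_right _) hd 0 0
  have h3 : ∫ ω, T.r.e ∅ K a ω * T.r.e K' ∅ a ω ∂T.r.P =
      ∫ ω, T.r.e ∅ K 0 ω * T.r.e K' ∅ 0 ω ∂T.r.P := by
    apply integral_congr_ae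
    filter_upwards [torsion_ae T j hj K' K hdis.symm (by rw [hKc, hKc'])] with ω hω
    by_cases h4 : ‖T.r.z ∅ K ω‖ = 1
    · by_cases h5 : ‖T.r.z K' ∅ ω‖ = 1
      · rw [Phase_one T.r h4, Phase_one T.r h5, Phase_one T.r h4, Phase_one T.r h5, pow_zero,
          pow_zero, mul_one, ← mul_pow]
        have h6 := Phase_gram T.r hd h4
        rw [Finset.empty_union, Finset.union_empty] at h6
        rw [← h6]
        obtain ⟨b, rfl⟩ := ha
        rw [pow_mul, hω, one_pow]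
        rw [h6, norm_mul, h4, h5, mul_one]
      · rw [Phase_no T.r h5, Phase_no T.r h5, mul_zero, mul_zero]
    · rw [Phase_no T.r h4, Phase_no T.r h4, zero_mul, zero_mul]
  rw [h1, h2, hKc, hKc', Finset.card_empty, U_swap T l 0 a, U_swap T l 0 0, Complex.mul_conj,
    Complex.mul_conj] at h3
  obtain ⟨N, hN⟩ : ∃ N : ℝ, N = (T.U l 0 0).re := ⟨_, rfl⟩
  have hNU : T.U l 0 0 = (N : ℂ) := by rw [hN]; exact Phase_real T l
  have hN0 : 0 < N := by rw [hN]; exact hl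
  have hnorm : ‖T.U l 0 a‖ = N := by
    have h4 : Complex.normSq (T.U l 0 a) = Complex.normSq (T.U l 0 0) := by exact_mod_cast h3
    rw [Complex.normSq_eq_norm_sq, Complex.normSq_eq_norm_sq, hNU, Complex.norm_real,
      Real.norm_of_nonneg hN0.le] at h4
    exact (pow_left_inj₀ (norm_nonneg _) hN0.le two_ne_zero).mp h4
  obtain ⟨κ, hκ⟩ : ∃ κ : ℂ, κ = T.U l 0 a / (N : ℂ) := ⟨_, rfl⟩
  have hNne : (N : ℂ) ≠ 0 := by exact_mod_cast hN0.ne'
  have hκ1 : ‖κ‖ = 1 := by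
    rw [hκ, norm_div, hnorm, Complex.norm_real, Real.norm_of_nonneg hN0.le, div_self hN0.ne']
  have hκN : T.U l 0 a = κ * N := by
    rw [hκ]
    field_simp
  refine ⟨κ, hκ1, fun y hy => ?_⟩
  have hi0 := Phase_int T.r ∅ y 0
  have hia := (Phase_int T.r ∅ y a).const_mul ((starRingEnd ℂ) κ)
  have hκκ : (starRingEnd ℂ) κ * κ = 1 := by
    rw [mul_comm, Complex.mul_conj, Complex.normSq_eq_norm_sq, hκ1]
    norm_num
  have hint : ∫ ω, (T.r.e ∅ y 0 ω - (starRingEnd ℂ) κ * T.r.e ∅ y a ω).re ∂T.r.P = 0 := by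
    have h4 : ∫ ω, (T.r.e ∅ y 0 ω - (starRingEnd ℂ) κ * T.r.e ∅ y a ω) ∂T.r.P = 0 := by
      rw [integral_sub hi0 hia, integral_const_mul,
        U_eq T ∅ y (Finset.disjoint_empty_left _) 0, U_eq T ∅ y (Finset.disjoint_empty_left _) a,
        hy, Finset.card_empty, hNU, hκN, ← mul_assoc, hκκ, one_mul, sub_self]
    have h5 : ∫ ω, (T.r.e ∅ y 0 ω - (starRingEnd ℂ) κ * T.r.e ∅ y a ω).re ∂T.r.P =
        (∫ ω, (T.r.e ∅ y 0 ω - (starRingEnd ℂ) κ * T.r.e ∅ y a ω) ∂T.r.P).re :=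
      integral_re (hi0.sub hia)
    rw [h5, h4, Complex.zero_re]
  have hle : ∀ ω, ((starRingEnd ℂ) κ * T.r.z ∅ y ω ^ a).re ≤ 1 := by
    intro ω
    refine (Complex.re_le_norm _).trans ?_
    rw [norm_mul, Complex.norm_conj, hκ1, one_mul, norm_pow]
    exact pow_le_one₀ (norm_nonneg _) (T.r.norm_le _ _ _)
  have hnn : ∀ ω, 0 ≤ (T.r.e ∅ y 0 ω - (starRingEnd ℂ) κ * T.r.e ∅ y a ω).re := by
    intro ω
    by_cases h4 : ‖T.r.z ∅ y ω‖ = 1
    · rw [Phase_one T.r h4, Phase_one T.r h4, pow_zero, Complex.sub_re, Complex.one_re]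
      linarith [hle ω]
    · rw [Phase_no T.r h4, Phase_no T.r h4, mul_zero, sub_zero, Complex.zero_re]
  have hae := (integral_eq_zero_iff_of_nonneg hnn (hi0.sub hia).re).mp hint
  filter_upwards [hae] with ω hω h4
  have h5 : (T.r.e ∅ y 0 ω - (starRingEnd ℂ) κ * T.r.e ∅ y a ω).re = 0 := hω
  rw [Phase_one T.r h4, Phase_one T.r h4, pow_zero, Complex.sub_re, Complex.one_re] at h5
  -- real part one and norm at most one
  have h6 : ((starRingEnd ℂ) κ * T.r.z ∅ y ω ^ a).re = 1 := by linarith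
  have h7 : ‖(starRingEnd ℂ) κ * T.r.z ∅ y ω ^ a‖ = 1 := by
    rw [norm_mul, Complex.norm_conj, hκ1, one_mul, norm_pow, h4, one_pow]
  have h8 : (starRingEnd ℂ) κ * T.r.z ∅ y ω ^ a = 1 := by
    have h9 := Complex.sq_norm ((starRingEnd ℂ) κ * T.r.z ∅ y ω ^ a)
    rw [h7, Complex.normSq_apply, h6] at h9
    have h10 : ((starRingEnd ℂ) κ * T.r.z ∅ y ω ^ a).im = 0 := by nlinarith
    apply Complex.ext
    · rw [h6, Complex.one_re]
    · rw [h10, Complex.one_im]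
  calc T.r.z ∅ y ω ^ a = κ * ((starRingEnd ℂ) κ * T.r.z ∅ y ω ^ a) := by
        rw [← mul_assoc, mul_comm κ, hκκ, one_mul]
    _ = κ := by rw [h8, mul_one]

theorem phase_mul (T : Two) (j : ℕ) (hj : 0 < T.t j) (a : ℕ) (ha : j ∣ a)
    (hN : ∀ q : ℕ, 1 ≤ q → 0 < (T.U (a * q) 0 0).re) : ∃ ζ : ℂ, ‖ζ‖ = 1 ∧
      ∀ q : ℕ, 1 ≤ q → ∀ p : ℕ, T.U (a * q) 0 (a * p) = T.U (a * q) 0 0 * ζ ^ (p * q) := by
  have hex : ∀ q : ℕ, ∃ κ : ℂ, 1 ≤ q → ‖κ‖ = 1 ∧ ∀ y : Finset ℕ, y.card = a * q →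
      ∀ᵐ ω ∂T.r.P, ‖T.r.z ∅ y ω‖ = 1 → T.r.z ∅ y ω ^ a = κ := by
    intro q
    by_cases hq : 1 ≤ q
    · obtain ⟨κ, h1⟩ := phase_const T j hj a ha (a * q) (hN q hq)
      exact ⟨κ, fun _ => h1⟩
    · exact ⟨0, fun h => absurd h hq⟩
  choose κ hκ using hex
  have hind : ∀ q : ℕ, 1 ≤ q → κ q = κ 1 ^ q := by
    intro q hq
    induction q, hq using Nat.le_induction with
    | base => rw [pow_one]
    | succ q hq ih =>
      rw [pow_succ, ← ih]
      by_contra hne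
      obtain ⟨K, hK⟩ : ∃ K : Finset ℕ, K = Finset.range (a * q) := ⟨_, rfl⟩
      obtain ⟨L, hL⟩ : ∃ L : Finset ℕ, L = Finset.Ico (a * q) (a * q + a) := ⟨_, rfl⟩
      have hKc : K.card = a * q := by rw [hK, Finset.card_range]
      have hLc : L.card = a := by rw [hL, Nat.card_Ico]; omega
      have hdis : Disjoint K L := by
        rw [Finset.disjoint_left, hK, hL]
        intro i hi hi'
        rw [Finset.mem_range] at hi
        rw [Finset.mem_Ico] at hi'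
        omega
      have hd : Disjoint (∅ ∪ K) (∅ ∪ L) := by
        rw [Finset.empty_union, Finset.empty_union]
        exact hdis
      have hKL : (K ∪ L).card = a * (q + 1) := by
        rw [Finset.card_union_of_disjoint hdis, hKc, hLc, Nat.mul_succ]
      have h1 := U_two T ∅ K ∅ L (Finset.disjoint_empty_left _) (Finset.disjoint_empty_left _)
        hd 0 0
      have h2 : ∫ ω, T.r.e ∅ K 0 ω * T.r.e ∅ L 0 ω ∂T.r.P = 0 := by
        apply integral_eq_zero_of_ae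
        filter_upwards [(hκ q hq).2 K hKc, (hκ 1 le_rfl).2 L (by rw [hLc, Nat.mul_one]),
          (hκ (q + 1) (by omega)).2 (K ∪ L) hKL] with ω e1 e2 e3
        by_cases h4 : ‖T.r.z ∅ K ω‖ = 1
        · by_cases h5 : ‖T.r.z ∅ L ω‖ = 1
          · exfalso
            apply hne
            have h6 := Phase_gram T.r hd h4
            rw [Finset.empty_union] at h6
            have h7 : ‖T.r.z ∅ (K ∪ L) ω‖ = 1 := by rw [h6, norm_mul, h4, h5, mul_one]
            rw [← e3 h7, h6, mul_pow, e1 h4, e2 h5]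
          · rw [Phase_no T.r h5, mul_zero]
            rfl
        · rw [Phase_no T.r h4, zero_mul]
          rfl
      rw [h1, hKc, hLc, Finset.card_empty, Phase_real T (a * q), Phase_real T a] at h2
      have h3 := hN q hq
      have h4 := hN 1 le_rfl
      rw [Nat.mul_one] at h4
      rcases mul_eq_zero.mp h2 with h5 | h5
      · exact h3.ne' (by exact_mod_cast h5)
      · exact h4.ne' (by exact_mod_cast h5)
  refine ⟨κ 1, (hκ 1 le_rfl).1, fun q hq p => ?_⟩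
  obtain ⟨K, hK⟩ : ∃ K : Finset ℕ, K = Finset.range (a * q) := ⟨_, rfl⟩
  have hKc : K.card = a * q := by rw [hK, Finset.card_range]
  have h1 := U_eq T ∅ K (Finset.disjoint_empty_left _) (a * p)
  have h2 := U_eq T ∅ K (Finset.disjoint_empty_left _) 0
  rw [hKc, Finset.card_empty] at h1 h2
  rw [← h1, ← h2]
  have h3 : ∫ ω, T.r.e ∅ K (a * p) ω ∂T.r.P = ∫ ω, T.r.e ∅ K 0 ω * κ q ^ p ∂T.r.P := by
    apply integral_congr_ae
    filter_upwards [(hκ q hq).2 K hKc] with ω hω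
    by_cases h4 : ‖T.r.z ∅ K ω‖ = 1
    · rw [Phase_one T.r h4, Phase_one T.r h4, pow_zero, one_mul, pow_mul, hω h4]
    · rw [Phase_no T.r h4, Phase_no T.r h4, zero_mul]
  rw [h3, integral_mul_const, hind q hq, ← pow_mul, mul_comm q p]

end Pool.Agent.Lib.MP_90b327_co.RB
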