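import Mathlib
import Pool.Agent.Lib.MP_90b327_co.RB.RDefs

/-!
MODULE GGa (30 minutes, old scale). Text section 1.

A finite pattern `X ⊆ [n] × [n]` (rows × columns) is written on the `2 n` vertices `Fin (2 * n)`: the
row `i` is the vertex `i`, the column `j` is the vertex `n + j`; cells `c : Fin 2 → Fin (2 * n)`.

`g_rem`. PROOF. Let `X' Y' : Pat 2 (K + 1)` be `X`, `Y` on the first `K` vertices and false on all cells
which contain the last vertex. `L.ext K (K+1) ι₁` with `ι₁ = Fin.castSucc`: `G (K+1) X' Y' = G K X Y`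
(`X' ∘ ι₁ = X`; outside the range both are false). `L.ext K (K+1) ι₂` with `ι₂ w = if w = v then last
else castSucc w` (injective): a cell not in the range of `ι₂` contains the vertex `castSucc v`; there `X'`
and `Y'` agree (if it also contains the last vertex both are false, else use the hypothesis); and
`X' ∘ ι₂` is the pattern `X` with all cells containing `v` set to false. So `G (K+1) X' Y' = G K X° Y°`.

`g_ext`. PROOF. `L.ext (2*n) (2*n') ι` with `ι w = σ w` if `w < n` and `n' + τ (w - n)` if `w ≥ n`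
(injective, as `σ v, τ v < n'` for `v < n`). The pattern `emb n' (rl σ τ X)` is true at a cell `c` iff
`c 0 < n'`, `n' ≤ c 1` and `(c 0, c 1 - n') ∈ rl σ τ X`, i.e. `(c 0, c 1 - n') = (σ a, τ b)` with
`(a, b) ∈ X`, so `a, b < n` and `c = ι ∘ ![a, n + b]`; hence outside the range both patterns are
false, and `emb n' (rl σ τ X) (ι ∘ c) = emb n X c` for all cells `c` of `Fin (2 * n)` (four cases:
`c 0 < n` or not, `c 1 < n` or not; injectivity of `σ`, `τ`).
-/

set_option autoImplicit false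

namespace Pool.Agent.Lib.MP_90b327_co.RB

/-- the pattern `X` on `n` row vertices and `n` column vertices -/
def emb (n : ℕ) (X : Pt) : Pat 2 (2 * n) := fun c =>
  decide ((c 0 : ℕ) < n ∧ n ≤ (c 1 : ℕ) ∧ ((c 0 : ℕ), (c 1 : ℕ) - n) ∈ X)

/-- push forward of a pattern along a map of vertices -/
private noncomputable def gga_pf {K K' : ℕ} (ι : Fin K → Fin K') (X : Pat 2 K) : Pat 2 K' :=
  open Classical in fun c => if h : ∃ c' : Fin 2 → Fin K, c = ι ∘ c' then X h.choose else false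

private theorem gga_pf_in {K K' : ℕ} (ι : Fin K → Fin K') (hι : Function.Injective ι)
    (X : Pat 2 K) (c : Fin 2 → Fin K) : gga_pf ι X (ι ∘ c) = X c := by
  have h : ∃ c' : Fin 2 → Fin K, ι ∘ c = ι ∘ c' := ⟨c, rfl⟩
  unfold gga_pf
  rw [dif_pos h]
  have h1 := h.choose_spec
  have h2 : c = h.choose := hι.comp_left h1
  rw [← h2]

private theorem gga_pf_out {K K' : ℕ} (ι : Fin K → Fin K')
    (X : Pat 2 K) (c : Fin 2 → Fin K') (h : ¬ ∃ c' : Fin 2 → Fin K, c = ι ∘ c') :
    gga_pf ι X c = false := by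
  unfold gga_pf
  rw [dif_neg h]

theorem g_rem {Sg : ℕ → ℕ → Prop} {D : ℝ} (L : RLim Sg D) (K : ℕ) (X Y : Pat 2 K) (v : Fin K)
    (h : ∀ c : Fin 2 → Fin K, (c 0 = v ∨ c 1 = v) → X c = Y c) :
    L.G K X Y = L.G K (fun c => if c 0 = v ∨ c 1 = v then false else X c)
      (fun c => if c 0 = v ∨ c 1 = v then false else Y c) := by
  classical
  have hι1 : Function.Injective (Fin.castSucc : Fin K → Fin (K + 1)) := Fin.castSucc_injective K
  obtain ⟨ι₂, hι₂⟩ : ∃ ι₂ : Fin K → Fin (K + 1),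
      ι₂ = fun w => if w = v then Fin.last K else Fin.castSucc w := ⟨_, rfl⟩
  have hv : ι₂ v = Fin.last K := by
    rw [hι₂]
    simp
  have hnv : ∀ w, w ≠ v → ι₂ w = Fin.castSucc w := by
    intro w hw
    rw [hι₂]
    simp [hw]
  have hι2 : Function.Injective ι₂ := by
    intro a b hab
    by_cases ha : a = v
    · by_cases hb : b = v
      · rw [ha, hb]
      · rw [ha, hv, hnv b hb] at hab
        exact absurd hab.symm (Fin.castSucc_lt_last b).ne
    · by_cases hb : b = v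
      · rw [hb, hv, hnv a ha] at hab
        exact absurd hab (Fin.castSucc_lt_last a).ne
      · rw [hnv a ha, hnv b hb] at hab
        exact hι1 hab
  have hsame : ∀ c : Fin 2 → Fin K, ¬ (c 0 = v ∨ c 1 = v) → ι₂ ∘ c = Fin.castSucc ∘ c := by
    intro c hc
    push Not at hc
    funext i
    fin_cases i
    · exact hnv _ hc.1
    · exact hnv _ hc.2
  have hlast : ∀ c : Fin 2 → Fin K, (c 0 = v ∨ c 1 = v) →
      ¬ ∃ c' : Fin 2 → Fin K, ι₂ ∘ c = Fin.castSucc ∘ c' := by
    rintro c (hc | hc) ⟨c', hc'⟩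
    · have h1 := congrFun hc' 0
      simp only [Function.comp_apply] at h1
      rw [hc, hv] at h1
      exact (Fin.castSucc_lt_last (c' 0)).ne h1.symm
    · have h1 := congrFun hc' 1
      simp only [Function.comp_apply] at h1
      rw [hc, hv] at h1
      exact (Fin.castSucc_lt_last (c' 1)).ne h1.symm
  have e1 := L.ext K (K + 1) Fin.castSucc hι1 (gga_pf Fin.castSucc X) (gga_pf Fin.castSucc Y)
    (fun c hc => by rw [gga_pf_out _ _ _ hc, gga_pf_out _ _ _ hc])
  have e2 := L.ext K (K + 1) ι₂ hι2 (gga_pf Fin.castSucc X) (gga_pf Fin.castSucc Y)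
    (fun c hc => by
      by_cases h1 : ∃ c' : Fin 2 → Fin K, c = Fin.castSucc ∘ c'
      · obtain ⟨c', rfl⟩ := h1
        rw [gga_pf_in _ hι1, gga_pf_in _ hι1]
        apply h
        by_contra h2
        exact hc ⟨c', (hsame c' h2).symm⟩
      · rw [gga_pf_out _ _ _ h1, gga_pf_out _ _ _ h1])
  have e3 : ∀ Z : Pat 2 K, (fun c => gga_pf Fin.castSucc Z (Fin.castSucc ∘ c)) = Z := by
    intro Z
    funext c
    exact gga_pf_in _ hι1 Z c
  have e4 : ∀ Z : Pat 2 K, (fun c => gga_pf Fin.castSucc Z (ι₂ ∘ c)) =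
      fun c => if c 0 = v ∨ c 1 = v then false else Z c := by
    intro Z
    funext c
    by_cases hc : c 0 = v ∨ c 1 = v
    · rw [if_pos hc]
      exact gga_pf_out _ _ _ (hlast c hc)
    · rw [if_neg hc, hsame c hc]
      exact gga_pf_in _ hι1 Z c
  rw [e3, e3] at e1
  rw [e4, e4] at e2
  rw [← e1, e2]

private theorem gga_emb {n : ℕ} {X : Pt} (hX : ∀ c ∈ X, c.1 < n) (c : Fin 2 → Fin (2 * n)) :
    emb n X c = true ↔ ∃ a b, (a, b) ∈ X ∧ (c 0 : ℕ) = a ∧ (c 1 : ℕ) = n + b := by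
  unfold emb
  rw [decide_eq_true_iff]
  constructor
  · rintro ⟨h1, h2, h3⟩
    exact ⟨_, _, h3, rfl, by omega⟩
  · rintro ⟨a, b, h1, h2, h3⟩
    have h4 := hX _ h1
    refine ⟨by rw [h2]; exact h4, by omega, ?_⟩
    rw [h2, h3, Nat.add_sub_cancel_left]
    exact h1

theorem g_ext {Sg : ℕ → ℕ → Prop} {D : ℝ} (L : RLim Sg D) (n n' : ℕ) (σ τ : ℕ → ℕ)
    (hσ : Function.Injective σ) (hτ : Function.Injective τ)
    (h : ∀ v, v < n → σ v < n' ∧ τ v < n') (X Y : Pt)
    (hX : ∀ c ∈ X, c.1 < n ∧ c.2 < n) (hY : ∀ c ∈ Y, c.1 < n ∧ c.2 < n) :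
    L.G (2 * n') (emb n' (rl σ τ X)) (emb n' (rl σ τ Y)) = L.G (2 * n) (emb n X) (emb n Y) := by
  classical
  obtain ⟨ι, hι⟩ : ∃ ι : Fin (2 * n) → Fin (2 * n'), ∀ w : Fin (2 * n),
      ((w : ℕ) < n → (ι w : ℕ) = σ w) ∧ (n ≤ (w : ℕ) → (ι w : ℕ) = n' + τ (w - n)) := by
    refine ⟨fun w => if hw : (w : ℕ) < n then ⟨σ w, by have := (h w hw).1; omega⟩ else
      ⟨n' + τ (w - n), by have := (h (w - n) (by omega)).2; omega⟩, fun w => ⟨fun hw => ?_,
        fun hw => ?_⟩⟩
    · dsimp only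
      rw [dif_pos hw]
    · dsimp only
      rw [dif_neg (not_lt.mpr hw)]
  have hlt : ∀ w : Fin (2 * n), (w : ℕ) < n ↔ (ι w : ℕ) < n' := by
    intro w
    constructor
    · intro hw
      rw [(hι w).1 hw]
      exact (h w hw).1
    · intro hw
      by_contra h1
      rw [(hι w).2 (by omega)] at hw
      omega
  have hinj : Function.Injective ι := by
    intro a b hab
    by_cases ha : (a : ℕ) < n
    · have hb : (b : ℕ) < n := by
        rw [hlt b, ← hab, ← hlt a]
        exact ha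
      have h1 := congrArg Fin.val hab
      rw [(hι a).1 ha, (hι b).1 hb] at h1
      exact Fin.ext (hσ h1)
    · have hb : ¬ (b : ℕ) < n := by
        rw [hlt b, ← hab, ← hlt a]
        exact ha
      have h1 := congrArg Fin.val hab
      rw [(hι a).2 (by omega), (hι b).2 (by omega)] at h1
      have h2 := hτ (Nat.add_left_cancel h1)
      exact Fin.ext (by omega)
  have hrl : ∀ Z : Pt, (∀ c ∈ Z, c.1 < n ∧ c.2 < n) → ∀ c ∈ rl σ τ Z, c.1 < n' := by
    intro Z hZ c hc
    unfold rl at hc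
    rw [Finset.mem_image] at hc
    obtain ⟨c', hc', rfl⟩ := hc
    exact (h _ (hZ c' hc').1).1
  have hmem : ∀ Z : Pt, ∀ a b, (a, b) ∈ rl σ τ Z ↔ ∃ a' b', (a', b') ∈ Z ∧ a = σ a' ∧ b = τ b' := by
    intro Z a b
    unfold rl
    rw [Finset.mem_image]
    constructor
    · rintro ⟨c, hc, hcc⟩
      rw [Prod.mk.injEq] at hcc
      exact ⟨c.1, c.2, hc, hcc.1.symm, hcc.2.symm⟩
    · rintro ⟨a', b', hab, rfl, rfl⟩
      exact ⟨(a', b'), hab, rfl⟩
  have hin : ∀ Z : Pt, (∀ c ∈ Z, c.1 < n ∧ c.2 < n) →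
      (fun c => emb n' (rl σ τ Z) (ι ∘ c)) = emb n Z := by
    intro Z hZ
    funext c
    rw [Bool.eq_iff_iff, gga_emb (hrl Z hZ), gga_emb (fun c hc => (hZ c hc).1)]
    constructor
    · rintro ⟨a, b, hab, h1, h2⟩
      obtain ⟨a', b', hab', rfl, rfl⟩ := (hmem Z a b).mp hab
      simp only [Function.comp_apply] at h1 h2
      have h3 : (c 0 : ℕ) < n := by
        rw [hlt, h1]
        exact (h _ (hZ _ hab').1).1
      have h4 : n ≤ (c 1 : ℕ) := by
        by_contra h5
        have := (hlt (c 1)).mp (by omega)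
        omega
      rw [(hι _).1 h3] at h1
      rw [(hι _).2 h4] at h2
      refine ⟨a', b', hab', hσ h1, ?_⟩
      have := hτ (Nat.add_left_cancel h2)
      omega
    · rintro ⟨a, b, hab, h1, h2⟩
      refine ⟨σ a, τ b, (hmem Z _ _).mpr ⟨a, b, hab, rfl, rfl⟩, ?_, ?_⟩
      · simp only [Function.comp_apply]
        rw [(hι _).1 (by rw [h1]; exact (hZ _ hab).1), h1]
      · simp only [Function.comp_apply]
        rw [(hι _).2 (by omega), h2, Nat.add_sub_cancel_left]
  have hout : ∀ Z : Pt, (∀ c ∈ Z, c.1 < n ∧ c.2 < n) → ∀ c : Fin 2 → Fin (2 * n'),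
      (¬ ∃ c' : Fin 2 → Fin (2 * n), c = ι ∘ c') → emb n' (rl σ τ Z) c = false := by
    intro Z hZ c hc
    rw [Bool.eq_false_iff]
    intro h1
    apply hc
    obtain ⟨a, b, hab, h2, h3⟩ := (gga_emb (hrl Z hZ) c).mp h1
    obtain ⟨a', b', hab', rfl, rfl⟩ := (hmem Z a b).mp hab
    obtain ⟨h4, h5⟩ := hZ _ hab'
    simp only at h4 h5
    refine ⟨![⟨a', by omega⟩, ⟨n + b', by omega⟩], ?_⟩
    funext i
    fin_cases i
    · apply Fin.ext
      have h6 := (hι ⟨a', by omega⟩).1 h4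
      simp only at h6
      exact h2.trans h6.symm
    · apply Fin.ext
      have h6 := (hι ⟨n + b', by omega⟩).2 (Nat.le_add_right _ _)
      simp only [Nat.add_sub_cancel_left] at h6
      exact h3.trans h6.symm
  rw [L.ext (2 * n) (2 * n') ι hinj (emb n' (rl σ τ X)) (emb n' (rl σ τ Y))
    (fun c hc => by rw [hout X hX c hc, hout Y hY c hc]), hin X hX, hin Y hY]

end Pool.Agent.Lib.MP_90b327_co.RB
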