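import Mathlib
import Pool.Agent.Lib.MP_90b327_co.RB.RDefs

/-!
MODULE Fiber (40 minutes, old scale). Text section 0: from `[N₀]^2` to `[N]^(d+1)`, `N ≥ N₀`.

PROOF. `φ : (Fin 2 → Fin N₀) → (Fin (d+1) → Fin N)`, `φ c = Fin.cons (castLE (c 0)) (fun _ => castLE (c 1))`,
injective since `d ≥ 1`. For a set `O` of cells outside the range of `φ` let `S_O` be the family of the `C`
with `O ∪ C.image φ ∈ S`. The map `A ↦ (A \ range φ, φ⁻¹ A)` is a bijection of the subsets of `[N]^(d+1)` with
the pairs `(O, C)`, so `∑_O |S_O| = |S|`, and there are `2^(N^(d+1) - N₀^2)` sets `O`; so some `S_O` has more than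
`δ 2^(N₀^2)` elements (otherwise `|S| ≤ δ 2^(N^(d+1))`). Apply `h` to `S_O`: `C ∈ S_O`, `γ₁`, `γ₂`, `C` disjoint
from `bx γ₁ γ₂`, `C ∪ bx γ₁ γ₂ ∈ S_O`. Put `A = O ∪ C.image φ`, `γ = γ₁.map castLE`, `Γ` = the constant
functions with value `castLE j`, `j ∈ γ₂`; `box γ Γ = (bx γ₁ γ₂).image φ` (here `d ≥ 1` is used), same
cardinalities.
-/

set_option autoImplicit false

namespace Pool.Agent.Lib.MP_90b327_co.RB

/-- the cells of `γ × Γ`, `γ` in the first coordinate, `Γ` in the last `d` coordinates -/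
def box {d N : ℕ} (γ : Finset (Fin N)) (Γ : Finset (Fin d → Fin N)) :
    Finset (Fin (d + 1) → Fin N) :=
  Finset.univ.filter (fun x => x 0 ∈ γ ∧ (fun i : Fin d => x i.succ) ∈ Γ)

/-- the embedding of cells -/
private def Fiber_emb {N₀ N : ℕ} (d : ℕ) (hN : N₀ ≤ N) (c : Fin 2 → Fin N₀) : Fin (d + 1) → Fin N :=
  Fin.cons (Fin.castLE hN (c 0)) (fun _ => Fin.castLE hN (c 1))

private theorem Fiber_inj {N₀ N : ℕ} (d : ℕ) (hd : 1 ≤ d) (hN : N₀ ≤ N) :
    Function.Injective (Fiber_emb d hN) := by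
  intro c c' h
  have h0 := congrFun h 0
  have h1 := congrFun h (Fin.succ ⟨0, by omega⟩)
  unfold Fiber_emb at h0 h1
  rw [Fin.cons_zero, Fin.cons_zero] at h0
  rw [Fin.cons_succ, Fin.cons_succ] at h1
  have h2 := Fin.castLE_injective hN h0
  have h3 := Fin.castLE_injective hN h1
  funext i
  fin_cases i
  · exact h2
  · exact h3

theorem fiber (d : ℕ) (hd : 1 ≤ d) (Sg : ℕ → ℕ → Prop) (δ : ℝ) (hδ : 0 < δ) (N₀ : ℕ)
    (h : ∀ S : Finset (Finset (Fin 2 → Fin N₀)), δ * 2 ^ (N₀ ^ 2) < (S.card : ℝ) →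
      GoodR Sg N₀ S) (N : ℕ) (hN : N₀ ≤ N) (S : Finset (Finset (Fin (d + 1) → Fin N)))
    (hS : δ * 2 ^ (N ^ (d + 1)) < (S.card : ℝ)) :
    ∃ A ∈ S, ∃ (γ : Finset (Fin N)) (Γ : Finset (Fin d → Fin N)), Sg γ.card Γ.card ∧
      Disjoint A (box γ Γ) ∧ A ∪ box γ Γ ∈ S := by
  classical
  let φ : (Fin 2 → Fin N₀) → (Fin (d + 1) → Fin N) := Fiber_emb d hN
  have hφ : Function.Injective φ := Fiber_inj d hd hN
  let Rg : Finset (Fin (d + 1) → Fin N) := Finset.univ.image φ
  have hRgc : Rg.card = N₀ ^ 2 := by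
    rw [Finset.card_image_of_injective _ hφ, Finset.card_univ, Fintype.card_fun, Fintype.card_fin,
      Fintype.card_fin]
  -- outside parts
  let Out : Finset (Finset (Fin (d + 1) → Fin N)) := (Finset.univ \ Rg).powerset
  have hOutc : (Out.card : ℝ) * 2 ^ (N₀ ^ 2) = 2 ^ (N ^ (d + 1)) := by
    have h1 : Out.card = 2 ^ (N ^ (d + 1) - N₀ ^ 2) := by
      rw [Finset.card_powerset, Finset.card_sdiff_of_subset (Finset.subset_univ _), hRgc,
        Finset.card_univ, Fintype.card_fun, Fintype.card_fin, Fintype.card_fin]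
    have h2 : N₀ ^ 2 ≤ N ^ (d + 1) := by
      have h3 := Finset.card_le_univ Rg
      rw [hRgc, Fintype.card_fun, Fintype.card_fin, Fintype.card_fin] at h3
      exact h3
    rw [h1]
    push_cast
    rw [← pow_add]
    congr 1
    omega
  let SO : Finset (Fin (d + 1) → Fin N) → Finset (Finset (Fin 2 → Fin N₀)) := fun O =>
    Finset.univ.filter (fun C => O ∪ C.image φ ∈ S)
  -- some fibre is dense
  have hex : ∃ O ∈ Out, δ * 2 ^ (N₀ ^ 2) < ((SO O).card : ℝ) := by
    by_contra hcon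
    push Not at hcon
    have h1 : (S.card : ℝ) ≤ ∑ O ∈ Out, ((SO O).card : ℝ) := by
      have h2 : S.card ≤ ∑ O ∈ Out, (SO O).card := by
        rw [← Finset.card_sigma]
        refine Finset.card_le_card_of_injOn
          (fun A => (⟨A \ Rg, Finset.univ.filter (fun c => φ c ∈ A)⟩ :
            (_ : Finset (Fin (d + 1) → Fin N)) × Finset (Fin 2 → Fin N₀))) ?_ ?_
        · intro A hA
          have hA' : A ∈ S := hA
          have h3 : (A \ Rg) ∪ (Finset.univ.filter (fun c => φ c ∈ A)).image φ = A := by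
            ext x
            constructor
            · intro h4
              rcases Finset.mem_union.mp h4 with h4 | h4
              · exact (Finset.mem_sdiff.mp h4).1
              · obtain ⟨c, h4c, rfl⟩ := Finset.mem_image.mp h4
                exact (Finset.mem_filter.mp h4c).2
            · intro h4
              by_cases h5 : x ∈ Rg
              · obtain ⟨c, _, rfl⟩ := Finset.mem_image.mp h5
                exact Finset.mem_union_right _ (Finset.mem_image.mpr
                  ⟨c, Finset.mem_filter.mpr ⟨Finset.mem_univ _, h4⟩, rfl⟩)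
              · exact Finset.mem_union_left _ (Finset.mem_sdiff.mpr ⟨h4, h5⟩)
          refine Finset.mem_coe.mpr (Finset.mem_sigma.mpr ⟨?_, ?_⟩)
          · exact Finset.mem_powerset.mpr (Finset.sdiff_subset_sdiff (Finset.subset_univ _)
              (Finset.Subset.refl _))
          · refine Finset.mem_filter.mpr ⟨Finset.mem_univ _, ?_⟩
            rw [h3]
            exact hA'
        · intro A _ B _ hAB
          have h3 := Sigma.mk.inj_iff.mp hAB
          obtain ⟨h4, h5⟩ := h3
          have h5 := eq_of_heq h5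
          ext x
          by_cases h6 : x ∈ Rg
          · obtain ⟨c, _, rfl⟩ := Finset.mem_image.mp h6
            have h7 := Finset.ext_iff.mp h5 c
            simpa using h7
          · have h7 := Finset.ext_iff.mp h4 x
            rw [Finset.mem_sdiff, Finset.mem_sdiff] at h7
            constructor
            · intro h8; exact (h7.mp ⟨h8, h6⟩).1
            · intro h8; exact (h7.mpr ⟨h8, h6⟩).1
      exact_mod_cast h2
    have h2 : ∑ O ∈ Out, ((SO O).card : ℝ) ≤ Out.card • (δ * 2 ^ (N₀ ^ 2)) :=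
      Finset.sum_le_card_nsmul _ _ _ hcon
    rw [nsmul_eq_mul] at h2
    have h3 : (Out.card : ℝ) * (δ * 2 ^ (N₀ ^ 2)) = δ * 2 ^ (N ^ (d + 1)) := by
      rw [← hOutc]; ring
    linarith
  obtain ⟨O, hO, hOc⟩ := hex
  obtain ⟨C, hC, γ₁, γ₂, hsg, hdis, hCu⟩ := h (SO O) hOc
  have hOR : ∀ x ∈ O, x ∉ Rg := fun x hx =>
    (Finset.mem_sdiff.mp (Finset.mem_powerset.mp hO hx)).2
  let cl : Fin N₀ ↪ Fin N := ⟨Fin.castLE hN, Fin.castLE_injective hN⟩
  have hdpos : 0 < d := hd
  let kc : Fin N₀ → (Fin d → Fin N) := fun j => fun _ => Fin.castLE hN j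
  have hkc : Function.Injective kc := by
    intro a b hab
    have := congrFun hab ⟨0, hdpos⟩
    exact Fin.castLE_injective hN this
  have hbox : box (γ₁.map cl) (γ₂.image kc) = (bx γ₁ γ₂).image φ := by
    ext x
    constructor
    · intro h0
      obtain ⟨_, h1, h2⟩ := Finset.mem_filter.mp h0
      obtain ⟨a, ha, hax⟩ := Finset.mem_map.mp h1
      obtain ⟨b, hb, hbx⟩ := Finset.mem_image.mp h2
      refine Finset.mem_image.mpr ⟨![a, b], ?_, ?_⟩
      · exact Finset.mem_filter.mpr ⟨Finset.mem_univ _, ha, hb⟩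
      · funext i
        refine Fin.cases ?_ (fun i => ?_) i
        · exact hax
        · exact congrFun hbx i
    · intro h0
      obtain ⟨c, hc, rfl⟩ := Finset.mem_image.mp h0
      obtain ⟨_, h1, h2⟩ := Finset.mem_filter.mp hc
      refine Finset.mem_filter.mpr ⟨Finset.mem_univ _, ?_, ?_⟩
      · exact Finset.mem_map.mpr ⟨c 0, h1, rfl⟩
      · exact Finset.mem_image.mpr ⟨c 1, h2, rfl⟩
  refine ⟨O ∪ C.image φ, (Finset.mem_filter.mp hC).2, γ₁.map cl, γ₂.image kc, ?_, ?_, ?_⟩
  · rw [Finset.card_map, Finset.card_image_of_injective _ hkc]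
    exact hsg
  · rw [hbox, Finset.disjoint_union_left]
    constructor
    · rw [Finset.disjoint_left]
      intro x hx hx'
      obtain ⟨c, _, rfl⟩ := Finset.mem_image.mp hx'
      exact hOR _ hx (Finset.mem_image.mpr ⟨c, Finset.mem_univ _, rfl⟩)
    · exact (Finset.disjoint_image hφ).mpr hdis
  · rw [hbox, Finset.union_assoc, ← Finset.image_union]
    exact (Finset.mem_filter.mp hCu).2

end Pool.Agent.Lib.MP_90b327_co.RB
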