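import Mathlib
import Pool.Agent.Lib.MP_90b327_co.RB.RDefs
import Pool.Agent.Lib.MP_90b327_co.RB.GGa

/-!
MODULE GGb (40 minutes, old scale). Text section 1. Uses `g_rem`, `g_ext` of GGa.

DEFINITION (inside the proof or as a private def): for `X Y : Pt` let `n X Y` be a natural number larger
than all coordinates of the cells of `X` and `Y` (for instance
`(X ∪ Y).sup (fun c => max c.1 c.2) + 1`) and `g X Y := L.G (2 * n X Y) (emb _ X) (emb _ Y)`.

(0) `g X Y = L.G (2 * n) (emb n X) (emb n Y)` for EVERY `n` larger than all coordinates: `g_ext` with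
`σ = τ = id` in both directions (`rl id id X = X`), comparing with `max`.
`symm`, `diag`: from `L.symm`, `L.diag`.
`psd`: take one `n` for the whole family; `L.psd` with the patterns `emb n (X i)` (index set `ι`
transported to `Fin (card ι)`) and `a₀ = - D * Σ a`: `0 ≤ D² (Σa)² - 2 D² (Σa)² + ΣΣ`.
`inv`: `g_ext` with `n` large for `X`, `Y` and `n'` larger than all `σ v, τ v` (`v < n`).
`row`: `g_rem` with `K = 2 * n`, `v` = the vertex `i` (if `i < n`; otherwise the row is empty in both,
and the filters do nothing): a cell with `c 0 = v` is a cell of row `i`, a cell with `c 1 = v` is false in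
both patterns (`c 1 = i < n`). The new patterns are `emb n (X.filter (fun c => c.1 ≠ i))` and the same
for `Y` (extensionality).
`col`: the same with the vertex `n + j`.
`bad`: `L.bad (2*n) (emb n X) (emb n (X ∪ I ×ˢ J)) γ₁ γ₂` with `γ₁` = the vertices `i ∈ I`, `γ₂` = the
vertices `n + j`, `j ∈ J` (images of `I`, `J`; `n` larger than all elements of `I`, `J` as well, so the
cardinalities are the same).
-/

set_option autoImplicit false

namespace Pool.Agent.Lib.MP_90b327_co.RB

private def ggN (X : Pt) : ℕ := X.sup (fun c => max c.1 c.2) + 1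

private theorem ggN_lt (X : Pt) : ∀ c ∈ X, c.1 < ggN X ∧ c.2 < ggN X := by
  intro c hc
  have h : max c.1 c.2 ≤ X.sup (fun c => max c.1 c.2) := Finset.le_sup (f := fun c : ℕ × ℕ => max c.1 c.2) hc
  unfold ggN
  have h1 := le_max_left c.1 c.2
  have h2 := le_max_right c.1 c.2
  omega

private def ggM (X Y : Pt) : ℕ := max (ggN X) (ggN Y)

private theorem ggM_left (X Y : Pt) : ∀ c ∈ X, c.1 < ggM X Y ∧ c.2 < ggM X Y := by
  intro c hc
  have h := ggN_lt X c hc
  have h1 : ggN X ≤ ggM X Y := le_max_left _ _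
  omega

private theorem ggM_right (X Y : Pt) : ∀ c ∈ Y, c.1 < ggM X Y ∧ c.2 < ggM X Y := by
  intro c hc
  have h := ggN_lt Y c hc
  have h1 : ggN Y ≤ ggM X Y := le_max_right _ _
  omega

private noncomputable def gg {Sg : ℕ → ℕ → Prop} {D : ℝ} (L : RLim Sg D) (X Y : Pt) : ℝ :=
  L.G (2 * ggM X Y) (emb _ X) (emb _ Y)

private theorem gg_mono {Sg : ℕ → ℕ → Prop} {D : ℝ} (L : RLim Sg D) {n n' : ℕ} (h : n ≤ n') (X Y : Pt)
    (hX : ∀ c ∈ X, c.1 < n ∧ c.2 < n) (hY : ∀ c ∈ Y, c.1 < n ∧ c.2 < n) :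
    L.G (2 * n') (emb n' X) (emb n' Y) = L.G (2 * n) (emb n X) (emb n Y) := by
  have hr : ∀ X : Pt, rl id id X = X := by
    intro X
    unfold rl
    have : (fun c : ℕ × ℕ => (id c.1, id c.2)) = id := by
      funext c
      rfl
    rw [this, Finset.image_id]
  have := g_ext L n n' id id Function.injective_id Function.injective_id
    (fun v hv => ⟨lt_of_lt_of_le hv h, lt_of_lt_of_le hv h⟩) X Y hX hY
  rwa [hr, hr] at this

private theorem gg_eq {Sg : ℕ → ℕ → Prop} {D : ℝ} (L : RLim Sg D) {n : ℕ} {X Y : Pt}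
    (hX : ∀ c ∈ X, c.1 < n ∧ c.2 < n) (hY : ∀ c ∈ Y, c.1 < n ∧ c.2 < n) :
    gg L X Y = L.G (2 * n) (emb n X) (emb n Y) := by
  unfold gg
  rw [← gg_mono L (le_max_left (ggM X Y) n) X Y (ggM_left X Y) (ggM_right X Y),
    gg_mono L (le_max_right (ggM X Y) n) X Y hX hY]

private theorem gg_psd {Sg : ℕ → ℕ → Prop} {D : ℝ} (L : RLim Sg D) (ι : Type) [Fintype ι] (X : ι → Pt)
    (a : ι → ℝ) : D ^ 2 * (∑ i, a i) ^ 2 ≤ ∑ i, ∑ j, a i * a j * gg L (X i) (X j) := by
  classical
  obtain ⟨n, hn⟩ : ∃ n : ℕ, ∀ i, ∀ c ∈ X i, c.1 < n ∧ c.2 < n := by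
    refine ⟨ggN (Finset.univ.biUnion X), fun i c hc => ggN_lt _ c ?_⟩
    exact Finset.mem_biUnion.mpr ⟨i, Finset.mem_univ _, hc⟩
  have e1 : ∀ i j, gg L (X i) (X j) = L.G (2 * n) (emb n (X i)) (emb n (X j)) :=
    fun i j => gg_eq L (hn i) (hn j)
  simp only [e1]
  let e := Fintype.equivFin ι
  have h := L.psd (2 * n) (Fintype.card ι) (fun k => emb n (X (e.symm k))) (fun k => a (e.symm k))
    (-D * ∑ i, a i)
  have e2 : ∑ k, a (e.symm k) = ∑ i, a i := Equiv.sum_comp e.symm a
  have e3 : ∑ i : Fin (Fintype.card ι), ∑ j : Fin (Fintype.card ι), a (e.symm i) * a (e.symm j) *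
      L.G (2 * n) (emb n (X (e.symm i))) (emb n (X (e.symm j))) =
      ∑ i, ∑ j, a i * a j * L.G (2 * n) (emb n (X i)) (emb n (X j)) := by
    rw [← Equiv.sum_comp e.symm]
    refine Finset.sum_congr rfl fun i _ => ?_
    exact Equiv.sum_comp e.symm (fun j => a (e.symm i) * a j * L.G (2 * n) (emb n (X (e.symm i))) (emb n (X j)))
  rw [e2, e3] at h
  nlinarith [h]

private theorem gg_inv {Sg : ℕ → ℕ → Prop} {D : ℝ} (L : RLim Sg D) (σ τ : ℕ → ℕ)
    (hσ : Function.Injective σ) (hτ : Function.Injective τ) (X Y : Pt) :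
    gg L (rl σ τ X) (rl σ τ Y) = gg L X Y := by
  set n := ggM X Y with hn
  obtain ⟨n', hn'⟩ : ∃ n' : ℕ, ∀ v, v < n → σ v < n' ∧ τ v < n' := by
    refine ⟨(Finset.range n).sup (fun v => max (σ v) (τ v)) + 1, fun v hv => ?_⟩
    have h : max (σ v) (τ v) ≤ (Finset.range n).sup (fun v => max (σ v) (τ v)) :=
      Finset.le_sup (f := fun v => max (σ v) (τ v)) (Finset.mem_range.mpr hv)
    have h1 := le_max_left (σ v) (τ v)
    have h2 := le_max_right (σ v) (τ v)
    omega
  have hb : ∀ Z : Pt, (∀ c ∈ Z, c.1 < n ∧ c.2 < n) → ∀ c ∈ rl σ τ Z, c.1 < n' ∧ c.2 < n' := by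
    intro Z hZ c hc
    unfold rl at hc
    rw [Finset.mem_image] at hc
    obtain ⟨c', hc', rfl⟩ := hc
    exact ⟨(hn' _ (hZ c' hc').1).1, (hn' _ (hZ c' hc').2).2⟩
  rw [gg_eq L (hb X (ggM_left X Y)) (hb Y (ggM_right X Y)),
    g_ext L n n' σ τ hσ hτ hn' X Y (ggM_left X Y) (ggM_right X Y)]
  rfl

private theorem gg_row {Sg : ℕ → ℕ → Prop} {D : ℝ} (L : RLim Sg D) (X Y : Pt) (i : ℕ)
    (h : ∀ j, (i, j) ∈ X ↔ (i, j) ∈ Y) :
    gg L X Y = gg L (X.filter (fun c => c.1 ≠ i)) (Y.filter (fun c => c.1 ≠ i)) := by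
  set n := ggM X Y with hn
  by_cases hi : i < n
  · have hX' : ∀ c ∈ X.filter (fun c => c.1 ≠ i), c.1 < n ∧ c.2 < n :=
      fun c hc => ggM_left X Y c (Finset.mem_filter.mp hc).1
    have hY' : ∀ c ∈ Y.filter (fun c => c.1 ≠ i), c.1 < n ∧ c.2 < n :=
      fun c hc => ggM_right X Y c (Finset.mem_filter.mp hc).1
    rw [gg_eq L hX' hY', gg_eq L (ggM_left X Y) (ggM_right X Y), ← hn]
    let v : Fin (2 * n) := ⟨i, by omega⟩
    have e : ∀ Z : Pt, (fun c : Fin 2 → Fin (2 * n) => if c 0 = v ∨ c 1 = v then false else emb n Z c) =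
        emb n (Z.filter (fun c => c.1 ≠ i)) := by
      intro Z
      funext c
      by_cases h0 : c 0 = v
      · rw [if_pos (Or.inl h0)]
        symm
        unfold emb
        rw [decide_eq_false_iff_not]
        rintro ⟨_, _, h3⟩
        rw [Finset.mem_filter] at h3
        apply h3.2
        simp only [h0, v]
      · by_cases h1 : c 1 = v
        · rw [if_pos (Or.inr h1)]
          symm
          unfold emb
          rw [decide_eq_false_iff_not]
          rintro ⟨_, h2, _⟩
          rw [h1] at h2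
          simp only [v] at h2
          omega
        · rw [if_neg (by tauto)]
          unfold emb
          have h0' : ((c 0 : Fin (2 * n)) : ℕ) ≠ i := by
            intro hh
            exact h0 (Fin.ext hh)
          rw [decide_eq_decide, Finset.mem_filter]
          constructor
          · rintro ⟨a1, a2, a3⟩
            exact ⟨a1, a2, a3, h0'⟩
          · rintro ⟨a1, a2, a3, _⟩
            exact ⟨a1, a2, a3⟩
    have h1 := g_rem L (2 * n) (emb n X) (emb n Y) v (by
      intro c hc
      unfold emb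
      rw [decide_eq_decide]
      rcases hc with hc | hc
      · rw [hc]
        simp only [v]
        rw [h]
      · rw [hc]
        simp only [v]
        constructor
        · rintro ⟨_, a2, _⟩
          omega
        · rintro ⟨_, a2, _⟩
          omega)
    rw [e, e] at h1
    exact h1
  · have hf : ∀ Z : Pt, (∀ c ∈ Z, c.1 < n ∧ c.2 < n) → Z.filter (fun c => c.1 ≠ i) = Z := by
      intro Z hZ
      rw [Finset.filter_true_of_mem]
      intro c hc
      have := (hZ c hc).1
      omega
    rw [hf X (ggM_left X Y), hf Y (ggM_right X Y)]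

private theorem gg_col {Sg : ℕ → ℕ → Prop} {D : ℝ} (L : RLim Sg D) (X Y : Pt) (j : ℕ)
    (h : ∀ i, (i, j) ∈ X ↔ (i, j) ∈ Y) :
    gg L X Y = gg L (X.filter (fun c => c.2 ≠ j)) (Y.filter (fun c => c.2 ≠ j)) := by
  set n := ggM X Y with hn
  by_cases hi : j < n
  · have hX' : ∀ c ∈ X.filter (fun c => c.2 ≠ j), c.1 < n ∧ c.2 < n :=
      fun c hc => ggM_left X Y c (Finset.mem_filter.mp hc).1
    have hY' : ∀ c ∈ Y.filter (fun c => c.2 ≠ j), c.1 < n ∧ c.2 < n :=
      fun c hc => ggM_right X Y c (Finset.mem_filter.mp hc).1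
    rw [gg_eq L hX' hY', gg_eq L (ggM_left X Y) (ggM_right X Y), ← hn]
    let v : Fin (2 * n) := ⟨n + j, by omega⟩
    have e : ∀ Z : Pt, (fun c : Fin 2 → Fin (2 * n) => if c 0 = v ∨ c 1 = v then false else emb n Z c) =
        emb n (Z.filter (fun c => c.2 ≠ j)) := by
      intro Z
      funext c
      by_cases h1 : c 1 = v
      · rw [if_pos (Or.inr h1)]
        symm
        unfold emb
        rw [decide_eq_false_iff_not]
        rintro ⟨_, _, h3⟩
        rw [Finset.mem_filter] at h3
        apply h3.2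
        simp only [h1, v]
        omega
      · by_cases h0 : c 0 = v
        · rw [if_pos (Or.inl h0)]
          symm
          unfold emb
          rw [decide_eq_false_iff_not]
          rintro ⟨h2, _, _⟩
          rw [h0] at h2
          simp only [v] at h2
          omega
        · rw [if_neg (by tauto)]
          unfold emb
          have h1' : ((c 1 : Fin (2 * n)) : ℕ) ≠ n + j := by
            intro hh
            exact h1 (Fin.ext hh)
          rw [decide_eq_decide, Finset.mem_filter]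
          constructor
          · rintro ⟨a1, a2, a3⟩
            refine ⟨a1, a2, a3, ?_⟩
            simp only
            omega
          · rintro ⟨a1, a2, a3, _⟩
            exact ⟨a1, a2, a3⟩
    have h1 := g_rem L (2 * n) (emb n X) (emb n Y) v (by
      intro c hc
      unfold emb
      rw [decide_eq_decide]
      rcases hc with hc | hc
      · rw [hc]
        simp only [v]
        constructor
        · rintro ⟨a2, _⟩
          omega
        · rintro ⟨a2, _⟩
          omega
      · rw [hc]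
        simp only [v]
        rw [Nat.add_sub_cancel_left, h])
    rw [e, e] at h1
    exact h1
  · have hf : ∀ Z : Pt, (∀ c ∈ Z, c.1 < n ∧ c.2 < n) → Z.filter (fun c => c.2 ≠ j) = Z := by
      intro Z hZ
      rw [Finset.filter_true_of_mem]
      intro c hc
      have := (hZ c hc).2
      omega
    rw [hf X (ggM_left X Y), hf Y (ggM_right X Y)]

private theorem gg_bad {Sg : ℕ → ℕ → Prop} {D : ℝ} (L : RLim Sg D) (X : Pt) (I J : Finset ℕ)
    (hS : Sg I.card J.card) (hd : Disjoint X (I ×ˢ J)) : gg L X (X ∪ I ×ˢ J) = 0 := by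
  set n := ggM X (X ∪ I ×ˢ J) + I.sup id + J.sup id + 1 with hn
  have hX : ∀ c ∈ X, c.1 < n ∧ c.2 < n := by
    intro c hc
    have := ggM_left X (X ∪ I ×ˢ J) c hc
    omega
  have hY : ∀ c ∈ X ∪ I ×ˢ J, c.1 < n ∧ c.2 < n := by
    intro c hc
    have := ggM_right X (X ∪ I ×ˢ J) c hc
    omega
  have hI : ∀ i ∈ I, i < n := by
    intro i hi
    have : i ≤ I.sup id := Finset.le_sup (f := id) hi
    omega
  have hJ : ∀ j ∈ J, j < n := by
    intro j hj
    have : j ≤ J.sup id := Finset.le_sup (f := id) hj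
    omega
  rw [gg_eq L hX hY]
  let γ₁ : Finset (Fin (2 * n)) := Finset.univ.filter (fun w => (w : ℕ) ∈ I)
  let γ₂ : Finset (Fin (2 * n)) := Finset.univ.filter (fun w => n ≤ (w : ℕ) ∧ (w : ℕ) - n ∈ J)
  have c1 : γ₁.card = I.card := by
    have : γ₁.image (fun w : Fin (2 * n) => (w : ℕ)) = I := by
      ext i
      rw [Finset.mem_image]
      constructor
      · rintro ⟨w, hw, rfl⟩
        exact (Finset.mem_filter.mp hw).2
      · intro hi
        have := hI i hi
        exact ⟨⟨i, by omega⟩, Finset.mem_filter.mpr ⟨Finset.mem_univ _, hi⟩, rfl⟩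
    rw [← this, Finset.card_image_of_injective _ Fin.val_injective]
  have c2 : γ₂.card = J.card := by
    have : γ₂.image (fun w : Fin (2 * n) => (w : ℕ) - n) = J := by
      ext j
      rw [Finset.mem_image]
      constructor
      · rintro ⟨w, hw, rfl⟩
        exact (Finset.mem_filter.mp hw).2.2
      · intro hj
        have := hJ j hj
        refine ⟨⟨n + j, by omega⟩, Finset.mem_filter.mpr ⟨Finset.mem_univ _, ?_, ?_⟩, ?_⟩
        · simp only
          omega
        · simp only [Nat.add_sub_cancel_left]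
          exact hj
        · simp only [Nat.add_sub_cancel_left]
    rw [← this, Finset.card_image_of_injOn]
    intro w hw w' hw' he
    have h1 := (Finset.mem_filter.mp hw).2.1
    have h2 := (Finset.mem_filter.mp hw').2.1
    simp only at he
    apply Fin.ext
    omega
  have m1 : ∀ w : Fin (2 * n), w ∈ γ₁ ↔ (w : ℕ) ∈ I := by
    intro w
    simp only [γ₁, Finset.mem_filter, Finset.mem_univ, true_and]
  have m2 : ∀ w : Fin (2 * n), w ∈ γ₂ ↔ n ≤ (w : ℕ) ∧ (w : ℕ) - n ∈ J := by
    intro w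
    simp only [γ₂, Finset.mem_filter, Finset.mem_univ, true_and]
  apply L.bad (2 * n) (emb n X) (emb n (X ∪ I ×ˢ J)) γ₁ γ₂
  · rw [c1, c2]
    exact hS
  · intro c h0 h1
    rw [m1] at h0
    rw [m2] at h1
    unfold emb
    rw [decide_eq_false_iff_not]
    rintro ⟨_, _, h3⟩
    exact Finset.disjoint_left.mp hd h3 (Finset.mem_product.mpr ⟨h0, h1.2⟩)
  · intro c h0 h1
    rw [m1] at h0
    rw [m2] at h1
    unfold emb
    rw [decide_eq_true_iff]
    exact ⟨hI _ h0, h1.1, Finset.mem_union_right _ (Finset.mem_product.mpr ⟨h0, h1.2⟩)⟩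
  · intro c hc
    rw [m1, m2] at hc
    unfold emb
    rw [decide_eq_decide, Finset.mem_union, Finset.mem_product]
    constructor
    · rintro ⟨a1, a2, a3 | a3⟩
      · exact ⟨a1, a2, a3⟩
      · exact absurd ⟨a3.1, a2, a3.2⟩ hc
    · rintro ⟨a1, a2, a3⟩
      exact ⟨a1, a2, Or.inl a3⟩

theorem exists_pker {Sg : ℕ → ℕ → Prop} {D : ℝ} (L : RLim Sg D) :
    ∃ g : Pt → Pt → ℝ, PKer Sg D g := by
  refine ⟨gg L, ?_, ?_, ?_, ?_, ?_, ?_, ?_⟩
  · intro X Y
    rw [gg_eq L (ggM_right Y X) (ggM_left Y X)]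
    unfold gg
    exact L.symm _ _ _
  · intro X
    unfold gg
    exact L.diag _ _
  · exact fun ι _ X a => gg_psd L ι X a
  · exact fun σ τ hσ hτ X Y => gg_inv L σ τ hσ hτ X Y
  · exact fun X Y i h => gg_row L X Y i h
  · exact fun X Y j h => gg_col L X Y j h
  · exact fun X I J hS hd => gg_bad L X I J hS hd

end Pool.Agent.Lib.MP_90b327_co.RB
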