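import Mathlib
import Pool.Agent.Lib.MP_90b327_co.RB.RDefs

/-!
MODULE Poly (30 minutes, old scale). Elementary facts on integer polynomials with `P 0 = 0` and positive
leading coefficient.

PROOFS. `natDegree P ≥ 1`: otherwise `P = C c`, `c = P.eval 0 = 0`, contradiction with the leading
coefficient. `P.eval n → ∞` (`Polynomial.tendsto_atTop_of_leadingCoeff_nonneg` for the polynomial mapped to
`ℝ`, or directly). `poly_scale`: `P = ∑ c_i X^i` without constant term; `P (a n) = ∑_{i≥1} c_i a^i n^i =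
a * ∑_{i ≥ 1} c_i a^(i-1) n^i`; formally `P = X * P₀` (`Polynomial.X_dvd_iff`/`divX`), take
`P' = X * P₀.comp (C a * X)`; its leading coefficient is `lc(P₀) a^deg > 0`. `poly_comp`: `P.comp (C q * X)`.
`pv_dvd`: `P.eval (r * n)` is divisible by `r` (`P 0 = 0`).
-/

set_option autoImplicit false

namespace Pool.Agent.Lib.MP_90b327_co.RB

open Filter Topology Polynomial

theorem poly_deg (P : ℤ[X]) (h0 : P.eval 0 = 0) (hl : 0 < P.leadingCoeff) : 1 ≤ P.natDegree := by
  by_contra h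
  have h1 : P.natDegree = 0 := by omega
  have h2 : P = C (P.coeff 0) := Polynomial.eq_C_of_natDegree_eq_zero h1
  have h3 : P.coeff 0 = 0 := by
    rw [Polynomial.coeff_zero_eq_eval_zero]
    exact h0
  rw [h3, C_0] at h2
  rw [h2, leadingCoeff_zero] at hl
  exact lt_irrefl _ hl

private theorem Poly_tend (P : ℤ[X]) (h0 : P.eval 0 = 0) (hl : 0 < P.leadingCoeff) :
    Tendsto (fun n : ℕ => P.eval (n : ℤ)) atTop atTop := by
  have hd := poly_deg P h0 hl
  have hinj : Function.Injective (Int.castRingHom ℝ) := by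
    intro a b hab
    have h : ((a : ℤ) : ℝ) = ((b : ℤ) : ℝ) := hab
    exact_mod_cast h
  have h1 : Tendsto (fun x : ℝ => (P.map (Int.castRingHom ℝ)).eval x) atTop atTop := by
    apply Polynomial.tendsto_atTop_of_leadingCoeff_nonneg
    · rw [Polynomial.degree_map_eq_of_injective hinj]
      exact Polynomial.natDegree_pos_iff_degree_pos.1 hd
    · rw [Polynomial.leadingCoeff_map_of_injective hinj]
      have h : (0 : ℝ) < ((P.leadingCoeff : ℤ) : ℝ) := by exact_mod_cast hl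
      exact h.le
  have h2 := h1.comp (tendsto_natCast_atTop_atTop (R := ℝ))
  have h3 : Tendsto (fun n : ℕ => ((P.eval (n : ℤ) : ℤ) : ℝ)) atTop atTop := by
    refine h2.congr fun n => ?_
    have h4 := Polynomial.eval_intCast_map (Int.castRingHom ℝ) P (n : ℤ)
    simp only [Function.comp]
    have h5 : (((n : ℤ) : ℤ) : ℝ) = (n : ℝ) := by push_cast; rfl
    rw [← h5, h4]
    rfl
  exact tendsto_intCast_atTop_iff.1 h3

theorem pv_tendsto (P : ℤ[X]) (h0 : P.eval 0 = 0) (hl : 0 < P.leadingCoeff) (q : ℕ) (hq : 1 ≤ q) :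
    Tendsto (fun n : ℕ => pv P (q * n)) atTop atTop := by
  have h1 := Poly_tend P h0 hl
  have h2 : Tendsto (fun n : ℕ => q * n) atTop atTop :=
    tendsto_atTop_mono (fun n => Nat.le_mul_of_pos_left n hq) tendsto_id
  have h3 := h1.comp h2
  refine tendsto_atTop.2 fun b => ?_
  filter_upwards [(tendsto_atTop.1 h3) (b : ℤ)] with n hn
  unfold pv
  simp only [Function.comp] at hn
  omega

theorem pv_eq (P : ℤ[X]) (h0 : P.eval 0 = 0) (hl : 0 < P.leadingCoeff) :
    ∃ n₀ : ℕ, ∀ n, n₀ ≤ n → (pv P n : ℤ) = P.eval (n : ℤ) ∧ 1 ≤ pv P n := by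
  obtain ⟨n₀, h⟩ := eventually_atTop.1 ((tendsto_atTop.1 (Poly_tend P h0 hl)) 1)
  refine ⟨n₀, fun n hn => ?_⟩
  have h1 := h n hn
  unfold pv
  omega

private theorem Poly_X (P : ℤ[X]) (h0 : P.eval 0 = 0) : P = P.divX * X := by
  have h1 := Polynomial.divX_mul_X_add P
  rw [Polynomial.coeff_zero_eq_eval_zero, h0, C_0, add_zero] at h1
  exact h1.symm

private theorem Poly_lc (P : ℤ[X]) (hl : 0 < P.leadingCoeff) (a : ℕ) (ha : 1 ≤ a) :
    0 < (P.comp (C (a : ℤ) * X)).leadingCoeff := by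
  have ha' : (a : ℤ) ≠ 0 := by
    have : (0 : ℤ) < a := by exact_mod_cast ha
    exact this.ne'
  rw [Polynomial.leadingCoeff_comp (by rw [Polynomial.natDegree_C_mul_X _ ha']; exact one_ne_zero),
    Polynomial.leadingCoeff_C_mul_X]
  have h1 : (0 : ℤ) < a := by exact_mod_cast ha
  positivity

theorem poly_scale (P : ℤ[X]) (h0 : P.eval 0 = 0) (hl : 0 < P.leadingCoeff) (a : ℕ)
    (ha : 1 ≤ a) : ∃ P' : ℤ[X], P'.eval 0 = 0 ∧ 0 < P'.leadingCoeff ∧
      ∀ n : ℤ, P.eval (a * n) = a * P'.eval n := by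
  have hP := Poly_X P h0
  have hl' : 0 < P.divX.leadingCoeff := by
    rw [hP, Polynomial.leadingCoeff_mul_X] at hl
    exact hl
  refine ⟨P.divX.comp (C (a : ℤ) * X) * X, ?_, ?_, fun n => ?_⟩
  · rw [eval_mul, eval_X, mul_zero]
  · rw [Polynomial.leadingCoeff_mul_X]
    exact Poly_lc _ hl' a ha
  · conv_lhs => rw [hP]
    rw [eval_mul, eval_X, eval_mul, eval_X, eval_comp, eval_mul, eval_C, eval_X]
    ring

theorem poly_comp (P : ℤ[X]) (h0 : P.eval 0 = 0) (hl : 0 < P.leadingCoeff) (q : ℕ)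
    (hq : 1 ≤ q) : ∃ P' : ℤ[X], P'.eval 0 = 0 ∧ 0 < P'.leadingCoeff ∧
      ∀ n : ℤ, P.eval (q * n) = P'.eval n := by
  refine ⟨P.comp (C (q : ℤ) * X), ?_, Poly_lc P hl q hq, fun n => ?_⟩
  · rw [eval_comp, eval_mul, eval_X, mul_zero]
    exact h0
  · rw [eval_comp, eval_mul, eval_C, eval_X]

theorem poly_dvd (P : ℤ[X]) (h0 : P.eval 0 = 0) (r n : ℤ) : r ∣ P.eval (r * n) := by
  have hP := Poly_X P h0
  rw [hP, eval_mul, eval_X]
  exact ⟨P.divX.eval (r * n) * n, by ring⟩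

end Pool.Agent.Lib.MP_90b327_co.RB
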