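import Mathlib
import Pool.Agent.Lib.MP_90b327_co.RB.RDefs
import Pool.Agent.Lib.MP_90b327_co.Limit

/-!
MODULE RLimit (30 minutes, old scale). Text section 1.

PROOF. This is `exists_limFun` (Pool/Agent/Lib/MP_90b327_co/Limit.lean, 424 lines, imported) with `d = 2`
and another last field. Copy `corS_bad` and the proof of `exists_limFun`; the lemmas `corS_symm`,
`corS_nonneg`, `corS_psd`, `corS_zero`, `cor`, `cor_nonneg`, `cor_le`, `cor_ext` are public and are used
unchanged. New version of `corS_bad` (call it `rlimit_bad`): if `X` is false and `Y` is true on the cells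
with `c 0 ∈ γ₁`, `c 1 ∈ γ₂` and `Y c = X c` elsewhere, `Sg γ₁.card γ₂.card`, `j` injective and `S` not
`GoodR`, then `corS S j X Y = 0`: put `γᵢ' = γᵢ.image (fun v => σ⁻¹ (j v))` (same cardinality as `γᵢ`,
the map is injective), as in `corS_bad`: `c 0 ∈ γ₁' ∧ c 1 ∈ γ₂' ↔ ∃ c', c' 0 ∈ γ₁ ∧ c' 1 ∈ γ₂ ∧
(fun i => j (c' i)) = (fun i => σ (c i))`.
-/

set_option autoImplicit false

namespace Pool.Agent.Lib.MP_90b327_co.RB

open Finset Filter Topology

private theorem rlimit_bad {Sg : ℕ → ℕ → Prop} {K N : ℕ}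
    (S : Finset (Finset (Fin 2 → Fin N))) (hS : ¬ GoodR Sg N S)
    (j : Fin K → Fin N) (hj : Function.Injective j) (X Y : Pat 2 K) (γ₁ γ₂ : Finset (Fin K))
    (hγ : Sg γ₁.card γ₂.card)
    (h1 : ∀ c : Fin 2 → Fin K, c 0 ∈ γ₁ → c 1 ∈ γ₂ → X c = false)
    (h2 : ∀ c : Fin 2 → Fin K, c 0 ∈ γ₁ → c 1 ∈ γ₂ → Y c = true)
    (h3 : ∀ c : Fin 2 → Fin K, ¬ (c 0 ∈ γ₁ ∧ c 1 ∈ γ₂) → Y c = X c) : corS S j X Y = 0 := by
  unfold corS
  apply Finset.sum_eq_zero
  intro σ _
  apply Finset.sum_eq_zero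
  intro A _
  by_contra hne
  apply hS
  have hX : toSet (rel σ (ov j A X)) ∈ S := by
    by_contra h
    apply hne
    unfold ind
    rw [if_neg h, zero_mul]
  have hY : toSet (rel σ (ov j A Y)) ∈ S := by
    by_contra h
    apply hne
    unfold ind
    rw [if_neg h, mul_zero]
  have hinj : Function.Injective (fun v => σ⁻¹ (j v)) := fun u v huv => hj (σ⁻¹.injective huv)
  let γ₁' : Finset (Fin N) := γ₁.image (fun v => σ⁻¹ (j v))
  let γ₂' : Finset (Fin N) := γ₂.image (fun v => σ⁻¹ (j v))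
  have hc1 : γ₁'.card = γ₁.card := Finset.card_image_of_injective _ hinj
  have hc2 : γ₂'.card = γ₂.card := Finset.card_image_of_injective _ hinj
  have hmem : ∀ (γ : Finset (Fin K)) (v : Fin N), v ∈ γ.image (fun v => σ⁻¹ (j v)) ↔
      ∃ w ∈ γ, j w = σ v := by
    intro γ v
    rw [Finset.mem_image]
    constructor
    · rintro ⟨w, hw, hwv⟩
      refine ⟨w, hw, ?_⟩
      rw [← hwv]
      simp
    · rintro ⟨w, hw, hwv⟩
      refine ⟨w, hw, ?_⟩
      rw [hwv]
      simp
  have hcell : ∀ c : Fin 2 → Fin N, (c 0 ∈ γ₁' ∧ c 1 ∈ γ₂') ↔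
      ∃ c' : Fin 2 → Fin K, (c' 0 ∈ γ₁ ∧ c' 1 ∈ γ₂) ∧
        (fun i => j (c' i)) = (fun i => σ (c i)) := by
    intro c
    constructor
    · rintro ⟨h4, h5⟩
      obtain ⟨w, hw, hwv⟩ := (hmem γ₁ (c 0)).mp h4
      obtain ⟨u, hu, huv⟩ := (hmem γ₂ (c 1)).mp h5
      refine ⟨![w, u], ⟨hw, hu⟩, ?_⟩
      funext i
      fin_cases i
      · exact hwv
      · exact huv
    · rintro ⟨c', ⟨h4, h5⟩, h6⟩
      exact ⟨(hmem γ₁ (c 0)).mpr ⟨c' 0, h4, congrFun h6 0⟩,
        (hmem γ₂ (c 1)).mpr ⟨c' 1, h5, congrFun h6 1⟩⟩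
  refine ⟨_, hX, γ₁', γ₂', by rw [hc1, hc2]; exact hγ, ?_, ?_⟩
  · rw [Finset.disjoint_left]
    intro c hc hc'
    rw [mem_toSet] at hc
    unfold bx at hc'
    rw [Finset.mem_filter] at hc'
    obtain ⟨c', hc1, hc2⟩ := (hcell c).mp hc'.2
    unfold rel at hc
    rw [← hc2, ov_in j hj, h1 c' hc1.1 hc1.2] at hc
    exact absurd hc (by simp)
  · convert hY using 1
    ext c
    unfold bx
    rw [Finset.mem_union, mem_toSet, mem_toSet, Finset.mem_filter]
    by_cases hc : c 0 ∈ γ₁' ∧ c 1 ∈ γ₂'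
    · obtain ⟨c', hc1, hc2⟩ := (hcell c).mp hc
      have : rel σ (ov j A Y) c = true := by
        unfold rel
        rw [← hc2, ov_in j hj, h2 c' hc1.1 hc1.2]
      simp [hc, this]
    · have : rel σ (ov j A Y) c = rel σ (ov j A X) c := by
        unfold rel
        by_cases h4 : ∃ c' : Fin 2 → Fin K, (fun i => j (c' i)) = (fun i => σ (c i))
        · obtain ⟨c', hc'⟩ := h4
          rw [← hc', ov_in j hj, ov_in j hj]
          apply h3
          intro h5
          apply hc
          exact (hcell c).mpr ⟨c', h5, hc'⟩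
        · rw [ov_out _ _ _ _ h4, ov_out _ _ _ _ h4]
      rw [this]
      simp [hc]

theorem exists_rlim (Sg : ℕ → ℕ → Prop) (δ₀ : ℝ)
    (h : ∀ N : ℕ, ∃ S : Finset (Finset (Fin 2 → Fin N)), (S.card : ℝ) > δ₀ * 2 ^ (N ^ 2) ∧
      ¬ GoodR Sg N S) : ∃ δ : ℝ, δ₀ ≤ δ ∧ Nonempty (RLim Sg δ) := by
  choose S hS1 hS2 using h
  let p : Ultrafilter ℕ := hyperfilter ℕ
  have hlarge : ∀ M : ℕ, ∀ᶠ N in (p : Filter ℕ), M ≤ N := by
    intro M
    exact Nat.hyperfilter_le_atTop (eventually_ge_atTop M)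
  have hex : ∀ (K : ℕ) (X Y : Pat 2 K), ∃ a : ℝ, Tendsto (cor S K X Y) p (𝓝 a) := fun K X Y =>
    exists_limit p _ 1 (cor_nonneg S K X Y) (cor_le S K X Y)
  choose G hG using hex
  have hext : ∀ (K K' : ℕ) (ι : Fin K → Fin K'), Function.Injective ι → ∀ X Y : Pat 2 K',
    (∀ c : Fin 2 → Fin K', (¬ ∃ c' : Fin 2 → Fin K, c = ι ∘ c') → X c = Y c) →
      G K' X Y = G K (fun c => X (ι ∘ c)) (fun c => Y (ι ∘ c)) := by
    intro K K' ι hι X Y hXY
    have h1 : ∀ m : ℕ, 1 ≤ m →
        (G K' X Y - G K (fun c => X (ι ∘ c)) (fun c => Y (ι ∘ c))) ^ 2 ≤ 2 ^ (K' ^ 2) / m := by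
      intro m hm
      have ht : Tendsto (fun N => (cor S K' X Y N -
          cor S K (fun c => X (ι ∘ c)) (fun c => Y (ι ∘ c)) N) ^ 2) p
          (𝓝 ((G K' X Y - G K (fun c => X (ι ∘ c)) (fun c => Y (ι ∘ c))) ^ 2)) :=
        ((hG _ _ _).sub (hG _ _ _)).pow 2
      apply le_of_tendsto ht
      filter_upwards [hlarge (K' * (m + 1))] with N hN
      exact cor_ext S K K' ι hι X Y hXY m N hm hN
    have h2 : (G K' X Y - G K (fun c => X (ι ∘ c)) (fun c => Y (ι ∘ c))) ^ 2 ≤ 0 := by
      have ht : Tendsto (fun m : ℕ => (2:ℝ) ^ (K' ^ 2) / m) atTop (𝓝 0) :=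
        tendsto_const_div_atTop_nhds_zero_nat _
      apply ge_of_tendsto ht
      filter_upwards [eventually_ge_atTop 1] with m hm
      exact h1 m hm
    have h3 := pow_eq_zero_iff (two_ne_zero) |>.mp (le_antisymm h2 (sq_nonneg _))
    linarith
  have hempty : ∀ (X Y : Pat 2 0), X = Y := by
    intro X Y
    funext c
    exact (c ⟨0, by omega⟩).elim0
  let X₀ : Pat 2 0 := fun _ => false
  have hdiag : ∀ K (X : Pat 2 K), G K X X = G 0 X₀ X₀ := by
    intro K X
    rw [hext 0 K (fun v => v.elim0) (fun v => v.elim0) X X (fun _ _ => rfl)]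
    rw [hempty (fun c => X ((fun v => v.elim0) ∘ c)) X₀]
  refine ⟨G 0 X₀ X₀, ?_, ⟨?_⟩⟩
  · apply ge_of_tendsto (hG 0 X₀ X₀)
    filter_upwards with N
    unfold cor
    rw [dif_pos (Nat.zero_le N), corS_zero (by norm_num)]
    unfold nrm
    have h1 : (0:ℝ) < N.factorial := by exact_mod_cast Nat.factorial_pos N
    rw [mul_div_mul_left _ _ h1.ne', le_div_iff₀ (by positivity)]
    exact (hS1 N).le
  · refine ⟨G, ?_, ?_, hdiag, hext, ?_, ?_⟩
    · intro K X Y
      refine tendsto_nhds_unique (hG K X Y) ?_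
      have : cor S K X Y = cor S K Y X := by
        funext N
        unfold cor
        split_ifs with h
        · rw [corS_symm]
        · rfl
      rw [this]
      exact hG K Y X
    · intro K X Y
      exact ge_of_tendsto (hG K X Y) (Eventually.of_forall (cor_nonneg S K X Y))
    · intro K n X a a₀
      have h1 : ∀ᶠ N in (p : Filter ℕ), 0 ≤ a₀ ^ 2 + 2 * a₀ * (∑ i, a i * cor S K (X i) (X i) N) +
          ∑ i, ∑ l, a i * a l * cor S K (X i) (X l) N := by
        filter_upwards [hlarge K] with N hN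
        have := corS_psd (S N) (Fin.castLE hN) X a a₀
        have hD := nrm_pos 2 N
        have h2 : a₀ ^ 2 + 2 * a₀ * (∑ i, a i * cor S K (X i) (X i) N) +
          ∑ i, ∑ l, a i * a l * cor S K (X i) (X l) N =
          (a₀ ^ 2 * nrm 2 N + 2 * a₀ * (∑ i, a i * corS (S N) (Fin.castLE hN) (X i) (X i)) +
      ∑ i, ∑ l, a i * a l * corS (S N) (Fin.castLE hN) (X i) (X l)) / nrm 2 N := by
          unfold cor
          simp only [dif_pos hN]
          rw [add_div, add_div, mul_div_cancel_right₀ _ hD.ne', mul_div_assoc, Finset.sum_div,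
            Finset.sum_div]
          congr 1
          · congr 2
            apply Finset.sum_congr rfl
            intro i _
            rw [mul_div_assoc]
          · apply Finset.sum_congr rfl
            intro i _
            rw [Finset.sum_div]
            apply Finset.sum_congr rfl
            intro l _
            rw [mul_div_assoc]
        rw [h2]
        exact div_nonneg this hD.le
      have h2 : Tendsto (fun N => a₀ ^ 2 + 2 * a₀ * (∑ i, a i * cor S K (X i) (X i) N) +
          ∑ i, ∑ l, a i * a l * cor S K (X i) (X l) N) p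
          (𝓝 (a₀ ^ 2 + 2 * a₀ * (∑ i, a i * G K (X i) (X i)) +
          ∑ i, ∑ l, a i * a l * G K (X i) (X l))) := by
        apply Tendsto.add
        · apply Tendsto.add tendsto_const_nhds
          apply Tendsto.const_mul
          apply tendsto_finsetSum
          intro i _
          exact (hG _ _ _).const_mul _
        · apply tendsto_finsetSum
          intro i _
          apply tendsto_finsetSum
          intro l _
          exact (hG _ _ _).const_mul _
      have h3 := ge_of_tendsto h2 h1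
      have h4 : (∑ i, a i * G K (X i) (X i)) = (∑ i, a i) * G 0 X₀ X₀ := by
        rw [Finset.sum_mul]
        apply Finset.sum_congr rfl
        intro i _
        rw [hdiag]
      rw [h4, ← mul_assoc] at h3
      exact h3
    · intro K X Y γ₁ γ₂ hγ h1 h2 h3
      refine tendsto_nhds_unique (hG K X Y) ?_
      have : cor S K X Y = fun _ => 0 := by
        funext N
        unfold cor
        split_ifs with h
        · rw [rlimit_bad (S N) (hS2 N) (Fin.castLE h) (Fin.castLE_injective h) X Y γ₁ γ₂ hγ h1 h2 h3]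
          simp
        · rfl
      rw [this]
      exact tendsto_const_nhds

end Pool.Agent.Lib.MP_90b327_co.RB
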