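import Mathlib
import Pool.Agent.Lib.MP_90b327_co.RB.RDefs
import Pool.Agent.Lib.MP_90b327_co.RB.ToTwoA
import Pool.Agent.Lib.MP_90b327_co.RB.ToTwoB
import Pool.Agent.Lib.MP_90b327_co.RB.RowMul
import Pool.Agent.Lib.MP_90b327_co.RB.RowSpace

/-!
MODULE ToTwoC (40 minutes, old scale). Text section 5: a character gives two-sided data.

PROOF. Row space `s` of `θ` (`exists_row h`), row space `s'` of `θ' = fun X Y => θ (tr X) (tr Y)`
(`exists_row (chr_tr h)`); `T.W = wv θ`, `T.r = s`, `T.c = s'`.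
`mom`: `row_four` for `s` with `f = range p`, `e = Ico p (p + q)`, `g = h = ∅`, then `w_inv` (cards).
`mom'`: `row_four` for `s'` with rows `f = range a`, `e = Ico a (a + b)` and columns `x`, `y`:
`θ (tr (neg e f x y)) (tr (pos e f x y)) = θ (neg x y e f) (pos x y e f) = wv θ y.card x.card a b`.
`ind`: `row_four` for `s` with `f = range p`, `e = Ico p (p+q)`, `h = Ico (p+q) (p+q+p')`,
`g = Ico (p+q+p') (p+q+p'+q')`; `chr_mul` (rows disjoint, columns disjoint: `x ∪ y`, `u ∪ v`), then `w_inv`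
twice. `ind'`: the same for `θ'`, or directly.
`tor`: `row_four` for `s` with rows `e f g h`, columns `x ∪ u`, `y ∪ v` and `u`, `v`; `row_four` for `s'`
with rows `x y u v` and columns `e`, `f` and `e ∪ g`, `f ∪ h`; and
`tr (neg x y e f ∪ neg u v (e ∪ g) (f ∪ h)) = neg e f (x ∪ u) (y ∪ v) ∪ neg g h u v` (both are
`f×x ∪ f×u ∪ e×y ∪ e×v ∪ h×u ∪ g×v`), the same for `pos`.
Last claim: `neg ∅ (range a) ∅ (range b) = ∅`, `pos ∅ (range a) ∅ (range b) = range a ×ˢ range b`
(`Ico a (a + 0) = ∅`).
-/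

set_option autoImplicit false

namespace Pool.Agent.Lib.MP_90b327_co.RB

private theorem ToTwoC_mom {θ : Pt → Pt → ℂ} (h : Chr θ) {s : Sp} (hs : IsRow θ s)
    (x y : Finset ℕ) (hxy : Disjoint x y) (p q : ℕ) :
    ∫ ω, s.z x y ω ^ p * s.z y x ω ^ q ∂s.P = wv θ p q y.card x.card := by
  have hd : Disjoint (Finset.Ico p (p + q)) (Finset.range p) := by
    rw [Finset.disjoint_left]
    intro a ha hb
    have := (Finset.mem_Ico.mp ha).1
    have := Finset.mem_range.mp hb
    omega
  have h1 := row_four hs (Finset.Ico p (p + q)) (Finset.range p) ∅ ∅ x y ∅ ∅ hd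
    (Finset.disjoint_empty_left _) (by simp)
  have h2 : neg ∅ ∅ ∅ ∅ = (∅ : Pt) := by simp [neg]
  have h3 : pos ∅ ∅ ∅ ∅ = (∅ : Pt) := by simp [pos]
  rw [h2, h3, Finset.union_empty, Finset.union_empty, w_inv h _ _ _ _ hd hxy] at h1
  simp only [Finset.card_range, Nat.card_Ico, Nat.add_sub_cancel_left, Finset.card_empty, pow_zero,
    mul_one] at h1
  exact h1

private theorem ToTwoC_ind {θ : Pt → Pt → ℂ} (h : Chr θ) {s : Sp} (hs : IsRow θ s)
    (x y u v : Finset ℕ) (hxy : Disjoint x y) (huv : Disjoint u v) (hd : Disjoint (x ∪ y) (u ∪ v))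
    (p q p' q' : ℕ) :
    ∫ ω, (s.z x y ω ^ p * s.z y x ω ^ q) * (s.z u v ω ^ p' * s.z v u ω ^ q') ∂s.P =
      wv θ p q y.card x.card * wv θ p' q' v.card u.card := by
  have hef : Disjoint (Finset.Ico p (p + q)) (Finset.range p) := by
    rw [Finset.disjoint_left]
    intro a ha hb
    have := (Finset.mem_Ico.mp ha).1
    have := Finset.mem_range.mp hb
    omega
  have hgh : Disjoint (Finset.Ico (p + q + p') (p + q + p' + q')) (Finset.Ico (p + q) (p + q + p')) := by
    rw [Finset.disjoint_left]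
    intro a ha hb
    have := (Finset.mem_Ico.mp ha).1
    have := (Finset.mem_Ico.mp hb).2
    omega
  have hdd : Disjoint (Finset.Ico p (p + q) ∪ Finset.range p)
      (Finset.Ico (p + q + p') (p + q + p' + q') ∪ Finset.Ico (p + q) (p + q + p')) := by
    rw [Finset.disjoint_left]
    intro a ha hb
    simp only [Finset.mem_union, Finset.mem_Ico, Finset.mem_range] at ha hb
    omega
  have h1 := row_four hs (Finset.Ico p (p + q)) (Finset.range p)
    (Finset.Ico (p + q + p') (p + q + p' + q')) (Finset.Ico (p + q) (p + q + p')) x y u v hef hgh hdd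
  have h2 := chr_mul h (neg (Finset.Ico p (p + q)) (Finset.range p) x y)
    (pos (Finset.Ico p (p + q)) (Finset.range p) x y)
    (neg (Finset.Ico (p + q + p') (p + q + p' + q')) (Finset.Ico (p + q) (p + q + p')) u v)
    (pos (Finset.Ico (p + q + p') (p + q + p' + q')) (Finset.Ico (p + q) (p + q + p')) u v) (by
      rintro ⟨c1, c2⟩ hc ⟨c1', c2'⟩ hc'
      have h3 : c1 ∈ Finset.Ico p (p + q) ∪ Finset.range p ∧ c2 ∈ x ∪ y := by
        unfold neg pos at hc
        simp only [Finset.mem_union, Finset.mem_product] at hc ⊢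
        tauto
      have h4 : c1' ∈ Finset.Ico (p + q + p') (p + q + p' + q') ∪ Finset.Ico (p + q) (p + q + p') ∧
          c2' ∈ u ∪ v := by
        unfold neg pos at hc'
        simp only [Finset.mem_union, Finset.mem_product] at hc' ⊢
        tauto
      constructor
      · intro h5
        have h5' : c1 = c1' := h5
        exact Finset.disjoint_left.mp hdd h3.1 (h5' ▸ h4.1)
      · intro h5
        have h5' : c2 = c2' := h5
        exact Finset.disjoint_left.mp hd h3.2 (h5' ▸ h4.2))
  rw [h2, w_inv h _ _ _ _ hef hxy, w_inv h _ _ _ _ hgh huv] at h1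
  simp only [Finset.card_range, Nat.card_Ico, Nat.add_sub_cancel_left] at h1
  exact h1

private theorem ToTwoC_wv (θ : Pt → Pt → ℂ) (p q a b : ℕ) :
    wv (fun X Y => θ (tr X) (tr Y)) p q a b = wv θ a b p q := by
  unfold wv
  beta_reduce
  rw [tr_neg, tr_pos]

private theorem ToTwoC_neg (x y u v e f g h : Finset ℕ) :
    neg e f (x ∪ u) (y ∪ v) ∪ neg g h u v = neg e f x y ∪ neg (e ∪ g) (f ∪ h) u v := by
  ext ⟨a, b⟩
  unfold neg
  simp only [Finset.mem_union, Finset.mem_product]
  tauto

private theorem ToTwoC_pos (x y u v e f g h : Finset ℕ) :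
    pos e f (x ∪ u) (y ∪ v) ∪ pos g h u v = pos e f x y ∪ pos (e ∪ g) (f ∪ h) u v := by
  ext ⟨a, b⟩
  unfold pos
  simp only [Finset.mem_union, Finset.mem_product]
  tauto

theorem exists_two {θ : Pt → Pt → ℂ} (h : Chr θ) :
    ∃ T : Two, ∀ a b : ℕ, T.W a 0 b 0 = θ ∅ (Finset.range a ×ˢ Finset.range b) := by
  obtain ⟨s, hs⟩ := exists_row h
  obtain ⟨s', hs'⟩ := exists_row (chr_tr h)
  refine ⟨{ W := wv θ
            r := s
            c := s'
            mom := fun x y hxy p q => ToTwoC_mom h hs x y hxy p q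
            mom' := fun x y hxy a b => by
              rw [ToTwoC_mom (chr_tr h) hs' x y hxy a b, ToTwoC_wv]
            ind := fun x y u v hxy huv hd p q p' q' => ToTwoC_ind h hs x y u v hxy huv hd p q p' q'
            ind' := fun x y u v hxy huv hd a b a' b' => by
              rw [ToTwoC_ind (chr_tr h) hs' x y u v hxy huv hd a b a' b', ToTwoC_wv, ToTwoC_wv]
            tor := fun x y u v e f g h' hxy huv hd hef hgh hd' => by
              rw [row_four hs e f g h' (x ∪ u) (y ∪ v) u v hef hgh hd',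
                row_four hs' x y u v e f (e ∪ g) (f ∪ h') hxy huv hd, tr_union, tr_union, tr_neg,
                tr_neg, tr_pos, tr_pos, ToTwoC_neg, ToTwoC_pos] }, fun a b => ?_⟩
  show wv θ a 0 b 0 = _
  unfold wv
  have h1 : neg (Finset.Ico a (a + 0)) (Finset.range a) (Finset.Ico b (b + 0)) (Finset.range b) =
      (∅ : Pt) := by
    simp [neg]
  have h2 : pos (Finset.Ico a (a + 0)) (Finset.range a) (Finset.Ico b (b + 0)) (Finset.range b) =
      Finset.range a ×ˢ Finset.range b := by
    simp [pos]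
  rw [h1, h2]

end Pool.Agent.Lib.MP_90b327_co.RB
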