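import Mathlib
import Pool.Agent.Lib.MP_90b327_co.RB.RDefs

/-!
MODULE Weyl (60 minutes, old scale). Text section 8, Lemma W (uniform qualitative Weyl lemma).

PROOF. Strong induction on `f.natDegree` (for all `η`).
DEGREE 1: `f.eval n = a n + b`, `a ≠ 0`; take `J₁ = |a|`. For `‖z‖ = 1`, `z^|a| ≠ 1` we have `z^a ≠ 1` and
`‖∑_{n<R} z^(a n + b)‖ = ‖((z^a)^R - 1) / (z^a - 1)‖ ≤ 2 / ‖z^a - 1‖`, divided by `R` it tends to `0`.
DEGREE ≥ 2: choose `H ≥ 1` with `1/H ≤ η²/8` and `η' = η²/8`. For `h ≠ h'` in `[0, H)` the polynomial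
`f_(h,h') = f.comp (X + C h) - f.comp (X + C h')` has `1 ≤ natDegree < f.natDegree`: the leading
coefficients cancel (`Polynomial.degree_sub_lt` or `natDegree_sub_lt`); if it were a constant `c` then with
`s = h - h'` we had `f (x + s) - f x = c` for all integers `x`, so `f (s n) = f 0 + c n` for all natural `n`,
two polynomials in `n` which agree at infinitely many points, so `f.comp (C s * X)` has degree `≤ 1`,
contradiction (`natDegree (f.comp (C s * X)) = natDegree f` as `s ≠ 0`). Let `J₁` be the maximum of the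
numbers given by the induction hypothesis for `f_(h,h')`, `η'`. For `z` as in the statement put
`u n = z ^ (f.eval n)`, `‖u n‖ = 1`:
  `‖∑_{n<R} u n - (1/H) ∑_{n<R} ∑_{h<H} u (n+h)‖ ≤ H` (each shift by `h` changes the sum by at most `2h`),
  `‖(1/R) ∑_{n<R} (1/H) ∑_{h<H} u (n+h)‖² ≤ (1/R) ∑_{n<R} ‖(1/H) ∑_{h<H} u (n+h)‖²` (Cauchy-Schwarz)
  `= H⁻² ∑_{h,h'} Re ((1/R) ∑_{n<R} u (n+h) conj (u (n+h')))`, and `u (n+h) conj (u (n+h')) = z ^ (f_(h,h') n)`;
  diagonal terms: at most `1/H`; off-diagonal terms: eventually each `≤ η'`.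
So eventually `‖avg‖ ≤ H/R + √(1/H + η') ≤ H/R + η/2 ≤ η`.
(The integer power `z ^ (m : ℤ)` of a complex number of norm one: `norm_zpow`, `zpow_sub₀`, `z ≠ 0`,
`conj z = z⁻¹`.)
-/

set_option autoImplicit false

namespace Pool.Agent.Lib.MP_90b327_co.RB

open Filter Topology

private theorem Weyl_shift (u : ℕ → ℂ) (hu : ∀ n, ‖u n‖ = 1) (R : ℕ) :
    ∀ h : ℕ, ‖∑ n ∈ Finset.range R, u n - ∑ n ∈ Finset.range R, u (n + h)‖ ≤ 2 * h := by
  intro h
  induction h with
  | zero => simp
  | succ h ih =>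
    have h1 : ∑ n ∈ Finset.range R, u (n + (h + 1)) =
        ∑ n ∈ Finset.range R, u (n + h) + u (R + h) - u h := by
      have h2 := Finset.sum_range_succ (fun n => u (n + h)) R
      have h3 := Finset.sum_range_succ' (fun n => u (n + h)) R
      rw [h2] at h3
      rw [h3]
      simp only [Nat.zero_add]
      rw [add_sub_cancel_right]
      apply Finset.sum_congr rfl
      intro n _
      congr 1
      omega
    rw [h1]
    have h4 : ∑ n ∈ Finset.range R, u n - (∑ n ∈ Finset.range R, u (n + h) + u (R + h) - u h) =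
        (∑ n ∈ Finset.range R, u n - ∑ n ∈ Finset.range R, u (n + h)) + (u h - u (R + h)) := by ring
    rw [h4]
    have h5 : ‖u h - u (R + h)‖ ≤ 2 := by
      have := norm_sub_le (u h) (u (R + h))
      rw [hu, hu] at this
      linarith
    have h6 := norm_add_le (∑ n ∈ Finset.range R, u n - ∑ n ∈ Finset.range R, u (n + h))
      (u h - u (R + h))
    push_cast
    linarith

private theorem Weyl_sq (u : ℕ → ℂ) (H R : ℕ) :
    ∑ n ∈ Finset.range R, ‖∑ h ∈ Finset.range H, u (n + h)‖ ^ 2 ≤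
      ∑ h ∈ Finset.range H, ∑ h' ∈ Finset.range H,
        ‖∑ n ∈ Finset.range R, u (n + h) * (starRingEnd ℂ) (u (n + h'))‖ := by
  have h1 : ∀ n, ‖∑ h ∈ Finset.range H, u (n + h)‖ ^ 2 =
      (∑ h ∈ Finset.range H, ∑ h' ∈ Finset.range H,
        u (n + h) * (starRingEnd ℂ) (u (n + h'))).re := by
    intro n
    rw [← Finset.sum_mul_sum, ← map_sum, Complex.mul_conj, Complex.ofReal_re, Complex.normSq_eq_norm_sq]
  have h2 : ∑ n ∈ Finset.range R, ‖∑ h ∈ Finset.range H, u (n + h)‖ ^ 2 =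
      (∑ h ∈ Finset.range H, ∑ h' ∈ Finset.range H,
        ∑ n ∈ Finset.range R, u (n + h) * (starRingEnd ℂ) (u (n + h'))).re := by
    rw [Finset.sum_congr rfl fun n _ => h1 n, ← Complex.re_sum, Finset.sum_comm]
    congr 1
    apply Finset.sum_congr rfl
    intro h _
    exact Finset.sum_comm
  rw [h2]
  refine (Complex.re_le_norm _).trans ((norm_sum_le _ _).trans ?_)
  apply Finset.sum_le_sum
  intro h _
  exact norm_sum_le _ _

/-- van der Corput inequality -/
private theorem Weyl_vdc (u : ℕ → ℂ) (hu : ∀ n, ‖u n‖ = 1) (H R : ℕ) (hH : 1 ≤ H) (hR : 1 ≤ R)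
    (e : ℝ) (he : ∀ h ∈ Finset.range H, ∀ h' ∈ Finset.range H, h ≠ h' →
      ‖(∑ n ∈ Finset.range R, u (n + h) * (starRingEnd ℂ) (u (n + h'))) / R‖ ≤ e) (he0 : 0 ≤ e) :
    ‖(∑ n ∈ Finset.range R, u n) / R‖ ≤ 2 * H / R + √(1 / H + e) := by
  have hH' : (0 : ℝ) < H := by exact_mod_cast hH
  have hR' : (0 : ℝ) < R := by exact_mod_cast hR
  set A : ℕ → ℂ := fun n => ∑ h ∈ Finset.range H, u (n + h) with hA
  -- the squares
  have h1 : ∑ n ∈ Finset.range R, ‖A n‖ ^ 2 ≤ R * (H + H ^ 2 * e) := by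
    refine (Weyl_sq u H R).trans ?_
    have h2 : ∀ h ∈ Finset.range H, ∀ h' ∈ Finset.range H,
        ‖∑ n ∈ Finset.range R, u (n + h) * (starRingEnd ℂ) (u (n + h'))‖ ≤
          R * ((if h = h' then 1 else 0) + e) := by
      intro h hh h' hh'
      by_cases hc : h = h'
      · subst hc
        rw [if_pos rfl]
        refine (norm_sum_le _ _).trans ?_
        have h3 : ∀ n ∈ Finset.range R, ‖u (n + h) * (starRingEnd ℂ) (u (n + h))‖ = 1 := by
          intro n _
          rw [norm_mul, RCLike.norm_conj, hu, one_mul]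
        rw [Finset.sum_congr rfl h3, Finset.sum_const, Finset.card_range, nsmul_eq_mul, mul_one]
        nlinarith
      · rw [if_neg hc, zero_add]
        have h4 := he h hh h' hh' hc
        rw [norm_div, Complex.norm_natCast, div_le_iff₀ hR'] at h4
        linarith
    refine (Finset.sum_le_sum fun h hh => Finset.sum_le_sum fun h' hh' => h2 h hh h' hh').trans ?_
    have h5 : ∀ h ∈ Finset.range H, ∑ h' ∈ Finset.range H,
        (R : ℝ) * ((if h = h' then 1 else 0) + e) = R * (1 + H * e) := by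
      intro h hh
      rw [← Finset.mul_sum, Finset.sum_add_distrib, Finset.sum_ite_eq, if_pos hh, Finset.sum_const,
        Finset.card_range, nsmul_eq_mul]
    rw [Finset.sum_congr rfl h5, Finset.sum_const, Finset.card_range, nsmul_eq_mul]
    exact le_of_eq (by ring)
  -- Cauchy-Schwarz
  have h2 : ‖∑ n ∈ Finset.range R, A n‖ ^ 2 ≤ (R * H) ^ 2 * (1 / H + e) := by
    have h3 : ‖∑ n ∈ Finset.range R, A n‖ ≤ ∑ n ∈ Finset.range R, ‖A n‖ := norm_sum_le _ _
    have h4 := sq_sum_le_card_mul_sum_sq (s := Finset.range R) (f := fun n => ‖A n‖)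
    rw [Finset.card_range] at h4
    have h5 : ‖∑ n ∈ Finset.range R, A n‖ ^ 2 ≤ (∑ n ∈ Finset.range R, ‖A n‖) ^ 2 :=
      pow_le_pow_left₀ (norm_nonneg _) h3 2
    have h6 : (R : ℝ) * ∑ n ∈ Finset.range R, ‖A n‖ ^ 2 ≤ R * (R * (H + H ^ 2 * e)) :=
      mul_le_mul_of_nonneg_left h1 hR'.le
    have h7 : (R : ℝ) * (R * (H + H ^ 2 * e)) = (R * H) ^ 2 * (1 / H + e) := by
      field_simp
    linarith
  have h3 : ‖∑ n ∈ Finset.range R, A n‖ ≤ R * H * √(1 / H + e) := by
    have h4 : √(‖∑ n ∈ Finset.range R, A n‖ ^ 2) ≤ √((R * H) ^ 2 * (1 / H + e)) :=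
      Real.sqrt_le_sqrt h2
    rw [Real.sqrt_sq (norm_nonneg _), Real.sqrt_mul (by positivity), Real.sqrt_sq (by positivity)] at h4
    exact h4
  -- the shifts
  have h4 : ‖(H : ℂ) * ∑ n ∈ Finset.range R, u n - ∑ n ∈ Finset.range R, A n‖ ≤ 2 * H ^ 2 := by
    have h5 : (H : ℂ) * ∑ n ∈ Finset.range R, u n - ∑ n ∈ Finset.range R, A n =
        ∑ h ∈ Finset.range H, (∑ n ∈ Finset.range R, u n - ∑ n ∈ Finset.range R, u (n + h)) := by
      rw [Finset.sum_sub_distrib, Finset.sum_const, Finset.card_range, nsmul_eq_mul, hA]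
      simp only []
      rw [Finset.sum_comm]
    rw [h5]
    refine (norm_sum_le _ _).trans ?_
    have h6 : ∀ h ∈ Finset.range H, ‖∑ n ∈ Finset.range R, u n -
        ∑ n ∈ Finset.range R, u (n + h)‖ ≤ 2 * H := by
      intro h hh
      have h7 := Weyl_shift u hu R h
      have h8 : (h : ℝ) ≤ H := by exact_mod_cast (Finset.mem_range.1 hh).le
      linarith
    refine (Finset.sum_le_sum h6).trans ?_
    rw [Finset.sum_const, Finset.card_range, nsmul_eq_mul]
    exact le_of_eq (by ring)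
  have h5 : (H : ℝ) * ‖∑ n ∈ Finset.range R, u n‖ ≤ 2 * H ^ 2 + R * H * √(1 / H + e) := by
    have h6 : ‖(H : ℂ) * ∑ n ∈ Finset.range R, u n‖ = H * ‖∑ n ∈ Finset.range R, u n‖ := by
      rw [norm_mul, Complex.norm_natCast]
    have h7 := norm_sub_norm_le ((H : ℂ) * ∑ n ∈ Finset.range R, u n) (∑ n ∈ Finset.range R, A n)
    rw [h6] at h7
    linarith
  rw [norm_div, Complex.norm_natCast, div_le_iff₀ hR']
  have h6 : (2 * (H : ℝ) / R + √(1 / H + e)) * R = 2 * H + R * √(1 / H + e) := by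
    field_simp
  rw [h6]
  refine le_of_mul_le_mul_left ?_ hH'
  calc (H : ℝ) * ‖∑ n ∈ Finset.range R, u n‖ ≤ 2 * H ^ 2 + R * H * √(1 / H + e) := h5
    _ = H * (2 * H + R * √(1 / H + e)) := by ring

open Polynomial in
private theorem Weyl_one (a b : ℤ) (ha : a ≠ 0) (η : ℝ) (hη : 0 < η) (z : ℂ) (hz : ‖z‖ = 1)
    (h1 : z ^ a.natAbs ≠ 1) :
    ∀ᶠ R : ℕ in atTop, ‖(∑ n ∈ Finset.range R, z ^ (a * (n : ℤ) + b)) / R‖ ≤ η := by
  have hz0 : z ≠ 0 := by
    rintro rfl
    rw [norm_zero] at hz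
    exact zero_ne_one hz
  have hw : z ^ a ≠ 1 := by
    rcases Int.natAbs_eq a with h | h
    · rw [h, zpow_natCast]
      exact h1
    · rw [h, zpow_neg, zpow_natCast]
      intro h2
      exact h1 (inv_eq_one.1 h2)
  have hsum : ∀ R : ℕ, ‖∑ n ∈ Finset.range R, z ^ (a * (n : ℤ) + b)‖ ≤ 2 / ‖z ^ a - 1‖ := by
    intro R
    have h2 : ∑ n ∈ Finset.range R, z ^ (a * (n : ℤ) + b) =
        (∑ n ∈ Finset.range R, (z ^ a) ^ n) * z ^ b := by
      rw [Finset.sum_mul]
      apply Finset.sum_congr rfl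
      intro n _
      rw [zpow_add₀ hz0, zpow_mul, zpow_natCast]
    rw [h2, geom_sum_eq hw, norm_mul, norm_div, norm_zpow, hz, one_zpow, mul_one]
    apply div_le_div_of_nonneg_right _ (norm_nonneg _)
    have h3 := norm_sub_le ((z ^ a) ^ R) 1
    rw [norm_pow, norm_zpow, hz, one_zpow, one_pow, norm_one] at h3
    linarith
  have hpos : 0 < ‖z ^ a - 1‖ := norm_pos_iff.2 (sub_ne_zero.2 hw)
  have htend : Tendsto (fun R : ℕ => (2 / ‖z ^ a - 1‖) / (R : ℝ)) atTop (𝓝 0) :=
    tendsto_const_div_atTop_nhds_zero_nat _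
  filter_upwards [htend.eventually (gt_mem_nhds hη), eventually_gt_atTop 0] with R hR hR0
  have hR' : (0 : ℝ) < R := by exact_mod_cast hR0
  rw [norm_div, Complex.norm_natCast]
  exact (div_le_div_of_nonneg_right (hsum R) hR'.le).trans hR.le

open Polynomial in
private theorem Weyl_diff (f : ℤ[X]) (hf : 2 ≤ f.natDegree) (h h' : ℕ) (hh : h ≠ h') :
    1 ≤ (f.comp (X + C (h : ℤ)) - f.comp (X + C (h' : ℤ))).natDegree ∧
      (f.comp (X + C (h : ℤ)) - f.comp (X + C (h' : ℤ))).natDegree < f.natDegree := by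
  have hnd : ∀ k : ℕ, (f.comp (X + C (k : ℤ))).natDegree = f.natDegree := by
    intro k
    rw [natDegree_comp, natDegree_X_add_C, mul_one]
  have hlc : ∀ k : ℕ, (f.comp (X + C (k : ℤ))).leadingCoeff = f.leadingCoeff := by
    intro k
    rw [leadingCoeff_comp (by rw [natDegree_X_add_C]; exact one_ne_zero), leadingCoeff_X_add_C,
      one_pow, mul_one]
  have hne : ∀ k : ℕ, f.comp (X + C (k : ℤ)) ≠ 0 := by
    intro k hk
    have := hnd k
    rw [hk, natDegree_zero] at this
    omega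
  constructor
  · by_contra hc
    have hc0 : (f.comp (X + C (h : ℤ)) - f.comp (X + C (h' : ℤ))).natDegree = 0 := by omega
    obtain ⟨c, hcc⟩ : ∃ c : ℤ, f.comp (X + C (h : ℤ)) - f.comp (X + C (h' : ℤ)) = C c :=
      ⟨_, eq_C_of_natDegree_eq_zero hc0⟩
    set s : ℤ := (h : ℤ) - h' with hs
    have hs0 : s ≠ 0 := by
      rw [hs]
      intro h1
      exact hh (by omega)
    have h1 : ∀ x : ℤ, f.eval (x + s) - f.eval x = c := by
      intro x
      have h2 := congrArg (fun p => Polynomial.eval (x - h') p) hcc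
      simp only [eval_sub, eval_comp, eval_add, eval_X, eval_C] at h2
      have e1 : x - (h' : ℤ) + h = x + s := by rw [hs]; ring
      have e2 : x - (h' : ℤ) + h' = x := by ring
      rw [e1, e2] at h2
      exact h2
    have h2 : ∀ n : ℕ, f.eval (s * (n : ℤ)) = f.eval 0 + c * n := by
      intro n
      induction n with
      | zero => simp
      | succ n ih =>
        have h3 := h1 (s * (n : ℤ))
        have e : s * ((n + 1 : ℕ) : ℤ) = s * n + s := by push_cast; ring
        rw [e]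
        push_cast
        linarith
    have h3 : f.comp (C s * X) = C (f.eval 0) + C c * X := by
      apply Polynomial.eq_of_infinite_eval_eq
      apply Set.infinite_of_injective_forall_mem (f := (Nat.cast : ℕ → ℤ)) Nat.cast_injective
      intro n
      show Polynomial.eval (n : ℤ) _ = Polynomial.eval (n : ℤ) _
      simp only [eval_comp, eval_mul, eval_C, eval_X, eval_add]
      exact h2 n
    have h4 : (f.comp (C s * X)).natDegree = f.natDegree := by
      rw [natDegree_comp, natDegree_C_mul_X _ hs0, mul_one]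
    have h5 : (C (f.eval 0) + C c * X : ℤ[X]).natDegree ≤ 1 := by
      rw [add_comm]
      exact natDegree_linear_le
    rw [← h3, h4] at h5
    omega
  · have hdeg : (f.comp (X + C (h : ℤ))).degree = (f.comp (X + C (h' : ℤ))).degree := by
      rw [degree_eq_natDegree (hne h), degree_eq_natDegree (hne h'), hnd, hnd]
    have h1 := degree_sub_lt_left hdeg (hne h) ((hlc h).trans (hlc h').symm)
    by_cases h0 : f.comp (X + C (h : ℤ)) - f.comp (X + C (h' : ℤ)) = 0
    · rw [h0, natDegree_zero]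
      omega
    · have h2 := natDegree_lt_natDegree h0 h1
      rw [hnd] at h2
      exact h2

theorem weyl_lim (f : Polynomial ℤ) (hf : 1 ≤ f.natDegree) (η : ℝ) (hη : 0 < η) :
    ∃ J₁ : ℕ, 1 ≤ J₁ ∧ ∀ z : ℂ, ‖z‖ = 1 → (∀ j : ℕ, 1 ≤ j → j ≤ J₁ → z ^ j ≠ 1) →
      ∀ᶠ R : ℕ in atTop, ‖(∑ n ∈ Finset.range R, z ^ (f.eval (n : ℤ))) / R‖ ≤ η := by
  induction hd : f.natDegree using Nat.strong_induction_on generalizing f η with
  | _ d IH =>
    subst hd
    rcases Nat.lt_or_ge f.natDegree 2 with h2 | h2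
    · obtain ⟨a, b, hab⟩ := Polynomial.exists_eq_X_add_C_of_natDegree_le_one (p := f) (by omega)
      have ha : a ≠ 0 := by
        rintro rfl
        rw [hab, Polynomial.C_0, zero_mul, zero_add, Polynomial.natDegree_C] at hf
        omega
      refine ⟨a.natAbs, Int.natAbs_pos.2 ha, fun z hz hj => ?_⟩
      have h3 := Weyl_one a b ha η hη z hz (hj _ (Int.natAbs_pos.2 ha) le_rfl)
      filter_upwards [h3] with R hR
      have h4 : ∀ n : ℕ, f.eval (n : ℤ) = a * (n : ℤ) + b := by
        intro n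
        rw [hab]
        simp
      simp only [h4]
      exact hR
    · obtain ⟨H, hH⟩ := exists_nat_gt (8 / η ^ 2)
      have hη2 : 0 < η ^ 2 / 8 := by positivity
      have hH0 : (0 : ℝ) < H := lt_trans (by positivity) hH
      have hH1 : 1 ≤ H := by exact_mod_cast hH0
      have hex : ∀ h h' : ℕ, ∃ J : ℕ, h ≠ h' → ∀ z : ℂ, ‖z‖ = 1 →
          (∀ j : ℕ, 1 ≤ j → j ≤ J → z ^ j ≠ 1) →
          ∀ᶠ R : ℕ in atTop, ‖(∑ n ∈ Finset.range R, z ^ ((f.comp (Polynomial.X + Polynomial.C (h : ℤ)) -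
            f.comp (Polynomial.X + Polynomial.C (h' : ℤ))).eval (n : ℤ))) / R‖ ≤ η ^ 2 / 8 := by
        intro h h'
        by_cases hh : h = h'
        · exact ⟨0, fun h1 => absurd hh h1⟩
        · obtain ⟨hd1, hd2⟩ := Weyl_diff f h2 h h' hh
          obtain ⟨J, -, hJ⟩ := IH _ hd2 _ hd1 (η ^ 2 / 8) hη2 rfl
          exact ⟨J, fun _ => hJ⟩
      choose J hJ using hex
      refine ⟨1 + ∑ h ∈ Finset.range H, ∑ h' ∈ Finset.range H, J h h', by omega, fun z hz hj => ?_⟩
      have hz0 : z ≠ 0 := by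
        rintro rfl
        rw [norm_zero] at hz
        exact zero_ne_one hz
      have hconj : ∀ m : ℤ, (starRingEnd ℂ) (z ^ m) = z ^ (-m) := by
        intro m
        rw [map_zpow₀, ← Complex.inv_eq_conj hz, inv_zpow']
      have hev : ∀ h ∈ Finset.range H, ∀ h' ∈ Finset.range H, h ≠ h' → ∀ᶠ R : ℕ in atTop,
          ‖(∑ n ∈ Finset.range R, z ^ (f.eval ((n + h : ℕ) : ℤ)) *
            (starRingEnd ℂ) (z ^ (f.eval ((n + h' : ℕ) : ℤ)))) / R‖ ≤ η ^ 2 / 8 := by
        intro h hh h' hh' hne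
        have hle : J h h' ≤ ∑ h ∈ Finset.range H, ∑ h' ∈ Finset.range H, J h h' :=
          (Finset.single_le_sum (f := fun k => J h k) (fun _ _ => Nat.zero_le _) hh').trans
            (Finset.single_le_sum (f := fun k => ∑ k' ∈ Finset.range H, J k k')
              (fun _ _ => Nat.zero_le _) hh)
        have h3 := hJ h h' hne z hz fun j hj1 hj2 => hj j hj1 (by omega)
        filter_upwards [h3] with R hR
        refine le_trans (le_of_eq ?_) hR
        congr 2
        apply Finset.sum_congr rfl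
        intro n _
        rw [hconj, ← zpow_add₀ hz0]
        congr 1
        simp only [Polynomial.eval_sub, Polynomial.eval_comp, Polynomial.eval_add, Polynomial.eval_X,
          Polynomial.eval_C]
        push_cast
        ring
      have hall : ∀ᶠ R : ℕ in atTop, ∀ h ∈ Finset.range H, ∀ h' ∈ Finset.range H, h ≠ h' →
          ‖(∑ n ∈ Finset.range R, z ^ (f.eval ((n + h : ℕ) : ℤ)) *
            (starRingEnd ℂ) (z ^ (f.eval ((n + h' : ℕ) : ℤ)))) / R‖ ≤ η ^ 2 / 8 := by
        rw [Filter.eventually_all_finset]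
        intro h hh
        rw [Filter.eventually_all_finset]
        intro h' hh'
        by_cases hc : h = h'
        · exact Eventually.of_forall fun _ h1 => absurd hc h1
        · filter_upwards [hev h hh h' hh' hc] with R hR _
          exact hR
      have htend : Tendsto (fun R : ℕ => (2 * (H : ℝ)) / (R : ℝ)) atTop (𝓝 0) :=
        tendsto_const_div_atTop_nhds_zero_nat _
      filter_upwards [hall, htend.eventually (gt_mem_nhds (half_pos hη)), eventually_gt_atTop 0]
        with R hR1 hR2 hR0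
      have h5 := Weyl_vdc (fun n => z ^ (f.eval (n : ℤ)))
        (fun n => by rw [norm_zpow, hz, one_zpow]) H R hH1 hR0 (η ^ 2 / 8) hR1 hη2.le
      have h6 : √(1 / (H : ℝ) + η ^ 2 / 8) ≤ η / 2 := by
        rw [Real.sqrt_le_left (by positivity)]
        have h7 : 1 / (H : ℝ) ≤ η ^ 2 / 8 := by
          rw [div_le_iff₀ hH0]
          rw [div_lt_iff₀ (by positivity)] at hH
          nlinarith
        nlinarith
      linarith

end Pool.Agent.Lib.MP_90b327_co.RB
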