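import Mathlib
import Pool.Agent.Lib.MP_90b327_co.RB.RDefs
import Pool.Agent.Lib.MP_90b327_co.RB.CaseOne
import Pool.Agent.Lib.MP_90b327_co.RB.Weyl
import Pool.Agent.Lib.MP_90b327_co.RB.Poly

/-!
MODULE AvgOne (50 minutes, old scale). Text section 8, end.

PROOF. Fix `η > 0`. `poly_comp` gives `f` with `f.eval n = P.eval (q n)`, `poly_deg`, `weyl_lim f η` gives `J₁`.
`case_one` for `j = 1, ..., J₁` (finite sum of limits) gives `m` such that the set `B` of the `ω` with
`‖z‖ = 1` and `z^j = 1` for some `1 ≤ j ≤ J₁` has measure `≤ η`; here `z = T.r.z (Ico m (m+m)) (range m) ω`.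
For large `n` `pv Q (q n) ≥ m` (`pv_tendsto`), so by `J_bound` `‖W (pv P (q n)) 0 (pv Q (q n)) 0‖² ≤ Re ∫
z^(pv P (q n))`; for the finitely many other `n` use `‖W‖ ≤ 1` (`W b 0 l 0 = ∫ z^b`, `mom` with `x = ∅`).
So `avg_{n<R} ‖W‖² ≤ C/R + ∫ A_R`, `A_R = ‖(1/R) ∑_{n<R} z^(pv P (q n))‖` (`R ≥ 1`).
Pointwise: if `‖z‖ < 1` then `A_R → 0` (`pv P (q n) → ∞`, Cesàro); if `‖z‖ = 1` and `ω ∉ B` then
eventually `A_R ≤ 2 η` (`weyl_lim`; `pv P (q n) = f.eval n` for large `n` by `pv_eq`, the finitely many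
others contribute `O(1/R)`). So `F_R := max (A_R - 2η) 0 * 1(ω ∉ B) → 0` pointwise, `0 ≤ F_R ≤ 1`, `∫ F_R → 0`
by dominated convergence, and `A_R ≤ 2 η + F_R + 1_B`. Hence eventually `avg ≤ 5 η`.
-/

set_option autoImplicit false

namespace Pool.Agent.Lib.MP_90b327_co.RB

open Filter Topology MeasureTheory Polynomial

theorem avg_one (T : Two) (h : ∀ j, 1 ≤ j → T.t j = 0) (P Q : ℤ[X]) (hP0 : P.eval 0 = 0)
    (hP : 0 < P.leadingCoeff) (hQ0 : Q.eval 0 = 0) (hQ : 0 < Q.leadingCoeff) (q : ℕ)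
    (hq : 1 ≤ q) :
    Tendsto (fun R : ℕ => (∑ n ∈ Finset.range R, ‖T.W (pv P (q * n)) 0 (pv Q (q * n)) 0‖ ^ 2) / R)
      atTop (𝓝 0) := by
  classical
  obtain ⟨f, hf0, hfl, hf⟩ := poly_comp P hP0 hP q hq
  have hfd := poly_deg f hf0 hfl
  obtain ⟨n₁, hn₁⟩ := pv_eq f hf0 hfl
  have hpv : ∀ n : ℕ, pv P (q * n) = pv f n := by
    intro n
    unfold pv
    push_cast
    rw [hf]
  have hQt := pv_tendsto Q hQ0 hQ q hq
  have hPt := pv_tendsto P hP0 hP q hq
  -- every term is at most one
  have hone : ∀ b l : ℕ, ‖T.W b 0 l 0‖ ^ 2 ≤ 1 := by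
    intro b l
    refine (J_bound T b l 0 (Nat.zero_le _)).trans ?_
    refine (Complex.re_le_norm _).trans ?_
    refine (norm_integral_le_of_norm_le_const (C := 1) (Eventually.of_forall fun ω => ?_)).trans ?_
    · rw [norm_pow]
      exact pow_le_one₀ (norm_nonneg _) (T.r.norm_le _ _ _)
    · simp
  rw [Metric.tendsto_atTop]
  intro ε hε
  obtain ⟨η, hηd⟩ : ∃ η : ℝ, η = ε / 8 := ⟨_, rfl⟩
  have hη : 0 < η := by rw [hηd]; linarith
  obtain ⟨J₁, hJ₁, hW⟩ := weyl_lim f hfd η hη
  have hsum : Tendsto (fun m : ℕ => ∑ j ∈ Finset.Icc 1 J₁, T.r.P.real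
      {ω | ‖T.r.z (Finset.Ico m (m + m)) (Finset.range m) ω‖ = 1 ∧
        T.r.z (Finset.Ico m (m + m)) (Finset.range m) ω ^ j = 1}) atTop (𝓝 0) := by
    have h1 := tendsto_finsetSum (Finset.Icc 1 J₁)
      (fun j hj => case_one T h j (Finset.mem_Icc.1 hj).1)
    simpa using h1
  obtain ⟨m, hm⟩ := (hsum.eventually (gt_mem_nhds hη)).exists
  obtain ⟨z, hzd⟩ : ∃ z : T.r.Ω → ℂ, z = T.r.z (Finset.Ico m (m + m)) (Finset.range m) := ⟨_, rfl⟩
  have hz1 : ∀ ω, ‖z ω‖ ≤ 1 := by
    intro ω
    rw [hzd]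
    exact T.r.norm_le _ _ _
  have hzm : Measurable z := by
    rw [hzd]
    exact T.r.meas _ _
  rw [← hzd] at hm
  have hJ : ∀ b l : ℕ, m ≤ l → ‖T.W b 0 l 0‖ ^ 2 ≤ (∫ ω, z ω ^ b ∂T.r.P).re := by
    intro b l hl
    rw [hzd]
    exact J_bound T b l m hl
  set B : Set T.r.Ω := ⋃ j ∈ Finset.Icc 1 J₁, {ω | ‖z ω‖ = 1 ∧ z ω ^ j = 1} with hBd
  have hBm : MeasurableSet B := by
    refine Finset.measurableSet_biUnion _ fun j _ => ?_
    exact (measurableSet_eq_fun hzm.norm measurable_const).inter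
      (measurableSet_eq_fun (hzm.pow_const j) measurable_const)
  have hB : T.r.P.real B ≤ η := (measureReal_biUnion_finset_le _ _).trans hm.le
  -- the averages
  obtain ⟨S, hSd⟩ : ∃ S : ℕ → T.r.Ω → ℂ,
      S = fun R ω => ∑ n ∈ Finset.range R, z ω ^ (pv P (q * n)) := ⟨_, rfl⟩
  have hSm : ∀ R, Measurable (S R) := by
    intro R
    rw [hSd]
    exact Finset.measurable_sum _ fun n _ => hzm.pow_const _
  have hS1 : ∀ R ω, ‖S R ω‖ ≤ R := by
    intro R ω
    rw [hSd]
    simp only
    refine (norm_sum_le _ _).trans ?_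
    have h2 : ∑ n ∈ Finset.range R, ‖z ω ^ (pv P (q * n))‖ ≤ ∑ n ∈ Finset.range R, (1 : ℝ) := by
      refine Finset.sum_le_sum fun n _ => ?_
      rw [norm_pow]
      exact pow_le_one₀ (norm_nonneg _) (hz1 ω)
    simpa using h2
  have hA0 : ∀ (R : ℕ) ω, 0 ≤ ‖S R ω‖ / R := fun R ω =>
    div_nonneg (norm_nonneg _) (Nat.cast_nonneg _)
  have hA1 : ∀ (R : ℕ) ω, ‖S R ω‖ / R ≤ 1 := fun R ω =>
    div_le_one_of_le₀ (hS1 R ω) (Nat.cast_nonneg _)
  have hAm : ∀ R : ℕ, Measurable fun ω => ‖S R ω‖ / R := fun R => (hSm R).norm.div_const _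
  obtain ⟨F, hFd⟩ : ∃ F : ℕ → T.r.Ω → ℝ,
      F = fun R => Bᶜ.indicator fun ω => max (‖S R ω‖ / R - 2 * η) 0 := ⟨_, rfl⟩
  have hFm : ∀ R, Measurable (F R) := by
    intro R
    rw [hFd]
    exact (((hAm R).sub_const _).max measurable_const).indicator hBm.compl
  have hFb : ∀ R ω, ‖F R ω‖ ≤ 1 := by
    intro R ω
    rw [hFd]
    simp only
    refine (norm_indicator_le_norm_self _ _).trans ?_
    rw [Real.norm_of_nonneg (le_max_right _ _)]
    exact max_le (by linarith [hA1 R ω]) zero_le_one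
  -- pointwise convergence
  have hlim : ∀ ω, Tendsto (fun R => F R ω) atTop (𝓝 0) := by
    intro ω
    rw [hFd]
    by_cases hω : ω ∈ B
    · have h3 : (fun R : ℕ => Bᶜ.indicator (fun ω => max (‖S R ω‖ / R - 2 * η) 0) ω) =
          fun _ => 0 := by
        funext R
        exact Set.indicator_of_notMem (show ω ∉ Bᶜ from fun hc => hc hω) _
      rw [h3]
      exact tendsto_const_nhds
    · have hev : ∀ᶠ R : ℕ in atTop, ‖S R ω‖ / R ≤ 2 * η := by
        rcases lt_or_eq_of_le (hz1 ω) with hlt | heq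
        · have h4 : Tendsto (fun n : ℕ => z ω ^ (pv P (q * n))) atTop (𝓝 0) :=
            (tendsto_pow_atTop_nhds_zero_of_norm_lt_one hlt).comp hPt
          have h5 := h4.norm.cesaro
          rw [norm_zero] at h5
          have h6 := h5.eventually (ge_mem_nhds (show (0 : ℝ) < 2 * η by linarith))
          filter_upwards [h6] with R hR
          refine le_trans ?_ hR
          rw [hSd, div_eq_inv_mul]
          exact mul_le_mul_of_nonneg_left (norm_sum_le _ _) (by positivity)
        · have hj : ∀ j : ℕ, 1 ≤ j → j ≤ J₁ → z ω ^ j ≠ 1 := by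
            intro j h7 h8 h9
            apply hω
            rw [hBd]
            simp only [Set.mem_iUnion]
            exact ⟨j, Finset.mem_Icc.2 ⟨h7, h8⟩, heq, h9⟩
          have h10 := hW (z ω) heq hj
          have h11 : ∀ᶠ R : ℕ in atTop, (2 * n₁ : ℝ) / R ≤ η := by
            have h12 : Tendsto (fun R : ℕ => (2 * n₁ : ℝ) / R) atTop (𝓝 0) :=
              tendsto_const_div_atTop_nhds_zero_nat _
            exact h12.eventually (ge_mem_nhds hη)
          filter_upwards [h10, h11, eventually_ge_atTop 1] with R hR1 hR2 hR3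
          have hR0 : (0 : ℝ) < R := by exact_mod_cast hR3
          have h13 : ‖S R ω - ∑ n ∈ Finset.range R, z ω ^ (f.eval (n : ℤ))‖ ≤ 2 * n₁ := by
            rw [hSd]
            simp only
            rw [← Finset.sum_sub_distrib]
            refine (norm_sum_le _ _).trans ?_
            have h14 : ∀ n ∈ Finset.range R, ‖z ω ^ (pv P (q * n)) - z ω ^ (f.eval (n : ℤ))‖ ≤
                if n < n₁ then 2 else 0 := by
              intro n _
              split_ifs with hn
              · refine (norm_sub_le _ _).trans ?_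
                rw [norm_pow, norm_zpow, heq, one_pow, one_zpow]
                norm_num
              · have h15 : z ω ^ (pv P (q * n)) = z ω ^ (f.eval (n : ℤ)) := by
                  rw [← (hn₁ n (not_lt.1 hn)).1, zpow_natCast, hpv]
                rw [h15, sub_self, norm_zero]
            refine (Finset.sum_le_sum h14).trans ?_
            rw [← Finset.sum_filter, Finset.sum_const, nsmul_eq_mul, mul_comm]
            have h16 : ((Finset.range R).filter (fun n => n < n₁)).card ≤ n₁ := by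
              refine (Finset.card_le_card (t := Finset.range n₁) fun n hn => ?_).trans
                (by simp)
              exact Finset.mem_range.2 (Finset.mem_filter.1 hn).2
            exact mul_le_mul_of_nonneg_left (by exact_mod_cast h16) (by norm_num)
          have h17 : ‖S R ω‖ ≤ ‖∑ n ∈ Finset.range R, z ω ^ (f.eval (n : ℤ))‖ + 2 * n₁ := by
            have h18 := norm_sub_norm_le (S R ω) (∑ n ∈ Finset.range R, z ω ^ (f.eval (n : ℤ)))
            linarith
          calc ‖S R ω‖ / R ≤ (‖∑ n ∈ Finset.range R, z ω ^ (f.eval (n : ℤ))‖ + 2 * n₁) / R :=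
                div_le_div_of_nonneg_right h17 hR0.le
            _ = ‖(∑ n ∈ Finset.range R, z ω ^ (f.eval (n : ℤ))) / R‖ + 2 * n₁ / R := by
                rw [norm_div, Complex.norm_natCast, add_div]
            _ ≤ 2 * η := by linarith
      refine tendsto_const_nhds.congr' ?_
      filter_upwards [hev] with R hR
      rw [Set.indicator_of_mem (show ω ∈ Bᶜ from hω)]
      exact (max_eq_right (by linarith)).symm
  have hFi : Tendsto (fun R => ∫ ω, F R ω ∂T.r.P) atTop (𝓝 0) := by
    have h19 := tendsto_integral_of_dominated_convergence (μ := T.r.P) (F := F) (f := fun _ => 0)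
      (fun _ => (1 : ℝ)) (fun R => (hFm R).aestronglyMeasurable) (integrable_const _)
      (fun R => Eventually.of_forall (hFb R)) (Eventually.of_forall hlim)
    simpa using h19
  -- the finitely many other terms
  obtain ⟨n₀, hn₀⟩ := eventually_atTop.1 (hQt.eventually_ge_atTop m)
  have hfin : ∀ᶠ R : ℕ in atTop, (2 * n₀ : ℝ) / R ≤ η := by
    have h12 : Tendsto (fun R : ℕ => (2 * n₀ : ℝ) / R) atTop (𝓝 0) :=
      tendsto_const_div_atTop_nhds_zero_nat _
    exact h12.eventually (ge_mem_nhds hη)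
  have hmain : ∀ᶠ R : ℕ in atTop,
      (∑ n ∈ Finset.range R, ‖T.W (pv P (q * n)) 0 (pv Q (q * n)) 0‖ ^ 2) / (R : ℝ) ≤ 5 * η := by
    filter_upwards [hfin, hFi.eventually (ge_mem_nhds hη), eventually_ge_atTop 1]
      with R hR1 hR2 hR3
    have hR0 : (0 : ℝ) < R := by exact_mod_cast hR3
    have hint : ∀ b : ℕ, Integrable (fun ω => z ω ^ b) T.r.P := by
      intro b
      refine Integrable.of_bound (hzm.pow_const b).aestronglyMeasurable 1
        (Eventually.of_forall fun ω => ?_)
      rw [norm_pow]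
      exact pow_le_one₀ (norm_nonneg _) (hz1 ω)
    have hAint : ∀ R : ℕ, Integrable (fun ω => ‖S R ω‖ / R) T.r.P := by
      intro R
      refine Integrable.of_bound (hAm R).aestronglyMeasurable 1
        (Eventually.of_forall fun ω => ?_)
      rw [Real.norm_of_nonneg (hA0 R ω)]
      exact hA1 R ω
    have hFint : Integrable (F R) T.r.P :=
      Integrable.of_bound (hFm R).aestronglyMeasurable 1 (Eventually.of_forall (hFb R))
    have h20 : ∀ n ∈ Finset.range R, ‖T.W (pv P (q * n)) 0 (pv Q (q * n)) 0‖ ^ 2 ≤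
        (∫ ω, z ω ^ (pv P (q * n)) ∂T.r.P).re + if n < n₀ then 2 else 0 := by
      intro n _
      split_ifs with hn
      · have h21 : -1 ≤ (∫ ω, z ω ^ (pv P (q * n)) ∂T.r.P).re := by
          have h22 : ‖∫ ω, z ω ^ (pv P (q * n)) ∂T.r.P‖ ≤ 1 := by
            refine (norm_integral_le_of_norm_le_const (C := 1)
              (Eventually.of_forall fun ω => ?_)).trans ?_
            · rw [norm_pow]
              exact pow_le_one₀ (norm_nonneg _) (hz1 ω)
            · simp
          have h23 := Complex.abs_re_le_norm (∫ ω, z ω ^ (pv P (q * n)) ∂T.r.P)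
          have h24 := neg_abs_le (∫ ω, z ω ^ (pv P (q * n)) ∂T.r.P).re
          linarith
        linarith [hone (pv P (q * n)) (pv Q (q * n))]
      · rw [add_zero]
        exact hJ _ _ (hn₀ n (not_lt.1 hn))
    have h25 : ∑ n ∈ Finset.range R, (if n < n₀ then (2 : ℝ) else 0) ≤ 2 * n₀ := by
      rw [← Finset.sum_filter, Finset.sum_const, nsmul_eq_mul, mul_comm]
      have h16 : ((Finset.range R).filter (fun n => n < n₀)).card ≤ n₀ := by
        refine (Finset.card_le_card (t := Finset.range n₀) fun n hn => ?_).trans (by simp)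
        exact Finset.mem_range.2 (Finset.mem_filter.1 hn).2
      exact mul_le_mul_of_nonneg_left (by exact_mod_cast h16) (by norm_num)
    have h26 : ∑ n ∈ Finset.range R, (∫ ω, z ω ^ (pv P (q * n)) ∂T.r.P).re =
        (∫ ω, S R ω ∂T.r.P).re := by
      rw [hSd]
      simp only
      rw [integral_finsetSum _ fun n _ => hint _, Complex.re_sum]
    have h27 : (∫ ω, S R ω ∂T.r.P).re ≤ R * ∫ ω, ‖S R ω‖ / R ∂T.r.P := by
      refine (Complex.re_le_norm _).trans ((norm_integral_le_integral_norm _).trans_eq ?_)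
      rw [← integral_const_mul]
      refine integral_congr_ae (Eventually.of_forall fun ω => ?_)
      simp only
      field_simp
    have h28 : ∫ ω, ‖S R ω‖ / R ∂T.r.P ≤ 2 * η + (∫ ω, F R ω ∂T.r.P) + T.r.P.real B := by
      have h29 : ∫ ω, ‖S R ω‖ / R ∂T.r.P ≤
          ∫ ω, ((2 * η + F R ω) + B.indicator (fun _ => (1 : ℝ)) ω) ∂T.r.P := by
        refine integral_mono (hAint R) (((integrable_const _).add hFint).add
          ((integrable_const (1 : ℝ)).indicator hBm)) fun ω => ?_
        simp only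
        by_cases hω : ω ∈ B
        · rw [Set.indicator_of_mem hω, hFd]
          simp only
          rw [Set.indicator_of_notMem (show ω ∉ Bᶜ from fun hc => hc hω)]
          linarith [hA1 R ω]
        · rw [Set.indicator_of_notMem hω, hFd]
          simp only
          rw [Set.indicator_of_mem (show ω ∈ Bᶜ from hω)]
          linarith [le_max_left (‖S R ω‖ / R - 2 * η) 0]
      refine h29.trans_eq ?_
      have i1 : Integrable (fun _ : T.r.Ω => 2 * η) T.r.P := integrable_const _
      have i2 : Integrable (B.indicator fun _ => (1 : ℝ)) T.r.P :=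
        (integrable_const (1 : ℝ)).indicator hBm
      have e1 := integral_add (f := fun ω => 2 * η + F R ω) (g := B.indicator fun _ => (1 : ℝ))
        (i1.add hFint) i2
      have e2 := integral_add (f := fun _ : T.r.Ω => 2 * η) (g := F R) i1 hFint
      rw [e1, e2, integral_indicator hBm]
      simp
    have h30 : (∑ n ∈ Finset.range R, ‖T.W (pv P (q * n)) 0 (pv Q (q * n)) 0‖ ^ 2) ≤
        R * (2 * η + (∫ ω, F R ω ∂T.r.P) + T.r.P.real B) + 2 * n₀ := by
      refine (Finset.sum_le_sum h20).trans ?_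
      rw [Finset.sum_add_distrib, h26]
      refine add_le_add (h27.trans ?_) h25
      exact mul_le_mul_of_nonneg_left h28 hR0.le
    calc (∑ n ∈ Finset.range R, ‖T.W (pv P (q * n)) 0 (pv Q (q * n)) 0‖ ^ 2) / (R : ℝ)
        ≤ (R * (2 * η + (∫ ω, F R ω ∂T.r.P) + T.r.P.real B) + 2 * n₀) / R :=
          div_le_div_of_nonneg_right h30 hR0.le
      _ = (2 * η + (∫ ω, F R ω ∂T.r.P) + T.r.P.real B) + 2 * n₀ / R := by
          field_simp
      _ ≤ 5 * η := by linarith
  obtain ⟨R₀, hR₀⟩ := eventually_atTop.1 hmain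
  refine ⟨R₀, fun R hR => ?_⟩
  rw [Real.dist_eq, sub_zero, abs_of_nonneg (div_nonneg (Finset.sum_nonneg fun _ _ => sq_nonneg _)
    (Nat.cast_nonneg _))]
  have := hR₀ R hR
  rw [hηd] at this
  linarith

end Pool.Agent.Lib.MP_90b327_co.RB
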