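import Mathlib
import Pool.Agent.Lib.MP_90b327_co.RB.RDefs
import Pool.Agent.Lib.MP_90b327_co.RB.Weyl
import Pool.Agent.Lib.MP_90b327_co.RB.Poly

/-!
MODULE AvgTwo (45 minutes, old scale). Text (9.6).

PROOF. `poly_scale` for `a`: `P (a n) = a p(n)`, `Q (a n) = a s(n)` with `p 0 = s 0 = 0`, positive leading
coefficients. CASE `ζ^r = 1` for some `r ≥ 1`: `q₀ = a * r`. For `q = a r q'` and large `n`: `pv P (q n) =
a * p(r q' n)`, `r ∣ p (r q' n)` (`poly_dvd`), the same for `s`, all values large (`pv_tendsto`, `pv_eq`), so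
`ζ^(p s) = 1` and `Re J ≥ t₀ - ε/2 ≥ - ε/2`; the finitely many other `n` contribute `O(1/R)` (`‖J‖ ≤ 1`).
CASE `ζ` not a root of unity: `q₀ = a`, `q = a q'`, `f(n) = p(q' n) s(q' n)` is an integer polynomial of
degree `≥ 2` (`poly_comp`, `poly_deg`, `natDegree_mul`), for large `n` `‖J - t₀ ζ^(f n)‖ ≤ ε/4` (`ζ^(p s)` as a
natural power = the integer power), and `‖avg ζ^(f n)‖ ≤ η` eventually for every `η` (`weyl_lim`, the
condition holds for every `J₁`); choose `η` with `t₀ η ≤ ε/4`.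
-/

set_option autoImplicit false

namespace Pool.Agent.Lib.MP_90b327_co.RB

open Filter Topology Polynomial

theorem avg_lb (x y : ℕ → ℝ) (C : ℝ) (hC : 0 ≤ C) (hx : ∀ n, -1 ≤ x n) (hy : ∀ n, y n ≤ C)
    (ε : ℝ) (hε : 0 < ε) (N₀ : ℕ) (h : ∀ n, N₀ ≤ n → y n - ε / 4 ≤ x n) (R₁ : ℕ)
    (hav : ∀ R : ℕ, R₁ ≤ R → -(ε / 4) ≤ (∑ n ∈ Finset.range R, y n) / R) :
    ∃ R₀ : ℕ, ∀ R : ℕ, R₀ ≤ R → -ε ≤ (∑ n ∈ Finset.range R, x n) / R := by
  obtain ⟨K, hK⟩ := exists_nat_gt ((N₀ : ℝ) * (1 + C) / (ε / 4))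
  refine ⟨max R₁ (K + 1), fun R hR => ?_⟩
  have hR1 : R₁ ≤ R := le_trans (le_max_left _ _) hR
  have hR2 : K + 1 ≤ R := le_trans (le_max_right _ _) hR
  have hRpos : (0 : ℝ) < (R : ℝ) := by
    have : 0 < R := by omega
    exact_mod_cast this
  have hKR : (K : ℝ) ≤ (R : ℝ) := by
    have : K ≤ R := by omega
    exact_mod_cast this
  have h1 : ∀ n, y n - ε / 4 - (if n < N₀ then (1 + C) else 0) ≤ x n := by
    intro n
    split_ifs with hn
    · have := hx n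
      have := hy n
      linarith
    · have := h n (by omega)
      linarith
  have h2 : ∑ n ∈ Finset.range R, (if n < N₀ then (1 + C) else 0) ≤ (N₀ : ℝ) * (1 + C) := by
    rw [← Finset.sum_filter]
    rw [Finset.sum_const, nsmul_eq_mul]
    apply mul_le_mul_of_nonneg_right _ (by linarith)
    have : ((Finset.range R).filter (fun n => n < N₀)).card ≤ (Finset.range N₀).card := by
      apply Finset.card_le_card
      intro n hn
      rw [Finset.mem_filter] at hn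
      exact Finset.mem_range.mpr hn.2
    rw [Finset.card_range] at this
    exact_mod_cast this
  have h3 : ∑ n ∈ Finset.range R, (y n - ε / 4 - (if n < N₀ then (1 + C) else 0)) ≤
      ∑ n ∈ Finset.range R, x n := Finset.sum_le_sum (fun n _ => h1 n)
  rw [Finset.sum_sub_distrib, Finset.sum_sub_distrib, Finset.sum_const, Finset.card_range,
    nsmul_eq_mul] at h3
  have h4 := hav R hR1
  rw [le_div_iff₀ hRpos] at h4 ⊢
  have h5 : (N₀ : ℝ) * (1 + C) ≤ (ε / 4) * R := by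
    have h6 : (N₀ : ℝ) * (1 + C) / (ε / 4) ≤ R := le_trans hK.le hKR
    rw [div_le_iff₀ (by linarith)] at h6
    linarith
  nlinarith [mul_pos hε hRpos]

theorem scale_pv (P : ℤ[X]) (h0 : P.eval 0 = 0) (hl : 0 < P.leadingCoeff) (a : ℕ) (ha : 1 ≤ a) :
    ∃ p : ℤ[X], p.eval 0 = 0 ∧ 0 < p.leadingCoeff ∧ ∀ q' : ℕ, 1 ≤ q' → ∀ M : ℕ, ∃ N : ℕ,
      ∀ n, N ≤ n → pv P (a * q' * n) = a * pv p (q' * n) ∧
        (pv p (q' * n) : ℤ) = p.eval ((q' * n : ℕ) : ℤ) ∧ M ≤ pv p (q' * n) := by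
  obtain ⟨p, hp0, hpl, hp⟩ := poly_scale P h0 hl a ha
  refine ⟨p, hp0, hpl, fun q' hq' M => ?_⟩
  obtain ⟨n₀, hn₀⟩ := pv_eq P h0 hl
  obtain ⟨n₁, hn₁⟩ := pv_eq p hp0 hpl
  have ht := pv_tendsto p hp0 hpl q' hq'
  obtain ⟨n₂, hn₂⟩ := Filter.eventually_atTop.mp (ht.eventually_ge_atTop M)
  refine ⟨max (max n₀ n₁) n₂, fun n hn => ?_⟩
  have e0 : n₀ ≤ n := le_trans (le_trans (le_max_left _ _) (le_max_left _ _)) hn
  have e1 : n₁ ≤ n := le_trans (le_trans (le_max_right _ _) (le_max_left _ _)) hn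
  have e2 : n₂ ≤ n := le_trans (le_max_right _ _) hn
  have g1 : n ≤ q' * n := Nat.le_mul_of_pos_left n hq'
  have g2 : n ≤ a * q' * n := Nat.le_mul_of_pos_left n (Nat.mul_pos ha hq')
  have f0 := (hn₀ (a * q' * n) (le_trans e0 g2)).1
  have f1 := (hn₁ (q' * n) (le_trans e1 g1)).1
  refine ⟨?_, f1, hn₂ n e2⟩
  have : ((pv P (a * q' * n) : ℕ) : ℤ) = ((a * pv p (q' * n) : ℕ) : ℤ) := by
    rw [f0]
    push_cast
    rw [f1]
    push_cast
    rw [mul_assoc, hp]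
  exact_mod_cast this

theorem avg_two (J : ℕ → ℕ → ℂ) (hJ : ∀ b l, ‖J b l‖ ≤ 1) (a : ℕ) (ha : 1 ≤ a) (ζ : ℂ)
    (hζ : ‖ζ‖ = 1) (t₀ : ℝ) (ht : 0 ≤ t₀)
    (h : ∀ ε : ℝ, 0 < ε → ∃ M : ℕ, ∀ p q : ℕ, M ≤ p → M ≤ q →
      ‖J (a * p) (a * q) - (t₀ : ℂ) * ζ ^ (p * q)‖ ≤ ε)
    (P Q : ℤ[X]) (hP0 : P.eval 0 = 0) (hP : 0 < P.leadingCoeff) (hQ0 : Q.eval 0 = 0)
    (hQ : 0 < Q.leadingCoeff) : ∃ q₀ : ℕ, 1 ≤ q₀ ∧ ∀ q : ℕ, 1 ≤ q → q₀ ∣ q → ∀ ε : ℝ, 0 < ε →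
      ∃ R₀ : ℕ, ∀ R, R₀ ≤ R →
        -ε ≤ (∑ n ∈ Finset.range R, (J (pv P (q * n)) (pv Q (q * n))).re) / R := by
  obtain ⟨p, hp0, hpl, hp⟩ := scale_pv P hP0 hP a ha
  obtain ⟨s, hs0, hsl, hs⟩ := scale_pv Q hQ0 hQ a ha
  have hre : ∀ b l, -1 ≤ (J b l).re := by
    intro b l
    have h1 := Complex.abs_re_le_norm (J b l)
    have h2 := hJ b l
    have := neg_abs_le (J b l).re
    linarith
  by_cases hr : ∃ r : ℕ, 1 ≤ r ∧ ζ ^ r = 1
  · obtain ⟨r, hr1, hr⟩ := hr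
    refine ⟨a * r, Nat.mul_pos ha hr1, ?_⟩
    rintro q hq ⟨q'', rfl⟩ ε hε
    have hq'' : 1 ≤ q'' := by
      rcases Nat.eq_zero_or_pos q'' with h0 | h0
      · subst h0; simp at hq
      · exact h0
    obtain ⟨M, hM⟩ := h (ε / 4) (by linarith)
    obtain ⟨N1, hN1⟩ := hp (r * q'') (Nat.mul_pos hr1 hq'') M
    obtain ⟨N2, hN2⟩ := hs (r * q'') (Nat.mul_pos hr1 hq'') M
    refine avg_lb _ (fun _ => 0) 0 le_rfl (fun n => hre _ _) (fun _ => le_rfl) ε hε (max N1 N2)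
      (fun n hn => ?_) 0 (fun R _ => ?_)
    · obtain ⟨e1, e2, e3⟩ := hN1 n (le_trans (le_max_left _ _) hn)
      obtain ⟨g1, g2, g3⟩ := hN2 n (le_trans (le_max_right _ _) hn)
      rw [mul_assoc a r q'', e1, g1]
      have h1 := hM _ _ e3 g3
      have hd : r ∣ pv p (r * q'' * n) := by
        have := poly_dvd p hp0 (r : ℤ) ((q'' * n : ℕ) : ℤ)
        have h2 : ((r : ℤ) * ((q'' * n : ℕ) : ℤ)) = ((r * q'' * n : ℕ) : ℤ) := by
          push_cast; ring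
        rw [h2, ← e2] at this
        exact_mod_cast this
      obtain ⟨w, hw⟩ := hd
      have h3 : ζ ^ (pv p (r * q'' * n) * pv s (r * q'' * n)) = 1 := by
        rw [hw, mul_assoc, pow_mul, hr, one_pow]
      rw [h3, mul_one] at h1
      have h4 := Complex.abs_re_le_norm
        (J (a * pv p (r * q'' * n)) (a * pv s (r * q'' * n)) - (t₀ : ℂ))
      rw [Complex.sub_re, Complex.ofReal_re] at h4
      have h5 := neg_abs_le
        ((J (a * pv p (r * q'' * n)) (a * pv s (r * q'' * n))).re - t₀)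
      linarith
    · simp only [Finset.sum_const_zero, zero_div]
      linarith
  · push Not at hr
    refine ⟨a, ha, ?_⟩
    rintro q hq ⟨q', rfl⟩ ε hε
    have hq' : 1 ≤ q' := by
      rcases Nat.eq_zero_or_pos q' with h0 | h0
      · subst h0; simp at hq
      · exact h0
    obtain ⟨M, hM⟩ := h (ε / 4) (by linarith)
    obtain ⟨N1, hN1⟩ := hp q' hq' M
    obtain ⟨N2, hN2⟩ := hs q' hq' M
    obtain ⟨f1, hf10, hf1l, hf1⟩ := poly_comp p hp0 hpl q' hq'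
    obtain ⟨f2, hf20, hf2l, hf2⟩ := poly_comp s hs0 hsl q' hq'
    have hd1 := poly_deg f1 hf10 hf1l
    have hd2 := poly_deg f2 hf20 hf2l
    have hne1 : f1 ≠ 0 := by
      rintro rfl; simp at hf1l
    have hne2 : f2 ≠ 0 := by
      rintro rfl; simp at hf2l
    have hdeg : 1 ≤ (f1 * f2).natDegree := by
      rw [Polynomial.natDegree_mul hne1 hne2]; omega
    set η : ℝ := ε / (4 * (t₀ + 1)) with hη
    have hηpos : 0 < η := by
      rw [hη]; apply div_pos hε; linarith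
    have hηle : t₀ * η ≤ ε / 4 := by
      rw [hη, ← mul_div_assoc, div_le_div_iff₀ (by linarith) (by norm_num)]
      nlinarith
    obtain ⟨J₁, _, hJ₁⟩ := weyl_lim (f1 * f2) hdeg η hηpos
    have hev := hJ₁ ζ hζ (fun j hj _ => hr j hj)
    obtain ⟨R₁, hR₁⟩ := Filter.eventually_atTop.mp hev
    refine avg_lb _ (fun n => ((t₀ : ℂ) * ζ ^ ((f1 * f2).eval (n : ℤ))).re) t₀ ht
      (fun n => hre _ _) (fun n => ?_) ε hε (max N1 N2) (fun n hn => ?_) R₁ (fun R hR => ?_)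
    · have h4 := Complex.re_le_norm ((t₀ : ℂ) * ζ ^ ((f1 * f2).eval (n : ℤ)))
      rw [norm_mul, norm_zpow, hζ, one_zpow, mul_one, Complex.norm_real, Real.norm_eq_abs,
        abs_of_nonneg ht] at h4
      exact h4
    · obtain ⟨e1, e2, e3⟩ := hN1 n (le_trans (le_max_left _ _) hn)
      obtain ⟨g1, g2, g3⟩ := hN2 n (le_trans (le_max_right _ _) hn)
      rw [e1, g1]
      have h1 := hM _ _ e3 g3
      have h3 : ζ ^ (pv p (q' * n) * pv s (q' * n)) = ζ ^ ((f1 * f2).eval (n : ℤ)) := by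
        rw [← zpow_natCast]
        congr 1
        rw [Nat.cast_mul, e2, g2, Polynomial.eval_mul, ← hf1, ← hf2]
        push_cast
        rfl
      rw [h3] at h1
      have h4 := Complex.abs_re_le_norm
        (J (a * pv p (q' * n)) (a * pv s (q' * n)) - (t₀ : ℂ) * ζ ^ ((f1 * f2).eval (n : ℤ)))
      rw [Complex.sub_re] at h4
      have h5 := neg_abs_le
        ((J (a * pv p (q' * n)) (a * pv s (q' * n))).re -
          ((t₀ : ℂ) * ζ ^ ((f1 * f2).eval (n : ℤ))).re)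
      show ((t₀ : ℂ) * ζ ^ ((f1 * f2).eval (n : ℤ))).re - ε / 4 ≤ _
      linarith
    · have h1 := hR₁ R hR
      have h2 : (∑ n ∈ Finset.range R, ((t₀ : ℂ) * ζ ^ ((f1 * f2).eval (n : ℤ))).re) / R =
          ((t₀ : ℂ) * ((∑ n ∈ Finset.range R, ζ ^ ((f1 * f2).eval (n : ℤ))) / R)).re := by
        rw [← Complex.re_sum, ← Finset.mul_sum, ← mul_div_assoc]
        rw [← Complex.ofReal_natCast, Complex.div_ofReal_re]
      show -(ε / 4) ≤ (∑ n ∈ Finset.range R, ((t₀ : ℂ) * ζ ^ ((f1 * f2).eval (n : ℤ))).re) / R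
      rw [h2]
      have h3 := Complex.abs_re_le_norm
        ((t₀ : ℂ) * ((∑ n ∈ Finset.range R, ζ ^ ((f1 * f2).eval (n : ℤ))) / R))
      rw [norm_mul, Complex.norm_real, Real.norm_eq_abs, abs_of_nonneg ht] at h3
      have h4 := neg_abs_le
        ((t₀ : ℂ) * ((∑ n ∈ Finset.range R, ζ ^ ((f1 * f2).eval (n : ℤ))) / R)).re
      have h5 : t₀ * ‖(∑ n ∈ Finset.range R, ζ ^ ((f1 * f2).eval (n : ℤ))) / R‖ ≤ t₀ * η :=
        mul_le_mul_of_nonneg_left h1 ht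
      linarith

end Pool.Agent.Lib.MP_90b327_co.RB
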