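import Mathlib
import Pool.Agent.Lib.MP_90b327_co.RB.RDefs
import Pool.Agent.Lib.MP_90b327_co.RB.Near
import Pool.Agent.Lib.MP_90b327_co.RB.Phase

/-!
MODULE CaseTwo (25 minutes, old scale). Text (9.4), (9.5).

PROOF. `t₀ = T.t 0 ≥ T.t j > 0` (`t_le_zero`). `near3` with `ε = t₀/2` gives `M₀`; put `a = 2 * j * j' * (M₀ + 1)`.
For `q ≥ 1`: `a q ≥ M₀`, `2 j' ∣ a q`, so `(T.U (a q) 0 0).re ≥ t₀/2 > 0`; `j ∣ a`. `phase_mul` gives `ζ`.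
For `ε > 0`: `near4` and `near3` with `ε/2`: for `p, q` large `‖W (a p) 0 (a q) 0 - U (a q) 0 (a p)‖ ≤ ε/2` and
`‖U (a q) 0 (a p) - t₀ ζ^(p q)‖ = ‖(U (a q) 0 0 - t₀) ζ^(p q)‖ ≤ ε/2`.
-/

set_option autoImplicit false

namespace Pool.Agent.Lib.MP_90b327_co.RB

theorem case_two (T : Two) (j j' : ℕ) (hj1 : 1 ≤ j) (hj1' : 1 ≤ j') (hj : 0 < T.t j)
    (hj' : 0 < T.swap.t j') : ∃ a : ℕ, 1 ≤ a ∧ ∃ ζ : ℂ, ‖ζ‖ = 1 ∧ ∀ ε : ℝ, 0 < ε →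
      ∃ M : ℕ, ∀ p q : ℕ, M ≤ p → M ≤ q →
        ‖T.W (a * p) 0 (a * q) 0 - (T.t 0 : ℂ) * ζ ^ (p * q)‖ ≤ ε := by
  have ht0 : 0 < T.t 0 := lt_of_lt_of_le hj (t_le_zero T j)
  obtain ⟨M₀, hM₀⟩ := near3 T j' hj' (T.t 0 / 2) (by linarith)
  set a : ℕ := 2 * j * j' * (M₀ + 1) with ha
  have hjj : 1 ≤ j * j' := Nat.mul_pos hj1 hj1'
  have ha1 : M₀ + 1 ≤ a := by
    have h1 : 1 * (M₀ + 1) ≤ 2 * j * j' * (M₀ + 1) := by
      apply Nat.mul_le_mul_right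
      calc 1 ≤ j * j' := hjj
        _ ≤ 2 * (j * j') := by omega
        _ = 2 * j * j' := by ring
    omega
  have hja : j ∣ a := ⟨2 * j' * (M₀ + 1), by rw [ha]; ring⟩
  have h2a : 2 ∣ a := ⟨j * j' * (M₀ + 1), by rw [ha]; ring⟩
  have h2j : 2 * j' ∣ a := ⟨j * (M₀ + 1), by rw [ha]; ring⟩
  have hN : ∀ q : ℕ, 1 ≤ q → 0 < (T.U (a * q) 0 0).re := by
    intro q hq
    have h1 : M₀ ≤ a * q := by
      calc M₀ ≤ a * 1 := by omega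
        _ ≤ a * q := Nat.mul_le_mul_left a hq
    have h2 := hM₀ (a * q) h1 (Dvd.dvd.mul_right h2j q)
    have h3 := Complex.abs_re_le_norm (T.U (a * q) 0 0 - (T.t 0 : ℂ))
    rw [Complex.sub_re, Complex.ofReal_re] at h3
    have h4 := (abs_le.mp (h3.trans h2)).1
    linarith
  obtain ⟨ζ, hζ, hmul⟩ := phase_mul T j hj a hja hN
  refine ⟨a, by omega, ζ, hζ, ?_⟩
  intro ε hε
  obtain ⟨M₁, hM₁⟩ := near4 T j' hj' (ε / 2) (by linarith)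
  obtain ⟨M₂, hM₂⟩ := near3 T j' hj' (ε / 2) (by linarith)
  refine ⟨max (max M₁ M₂) 1, ?_⟩
  intro p q hp hq
  have hp1 : M₁ ≤ p := le_trans (le_trans (le_max_left _ _) (le_max_left _ _)) hp
  have hq1 : M₁ ≤ q := le_trans (le_trans (le_max_left _ _) (le_max_left _ _)) hq
  have hq2 : M₂ ≤ q := le_trans (le_trans (le_max_right _ _) (le_max_left _ _)) hq
  have hq3 : 1 ≤ q := le_trans (le_max_right _ _) hq
  have hap : p ≤ a * p := Nat.le_mul_of_pos_left p (by omega)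
  have haq : q ≤ a * q := Nat.le_mul_of_pos_left q (by omega)
  have h1 := hM₁ (a * p) (a * q) (hp1.trans hap) (hq1.trans haq) (Dvd.dvd.mul_right h2a p)
    (Dvd.dvd.mul_right h2j q)
  have h2 := hM₂ (a * q) (hq2.trans haq) (Dvd.dvd.mul_right h2j q)
  have h3 : T.W (a * p) 0 (a * q) 0 - (T.t 0 : ℂ) * ζ ^ (p * q) =
      (T.W (a * p) 0 (a * q) 0 - T.U (a * q) 0 (a * p)) +
        (T.U (a * q) 0 0 - (T.t 0 : ℂ)) * ζ ^ (p * q) := by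
    rw [hmul q hq3 p]
    ring
  rw [h3]
  calc ‖(T.W (a * p) 0 (a * q) 0 - T.U (a * q) 0 (a * p)) +
        (T.U (a * q) 0 0 - (T.t 0 : ℂ)) * ζ ^ (p * q)‖
      ≤ ‖T.W (a * p) 0 (a * q) 0 - T.U (a * q) 0 (a * p)‖ +
        ‖(T.U (a * q) 0 0 - (T.t 0 : ℂ)) * ζ ^ (p * q)‖ := norm_add_le _ _
    _ ≤ ε / 2 + ε / 2 := by
        refine add_le_add h1 ?_
        rw [norm_mul, norm_pow, hζ, one_pow, mul_one]
        exact h2
    _ = ε := by ring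

end Pool.Agent.Lib.MP_90b327_co.RB
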