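import Mathlib
import Pool.Agent.Lib.MP_90b327_co.RB.RDefs
import Pool.Agent.Lib.MP_90b327_co.RB.CaseTwo
import Pool.Agent.Lib.MP_90b327_co.RB.AvgOne
import Pool.Agent.Lib.MP_90b327_co.RB.AvgTwo

/-!
MODULE TwoAvg (25 minutes, old scale). Text: conclusion of level two.

PROOF. (i) If `T.t j = 0` for all `j ≥ 1`: `q₀ = 1`, `avg_one T`, and `|avg Re J| ≤ avg ‖J‖ ≤
(avg ‖J‖²)^(1/2) → 0` (Cauchy-Schwarz). (ii) If `T.swap.t j = 0` for all `j ≥ 1`: the same with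
`avg_one T.swap` for the pair `Q, P` (`T.swap.W b 0 l 0 = T.W l 0 b 0` by definition). (iii) Otherwise there
are `j, j' ≥ 1` with `T.t j ≠ 0`, `T.swap.t j' ≠ 0`, so positive (`t_nonneg`); `case_two` and `avg_two` with
`J b l = T.W b 0 l 0` (`‖J‖ ≤ 1`: `mom` with `x = ∅`, `q = 0`).
-/

set_option autoImplicit false

namespace Pool.Agent.Lib.MP_90b327_co.RB

open Filter Topology MeasureTheory Polynomial

private theorem TwoAvg_aux (J : ℕ → ℂ)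
    (h : Tendsto (fun R : ℕ => (∑ n ∈ Finset.range R, ‖J n‖ ^ 2) / R) atTop (𝓝 (0 : ℝ))) :
    ∀ ε : ℝ, 0 < ε → ∃ R₀ : ℕ, ∀ R, R₀ ≤ R → -ε ≤ (∑ n ∈ Finset.range R, (J n).re) / R := by
  intro ε hε
  have h1 : ∀ᶠ R : ℕ in atTop, (∑ n ∈ Finset.range R, ‖J n‖ ^ 2) / (R : ℝ) < ε ^ 2 :=
    h.eventually_lt_const (by positivity)
  obtain ⟨R₀, hR₀⟩ := Filter.eventually_atTop.mp h1
  refine ⟨R₀ + 1, fun R hR => ?_⟩
  have h2 := hR₀ R (by omega)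
  have hR0 : (0 : ℝ) < R := by exact_mod_cast (by omega : 0 < R)
  rw [div_lt_iff₀ hR0] at h2
  rw [le_div_iff₀ hR0]
  have h3 : ∀ n ∈ Finset.range R, -(ε / 2 + ‖J n‖ ^ 2 / (2 * ε)) ≤ (J n).re := by
    intro n _
    have h4 : -‖J n‖ ≤ (J n).re := (abs_le.mp (Complex.abs_re_le_norm (J n))).1
    have h5 : ‖J n‖ ≤ ε / 2 + ‖J n‖ ^ 2 / (2 * ε) := by
      have h6 : ε / 2 + ‖J n‖ ^ 2 / (2 * ε) - ‖J n‖ = (‖J n‖ - ε) ^ 2 / (2 * ε) := by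
        field_simp
        ring
      have h7 : 0 ≤ (‖J n‖ - ε) ^ 2 / (2 * ε) := by positivity
      linarith
    linarith
  have h6 := Finset.sum_le_sum h3
  rw [Finset.sum_neg_distrib, Finset.sum_add_distrib, Finset.sum_const, Finset.card_range,
    nsmul_eq_mul, ← Finset.sum_div] at h6
  have h7 : (∑ n ∈ Finset.range R, ‖J n‖ ^ 2) / (2 * ε) ≤ (ε ^ 2 * R) / (2 * ε) := by gcongr
  have h8 : (ε ^ 2 * R) / (2 * ε) = ε / 2 * R := by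
    field_simp
  rw [h8] at h7
  linarith

private theorem TwoAvg_norm (T : Two) (b l : ℕ) : ‖T.W b 0 l 0‖ ≤ 1 := by
  have h := T.mom ∅ (Finset.range l) (Finset.disjoint_empty_left _) b 0
  rw [Finset.card_range, Finset.card_empty] at h
  rw [← h]
  have h2 := norm_integral_le_of_norm_le_const (μ := T.r.P) (C := 1)
    (f := fun ω => T.r.z ∅ (Finset.range l) ω ^ b * T.r.z (Finset.range l) ∅ ω ^ 0)
    (Filter.Eventually.of_forall fun ω => by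
      rw [pow_zero, mul_one, norm_pow]
      exact pow_le_one₀ (norm_nonneg _) (T.r.norm_le _ _ _))
  simpa using h2

theorem two_avg (T : Two) (P Q : ℤ[X]) (hP0 : P.eval 0 = 0) (hP : 0 < P.leadingCoeff)
    (hQ0 : Q.eval 0 = 0) (hQ : 0 < Q.leadingCoeff) : ∃ q₀ : ℕ, 1 ≤ q₀ ∧ ∀ q : ℕ, 1 ≤ q → q₀ ∣ q →
      ∀ ε : ℝ, 0 < ε → ∃ R₀ : ℕ, ∀ R, R₀ ≤ R →
        -ε ≤ (∑ n ∈ Finset.range R, (T.W (pv P (q * n)) 0 (pv Q (q * n)) 0).re) / R := by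
  by_cases h1 : ∀ j, 1 ≤ j → T.t j = 0
  · exact ⟨1, le_rfl, fun q hq _ => TwoAvg_aux _ (avg_one T h1 P Q hP0 hP hQ0 hQ q hq)⟩
  by_cases h2 : ∀ j, 1 ≤ j → T.swap.t j = 0
  · exact ⟨1, le_rfl, fun q hq _ => TwoAvg_aux (fun n => T.W (pv P (q * n)) 0 (pv Q (q * n)) 0)
      (avg_one T.swap h2 Q P hQ0 hQ hP0 hP q hq)⟩
  push Not at h1 h2
  obtain ⟨j, hj1, hj⟩ := h1
  obtain ⟨j', hj1', hj'⟩ := h2
  obtain ⟨a, ha, ζ, hζ, h⟩ := case_two T j j' hj1 hj1'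
    (lt_of_le_of_ne (t_nonneg T j) (Ne.symm hj)) (lt_of_le_of_ne (t_nonneg T.swap j') (Ne.symm hj'))
  exact avg_two (fun b l => T.W b 0 l 0) (TwoAvg_norm T) a ha ζ hζ (T.t 0) (t_nonneg T 0) h P Q
    hP0 hP hQ0 hQ

end Pool.Agent.Lib.MP_90b327_co.RB
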