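import Mathlib
import Pool.Agent.Lib.MP_90b327_co.RB.RDefs
import Pool.Agent.Lib.MP_90b327_co.RB.RLimit
import Pool.Agent.Lib.MP_90b327_co.RB.GGb
import Pool.Agent.Lib.MP_90b327_co.RB.LevelOne
import Pool.Agent.Lib.MP_90b327_co.RB.ToTwoC
import Pool.Agent.Lib.MP_90b327_co.RB.TwoAvg
import Pool.Agent.Lib.MP_90b327_co.RB.Fatou
import Pool.Agent.Lib.MP_90b327_co.RB.Poly
import Pool.Agent.Lib.MP_90b327_co.RB.RepA

/-!
MODULE TwoDim (40 minutes, old scale). Assembly of the two-dimensional theorem (text section 10).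

PROOF. By contradiction: for every `N` there is `S` with more than `δ 2^(N^2)` elements, not
`GoodR (SgP P Q) N`. `exists_rlim` with `δ₀ = δ`: `D ≥ δ > 0` and `L : RLim (SgP P Q) D`. `exists_pker`: `g`.
`pv_eq` for `P`, `Q`: `n₀ ≥ 1` with `SgP P Q (pv P n) (pv Q n)` for all `n ≥ n₀`. `level_one`: `D < 1`,
`ρ : Repr m1 R1 k`, `k X Y = (g X Y - D²)/(D - D²)`. Put `J n ω = (ρ.th ω ∅ (range (pv P n) ×ˢ range (pv Q n))).re`:
measurable, `|J| ≤ 1` (`ker_norm_le`). For `n ≥ n₀`: `∫ J n = Re (k ∅ (box)) = (0 - D²)/(D - D²) =: -c`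
(`g.bad` with `X = ∅`: `g ∅ (∅ ∪ box) = 0`; `integral_re`, integrable since bounded). For every `ω`:
`Chr (ρ.th ω)`, `exists_two` gives `T`, `two_avg T` is the hypothesis of `fatou_contra`.
-/

set_option autoImplicit false

namespace Pool.Agent.Lib.MP_90b327_co.RB

open Filter Topology MeasureTheory Polynomial

theorem two_dim (P Q : ℤ[X]) (hP0 : P.eval 0 = 0) (hP : 0 < P.leadingCoeff)
    (hQ0 : Q.eval 0 = 0) (hQ : 0 < Q.leadingCoeff) (δ : ℝ) (hδ : 0 < δ) :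
    ∃ N : ℕ, ∀ S : Finset (Finset (Fin 2 → Fin N)), δ * 2 ^ (N ^ 2) < (S.card : ℝ) →
      GoodR (SgP P Q) N S := by
  by_contra hcon
  push Not at hcon
  obtain ⟨D, hD, ⟨L⟩⟩ := exists_rlim (SgP P Q) δ (fun N => by
    obtain ⟨S, h1, h2⟩ := hcon N
    exact ⟨S, h1, h2⟩)
  obtain ⟨g, hg⟩ := exists_pker L
  have hD0 : 0 < D := lt_of_lt_of_le hδ hD
  obtain ⟨nP, hnP⟩ := pv_eq P hP0 hP
  obtain ⟨nQ, hnQ⟩ := pv_eq Q hQ0 hQ
  obtain ⟨n₀, hn₀⟩ : ∃ n₀ : ℕ, n₀ = max (max nP nQ) 1 := ⟨_, rfl⟩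
  have hsg : ∀ n, n₀ ≤ n → SgP P Q (pv P n) (pv Q n) := by
    intro n hn
    have h1 : nP ≤ n := by
      refine le_trans ?_ hn
      rw [hn₀]
      exact (le_max_left _ _).trans (le_max_left _ _)
    have h2 : nQ ≤ n := by
      refine le_trans ?_ hn
      rw [hn₀]
      exact (le_max_right _ _).trans (le_max_left _ _)
    have h3 : 1 ≤ n := by
      refine le_trans ?_ hn
      rw [hn₀]
      exact le_max_right _ _
    exact ⟨n, h3, (hnP n h1).1, (hnQ n h2).1, (hnP n h1).2, (hnQ n h2).2⟩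
  obtain ⟨hD1, ⟨ρ⟩⟩ := level_one hg hD0 _ _ (hsg n₀ le_rfl)
  obtain ⟨c, hc⟩ : ∃ c : ℝ, c = D ^ 2 / (D - D ^ 2) := ⟨_, rfl⟩
  have hden : 0 < D - D ^ 2 := by nlinarith
  have hc0 : 0 < c := by rw [hc]; positivity
  obtain ⟨Bx, hBx⟩ : ∃ Bx : ℕ → Pt, Bx = fun n => Finset.range (pv P n) ×ˢ
    Finset.range (pv Q n) := ⟨_, rfl⟩
  refine fatou_contra ρ.P (fun n ω => (ρ.th ω ∅ (Bx n)).re) ?_ ?_ c hc0 n₀ ?_ ?_
  · exact fun n => Complex.measurable_re.comp (ρ.meas ∅ (Bx n))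
  · exact fun n ω => (Complex.abs_re_le_norm _).trans (ker_norm_le (ρ.ker ω) _ _)
  · intro n hn
    have hint : Integrable (fun ω => ρ.th ω ∅ (Bx n)) ρ.P :=
      Integrable.of_bound (ρ.meas ∅ (Bx n)).aestronglyMeasurable 1
        (Filter.Eventually.of_forall fun ω => ker_norm_le (ρ.ker ω) _ _)
    have h1 : ∫ ω, (ρ.th ω ∅ (Bx n)).re ∂ρ.P = (∫ ω, ρ.th ω ∅ (Bx n) ∂ρ.P).re := integral_re hint
    have h2 := ρ.mean ∅ (Bx n)
    have h3 : g ∅ (Bx n) = 0 := by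
      have h4 := hg.bad ∅ (Finset.range (pv P n)) (Finset.range (pv Q n)) (by
        rw [Finset.card_range, Finset.card_range]
        exact hsg n hn) (Finset.disjoint_empty_left _)
      rw [Finset.empty_union] at h4
      rw [hBx]
      exact h4
    show ∫ ω, (ρ.th ω ∅ (Bx n)).re ∂ρ.P = -c
    rw [h1, ← h2, Complex.ofReal_re, h3, hc]
    ring
  · intro ω
    obtain ⟨T, hT⟩ := exists_two (⟨ρ.ker ω, ρ.mul ω⟩ : Chr (ρ.th ω))
    obtain ⟨q₀, hq₀, h⟩ := two_avg T P Q hP0 hP hQ0 hQ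
    refine ⟨q₀, hq₀, fun q hq hqq ε hε => ?_⟩
    obtain ⟨R₀, hR₀⟩ := h q hq hqq ε hε
    refine ⟨R₀, fun R hR => ?_⟩
    have h5 := hR₀ R hR
    have h6 : ∀ n, (T.W (pv P (q * n)) 0 (pv Q (q * n)) 0).re = (ρ.th ω ∅ (Bx (q * n))).re := by
      intro n
      rw [hT, hBx]
    simp only [h6] at h5
    exact h5

end Pool.Agent.Lib.MP_90b327_co.RB
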