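import Mathlib
import Pool.Agent.Lib.MP_90b327_co.RB.RDefs
import Pool.Agent.Lib.MP_90b327_co.RB.TwoDim
import Pool.Agent.Lib.MP_90b327_co.RB.Fiber

/-!
MODULE Final (40 minutes, old scale). Final statements.

`boxes`: `two_dim` and `fiber`; the sizes are at least one, so `γ`, `Γ` are non-empty.
`inv`: `boxes` with `P = X`, `Q = X ^ d` gives `A ∈ S`, `γ`, `Γ` with `Γ.card = γ.card ^ d`. Choose a
permutation `e` of `Fin d → Fin N` with `Γ.image e = Fintype.piFinset (fun _ => γ)` (same cardinality;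
`Finset.exists_equiv...` or `Equiv.extendSubtype`). `mv e A := A.image (fun x => Fin.cons (x 0)
(e (fun i => x i.succ)))`: by assumption `mv e A ∈ S` and `mv e (A ∪ box γ Γ) ∈ S`; `mv e` is injective on
cells, `mv e (box γ Γ) = Fintype.piFinset (fun _ : Fin (d+1) => γ)`.
-/

set_option autoImplicit false

namespace Pool.Agent.Lib.MP_90b327_co.RB

open Polynomial

theorem boxes (d : ℕ) (hd : 1 ≤ d) (P Q : ℤ[X]) (hP0 : P.eval 0 = 0) (hP : 0 < P.leadingCoeff)
    (hQ0 : Q.eval 0 = 0) (hQ : 0 < Q.leadingCoeff) (δ : ℝ) (hδ : 0 < δ) :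
    ∃ N₀ : ℕ, ∀ N, N₀ ≤ N → ∀ S : Finset (Finset (Fin (d + 1) → Fin N)),
      δ * 2 ^ (N ^ (d + 1)) < (S.card : ℝ) →
      ∃ A ∈ S, ∃ (γ : Finset (Fin N)) (Γ : Finset (Fin d → Fin N)) (n : ℕ),
        γ.Nonempty ∧ Γ.Nonempty ∧ 1 ≤ n ∧ (γ.card : ℤ) = P.eval (n : ℤ) ∧
        (Γ.card : ℤ) = Q.eval (n : ℤ) ∧ Disjoint A (box γ Γ) ∧ A ∪ box γ Γ ∈ S := by
  obtain ⟨N₀, h⟩ := two_dim P Q hP0 hP hQ0 hQ δ hδ
  refine ⟨N₀, fun N hN S hS => ?_⟩
  obtain ⟨A, hA, γ, Γ, ⟨n, hn, h1, h2, h3, h4⟩, h5, h6⟩ := fiber d hd (SgP P Q) δ hδ N₀ h N hN S hS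
  exact ⟨A, hA, γ, Γ, n, Finset.card_pos.mp (by omega), Finset.card_pos.mp (by omega), hn, h1, h2,
    h5, h6⟩

/-- action of a permutation of the cells of the last `d` coordinates -/
def mv {d N : ℕ} (e : Equiv.Perm (Fin d → Fin N)) (A : Finset (Fin (d + 1) → Fin N)) :
    Finset (Fin (d + 1) → Fin N) :=
  A.image (fun x => (Fin.cons (x 0) (e (fun i : Fin d => x i.succ)) : Fin (d + 1) → Fin N))

theorem inv (d : ℕ) (hd : 1 ≤ d) (δ : ℝ) (hδ : 0 < δ) :
    ∃ N₀ : ℕ, ∀ N, N₀ ≤ N → ∀ S : Finset (Finset (Fin (d + 1) → Fin N)),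
      δ * 2 ^ (N ^ (d + 1)) < (S.card : ℝ) →
      (∀ e : Equiv.Perm (Fin d → Fin N), ∀ A ∈ S, mv e A ∈ S) →
      ∃ A ∈ S, ∃ γ : Finset (Fin N), γ.Nonempty ∧
        Disjoint A (Fintype.piFinset (fun _ : Fin (d + 1) => γ)) ∧
        A ∪ Fintype.piFinset (fun _ : Fin (d + 1) => γ) ∈ S := by
  classical
  obtain ⟨N₀, h⟩ := boxes d hd X (X ^ d) (by simp) (by simp) (by
    rw [Polynomial.eval_pow, Polynomial.eval_X, zero_pow (by omega)]) (by
    rw [Polynomial.leadingCoeff_X_pow]; exact zero_lt_one) δ hδ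
  refine ⟨N₀, fun N hN S hS hinv => ?_⟩
  obtain ⟨A, hA, γ, Γ, n, hγ, _, hn, h1, h2, h5, h6⟩ := h N hN S hS
  rw [Polynomial.eval_X] at h1
  rw [Polynomial.eval_pow, Polynomial.eval_X] at h2
  have hcard : Γ.card = (Fintype.piFinset (fun _ : Fin d => γ)).card := by
    rw [Fintype.card_piFinset_const]
    have h3 : (Γ.card : ℤ) = (γ.card : ℤ) ^ d := by rw [h2, h1]
    have h4 : γ.card ^ Fintype.card (Fin d) = γ.card ^ d := by rw [Fintype.card_fin]
    first
      | exact_mod_cast h3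
      | (rw [h4]; exact_mod_cast h3)
  let e0 : {x // x ∈ Γ} ≃ {x // x ∈ Fintype.piFinset (fun _ : Fin d => γ)} :=
    Finset.equivOfCardEq hcard
  let e : Equiv.Perm (Fin d → Fin N) := e0.extendSubtype
  have he1 : ∀ x ∈ Γ, e x ∈ Fintype.piFinset (fun _ : Fin d => γ) := fun x hx =>
    e0.extendSubtype_mem x hx
  have he2 : ∀ x, x ∉ Γ → e x ∉ Fintype.piFinset (fun _ : Fin d => γ) := fun x hx =>
    e0.extendSubtype_not_mem x hx
  let ψ : (Fin (d + 1) → Fin N) → (Fin (d + 1) → Fin N) :=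
    fun x => (Fin.cons (x 0) (e (fun i : Fin d => x i.succ)) : Fin (d + 1) → Fin N)
  have hψ : Function.Injective ψ := by
    intro x y hxy
    have h7 : x 0 = y 0 := by
      have := congrFun hxy 0
      simpa [ψ] using this
    have h9 : e (fun i : Fin d => x i.succ) = e (fun i : Fin d => y i.succ) := by
      funext i
      have := congrFun hxy i.succ
      simpa [ψ] using this
    have h8 := e.injective h9
    funext i
    refine Fin.cases ?_ (fun i => ?_) i
    · exact h7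
    · exact congrFun h8 i
  have hbox : mv e (box γ Γ) = Fintype.piFinset (fun _ : Fin (d + 1) => γ) := by
    ext y
    constructor
    · intro hy
      obtain ⟨x, hx, rfl⟩ := Finset.mem_image.mp hy
      obtain ⟨_, h7, h8⟩ := Finset.mem_filter.mp hx
      have h9 := Fintype.mem_piFinset.mp (he1 _ h8)
      refine Fintype.mem_piFinset.mpr fun i => ?_
      refine Fin.cases ?_ (fun i => ?_) i
      · rw [Fin.cons_zero]; exact h7
      · rw [Fin.cons_succ]; exact h9 i
    · intro hy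
      have hy' := Fintype.mem_piFinset.mp hy
      refine Finset.mem_image.mpr ⟨(Fin.cons (y 0) (e.symm (fun i : Fin d => y i.succ)) :
        Fin (d + 1) → Fin N), ?_, ?_⟩
      · refine Finset.mem_filter.mpr ⟨Finset.mem_univ _, ?_, ?_⟩
        · rw [Fin.cons_zero]; exact hy' 0
        · by_contra hcon
          have h7 := he2 _ hcon
          apply h7
          have h8 : (fun i : Fin d => (Fin.cons (y 0) (e.symm (fun i : Fin d => y i.succ)) :
              Fin (d + 1) → Fin N) i.succ) = e.symm (fun i : Fin d => y i.succ) := by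
            funext i
            rw [Fin.cons_succ]
          rw [h8, Equiv.apply_symm_apply]
          exact Fintype.mem_piFinset.mpr fun i => hy' i.succ
      · have h8 : (fun i : Fin d => (Fin.cons (y 0) (e.symm (fun i : Fin d => y i.succ)) :
              Fin (d + 1) → Fin N) i.succ) = e.symm (fun i : Fin d => y i.succ) := by
          funext i
          rw [Fin.cons_succ]
        beta_reduce
        rw [h8, Equiv.apply_symm_apply, Fin.cons_zero]
        funext i
        refine Fin.cases ?_ (fun i => ?_) i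
        · rw [Fin.cons_zero]
        · rw [Fin.cons_succ]
  refine ⟨mv e A, hinv e A hA, γ, hγ, ?_, ?_⟩
  · rw [← hbox]
    exact (Finset.disjoint_image hψ).mpr h5
  · rw [← hbox]
    have h7 : mv e A ∪ mv e (box γ Γ) = mv e (A ∪ box γ Γ) := by
      unfold mv
      rw [Finset.image_union]
    rw [h7]
    exact hinv e _ h6

/-- `mv e` sends the box `γ × Γ` to the box `γ × e(Γ)`. -/
private theorem mv_box {d N : ℕ} (e : Equiv.Perm (Fin d → Fin N)) (γ : Finset (Fin N))
    (Γ Δ : Finset (Fin d → Fin N)) (he1 : ∀ x ∈ Γ, e x ∈ Δ) (he2 : ∀ x, x ∉ Γ → e x ∉ Δ) :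
    mv e (box γ Γ) = box γ Δ := by
  classical
  ext y
  constructor
  · intro hy
    obtain ⟨x, hx, rfl⟩ := Finset.mem_image.mp hy
    obtain ⟨_, h7, h8⟩ := Finset.mem_filter.mp hx
    refine Finset.mem_filter.mpr ⟨Finset.mem_univ _, ?_, ?_⟩
    · rw [Fin.cons_zero]; exact h7
    · have h9 := he1 _ h8
      have h10 : (fun i : Fin d => (Fin.cons (x 0) (e (fun i : Fin d => x i.succ)) :
          Fin (d + 1) → Fin N) i.succ) = e (fun i : Fin d => x i.succ) := by
        funext i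
        rw [Fin.cons_succ]
      rw [h10]
      exact h9
  · intro hy
    obtain ⟨_, h7, h8⟩ := Finset.mem_filter.mp hy
    refine Finset.mem_image.mpr ⟨(Fin.cons (y 0) (e.symm (fun i : Fin d => y i.succ)) :
      Fin (d + 1) → Fin N), ?_, ?_⟩
    · refine Finset.mem_filter.mpr ⟨Finset.mem_univ _, ?_, ?_⟩
      · rw [Fin.cons_zero]; exact h7
      · have h10 : (fun i : Fin d => (Fin.cons (y 0) (e.symm (fun i : Fin d => y i.succ)) :
            Fin (d + 1) → Fin N) i.succ) = e.symm (fun i : Fin d => y i.succ) := by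
          funext i
          rw [Fin.cons_succ]
        rw [h10]
        by_contra hcon
        have h11 := he2 _ hcon
        rw [Equiv.apply_symm_apply] at h11
        exact h11 h8
    · have h10 : (fun i : Fin d => (Fin.cons (y 0) (e.symm (fun i : Fin d => y i.succ)) :
            Fin (d + 1) → Fin N) i.succ) = e.symm (fun i : Fin d => y i.succ) := by
        funext i
        rw [Fin.cons_succ]
      beta_reduce
      rw [h10, Equiv.apply_symm_apply, Fin.cons_zero]
      funext i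
      refine Fin.cases ?_ (fun i => ?_) i
      · rw [Fin.cons_zero]
      · rw [Fin.cons_succ]

theorem boxes_all (d : ℕ) (hd : 1 ≤ d) (P Q : ℤ[X]) (hP0 : P.eval 0 = 0)
    (hP : 0 < P.leadingCoeff) (hQ0 : Q.eval 0 = 0) (hQ : 0 < Q.leadingCoeff) (δ : ℝ)
    (hδ : 0 < δ) :
    ∃ N₀ : ℕ, ∀ N, N₀ ≤ N → ∀ S : Finset (Finset (Fin (d + 1) → Fin N)),
      δ * 2 ^ (N ^ (d + 1)) < (S.card : ℝ) →
      ∃ (n : ℕ) (γ : Finset (Fin N)) (Γ : Finset (Fin d → Fin N)),
        1 ≤ n ∧ γ.Nonempty ∧ Γ.Nonempty ∧ (γ.card : ℤ) = P.eval (n : ℤ) ∧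
        (Γ.card : ℤ) = Q.eval (n : ℤ) ∧
        ∀ Δ : Finset (Fin d → Fin N), (Δ = Γ ∨ Δ.card = Γ.card ∧
            ∀ e : Equiv.Perm (Fin d → Fin N), ∀ A ∈ S, mv e A ∈ S) →
          ∃ A ∈ S, Disjoint A (box γ Δ) ∧ A ∪ box γ Δ ∈ S := by
  classical
  obtain ⟨N₀, h⟩ := boxes d hd P Q hP0 hP hQ0 hQ δ hδ
  refine ⟨N₀, fun N hN S hS => ?_⟩
  obtain ⟨A, hA, γ, Γ, n, hγ, hΓ, hn, h1, h2, h5, h6⟩ := h N hN S hS
  refine ⟨n, γ, Γ, hn, hγ, hΓ, h1, h2, ?_⟩
  rintro Δ (rfl | ⟨hcard, hinv⟩)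
  · exact ⟨A, hA, h5, h6⟩
  let e0 : {x // x ∈ Γ} ≃ {x // x ∈ Δ} := Finset.equivOfCardEq hcard.symm
  let e : Equiv.Perm (Fin d → Fin N) := e0.extendSubtype
  have he1 : ∀ x ∈ Γ, e x ∈ Δ := fun x hx => e0.extendSubtype_mem x hx
  have he2 : ∀ x, x ∉ Γ → e x ∉ Δ := fun x hx => e0.extendSubtype_not_mem x hx
  have hψ : Function.Injective (fun x : Fin (d + 1) → Fin N =>
      (Fin.cons (x 0) (e (fun i : Fin d => x i.succ)) : Fin (d + 1) → Fin N)) := by
    intro x y hxy
    have h7 : x 0 = y 0 := by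
      have := congrFun hxy 0
      simpa using this
    have h9 : e (fun i : Fin d => x i.succ) = e (fun i : Fin d => y i.succ) := by
      funext i
      have := congrFun hxy i.succ
      simpa using this
    have h8 := e.injective h9
    funext i
    refine Fin.cases ?_ (fun i => ?_) i
    · exact h7
    · exact congrFun h8 i
  have hbox : mv e (box γ Γ) = box γ Δ := mv_box e γ Γ Δ he1 he2
  refine ⟨mv e A, hinv e A hA, ?_, ?_⟩
  · rw [← hbox]
    exact (Finset.disjoint_image hψ).mpr h5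
  · rw [← hbox]
    have h7 : mv e A ∪ mv e (box γ Γ) = mv e (A ∪ box γ Γ) := by
      unfold mv
      rw [Finset.image_union]
    rw [h7]
    exact hinv e _ h6

end Pool.Agent.Lib.MP_90b327_co.RB
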